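import Pool.Agent.Work.MP_d41d5f_lc.ED.BDefs

/-!
Arrays: families of edge sets. (Definitions, FIXED.)
-/

set_option autoImplicit false

namespace Pool.Agent.Work.MP_d41d5f_lc

/-- The first vertex of the pair (`true`: first pair, `false`: second pair). -/
def src (b : Bool) : Vx := if b then [0] else [2]

/-- The second vertex of the pair. -/
def tgt (b : Bool) : Vx := if b then [1] else [3]

/-- The edge `d` has exactly one end in `A`. -/
def crosses (P : Prm) (A : Set Vx) (d : Ed) : Prop := ¬ ((P.ends d).1 ∈ A ↔ (P.ends d).2 ∈ A)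

open Classical in
/-- A family of pairwise disjoint edge sets with the parities of terminal paths. -/
structure IsFam (P : Prm) (N : ℕ) (ty : Fin N → Bool) (F : Fin N → Finset Ed) : Prop where
  ok : ∀ a, ∀ d ∈ F a, P.ok d
  disj : ∀ a b d, d ∈ F a → d ∈ F b → a = b
  par : ∀ a (A : Set Vx), ((F a).filter (fun d => crosses P A d)).card % 2 =
    if (src (ty a) ∈ A ↔ tgt (ty a) ∈ A) then 0 else 1

/-- Links of the first kind in position `i`. -/
def isP (i : ℕ) : Ed → Bool
  | .p i' _ _ => decide (i' = i)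
  | _ => false

/-- Links of the second kind in position `j`. -/
def isQ (j : ℕ) : Ed → Bool
  | .q _ j' _ => decide (j' = j)
  | _ => false

/-- Links of the first kind in position `i` of line `j`. -/
def isPj (i j : ℕ) : Ed → Bool
  | .p i' j' _ => decide (i' = i) && decide (j' = j)
  | _ => false

/-- Links of the second kind in position `j` of line `i`. -/
def isQi (i j : ℕ) : Ed → Bool
  | .q i' j' _ => decide (i' = i) && decide (j' = j)
  | _ => false

/-- Numbers of links. -/
def nP (F : Finset Ed) (i : ℕ) : ℕ := (F.filter fun d => isP i d = true).card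
def nQ (F : Finset Ed) (j : ℕ) : ℕ := (F.filter fun d => isQ j d = true).card
def nPj (F : Finset Ed) (i j : ℕ) : ℕ := (F.filter fun d => isPj i j d = true).card
def nQi (F : Finset Ed) (i j : ℕ) : ℕ := (F.filter fun d => isQi i j d = true).card

/-- Clean members: they do not use the terminals of the other pair. -/
def cleanP (P : Prm) (b : Bool) (F : Finset Ed) : Prop := b = true ∧ nQ F 0 = 0 ∧ nQ F P.R = 0
def cleanQ (P : Prm) (b : Bool) (F : Finset Ed) : Prop := b = false ∧ nP F 0 = 0 ∧ nP F P.R = 0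

/-- Good links: used by a clean member of the right kind that crosses the cut only once. -/
def goodP (P : Prm) {N : ℕ} (ty : Fin N → Bool) (F : Fin N → Finset Ed) (i j α : ℕ) : Prop :=
  ∃ a, cleanP P (ty a) (F a) ∧ nP (F a) i = 1 ∧ Ed.p i j α ∈ F a
def goodQ (P : Prm) {N : ℕ} (ty : Fin N → Bool) (F : Fin N → Finset Ed) (i j β : ℕ) : Prop :=
  ∃ a, cleanQ P (ty a) (F a) ∧ nQ (F a) j = 1 ∧ Ed.q i j β ∈ F a

/-- The trace of an edge set in the block `(i, j)`: horizontal edges. -/
def hzF (P : Prm) (i j : ℕ) (F : Finset Ed) (x y : ℕ) : Bool :=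
  if x = 0 then
    decide (y < P.m ∧ Ed.p i j y ∈ F) ||
      decide (P.H - P.B ≤ y ∧ y < P.H ∧ Ed.q i j (y - (P.H - P.B)) ∈ F)
  else if x = P.W then
    decide (P.H - P.m ≤ y ∧ y < P.H ∧ Ed.p (i + 1) j (y - (P.H - P.m)) ∈ F) ||
      decide (y < P.B ∧ Ed.q i (j + 1) y ∈ F)
  else decide (Ed.h i j (x - 1) y ∈ F)

/-- The trace of an edge set in the block `(i, j)`: vertical edges. -/
def vtF (i j : ℕ) (F : Finset Ed) (x y : ℕ) : Bool := decide (Ed.v i j x y ∈ F)

/-- The edges of the strand `α` of the first kind in line `j`, for a weave `h` of the block. -/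
def gP (P : Prm) (h : ℕ → (Fin P.m ⊕ Fin P.B) → ℕ) (j : Fin P.R) (α : Fin P.m) : Set Ed :=
  {d | P.ok d ∧ match d with
    | .h _ j' x y => j' = j ∧ h (x + 1) (.inl α) = y
    | .v _ j' x y => j' = j ∧ Btw (h x (.inl α)) (h (x + 1) (.inl α)) y
    | .p _ j' α' => j' = j ∧ α' = α
    | .q _ _ _ => False}

/-- The edges of the strand `β` of the second kind in line `i`, for a weave `h` of the block. -/
def gQ (P : Prm) (h : ℕ → (Fin P.m ⊕ Fin P.B) → ℕ) (i : Fin P.R) (β : Fin P.B) : Set Ed :=
  {d | P.ok d ∧ match d with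
    | .h i' _ x y => i' = i ∧ h (x + 1) (.inr β) = y
    | .v i' _ x y => i' = i ∧ Btw (h x (.inr β)) (h (x + 1) (.inr β)) y
    | .q i' _ β' => i' = i ∧ β' = β
    | .p _ _ _ => False}

/-- The set of the unordered pairs of ends. -/
def eset (P : Prm) (D : Set Ed) : Set (Sym2 Vx) := {e | ∃ d ∈ D, e = s((P.ends d).1, (P.ends d).2)}

end Pool.Agent.Work.MP_d41d5f_lc
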