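import Mathlib

/-!
AbsC (S-M): counting in a cut.

Let `E` be a finite set (the links of a cut), `C` a finite set of members, `F a` (for `a ∈ C`)
pairwise disjoint subsets of `E` of odd size, and `|E| ≤ |C| + r`. Then
`2 * #{e ∈ E | e is in no F a with |F a| = 1, a ∈ C} ≤ 3 r`.
Proof. Let `c₁` be the number of `a ∈ C` with `|F a| = 1`, `c₃` the number of the others; those have
`|F a| ≥ 3`. Disjointness: `c₁ + 3 c₃ ≤ |E|` (the union of the `F a` is a subset of `E`), and
`|E| ≤ c₁ + c₃ + r`; so `2 c₃ ≤ r`. The number of `e` in the union of the `F a` with `|F a| = 1` is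
`c₁`, so the number in question is `|E| - c₁ ≤ c₃ + r`, and twice this is at most `3 r`.
-/

set_option autoImplicit false

namespace Pool.Agent.Work.MP_d41d5f_lc

theorem abs_cut {ε ι : Type} [DecidableEq ε] (E : Finset ε) (C : Finset ι) (F : ι → Finset ε)
    (r : ℕ) (hF : ∀ a ∈ C, F a ⊆ E) (hd : ∀ a ∈ C, ∀ b ∈ C, ∀ e, e ∈ F a → e ∈ F b → a = b)
    (ho : ∀ a ∈ C, (F a).card % 2 = 1) (hr : E.card ≤ C.card + r) :
    2 * (E.filter fun e => ∀ a ∈ C, (F a).card = 1 → e ∉ F a).card ≤ 3 * r := by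
  classical
  have hdis : ∀ a ∈ C, ∀ b ∈ C, a ≠ b → Disjoint (F a) (F b) := by
    intro a ha b hb hab
    rw [Finset.disjoint_left]
    intro e hea heb
    exact hab (hd a ha b hb e hea heb)
  obtain ⟨C1, hC1⟩ : ∃ C1, C1 = C.filter fun a => (F a).card = 1 := ⟨_, rfl⟩
  obtain ⟨C3, hC3⟩ : ∃ C3, C3 = C.filter fun a => ¬ (F a).card = 1 := ⟨_, rfl⟩
  have hc : C1.card + C3.card = C.card := by
    rw [hC1, hC3]
    exact Finset.card_filter_add_card_filter_not _
  have hU : (C.biUnion F).card = ∑ a ∈ C, (F a).card := Finset.card_biUnion hdis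
  have hUE : (C.biUnion F).card ≤ E.card := Finset.card_le_card (Finset.biUnion_subset.2 hF)
  have h1 : ∑ a ∈ C1, (F a).card = C1.card := by
    rw [Finset.card_eq_sum_ones]
    exact Finset.sum_congr rfl (fun a ha => by rw [hC1] at ha; exact (Finset.mem_filter.1 ha).2)
  have h3 : C3.card * 3 ≤ ∑ a ∈ C3, (F a).card := by
    rw [← smul_eq_mul]
    refine Finset.card_nsmul_le_sum C3 _ 3 (fun a ha => ?_)
    rw [hC3, Finset.mem_filter] at ha
    have := ho a ha.1
    have h2 := ha.2
    omega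
  have hsum : C1.card + 3 * C3.card ≤ ∑ a ∈ C, (F a).card := by
    rw [← Finset.sum_filter_add_sum_filter_not C (fun a => (F a).card = 1), ← hC1, ← hC3]
    omega
  have hsub : C1 ⊆ C := by rw [hC1]; exact Finset.filter_subset _ _
  have hU1 : (C1.biUnion F).card = C1.card := by
    rw [Finset.card_biUnion (fun a ha b hb hab => hdis a (hsub ha) b (hsub hb) hab), h1]
  have hU1E : C1.biUnion F ⊆ E := Finset.biUnion_subset.2 (fun a ha => hF a (hsub ha))
  have hE : (E.filter fun e => ∀ a ∈ C, (F a).card = 1 → e ∉ F a) ⊆ E \ C1.biUnion F := by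
    intro e he
    rw [Finset.mem_filter] at he
    rw [Finset.mem_sdiff, Finset.mem_biUnion]
    refine ⟨he.1, ?_⟩
    rintro ⟨a, ha, hea⟩
    rw [hC1, Finset.mem_filter] at ha
    exact he.2 a ha.1 ha.2 hea
  have hle := Finset.card_le_card hE
  rw [Finset.card_sdiff_of_subset hU1E, hU1] at hle
  have hC1E : C1.card ≤ E.card := by
    rw [← hU1]
    exact Finset.card_le_card hU1E
  omega

end Pool.Agent.Work.MP_d41d5f_lc
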