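import Pool.Agent.Work.MP_d41d5f_lc.ED.XCol

/-!
IslX (M): along an island the first strand of the crossing pair does not change.

Proof. Write `ρ = P.rho`, `x j = P.col i j`, `n = P.a.getD i 0`. At the crossing column `x j` let
`s j` be the strand that passes horizontally (it is `inl (pr (x j)).1` in the first form of `Str`
and `inr (pr (x j)).2` in the second form); so `hz (s j) (x j) ρ = true` and
`hz (s j) (x j + 1) ρ = true`.
Claim `s (j+1) = s j` for `j + 1 < n`. The vertex `(x j + 1, ρ)` has no vertical edges (`col_next`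
and `IsTr.vert`), `x j + 1 < W`, `ρ < H`, so the parity condition of the trace `s j` at this vertex
gives that `hz (s j) (x j + 2) ρ = true`, and `x j + 2 = x (j+1)`. Since also
`hz (s (j+1)) (x (j+1)) ρ = true`, `dh` gives `s j = s (j+1)`.
So all `s j` equal one strand `s` (induction). If `s = inr β`, then in all columns the second form
of `Str` holds and `(pr (x j)).2 = β`; the values `pr (x j)`, `j < n`, are pairwise different
(injectivity hypothesis and `col_inj`), so the `(pr (x j)).1` are `n` different elements of
`Fin m`, so `n ≤ m`, against `m < n`. Hence `s = inl α`, all columns have the first form and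
`(pr (x j)).1 = α`.
(For the choice of the form of `Str`: if `s j = inl _` then the form is the first one; the two forms
exclude each other because of `dh`, but it is enough to define `s j` by cases.)
-/

set_option autoImplicit false

namespace Pool.Agent.Work.MP_d41d5f_lc

private theorem getD_mem : ∀ (a : List ℕ) (i : ℕ), i < a.length → a.getD i 0 ∈ a
  | [], i, h => absurd h (Nat.not_lt_zero _)
  | b :: a, 0, _ => by
    rw [List.getD_cons_zero]
    exact List.mem_cons_self
  | b :: a, i + 1, h => by
    rw [List.getD_cons_succ]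
    exact List.mem_cons_of_mem _ (getD_mem a i (by simpa using h))

private theorem no_vert {P : Prm} {h v : ℕ → ℕ → Bool} (h1 : IsTr P h v) {x y : ℕ}
    (hn : P.vert x y = false) : v x y = false := by
  by_contra hc
  rw [Bool.not_eq_false] at hc
  have := (h1.vert x y hc).2
  rw [hn] at this
  exact absurd this (by simp)

theorem island_one (P : Prm) (hg : P.Good) (hbig : ∀ x ∈ P.a, P.m < x)
    (hz vt : (Fin P.m ⊕ Fin P.B) → ℕ → ℕ → Bool) (hb : IsBR P hz vt)
    (pr : ℕ → Fin P.m × Fin P.B)
    (h1 : ∀ x < P.W, P.isX x = true → Str (hz (.inl (pr x).1)) (vt (.inl (pr x).1))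
        (hz (.inr (pr x).2)) (vt (.inr (pr x).2)) x P.rho)
    (h2 : ∀ x < P.W, ∀ x' < P.W, P.isX x = true → P.isX x' = true → pr x = pr x' → x = x')
    (i : ℕ) (hi : i < P.a.length) :
    ∃ α : Fin P.m, ∀ j < P.a.getD i 0, (pr (P.col i j)).1 = α := by
  have hmem := getD_mem P.a i hi
  have hn := hbig _ hmem
  have hρ : 1 ≤ P.rho := by
    have := hg.hm
    unfold Prm.rho
    omega
  have hρH : P.rho < P.H := by
    unfold Prm.H
    omega
  have hstep : ∀ j < P.a.getD i 0, ∃ s : Fin P.m ⊕ Fin P.B, hz s (P.col i j) P.rho = true ∧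
      hz s (P.col i j + 1) P.rho = true ∧
      (s = .inl (pr (P.col i j)).1 ∨ s = .inr (pr (P.col i j)).2) := by
    intro j hj
    obtain ⟨c1, c2⟩ := col_lt P hg i j hi hj
    rcases h1 _ c1 c2 with ⟨a1, a2, -, -⟩ | ⟨-, -, a1, a2⟩
    · exact ⟨_, a1, a2, Or.inl rfl⟩
    · exact ⟨_, a1, a2, Or.inr rfl⟩
  obtain ⟨s, hs1, hs2, hs3⟩ := hstep 0 (by omega)
  have hall : ∀ j, j < P.a.getD i 0 → hz s (P.col i j + 1) P.rho = true ∧
      (s = .inl (pr (P.col i j)).1 ∨ s = .inr (pr (P.col i j)).2) := by
    intro j
    induction j with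
    | zero => intro _; exact ⟨hs2, hs3⟩
    | succ j ih =>
      intro hj
      obtain ⟨e1, -⟩ := ih (by omega)
      obtain ⟨s', f1, f2, f3⟩ := hstep (j + 1) hj
      obtain ⟨v1, v2⟩ := col_next P hg i j hi hj
      have hcol : P.col i (j + 1) = P.col i j + 1 + 1 := by
        unfold Prm.col
        ring
      have hlt := (col_lt P hg i (j + 1) hi hj).1
      have hpar := (hb.tr s).par (P.col i j + 1) (by omega) P.rho hρH
      rw [no_vert (hb.tr s) v1, no_vert (hb.tr s) v2, e1, if_neg (by omega)] at hpar
      have e2 : hz s (P.col i j + 1 + 1) P.rho = true := by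
        by_contra hc
        rw [Bool.not_eq_true] at hc
        rw [hc] at hpar
        simp at hpar
      rw [← hcol] at e2
      have hss : s = s' := hb.dh s s' _ _ e2 f1
      rw [hss]
      exact ⟨f2, f3⟩
  rcases s with α | β
  · refine ⟨α, fun j hj => ?_⟩
    rcases (hall j hj).2 with h | h
    · exact (Sum.inl.inj h).symm
    · exact absurd h (by simp)
  · exfalso
    have hβ : ∀ j, j < P.a.getD i 0 → (pr (P.col i j)).2 = β := by
      intro j hj
      rcases (hall j hj).2 with h | h
      · exact absurd h (by simp)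
      · exact (Sum.inr.inj h).symm
    have hinj : Function.Injective (fun j : Fin (P.a.getD i 0) => (pr (P.col i j)).1) := by
      intro j j' hjj
      have e : pr (P.col i j) = pr (P.col i j') := by
        refine Prod.ext hjj ?_
        rw [hβ j j.2, hβ j' j'.2]
      obtain ⟨c1, c2⟩ := col_lt P hg i j hi j.2
      obtain ⟨c3, c4⟩ := col_lt P hg i j' hi j'.2
      have := h2 _ c1 _ c3 c2 c4 e
      exact Fin.ext (col_inj P hg i j i j' j.2 j'.2 this).2
    have hcard := Fintype.card_le_of_injective _ hinj
    rw [Fintype.card_fin, Fintype.card_fin] at hcard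
    omega

end Pool.Agent.Work.MP_d41d5f_lc
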