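import Pool.Agent.Work.MP_d41d5f_lc.ED.PairX
import Pool.Agent.Work.MP_d41d5f_lc.ED.IslX

/-!
BlkS (M): a full routing of a block yields a perfect packing.

Proof. Take `pr` from `pair_cols` and for `i < a.length` the group `g i = α_i` (its value in `ℕ`)
from `island_one` (choose; `g i = 0` for other `i`). For `j < m` let `α = ⟨j, _⟩`. The pairs
`(α, β)`, `β : Fin B`, correspond bijectively (by `pr`) to the crossing columns `x < W` with
`(pr x).1 = α`; so there are exactly `B` such columns. By `col_surj`, `col_inj`, `col_lt` these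
columns are the `P.col i j'` with `i < a.length`, `j' < a.getD i 0` and `(pr (P.col i j')).1 = α`,
that is `g i = j`. So their number is `∑ i < a.length, g i = j, a.getD i 0` (each `i` with
`g i = j` contributes `a.getD i 0` columns and the others none).
-/

set_option autoImplicit false

namespace Pool.Agent.Work.MP_d41d5f_lc

theorem block_sound (P : Prm) (hg : P.Good) (hbig : ∀ x ∈ P.a, P.m < x)
    (hs : P.a.sum = P.m * P.B) (hz vt : (Fin P.m ⊕ Fin P.B) → ℕ → ℕ → Bool)
    (hb : IsBR P hz vt) : Pack P.m P.B P.a := by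
  classical
  obtain ⟨pr, p1, p2, p3⟩ := pair_cols P hg hs hz vt hb
  have hisl : ∀ i, ∃ α : Fin P.m, i < P.a.length → ∀ j < P.a.getD i 0,
      (pr (P.col i j)).1 = α := by
    intro i
    by_cases hi : i < P.a.length
    · obtain ⟨α, hα⟩ := island_one P hg hbig hz vt hb pr p1 p2 i hi
      exact ⟨α, fun _ => hα⟩
    · exact ⟨⟨0, hg.hm⟩, fun h => absurd h hi⟩
  choose g hgα using hisl
  refine ⟨fun i => (g i).val, fun i _ => (g i).isLt, fun j hj => ?_⟩
  have hC1 : ((Finset.range P.W).filter
      fun x => P.isX x = true ∧ (pr x).1 = ⟨j, hj⟩).card = P.B := by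
    have h0 : ((Finset.range P.W).filter
      fun x => P.isX x = true ∧ (pr x).1 = ⟨j, hj⟩).card = (Finset.univ : Finset (Fin P.B)).card := by
      refine Finset.card_bij (fun x _ => (pr x).2) (fun x _ => Finset.mem_univ _) ?_ ?_
      · intro x hx y hy hxy
        rw [Finset.mem_filter, Finset.mem_range] at hx hy
        exact p2 x hx.1 y hy.1 hx.2.1 hy.2.1 (Prod.ext (hx.2.2.trans hy.2.2.symm) hxy)
      · intro b _
        obtain ⟨x, hx, hX, he⟩ := p3 (⟨j, hj⟩, b)
        refine ⟨x, ?_, by rw [he]⟩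
        rw [Finset.mem_filter, Finset.mem_range]
        exact ⟨hx, hX, by rw [he]⟩
    rw [h0, Finset.card_univ, Fintype.card_fin]
  rw [← hC1]
  have hC2 : (((Finset.range P.a.length).filter (fun i => (g i).val = j)).sigma
      (fun i => Finset.range (P.a.getD i 0))).card =
      ∑ i ∈ (Finset.range P.a.length).filter (fun i => (g i).val = j), P.a.getD i 0 := by
    rw [Finset.card_sigma]
    exact Finset.sum_congr rfl fun i _ => Finset.card_range _
  rw [← hC2]
  refine Finset.card_bij (fun s _ => P.col s.1 s.2) ?_ ?_ ?_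
  · rintro ⟨i, k⟩ h
    rw [Finset.mem_sigma, Finset.mem_filter, Finset.mem_range, Finset.mem_range] at h
    obtain ⟨⟨hi, hgi⟩, hk⟩ := h
    rw [Finset.mem_filter, Finset.mem_range]
    obtain ⟨h1, h2⟩ := col_lt P hg i k hi hk
    exact ⟨h1, h2, (hgα i hi k hk).trans (Fin.ext hgi)⟩
  · rintro ⟨i, k⟩ h ⟨i', k'⟩ h' he
    rw [Finset.mem_sigma, Finset.mem_filter, Finset.mem_range, Finset.mem_range] at h h'
    obtain ⟨h1, h2⟩ := col_inj P hg i k i' k' h.2 h'.2 he
    subst h1
    subst h2
    rfl
  · intro x hx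
    rw [Finset.mem_filter, Finset.mem_range] at hx
    obtain ⟨i, k, hi, hk, he⟩ := col_surj P hg x hx.1 hx.2.1
    refine ⟨⟨i, k⟩, ?_, he.symm⟩
    rw [Finset.mem_sigma, Finset.mem_filter, Finset.mem_range, Finset.mem_range]
    refine ⟨⟨hi, ?_⟩, hk⟩
    have h3 := hgα i hi k hk
    rw [← he, hx.2.2] at h3
    rw [← h3]

end Pool.Agent.Work.MP_d41d5f_lc
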