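import Pool.Agent.Work.MP_d41d5f_lc.ED.EndsI

/-!
ParB (M): parities in a block.

Proof. `par_block`: use `IsFam.par` with `A = {[i, j, x, y]}` (all `x`, `y`). The ends `src`, `tgt`
are not in `A`, so the number is even. Valid edges crossing `A`: `h`, `v`: never. `p i' j' α`: its
block ends are in the blocks `(i'-1, j')` and `(i', j')`, so it crosses iff `j' = j` and (`i' = i` or
`i' = i + 1`) (the two ends are in different blocks; here `i < R`, so for `i' = i` the right end is
the block vertex `[i, j, 0, α]`, and for `i' = i + 1 ≥ 1` the left end is the block vertex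
`[i, j, W-1, H-m+α]`); same for `q i' j' β`: `i' = i` and `j' = j` or `j' = j + 1`. So the filter
`crosses A` is the disjoint union of the four filters `isPj i j`, `isPj (i+1) j`, `isQi i j`,
`isQi i (j+1)`.
`isTr_fam`: `row`: if `hzF` is true: at `x = 0`: `y < m ≤ H` or `y < H`; at `x = W`: `y < H` or
`y < B ≤ H`; else `h i j (x-1) y ∈ F a` is valid, so `y < H`. `vert`: `v i j x y ∈ F a` is valid.
`par` at `(x, y)`, `x < W`, `y < H`: use `A = {[i, j, x, y]}`. Valid edges with exactly one end
`[i, j, x, y]` (each of them has different ends): `h i j (x-1) y` (if `1 ≤ x`), `h i j x y` (if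
`x + 1 < W`), `v i j x y`, `v i j x (y-1)` (if `1 ≤ y`), and if `x = 0`: `p i j y` (if `y < m`),
`q i j (y - (H-B))` (if `H - B ≤ y`); if `x = W - 1`: `p (i+1) j (y - (H-m))` (if `H - m ≤ y`),
`q i (j+1) y` (if `y < B`). At `x = 0` the two links do not occur both, as `m ≤ H - B`; same at
`x = W - 1` as `B ≤ H - m`; and `0 ≠ W - 1`. So the cardinality of the filter is
`(hzF x y).toNat + (hzF (x+1) y).toNat + (vtF x y).toNat + (0 or (vtF x (y-1)).toNat)`.
(Suggestion: show that the filter equals the union of four sets of at most one element.)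
Basic inequalities: `H = 2 * (m + B + a.sum) + 1`, `W ≥ T ≥ 4` (from `Good`).
-/

set_option autoImplicit false

namespace Pool.Agent.Work.MP_d41d5f_lc

variable {P : Prm} {N : ℕ} {ty : Fin N → Bool} {F : Fin N → Finset Ed}

private theorem parB_dims (hg : P.Good) :
    P.m + P.B + 1 ≤ P.H ∧ 4 ≤ P.W := by
  have h1 := hg.hm
  have h2 := hg.hB
  have h3 : P.m + P.B + 1 ≤ P.H := by
    unfold Prm.H Prm.rho
    omega
  refine ⟨h3, ?_⟩
  have h4 : 4 ≤ P.T := by
    unfold Prm.T
    have h5 : 2 ≤ (P.m + P.B) * (P.H + 1) := by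
      calc 2 = 2 * 1 := by norm_num
        _ ≤ (P.m + P.B) * (P.H + 1) := Nat.mul_le_mul (by omega) (by omega)
    omega
  unfold Prm.W
  calc 4 ≤ P.T := h4
    _ = 1 * P.T := (one_mul _).symm
    _ ≤ (P.a.length + 1) * P.T := Nat.mul_le_mul_right _ (by omega)

/-- the vertices of a block -/
private def parBA (i j : ℕ) : Set Vx := {v | ∃ x y, v = [i, j, x, y]}

private theorem parBA_four (i j i' j' x y : ℕ) : [i', j', x, y] ∈ parBA i j ↔ i' = i ∧ j' = j := by
  constructor
  · rintro ⟨x', y', h⟩
    simp only [List.cons.injEq] at h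
    exact ⟨h.1, h.2.1⟩
  · rintro ⟨rfl, rfl⟩
    exact ⟨x, y, rfl⟩

private theorem parBA_one (i j c : ℕ) : [c] ∉ parBA i j := by
  rintro ⟨x', y', h⟩
  simp at h

private theorem parB_cross {i j : ℕ} (hi : i < P.R) (hj : j < P.R) (d : Ed) (hd : P.ok d) :
    crosses P (parBA i j) d ↔ isPj i j d = true ∨ isPj (i + 1) j d = true ∨ isQi i j d = true ∨
      isQi i (j + 1) d = true := by
  cases d with
  | h i' j' x y =>
    unfold crosses Prm.ends isPj isQi
    simp [parBA_four]
  | v i' j' x y =>
    unfold crosses Prm.ends isPj isQi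
    simp [parBA_four]
  | p i' j' α =>
    have e1 : (P.ends (.p i' j' α)).1 ∈ parBA i j ↔ i' = i + 1 ∧ j' = j := by
      unfold Prm.ends
      dsimp only
      by_cases h0 : i' = 0
      · rw [if_pos h0]
        constructor
        · intro h
          exact absurd h (parBA_one i j 0)
        · intro h
          omega
      · rw [if_neg h0, parBA_four]
        omega
    have e2 : (P.ends (.p i' j' α)).2 ∈ parBA i j ↔ i' = i ∧ j' = j := by
      unfold Prm.ends
      dsimp only
      by_cases h0 : i' = P.R
      · rw [if_pos h0]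
        constructor
        · intro h
          exact absurd h (parBA_one i j 1)
        · intro h
          omega
      · rw [if_neg h0, parBA_four]
    unfold crosses
    rw [e1, e2]
    unfold isPj isQi
    simp only [Bool.and_eq_true, decide_eq_true_eq, Bool.false_eq_true, or_false]
    omega
  | q i' j' β =>
    have e1 : (P.ends (.q i' j' β)).1 ∈ parBA i j ↔ i' = i ∧ j' = j + 1 := by
      unfold Prm.ends
      dsimp only
      by_cases h0 : j' = 0
      · rw [if_pos h0]
        constructor
        · intro h
          exact absurd h (parBA_one i j 2)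
        · intro h
          omega
      · rw [if_neg h0, parBA_four]
        omega
    have e2 : (P.ends (.q i' j' β)).2 ∈ parBA i j ↔ i' = i ∧ j' = j := by
      unfold Prm.ends
      dsimp only
      by_cases h0 : j' = P.R
      · rw [if_pos h0]
        constructor
        · intro h
          exact absurd h (parBA_one i j 3)
        · intro h
          omega
      · rw [if_neg h0, parBA_four]
    unfold crosses
    rw [e1, e2]
    unfold isPj isQi
    simp only [Bool.and_eq_true, decide_eq_true_eq, Bool.false_eq_true, false_or]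
    omega

private theorem parB_card4 {A : Type} [DecidableEq A] (s : Finset A) (p q r t : A → Prop)
    [DecidablePred p] [DecidablePred q] [DecidablePred r] [DecidablePred t] (c : A → Prop)
    [DecidablePred c] (hc : ∀ d ∈ s, c d ↔ p d ∨ q d ∨ r d ∨ t d)
    (h1 : ∀ d, p d → ¬ q d ∧ ¬ r d ∧ ¬ t d) (h2 : ∀ d, q d → ¬ r d ∧ ¬ t d)
    (h3 : ∀ d, r d → ¬ t d) :
    (s.filter c).card = (s.filter p).card + (s.filter q).card + (s.filter r).card +
      (s.filter t).card := by
  rw [Finset.filter_congr hc, Finset.filter_or, Finset.card_union_of_disjoint, Finset.filter_or,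
    Finset.card_union_of_disjoint, Finset.filter_or, Finset.card_union_of_disjoint]
  · ring
  · rw [Finset.disjoint_left]
    intro d hd hd'
    rw [Finset.mem_filter] at hd hd'
    exact h3 d hd.2 hd'.2
  · rw [Finset.disjoint_left]
    intro d hd hd'
    rw [Finset.mem_filter] at hd hd'
    rcases hd'.2 with hd' | hd'
    · exact (h2 d hd.2).1 hd'
    · exact (h2 d hd.2).2 hd'
  · rw [Finset.disjoint_left]
    intro d hd hd'
    rw [Finset.mem_filter] at hd hd'
    rcases hd'.2 with hd' | hd' | hd'
    · exact (h1 d hd.2).1 hd'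
    · exact (h1 d hd.2).2.1 hd'
    · exact (h1 d hd.2).2.2 hd'

theorem par_block (hg : P.Good) (h : IsFam P N ty F) (a : Fin N) (i j : ℕ) (hi : i < P.R)
    (hj : j < P.R) : (nPj (F a) i j + nPj (F a) (i + 1) j + nQi (F a) i j +
      nQi (F a) i (j + 1)) % 2 = 0 := by
  classical
  have h1 := h.par a (parBA i j)
  have hs : src (ty a) ∉ parBA i j := by
    unfold src
    cases ty a
    · exact parBA_one i j 2
    · exact parBA_one i j 0
  have ht : tgt (ty a) ∉ parBA i j := by
    unfold tgt
    cases ty a
    · exact parBA_one i j 3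
    · exact parBA_one i j 1
  rw [if_pos (iff_of_false hs ht), parB_card4 (F a) (fun d => isPj i j d = true)
    (fun d => isPj (i + 1) j d = true) (fun d => isQi i j d = true)
    (fun d => isQi i (j + 1) d = true) _ (fun d hd => parB_cross hi hj d (h.ok a d hd))] at h1
  · exact h1
  · intro d
    cases d <;> simp [isPj, isQi]
    intro h1 h2 h3
    omega
  · intro d
    cases d <;> simp [isPj, isQi]
  · intro d
    cases d <;> simp [isPj, isQi]
    intro h1 h2 h3
    omega

/-- the edge at the left -/
private def parE1 (P : Prm) (i j x y : ℕ) : Option Ed :=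
  if x = 0 then (if y < P.m then some (.p i j y) else
    if P.H - P.B ≤ y then some (.q i j (y - (P.H - P.B))) else none) else some (.h i j (x - 1) y)

/-- the edge at the right -/
private def parE2 (P : Prm) (i j x y : ℕ) : Option Ed :=
  if x + 1 = P.W then (if P.H - P.m ≤ y then some (.p (i + 1) j (y - (P.H - P.m))) else
    if y < P.B then some (.q i (j + 1) y) else none) else some (.h i j x y)

/-- the edge below -/
private def parE4 (i j x y : ℕ) : Option Ed :=
  if y = 0 then none else some (.v i j x (y - 1))

private theorem parE1_iff (i j x y : ℕ) (d : Ed) : parE1 P i j x y = some d ↔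
    (x = 0 ∧ y < P.m ∧ d = .p i j y) ∨
    (x = 0 ∧ ¬ y < P.m ∧ P.H - P.B ≤ y ∧ d = .q i j (y - (P.H - P.B))) ∨
    (x ≠ 0 ∧ d = .h i j (x - 1) y) := by
  unfold parE1
  by_cases h1 : x = 0
  · rw [if_pos h1]
    by_cases h2 : y < P.m
    · rw [if_pos h2]
      simp [h1, h2, eq_comm]
    · rw [if_neg h2]
      by_cases h3 : P.H - P.B ≤ y
      · rw [if_pos h3]
        simp only [Option.some.injEq]
        constructor
        · intro h
          exact Or.inr (Or.inl ⟨h1, h2, h3, h.symm⟩)
        · rintro (h | h | h)
          · exact absurd h.2.1 h2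
          · exact h.2.2.2.symm
          · exact absurd h1 h.1
      · rw [if_neg h3]
        constructor
        · intro h
          exact absurd h (by simp)
        · rintro (h | h | h)
          · exact absurd h.2.1 h2
          · exact absurd h.2.2.1 h3
          · exact absurd h1 h.1
  · rw [if_neg h1]
    simp only [Option.some.injEq]
    constructor
    · intro h
      exact Or.inr (Or.inr ⟨h1, h.symm⟩)
    · rintro (h | h | h)
      · exact absurd h.1 h1
      · exact absurd h.1 h1
      · exact h.2.symm

private theorem parE2_iff (i j x y : ℕ) (d : Ed) : parE2 P i j x y = some d ↔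
    (x + 1 = P.W ∧ P.H - P.m ≤ y ∧ d = .p (i + 1) j (y - (P.H - P.m))) ∨
    (x + 1 = P.W ∧ ¬ P.H - P.m ≤ y ∧ y < P.B ∧ d = .q i (j + 1) y) ∨
    (x + 1 ≠ P.W ∧ d = .h i j x y) := by
  unfold parE2
  by_cases h1 : x + 1 = P.W
  · rw [if_pos h1]
    by_cases h2 : P.H - P.m ≤ y
    · rw [if_pos h2]
      simp only [Option.some.injEq]
      constructor
      · intro h
        exact Or.inl ⟨h1, h2, h.symm⟩
      · rintro (h | h | h)
        · exact h.2.2.symm
        · exact absurd h2 h.2.1
        · exact absurd h1 h.1
    · rw [if_neg h2]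
      by_cases h3 : y < P.B
      · rw [if_pos h3]
        simp only [Option.some.injEq]
        constructor
        · intro h
          exact Or.inr (Or.inl ⟨h1, h2, h3, h.symm⟩)
        · rintro (h | h | h)
          · exact absurd h.2.1 h2
          · exact h.2.2.2.symm
          · exact absurd h1 h.1
      · rw [if_neg h3]
        constructor
        · intro h
          exact absurd h (by simp)
        · rintro (h | h | h)
          · exact absurd h.2.1 h2
          · exact absurd h.2.2.1 h3
          · exact absurd h1 h.1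
  · rw [if_neg h1]
    simp only [Option.some.injEq]
    constructor
    · intro h
      exact Or.inr (Or.inr ⟨h1, h.symm⟩)
    · rintro (h | h | h)
      · exact absurd h.1 h1
      · exact absurd h.1 h1
      · exact h.2.symm

private theorem parE4_iff (i j x y : ℕ) (d : Ed) : parE4 i j x y = some d ↔
    y ≠ 0 ∧ d = .v i j x (y - 1) := by
  unfold parE4
  by_cases h1 : y = 0
  · rw [if_pos h1]
    constructor
    · intro h
      exact absurd h (by simp)
    · intro h
      exact absurd h1 h.1
  · rw [if_neg h1]
    simp only [Option.some.injEq]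
    constructor
    · intro h
      exact ⟨h1, h.symm⟩
    · intro h
      exact h.2.symm

private theorem parB_crossV (hg : P.Good) {i j x y : ℕ} (hi : i < P.R) (hj : j < P.R)
    (hx : x < P.W) (hy : y < P.H) (d : Ed) (hd : P.ok d) :
    crosses P {[i, j, x, y]} d ↔ parE1 P i j x y = some d ∨ parE2 P i j x y = some d ∨
      d = .v i j x y ∨ parE4 i j x y = some d := by
  obtain ⟨hH, hW⟩ := parB_dims hg
  rw [parE1_iff, parE2_iff, parE4_iff]
  unfold crosses
  cases d with
  | h i' j' x' y' =>
    obtain ⟨h1, h2, h3, h4⟩ := hd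
    unfold Prm.ends
    simp only [Set.mem_singleton_iff, List.cons.injEq, and_true, Ed.h.injEq, reduceCtorEq,
      and_false, false_or, or_false]
    omega
  | v i' j' x' y' =>
    obtain ⟨h1, h2, h3, h4, h5⟩ := hd
    unfold Prm.ends
    simp only [Set.mem_singleton_iff, List.cons.injEq, and_true, Ed.v.injEq, reduceCtorEq,
      and_false, false_or, or_false]
    omega
  | p i' j' α =>
    obtain ⟨h1, h2, h3⟩ := hd
    have e1 : (P.ends (.p i' j' α)).1 ∈ ({[i, j, x, y]} : Set Vx) ↔
        i' = i + 1 ∧ j' = j ∧ x + 1 = P.W ∧ y = P.H - P.m + α := by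
      unfold Prm.ends
      dsimp only
      rw [Set.mem_singleton_iff]
      by_cases h0 : i' = 0
      · rw [if_pos h0]
        simp only [List.cons.injEq, reduceCtorEq, and_false, false_iff]
        omega
      · rw [if_neg h0]
        simp only [List.cons.injEq, and_true]
        omega
    have e2 : (P.ends (.p i' j' α)).2 ∈ ({[i, j, x, y]} : Set Vx) ↔
        i' = i ∧ j' = j ∧ x = 0 ∧ y = α := by
      unfold Prm.ends
      dsimp only
      rw [Set.mem_singleton_iff]
      by_cases h0 : i' = P.R
      · rw [if_pos h0]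
        simp only [List.cons.injEq, reduceCtorEq, and_false, false_iff]
        omega
      · rw [if_neg h0]
        simp only [List.cons.injEq, and_true]
        omega
    rw [e1, e2]
    simp only [Ed.p.injEq, reduceCtorEq, and_false, false_or, or_false]
    omega
  | q i' j' β =>
    obtain ⟨h1, h2, h3⟩ := hd
    have e1 : (P.ends (.q i' j' β)).1 ∈ ({[i, j, x, y]} : Set Vx) ↔
        i' = i ∧ j' = j + 1 ∧ x + 1 = P.W ∧ y = β := by
      unfold Prm.ends
      dsimp only
      rw [Set.mem_singleton_iff]
      by_cases h0 : j' = 0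
      · rw [if_pos h0]
        simp only [List.cons.injEq, reduceCtorEq, and_false, false_iff]
        omega
      · rw [if_neg h0]
        simp only [List.cons.injEq, and_true]
        omega
    have e2 : (P.ends (.q i' j' β)).2 ∈ ({[i, j, x, y]} : Set Vx) ↔
        i' = i ∧ j' = j ∧ x = 0 ∧ y = P.H - P.B + β := by
      unfold Prm.ends
      dsimp only
      rw [Set.mem_singleton_iff]
      by_cases h0 : j' = P.R
      · rw [if_pos h0]
        simp only [List.cons.injEq, reduceCtorEq, and_false, false_iff]
        omega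
      · rw [if_neg h0]
        simp only [List.cons.injEq, and_true]
        omega
    rw [e1, e2]
    simp only [Ed.q.injEq, reduceCtorEq, and_false, false_or, or_false]
    omega

private theorem parB_cardO (s : Finset Ed) (o : Option Ed) (b : Bool)
    (hb : b = true ↔ ∃ e, o = some e ∧ e ∈ s) :
    (s.filter fun d => o = some d).card = b.toNat := by
  cases hbb : b with
  | false =>
    rw [hbb] at hb
    show _ = 0
    rw [Finset.card_eq_zero, Finset.filter_eq_empty_iff]
    intro d hd h1
    exact absurd (hb.2 ⟨d, h1, hd⟩) (by simp)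
  | true =>
    rw [hbb] at hb
    show _ = 1
    obtain ⟨e, he, hes⟩ := hb.1 rfl
    rw [Finset.card_eq_one]
    refine ⟨e, ?_⟩
    ext d
    rw [Finset.mem_filter, Finset.mem_singleton, he, Option.some.injEq]
    constructor
    · rintro ⟨_, h⟩
      exact h.symm
    · rintro rfl
      exact ⟨hes, rfl⟩

private theorem hzF_E1 (hg : P.Good) {i j x y : ℕ} (hx : x < P.W) (hy : y < P.H)
    (G : Finset Ed) : hzF P i j G x y = true ↔ ∃ e, parE1 P i j x y = some e ∧ e ∈ G := by
  obtain ⟨hH, hW⟩ := parB_dims hg
  simp only [parE1_iff]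
  unfold hzF
  by_cases h1 : x = 0
  · rw [if_pos h1]
    simp only [Bool.or_eq_true, decide_eq_true_eq]
    constructor
    · rintro (⟨h2, h3⟩ | ⟨h2, h3, h4⟩)
      · exact ⟨_, Or.inl ⟨h1, h2, rfl⟩, h3⟩
      · exact ⟨_, Or.inr (Or.inl ⟨h1, by omega, h2, rfl⟩), h4⟩
    · rintro ⟨e, (⟨h2, h3, rfl⟩ | ⟨h2, h3, h4, rfl⟩ | ⟨h2, rfl⟩), h5⟩
      · exact Or.inl ⟨h3, h5⟩
      · exact Or.inr ⟨h4, hy, h5⟩
      · exact absurd h1 h2
  · rw [if_neg h1, if_neg (by omega), decide_eq_true_eq]
    constructor
    · intro h2
      exact ⟨_, Or.inr (Or.inr ⟨h1, rfl⟩), h2⟩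
    · rintro ⟨e, (⟨h2, h3, rfl⟩ | ⟨h2, h3, h4, rfl⟩ | ⟨h2, rfl⟩), h5⟩
      · exact absurd h2 h1
      · exact absurd h2 h1
      · exact h5

private theorem hzF_E2 (hg : P.Good) {i j x y : ℕ} (hx : x < P.W) (hy : y < P.H)
    (G : Finset Ed) : hzF P i j G (x + 1) y = true ↔ ∃ e, parE2 P i j x y = some e ∧ e ∈ G := by
  obtain ⟨hH, hW⟩ := parB_dims hg
  simp only [parE2_iff]
  unfold hzF
  rw [if_neg (by omega)]
  by_cases h1 : x + 1 = P.W
  · rw [if_pos h1]
    simp only [Bool.or_eq_true, decide_eq_true_eq]
    constructor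
    · rintro (⟨h2, h3, h4⟩ | ⟨h2, h3⟩)
      · exact ⟨_, Or.inl ⟨h1, h2, rfl⟩, h4⟩
      · exact ⟨_, Or.inr (Or.inl ⟨h1, by omega, h2, rfl⟩), h3⟩
    · rintro ⟨e, (⟨h2, h3, rfl⟩ | ⟨h2, h3, h4, rfl⟩ | ⟨h2, rfl⟩), h5⟩
      · exact Or.inl ⟨h3, hy, h5⟩
      · exact Or.inr ⟨h4, h5⟩
      · exact absurd h1 h2
  · rw [if_neg h1, decide_eq_true_eq, Nat.add_sub_cancel]
    constructor
    · intro h2
      exact ⟨_, Or.inr (Or.inr ⟨h1, rfl⟩), h2⟩
    · rintro ⟨e, (⟨h2, h3, rfl⟩ | ⟨h2, h3, h4, rfl⟩ | ⟨h2, rfl⟩), h5⟩
      · exact absurd h2 h1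
      · exact absurd h2 h1
      · exact h5

theorem isTr_fam (hg : P.Good) (h : IsFam P N ty F) (a : Fin N) (i j : ℕ) (hi : i < P.R)
    (hj : j < P.R) : IsTr P (hzF P i j (F a)) (vtF i j (F a)) := by
  classical
  obtain ⟨hH, hW⟩ := parB_dims hg
  refine ⟨?_, ?_, ?_⟩
  · intro x y hxy
    unfold hzF at hxy
    by_cases h1 : x = 0
    · rw [if_pos h1] at hxy
      simp only [Bool.or_eq_true, decide_eq_true_eq] at hxy
      omega
    · rw [if_neg h1] at hxy
      by_cases h2 : x = P.W
      · rw [if_pos h2] at hxy
        simp only [Bool.or_eq_true, decide_eq_true_eq] at hxy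
        omega
      · rw [if_neg h2, decide_eq_true_eq] at hxy
        exact (h.ok a _ hxy).2.2.2
  · intro x y hxy
    unfold vtF at hxy
    rw [decide_eq_true_eq] at hxy
    exact (h.ok a _ hxy).2.2.2
  · intro x hx y hy
    have h1 := h.par a {[i, j, x, y]}
    have hs : src (ty a) ∉ ({[i, j, x, y]} : Set Vx) := by
      unfold src
      cases ty a <;> simp
    have ht : tgt (ty a) ∉ ({[i, j, x, y]} : Set Vx) := by
      unfold tgt
      cases ty a <;> simp
    rw [if_pos (iff_of_false hs ht), parB_card4 (F a) (fun d => parE1 P i j x y = some d)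
      (fun d => parE2 P i j x y = some d) (fun d => d = .v i j x y)
      (fun d => parE4 i j x y = some d) _
      (fun d hd => parB_crossV hg hi hj hx hy d (h.ok a d hd))] at h1
    · rw [parB_cardO (F a) _ _ (hzF_E1 hg hx hy (F a)),
        parB_cardO (F a) _ _ (hzF_E2 hg hx hy (F a))] at h1
      have h2 : ((F a).filter fun d => d = .v i j x y).card = (vtF i j (F a) x y).toNat := by
        rw [← parB_cardO (F a) (some (.v i j x y)) (vtF i j (F a) x y)]
        · congr 1
          refine Finset.filter_congr fun d _ => ?_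
          rw [Option.some.injEq, eq_comm]
        · unfold vtF
          rw [decide_eq_true_eq]
          constructor
          · intro h3
            exact ⟨_, rfl, h3⟩
          · rintro ⟨e, he, h3⟩
            rw [Option.some.injEq] at he
            rw [he]
            exact h3
      have h3 : ((F a).filter fun d => parE4 i j x y = some d).card =
          if y = 0 then 0 else (vtF i j (F a) x (y - 1)).toNat := by
        by_cases hy0 : y = 0
        · rw [if_pos hy0, Finset.card_eq_zero, Finset.filter_eq_empty_iff]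
          intro d _ h4
          rw [parE4_iff] at h4
          exact h4.1 hy0
        · rw [if_neg hy0]
          apply parB_cardO
          unfold vtF
          rw [decide_eq_true_eq]
          constructor
          · intro h4
            exact ⟨_, (parE4_iff _ _ _ _ _).2 ⟨hy0, rfl⟩, h4⟩
          · rintro ⟨e, he, h4⟩
            rw [parE4_iff] at he
            rw [← he.2]
            exact h4
      rw [h2, h3] at h1
      exact h1
    · intro d hd
      rw [parE1_iff] at hd
      rw [parE2_iff, parE4_iff]
      rcases hd with ⟨h2, h3, rfl⟩ | ⟨h2, h3, h4, rfl⟩ | ⟨h2, rfl⟩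
      · simp
      · simp
      · simp
        omega
    · intro d hd
      rw [parE2_iff] at hd
      rw [parE4_iff]
      rcases hd with ⟨h2, h3, rfl⟩ | ⟨h2, h3, h4, rfl⟩ | ⟨h2, rfl⟩ <;> simp
    · intro d hd
      rw [parE4_iff]
      subst hd
      simp
      omega

end Pool.Agent.Work.MP_d41d5f_lc
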