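import Pool.Agent.Work.MP_d41d5f_lc.ED.GoodB
import Pool.Agent.Work.MP_d41d5f_lc.ED.ParB

/-!
ToBlk (M-L): a block with good links has a full routing.

Proof. Let `(i, j)` be as in `good_block`. For `α : Fin m` choose `u α` with
`cleanP (u α)`, `nP (F (u α)) i = 1`, `p i j α ∈ F (u α)`; for `β : Fin B` choose `w β` with
`cleanQ (w β)`, `nQ (F (w β)) j = 1`, `q i j β ∈ F (w β)`. Put
`hz (inl α) = hzF P i j (F (u α))`, `vt (inl α) = vtF i j (F (u α))`, same for `inr β` with `w β`.
`u` is injective: `nP (F (u α)) i = 1` means that `F (u α)` contains only one link in position `i`;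
so is `w`, and `u α ≠ w β` because their types differ. So all members are different, the sets are
disjoint, and this gives `dh`, `dv` (a true value of `hzF` at `(x,y)` means that one of the edges
attached to `(x, y)` is in the set: for `x = 0` the edge is `p i j y` or `q i j (y-(H-B))`, which
cannot both be meant for the same `y` since `m ≤ H - B`; same at `x = W`).
`tr` is `isTr_fam`. `lP`: `hz (inl α) 0 y' = true` iff (`y' < m` and `p i j y' ∈ F (u α)`) or
(`H - B ≤ y' < H` and `q i j (y'-(H-B)) ∈ F (u α)`). The second is impossible: this link is good, so it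
belongs to a clean member of type `false`; by disjointness this member is `u α`, which has type
`true`. The first holds only for `y' = α` by uniqueness. So `y = α` works.
`rP`: by `par_block` for `a = u α`: `nPj (F a) i j = 1` (only one link in position `i`, and it is
`p i j α`), `nQi (F a) i j = nQi (F a) i (j+1) = 0` (such links are good, so in members of type
`false`), hence `nPj (F a) (i+1) j` is odd, so some `p (i+1) j α' ∈ F a`, `α' < m`; this link is
good, `goodP (i+1) j α'` gives a member `b` with `nP (F b) (i+1) = 1` containing it, and `b = a` by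
disjointness. So `p (i+1) j α'` is the only link of `F a` in position `i + 1`; `y = H - m + α'`
works: `hz W y' = true` iff (`H - m ≤ y' < H` and `p (i+1) j (y'-(H-m)) ∈ F a`) or (`y' < B` and
`q i (j+1) y' ∈ F a`), and the second is impossible.
`lQ`, `rQ`: symmetric (`y = H - B + β` at the left, `y = β'` at the right, where
`q i (j+1) β' ∈ F (w β)`).
-/

set_option autoImplicit false

namespace Pool.Agent.Work.MP_d41d5f_lc

variable {P : Prm} {N : ℕ} {ty : Fin N → Bool} {F : Fin N → Finset Ed}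

private theorem tb_dims (hg : P.Good) : P.m + P.B + 1 ≤ P.H ∧ 4 ≤ P.W := by
  have h1 := hg.hm
  have h2 := hg.hB
  have h3 : P.m + P.B + 1 ≤ P.H := by
    unfold Prm.H Prm.rho
    omega
  refine ⟨h3, ?_⟩
  have h4 : 4 ≤ P.T := by
    unfold Prm.T
    have h5 : 2 ≤ (P.m + P.B) * (P.H + 1) := by
      calc 2 = 2 * 1 := by norm_num
        _ ≤ (P.m + P.B) * (P.H + 1) := Nat.mul_le_mul (by omega) (by omega)
    omega
  unfold Prm.W
  calc 4 ≤ P.T := h4
    _ = 1 * P.T := (one_mul _).symm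
    _ ≤ (P.a.length + 1) * P.T := Nat.mul_le_mul_right _ (by omega)

private theorem tb_uniqP {G : Finset Ed} {i j j' α α' : ℕ} (h : nP G i = 1)
    (h1 : Ed.p i j α ∈ G) (h2 : Ed.p i j' α' ∈ G) : j' = j ∧ α' = α := by
  unfold nP at h
  have h3 := Finset.card_le_one.1 (le_of_eq h) (.p i j' α')
    (Finset.mem_filter.2 ⟨h2, by simp [isP]⟩) (.p i j α) (Finset.mem_filter.2 ⟨h1, by simp [isP]⟩)
  simp only [Ed.p.injEq, true_and] at h3
  exact h3

private theorem tb_uniqQ {G : Finset Ed} {i i' j β β' : ℕ} (h : nQ G j = 1)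
    (h1 : Ed.q i j β ∈ G) (h2 : Ed.q i' j β' ∈ G) : i' = i ∧ β' = β := by
  unfold nQ at h
  have h3 := Finset.card_le_one.1 (le_of_eq h) (.q i' j β')
    (Finset.mem_filter.2 ⟨h2, by simp [isQ]⟩) (.q i j β) (Finset.mem_filter.2 ⟨h1, by simp [isQ]⟩)
  simp only [Ed.q.injEq, true_and] at h3
  exact h3

private theorem tb_notQ (h : IsFam P N ty F) {a : Fin N} (ha : ty a = true) {i j : ℕ}
    (hQ : ∀ β < P.B, goodQ P ty F i j β) (β : ℕ) : Ed.q i j β ∉ F a := by
  intro hm
  obtain ⟨b, hb, _, hb2⟩ := hQ β (h.ok a _ hm).2.2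
  have h1 := h.disj a b _ hm hb2
  rw [← h1] at hb
  rw [hb.1] at ha
  exact absurd ha (by simp)

private theorem tb_notP (h : IsFam P N ty F) {a : Fin N} (ha : ty a = false) {i j : ℕ}
    (hP : ∀ α < P.m, goodP P ty F i j α) (α : ℕ) : Ed.p i j α ∉ F a := by
  intro hm
  obtain ⟨b, hb, _, hb2⟩ := hP α (h.ok a _ hm).2.2
  have h1 := h.disj a b _ hm hb2
  rw [← h1] at hb
  rw [hb.1] at ha
  exact absurd ha (by simp)

private theorem tb_nQi_zero {G : Finset Ed} {i j : ℕ} (h : ∀ β, Ed.q i j β ∉ G) :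
    nQi G i j = 0 := by
  unfold nQi
  rw [Finset.card_eq_zero, Finset.filter_eq_empty_iff]
  intro d hd h1
  cases d with
  | q i' j' β =>
    simp only [isQi, Bool.and_eq_true, decide_eq_true_eq] at h1
    rw [h1.1, h1.2] at hd
    exact h β hd
  | _ => simp [isQi] at h1

private theorem tb_nPj_zero {G : Finset Ed} {i j : ℕ} (h : ∀ α, Ed.p i j α ∉ G) :
    nPj G i j = 0 := by
  unfold nPj
  rw [Finset.card_eq_zero, Finset.filter_eq_empty_iff]
  intro d hd h1
  cases d with
  | p i' j' α =>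
    simp only [isPj, Bool.and_eq_true, decide_eq_true_eq] at h1
    rw [h1.1, h1.2] at hd
    exact h α hd
  | _ => simp [isPj] at h1

private theorem tb_nPj_one {G : Finset Ed} {i j α : ℕ} (h : nP G i = 1) (h1 : Ed.p i j α ∈ G) :
    nPj G i j = 1 := by
  unfold nPj
  rw [Finset.card_eq_one]
  refine ⟨.p i j α, ?_⟩
  ext d
  rw [Finset.mem_filter, Finset.mem_singleton]
  constructor
  · rintro ⟨hd, h2⟩
    cases d with
    | p i' j' α' =>
      simp only [isPj, Bool.and_eq_true, decide_eq_true_eq] at h2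
      rw [h2.1] at hd
      have h3 := tb_uniqP h h1 hd
      rw [h2.1, h3.1, h3.2]
    | _ => simp [isPj] at h2
  · rintro rfl
    exact ⟨h1, by simp [isPj]⟩

private theorem tb_nQi_one {G : Finset Ed} {i j β : ℕ} (h : nQ G j = 1) (h1 : Ed.q i j β ∈ G) :
    nQi G i j = 1 := by
  unfold nQi
  rw [Finset.card_eq_one]
  refine ⟨.q i j β, ?_⟩
  ext d
  rw [Finset.mem_filter, Finset.mem_singleton]
  constructor
  · rintro ⟨hd, h2⟩
    cases d with
    | q i' j' β' =>
      simp only [isQi, Bool.and_eq_true, decide_eq_true_eq] at h2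
      rw [h2.2] at hd
      have h3 := tb_uniqQ h h1 hd
      rw [h2.2, h3.1, h3.2]
    | _ => simp [isQi] at h2
  · rintro rfl
    exact ⟨h1, by simp [isQi]⟩

private theorem tb_hz_disj (hg : P.Good) (h : IsFam P N ty F) {a b : Fin N} {i j x y : ℕ}
    (h1 : hzF P i j (F a) x y = true) (h2 : hzF P i j (F b) x y = true) : a = b := by
  obtain ⟨hH, hW⟩ := tb_dims hg
  unfold hzF at h1 h2
  by_cases hx : x = 0
  · rw [if_pos hx] at h1 h2
    simp only [Bool.or_eq_true, decide_eq_true_eq] at h1 h2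
    rcases h1 with ⟨h3, h4⟩ | ⟨h3, h5, h4⟩ <;> rcases h2 with ⟨h6, h7⟩ | ⟨h6, h8, h7⟩
    · exact h.disj a b _ h4 h7
    · exfalso
      omega
    · exfalso
      omega
    · exact h.disj a b _ h4 h7
  · rw [if_neg hx] at h1 h2
    by_cases hx' : x = P.W
    · rw [if_pos hx'] at h1 h2
      simp only [Bool.or_eq_true, decide_eq_true_eq] at h1 h2
      rcases h1 with ⟨h3, h5, h4⟩ | ⟨h3, h4⟩ <;> rcases h2 with ⟨h6, h8, h7⟩ | ⟨h6, h7⟩
      · exact h.disj a b _ h4 h7
      · exfalso
        omega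
      · exfalso
        omega
      · exact h.disj a b _ h4 h7
    · rw [if_neg hx', decide_eq_true_eq] at h1 h2
      exact h.disj a b _ h1 h2

theorem to_block (hg : P.Good) (h : IsFam P N ty F) (i j : ℕ) (hi : i < P.R) (hj : j < P.R)
    (hP : ∀ α < P.m, goodP P ty F i j α ∧ goodP P ty F (i + 1) j α)
    (hQ : ∀ β < P.B, goodQ P ty F i j β ∧ goodQ P ty F i (j + 1) β) :
    ∃ hz vt : (Fin P.m ⊕ Fin P.B) → ℕ → ℕ → Bool, IsBR P hz vt := by
  classical
  obtain ⟨hH, hW⟩ := tb_dims hg
  choose u hu1 hu2 hu3 using fun α : Fin P.m => (hP α α.2).1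
  choose w hw1 hw2 hw3 using fun β : Fin P.B => (hQ β β.2).1
  have hPi : ∀ α < P.m, goodP P ty F i j α := fun α hα => (hP α hα).1
  have hPi' : ∀ α < P.m, goodP P ty F (i + 1) j α := fun α hα => (hP α hα).2
  have hQj : ∀ β < P.B, goodQ P ty F i j β := fun β hβ => (hQ β hβ).1
  have hQj' : ∀ β < P.B, goodQ P ty F i (j + 1) β := fun β hβ => (hQ β hβ).2
  -- the right ends
  have hru : ∀ α : Fin P.m, ∃ α' < P.m, Ed.p (i + 1) j α' ∈ F (u α) ∧ nP (F (u α)) (i + 1) = 1 := by
    intro α
    have h1 := par_block hg h (u α) i j hi hj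
    rw [tb_nPj_one (hu2 α) (hu3 α), tb_nQi_zero (tb_notQ h (hu1 α).1 hQj),
      tb_nQi_zero (tb_notQ h (hu1 α).1 hQj')] at h1
    have h2 : nPj (F (u α)) (i + 1) j ≠ 0 := by
      intro h3
      rw [h3] at h1
      omega
    have h3 : ∃ α', Ed.p (i + 1) j α' ∈ F (u α) := by
      by_contra h4
      push Not at h4
      exact h2 (tb_nPj_zero h4)
    obtain ⟨α', h4⟩ := h3
    have h5 := (h.ok _ _ h4).2.2
    obtain ⟨b, _, hb1, hb2⟩ := hPi' α' h5
    have h6 := h.disj _ _ _ h4 hb2
    rw [← h6] at hb1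
    exact ⟨α', h5, h4, hb1⟩
  have hrw : ∀ β : Fin P.B, ∃ β' < P.B, Ed.q i (j + 1) β' ∈ F (w β) ∧ nQ (F (w β)) (j + 1) = 1 := by
    intro β
    have h1 := par_block hg h (w β) i j hi hj
    rw [tb_nQi_one (hw2 β) (hw3 β), tb_nPj_zero (tb_notP h (hw1 β).1 hPi),
      tb_nPj_zero (tb_notP h (hw1 β).1 hPi')] at h1
    have h2 : nQi (F (w β)) i (j + 1) ≠ 0 := by
      intro h3
      rw [h3] at h1
      omega
    have h3 : ∃ β', Ed.q i (j + 1) β' ∈ F (w β) := by
      by_contra h4
      push Not at h4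
      exact h2 (tb_nQi_zero h4)
    obtain ⟨β', h4⟩ := h3
    have h5 := (h.ok _ _ h4).2.2
    obtain ⟨b, _, hb1, hb2⟩ := hQj' β' h5
    have h6 := h.disj _ _ _ h4 hb2
    rw [← h6] at hb1
    exact ⟨β', h5, h4, hb1⟩
  have hinj : Function.Injective (Sum.elim u w : Fin P.m ⊕ Fin P.B → Fin N) := by
    rintro (α | β) (α' | β') he
    · have he' : u α = u α' := he
      have h1 := hu3 α'
      rw [← he'] at h1
      have h2 := tb_uniqP (hu2 α) (hu3 α) h1
      rw [Fin.ext h2.2]
    · exfalso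
      have he' : u α = w β' := he
      have h1 := (hu1 α).1
      rw [he', (hw1 β').1] at h1
      exact absurd h1 (by simp)
    · exfalso
      have he' : w β = u α' := he
      have h1 := (hu1 α').1
      rw [← he', (hw1 β).1] at h1
      exact absurd h1 (by simp)
    · have he' : w β = w β' := he
      have h1 := hw3 β'
      rw [← he'] at h1
      have h2 := tb_uniqQ (hw2 β) (hw3 β) h1
      rw [Fin.ext h2.2]
  refine ⟨fun s => hzF P i j (F (Sum.elim u w s)), fun s => vtF i j (F (Sum.elim u w s)),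
    fun s => isTr_fam hg h _ i j hi hj, ?_, ?_, ?_, ?_, ?_, ?_⟩
  · intro s s' x y h1 h2
    exact hinj (tb_hz_disj hg h h1 h2)
  · intro s s' x y h1 h2
    unfold vtF at h1 h2
    rw [decide_eq_true_eq] at h1 h2
    exact hinj (h.disj _ _ _ h1 h2)
  · intro α
    refine ⟨α, α.2, fun y' => ?_⟩
    show hzF P i j (F (u α)) 0 y' = _
    unfold hzF
    rw [if_pos rfl, Bool.eq_iff_iff]
    simp only [Bool.or_eq_true, decide_eq_true_eq]
    constructor
    · rintro (⟨_, h2⟩ | ⟨_, _, h2⟩)
      · exact (tb_uniqP (hu2 α) (hu3 α) h2).2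
      · exact absurd h2 (tb_notQ h (hu1 α).1 hQj _)
    · rintro rfl
      exact Or.inl ⟨α.2, hu3 α⟩
  · intro α
    obtain ⟨α', h1, h2, h3⟩ := hru α
    refine ⟨P.H - P.m + α', by omega, by omega, fun y' => ?_⟩
    show hzF P i j (F (u α)) P.W y' = _
    unfold hzF
    rw [if_neg (by omega), if_pos rfl, Bool.eq_iff_iff]
    simp only [Bool.or_eq_true, decide_eq_true_eq]
    constructor
    · rintro (⟨h4, h5, h6⟩ | ⟨_, h4⟩)
      · have h7 := (tb_uniqP h3 h2 h6).2
        omega
      · exact absurd h4 (tb_notQ h (hu1 α).1 hQj' _)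
    · rintro rfl
      refine Or.inl ⟨by omega, by omega, ?_⟩
      rw [Nat.add_sub_cancel_left]
      exact h2
  · intro β
    refine ⟨P.H - P.B + β, by omega, by omega, fun y' => ?_⟩
    show hzF P i j (F (w β)) 0 y' = _
    unfold hzF
    rw [if_pos rfl, Bool.eq_iff_iff]
    simp only [Bool.or_eq_true, decide_eq_true_eq]
    constructor
    · rintro (⟨_, h2⟩ | ⟨h4, h5, h2⟩)
      · exact absurd h2 (tb_notP h (hw1 β).1 hPi _)
      · have h7 := (tb_uniqQ (hw2 β) (hw3 β) h2).2
        omega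
    · rintro rfl
      refine Or.inr ⟨by omega, by omega, ?_⟩
      rw [Nat.add_sub_cancel_left]
      exact hw3 β
  · intro β
    obtain ⟨β', h1, h2, h3⟩ := hrw β
    refine ⟨β', h1, fun y' => ?_⟩
    show hzF P i j (F (w β)) P.W y' = _
    unfold hzF
    rw [if_neg (by omega), if_pos rfl, Bool.eq_iff_iff]
    simp only [Bool.or_eq_true, decide_eq_true_eq]
    constructor
    · rintro (⟨h4, h5, h6⟩ | ⟨_, h4⟩)
      · exact absurd h6 (tb_notP h (hw1 β).1 hPi' _)
      · exact (tb_uniqQ h3 h2 h4).2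
    · rintro rfl
      exact Or.inr ⟨h1, h2⟩

end Pool.Agent.Work.MP_d41d5f_lc
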