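import Pool.Agent.Work.MP_d41d5f_lc.ED.Trace
import Pool.Agent.Work.MP_d41d5f_lc.ED.ToBlk
import Pool.Agent.Work.MP_d41d5f_lc.ED.BlkS

/-!
ArrS (S): if almost `R (m + B)` edge-disjoint terminal paths exist then there is a perfect packing.

Proof. `fam_of_routable`, `good_block`, `to_block`, `block_sound`.
-/

set_option autoImplicit false

namespace Pool.Agent.Work.MP_d41d5f_lc

theorem arr_sound (k : ℕ) (P : Prm) (hg : P.Good) (hbig : ∀ x ∈ P.a, P.m < x)
    (hs : P.a.sum = P.m * P.B) (N r : ℕ) (hN : P.R * (P.m + P.B) ≤ N + r)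
    (hr : 6 * r * (P.R + 1) < P.R * P.R) (h : Routable (arr k P) N) : Pack P.m P.B P.a := by
  obtain ⟨ty, F, hF⟩ := fam_of_routable k P hg N h
  obtain ⟨i, hi, j, hj, h1, h2⟩ := good_block hg hF r hN hr
  obtain ⟨hz, vt, hb⟩ := to_block hg hF i j hi hj h1 h2
  exact block_sound P hg hbig hs hz vt hb

/-- There are never more than `R (m + B)` edge-disjoint terminal paths. -/
theorem arr_le (k : ℕ) (P : Prm) (hg : P.Good) (N : ℕ) (h : Routable (arr k P) N) :
    N ≤ P.R * (P.m + P.B) := by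
  obtain ⟨ty, F, hF⟩ := fam_of_routable k P hg N h
  exact fam_le hg hF

end Pool.Agent.Work.MP_d41d5f_lc
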