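import Pool.Agent.Work.MP_d41d5f_lc.ED.Defs

/-!
Blocks: traces of edge sets, routings, weaves. (Definitions, FIXED.)
-/

set_option autoImplicit false

namespace Pool.Agent.Work.MP_d41d5f_lc

/-- A trace in a block: `hz x y` tells whether the horizontal edge that enters column `x` from the
left in row `y` is used (`x = W`: the edge that leaves the block to the right), `vt x y` whether the
vertical edge between the rows `y` and `y + 1` of column `x` is used. All degrees are even. -/
structure IsTr (P : Prm) (hz vt : ℕ → ℕ → Bool) : Prop where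
  row : ∀ x y, hz x y = true → y < P.H
  vert : ∀ x y, vt x y = true → y + 1 < P.H ∧ P.vert x y = true
  par : ∀ x < P.W, ∀ y < P.H, ((hz x y).toNat + (hz (x + 1) y).toNat + (vt x y).toNat +
    (if y = 0 then 0 else (vt x (y - 1)).toNat)) % 2 = 0

/-- A full routing of a block: `m` traces from the lower left to the upper right, `B` traces from
the upper left to the lower right, pairwise edge-disjoint. -/
structure IsBR (P : Prm) (hz vt : (Fin P.m ⊕ Fin P.B) → ℕ → ℕ → Bool) : Prop where
  tr : ∀ s, IsTr P (hz s) (vt s)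
  dh : ∀ s s' x y, hz s x y = true → hz s' x y = true → s = s'
  dv : ∀ s s' x y, vt s x y = true → vt s' x y = true → s = s'
  lP : ∀ α, ∃ y, y < P.m ∧ ∀ y', hz (.inl α) 0 y' = decide (y' = y)
  rP : ∀ α, ∃ y, P.H - P.m ≤ y ∧ y < P.H ∧ ∀ y', hz (.inl α) P.W y' = decide (y' = y)
  lQ : ∀ β, ∃ y, P.H - P.B ≤ y ∧ y < P.H ∧ ∀ y', hz (.inr β) 0 y' = decide (y' = y)
  rQ : ∀ β, ∃ y, y < P.B ∧ ∀ y', hz (.inr β) P.W y' = decide (y' = y)

/-- Boolean values in `ZMod 2`. -/
def bz (b : Bool) : ZMod 2 := if b then 1 else 0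

/-- The local crossing number of two traces at the vertex `(x, y)`. -/
def loc (hP vP hQ vQ : ℕ → ℕ → Bool) (x y : ℕ) : ZMod 2 :=
  (if y = 0 then 0 else bz (vP x (y - 1))) * bz (hQ (x + 1) y) + bz (hP x y) * bz (vQ x y)

/-- One of the two traces passes horizontally and the other one vertically through `(x, y)`. -/
def Str (hP vP hQ vQ : ℕ → ℕ → Bool) (x y : ℕ) : Prop :=
  (hP x y = true ∧ hP (x + 1) y = true ∧ vQ x y = true ∧ vQ x (y - 1) = true) ∨
  (vP x y = true ∧ vP x (y - 1) = true ∧ hQ x y = true ∧ hQ (x + 1) y = true)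

/-- The `j`-th crossing column of the `i`-th island. -/
def Prm.col (P : Prm) (i j : ℕ) : ℕ := (i + 1) * P.T + 2 * j

/-! ### Weaves -/

/-- `y` is an edge between the rows `p` and `q`. -/
def Btw (p q y : ℕ) : Prop := (p ≤ y ∧ y < q) ∨ (q ≤ y ∧ y < p)

/-- A legal movement of strands from the rows `p` to the rows `q` in a column with the vertical
edges `V`. -/
structure Step {S : Type} (V : ℕ → Prop) (H : ℕ) (p q : S → ℕ) : Prop where
  row : ∀ s, q s < H
  inj : Function.Injective q
  vert : ∀ s y, Btw (p s) (q s) y → V y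
  disj : ∀ s s' y, s ≠ s' → Btw (p s) (q s) y → ¬ Btw (p s') (q s') y

/-- The strands can be led from the rows `p` (entering column `x₀`) to the rows `q` (entering
column `x₁`). -/
def Wv {S : Type} (V : ℕ → ℕ → Prop) (H x₀ x₁ : ℕ) (p q : S → ℕ) : Prop :=
  ∃ h : ℕ → S → ℕ, h x₀ = p ∧ h x₁ = q ∧ ∀ x, x₀ ≤ x → x < x₁ → Step (V x) H (h x) (h (x + 1))

/-- The rows of the strands at the left side of a block. -/
def Prm.startR (P : Prm) : Fin P.m ⊕ Fin P.B → ℕ
  | .inl α => α
  | .inr β => P.H - P.B + β

/-- The rows of the strands at the right side of a block. -/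
def Prm.endR (P : Prm) : Fin P.m ⊕ Fin P.B → ℕ
  | .inl α => P.H - P.m + α
  | .inr β => β

/-- The rank of a strand (the number of strands below it) when the strand `α` of the first kind has
already crossed the lowest `c α` strands of the second kind. -/
def rk (P : Prm) (c : ℕ → ℕ) : Fin P.m ⊕ Fin P.B → ℕ
  | .inl α => α + c α
  | .inr β => β + ((Finset.range P.m).filter fun j => c j ≤ β).card

/-- Rows before an island in row `ρ` that is used by the strand of rank `κ`. -/
def preR (ρ κ k : ℕ) : ℕ := if k < κ then k else ρ + (k - κ)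

/-- Rows after this island, in terms of the ranks before the island. -/
def postR (ρ κ a k : ℕ) : ℕ :=
  if k < κ then k else if k = κ then ρ else if k ≤ κ + a then ρ - a + (k - κ - 1) else ρ + (k - κ)

end Pool.Agent.Work.MP_d41d5f_lc
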