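import Pool.Agent.Work.MP_d41d5f_lc.ED.Clean
import Pool.Agent.Work.MP_d41d5f_lc.ED.AbsC

/-!
BadC (M): in every cut at most `3 r / 2` links are bad.

Proof. First kind, position `i ≤ R`: apply `abs_cut` with `E` = the set of the `p i j α`, `j < R`,
`α < m` (image of `range R ×ˢ range m` under the injective map `(j, α) ↦ Ed.p i j α`; it has
`R * m` elements), `C` = the clean members of the first kind (`clean_card`:
`R * m ≤ C.card + r`), and the sets `(F a).filter (isP i)`: they are contained in `E` (validity),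
disjoint (`IsFam.disj`), of odd size `nP (F a) i` (`par_cutP`). An edge `p i j α` of `E` that is
not good (`goodP`) is in no `(F a).filter (isP i)` with `a ∈ C`, `nP (F a) i = 1`; so the number of
pairs `(j, α)` that are not good is at most the number in `abs_cut` (the map is injective).
Second kind: the same with `q i j β`, `par_cutQ`.
-/

set_option autoImplicit false

namespace Pool.Agent.Work.MP_d41d5f_lc

variable {P : Prm} {N : ℕ} {ty : Fin N → Bool} {F : Fin N → Finset Ed}

private theorem sub_card {ε ι : Type} [DecidableEq ε] (E : Finset ε) (C : Finset ι)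
    (F : ι → Finset ε) (X : Finset ε)
    (h : ∀ e ∈ X, e ∈ E ∧ ∀ a ∈ C, (F a).card = 1 → e ∉ F a) :
    X.card ≤ (E.filter fun e => ∀ a ∈ C, (F a).card = 1 → e ∉ F a).card :=
  Finset.card_le_card (fun e he => Finset.mem_filter.2 (h e he))

open Classical in
theorem bad_P (hg : P.Good) (h : IsFam P N ty F) (r : ℕ) (hN : P.R * (P.m + P.B) ≤ N + r)
    (i : ℕ) (hi : i ≤ P.R) :
    2 * ((Finset.range P.R ×ˢ Finset.range P.m).filter
      fun jα => ¬ goodP P ty F i jα.1 jα.2).card ≤ 3 * r := by
  have hinj : Function.Injective (fun t : ℕ × ℕ => Ed.p i t.1 t.2) := by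
    rintro ⟨a, b⟩ ⟨c, d⟩ hh
    simp only [Ed.p.injEq, true_and] at hh
    exact Prod.ext hh.1 hh.2
  have habs := abs_cut ((Finset.range P.R ×ˢ Finset.range P.m).image
    (fun t : ℕ × ℕ => Ed.p i t.1 t.2))
    (Finset.univ.filter fun a => cleanP P (ty a) (F a))
    (fun a => (F a).filter fun d => isP i d = true) r ?_ ?_ ?_ ?_
  · refine le_trans (Nat.mul_le_mul_left 2 ?_) habs
    rw [← Finset.card_image_of_injective _ hinj]
    refine sub_card _ _ _ _ ?_
    intro d hd
    obtain ⟨t, ht, rfl⟩ := Finset.mem_image.1 hd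
    rw [Finset.mem_filter] at ht
    refine ⟨Finset.mem_image_of_mem _ ht.1, ?_⟩
    intro a ha h1 h2
    exact ht.2 ⟨a, (Finset.mem_filter.1 ha).2, h1, (Finset.mem_filter.1 h2).1⟩
  · intro a _ d hd
    rw [Finset.mem_filter] at hd
    have hok := h.ok a d hd.1
    rcases d with ⟨i', j', x, y⟩ | ⟨i', j', x, y⟩ | ⟨i', j', α⟩ | ⟨i', j', β⟩
    · exact absurd hd.2 (by simp [isP])
    · exact absurd hd.2 (by simp [isP])
    · have hi' : i' = i := by simpa [isP] using hd.2
      subst hi'
      have hok' : i' ≤ P.R ∧ j' < P.R ∧ α < P.m := hok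
      refine Finset.mem_image.2 ⟨(j', α), ?_, rfl⟩
      rw [Finset.mem_product, Finset.mem_range, Finset.mem_range]
      exact hok'.2
    · exact absurd hd.2 (by simp [isP])
  · intro a _ b _ d h1 h2
    exact h.disj a b d (Finset.mem_filter.1 h1).1 (Finset.mem_filter.1 h2).1
  · intro a ha
    exact par_cutP hg h a (Finset.mem_filter.1 ha).2 i hi
  · rw [Finset.card_image_of_injective _ hinj, Finset.card_product, Finset.card_range,
      Finset.card_range]
    exact (clean_card hg h r hN).1

open Classical in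
theorem bad_Q (hg : P.Good) (h : IsFam P N ty F) (r : ℕ) (hN : P.R * (P.m + P.B) ≤ N + r)
    (j : ℕ) (hj : j ≤ P.R) :
    2 * ((Finset.range P.R ×ˢ Finset.range P.B).filter
      fun iβ => ¬ goodQ P ty F iβ.1 j iβ.2).card ≤ 3 * r := by
  have hinj : Function.Injective (fun t : ℕ × ℕ => Ed.q t.1 j t.2) := by
    rintro ⟨a, b⟩ ⟨c, d⟩ hh
    simp only [Ed.q.injEq, true_and] at hh
    exact Prod.ext hh.1 hh.2
  have habs := abs_cut ((Finset.range P.R ×ˢ Finset.range P.B).image
    (fun t : ℕ × ℕ => Ed.q t.1 j t.2))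
    (Finset.univ.filter fun a => cleanQ P (ty a) (F a))
    (fun a => (F a).filter fun d => isQ j d = true) r ?_ ?_ ?_ ?_
  · refine le_trans (Nat.mul_le_mul_left 2 ?_) habs
    rw [← Finset.card_image_of_injective _ hinj]
    refine sub_card _ _ _ _ ?_
    intro d hd
    obtain ⟨t, ht, rfl⟩ := Finset.mem_image.1 hd
    rw [Finset.mem_filter] at ht
    refine ⟨Finset.mem_image_of_mem _ ht.1, ?_⟩
    intro a ha h1 h2
    exact ht.2 ⟨a, (Finset.mem_filter.1 ha).2, h1, (Finset.mem_filter.1 h2).1⟩
  · intro a _ d hd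
    rw [Finset.mem_filter] at hd
    have hok := h.ok a d hd.1
    rcases d with ⟨i', j', x, y⟩ | ⟨i', j', x, y⟩ | ⟨i', j', α⟩ | ⟨i', j', β⟩
    · exact absurd hd.2 (by simp [isQ])
    · exact absurd hd.2 (by simp [isQ])
    · exact absurd hd.2 (by simp [isQ])
    · have hj' : j' = j := by simpa [isQ] using hd.2
      subst hj'
      have hok' : i' < P.R ∧ j' ≤ P.R ∧ β < P.B := hok
      refine Finset.mem_image.2 ⟨(i', β), ?_, rfl⟩
      rw [Finset.mem_product, Finset.mem_range, Finset.mem_range]
      exact ⟨hok'.1, hok'.2.2⟩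
  · intro a _ b _ d h1 h2
    exact h.disj a b d (Finset.mem_filter.1 h1).1 (Finset.mem_filter.1 h2).1
  · intro a ha
    exact par_cutQ hg h a (Finset.mem_filter.1 ha).2 j hj
  · rw [Finset.card_image_of_injective _ hinj, Finset.card_product, Finset.card_range,
      Finset.card_range]
    exact (clean_card hg h r hN).2

end Pool.Agent.Work.MP_d41d5f_lc
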