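import Pool.Agent.Work.MP_d41d5f_lc.ED.WvB

/-!
IslW (M-L): the weave through an island of size `a`: the strand of rank `κ` in row `ρ` crosses the
next `a` strands. (Checked by computer.)

Proof. Define the row of the strand of rank `k` after `t ≤ 2a` columns:
 `k < κ`: `k`;  `k = κ`: `ρ`;  `k > κ + a`: `ρ + (k - κ)`;
 `κ < k ≤ κ + a`, with `j = k - κ - 1 < a`:
   `ρ + 1 + j` if `t ≤ j`;  `ρ + 1 + 2 * j - t` if `j ≤ t ≤ 2 * j`;
   `max (ρ + 2 * j - t) (ρ - a + j)` if `2 * j + 1 ≤ t`.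
At `t = 0` this is `preR ρ κ k`, at `t = 2a` it is `postR ρ κ a k` (for `j < a` and `t = 2a`:
`ρ + 2j - 2a ≤ ρ - a + j`).
Let `h (x₀ + t) s` be this row for `k = r s`. Step in column `x₀ + t`, `t < 2a`:
rows `< H`: at most `ρ + n - 1 < H`, as `k < n`. Injective: the rows are strictly increasing in `k`
except that the strand of rank `κ` has row `ρ`; the strands `j` with `2 j + 1 ≤ t` are below `ρ`
(and at least `ρ - a ≥ κ`, above the strands of rank `< κ`), the others above `ρ`; for `j < j'` the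
row of `j` is smaller than the row of `j'` (piecewise, `omega`). Use that `r` is injective.
Vertical edges used: strand `j` moves from time `t` to `t + 1`:
 `t < j`: no movement. `j ≤ t < 2j`: from `ρ+1+2j-t` to `ρ+2j-t`, the edge `y = ρ+2j-t ≥ ρ`, and
 `y - ρ + t = 2j` is even. `t = 2j`: from `ρ+1` to `ρ-1`, the edges `y = ρ` (`0 + 2j` even) and
 `y = ρ - 1` (`ρ-1-y+t = 2j` even). `2j+1 ≤ t < a + j`: from `ρ+2j-t` to `ρ+2j-t-1`, the edge
 `y = ρ+2j-t-1 < ρ`, and `ρ-1-y+t = 2t-2j` is even. `a + j ≤ t`: no movement.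
Disjointness: all movements go down; for `j < j'` the row of `j` at time `t` is at most the row of
`j'` at time `t + 1` (single steps: rows are different integers; `t = 2j'`: the row of `j` at time
`t ≥ 2j+1` is at most `ρ - 1`), so the intervals are disjoint. Strands of other ranks do not move.
-/

set_option autoImplicit false

namespace Pool.Agent.Work.MP_d41d5f_lc

/-- The row of the strand of rank `k` after `t` columns. -/
private def rowI (ρ κ a k t : ℕ) : ℕ :=
  if k < κ then k else if k = κ then ρ else if κ + a < k then ρ + (k - κ)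
  else if t ≤ k - κ - 1 then ρ + (k - κ)
  else if t ≤ 2 * (k - κ - 1) then ρ + 1 + 2 * (k - κ - 1) - t
  else if t ≤ a + (k - κ - 1) then ρ + 2 * (k - κ - 1) - t
  else ρ - a + (k - κ - 1)

private theorem rowI_zero (ρ κ a k : ℕ) : rowI ρ κ a k 0 = preR ρ κ k := by
  unfold rowI preR
  split_ifs <;> omega

private theorem rowI_end (ρ κ a k : ℕ) (hκ : κ + a ≤ ρ) :
    rowI ρ κ a k (2 * a) = postR ρ κ a k := by
  unfold rowI postR
  split_ifs <;> omega

private theorem rowI_lt (ρ κ a k t n : ℕ) (hκ : κ + a ≤ ρ) (hk : k < n) : rowI ρ κ a k t < ρ + n := by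
  unfold rowI
  split_ifs <;> omega

private theorem rowI_inj (ρ κ a k k' t : ℕ) (hκ : κ + a ≤ ρ) (h : rowI ρ κ a k t = rowI ρ κ a k' t) :
    k = k' := by
  unfold rowI at h
  split_ifs at h <;> omega

/-- Rows weakly decrease. -/
private theorem rowI_mono (ρ κ a k t : ℕ) (hκ : κ + a ≤ ρ) :
    rowI ρ κ a k (t + 1) ≤ rowI ρ κ a k t := by
  unfold rowI
  split_ifs <;> omega

private theorem rowI_vert (ρ κ a k t y : ℕ) (hκ : κ + a ≤ ρ) (ht : t < 2 * a)
    (h1 : rowI ρ κ a k (t + 1) ≤ y) (h2 : y < rowI ρ κ a k t) :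
    (ρ ≤ y ∧ (y - ρ + t) % 2 = 0) ∨ (y < ρ ∧ (ρ - 1 - y + t) % 2 = 0) := by
  unfold rowI at h1 h2
  split_ifs at h1 h2 <;> omega

private theorem rowI_disj (ρ κ a k k' t : ℕ) (hκ : κ + a ≤ ρ) (hkk : k < k')
    (hm : rowI ρ κ a k (t + 1) < rowI ρ κ a k t) (hm' : rowI ρ κ a k' (t + 1) < rowI ρ κ a k' t) :
    rowI ρ κ a k t ≤ rowI ρ κ a k' (t + 1) := by
  unfold rowI at *
  split_ifs at * <;> omega

theorem island_wv {S : Type} (V : ℕ → ℕ → Prop) (H x₀ ρ κ a n : ℕ) (r : S → ℕ)
    (hr : Function.Injective r) (hn : ∀ s, r s < n) (hκ : κ + a ≤ ρ) (hH : ρ + n ≤ H)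
    (hV1 : ∀ t < 2 * a, ∀ y, ρ ≤ y → (y - ρ + t) % 2 = 0 → V (x₀ + t) y)
    (hV2 : ∀ t < 2 * a, ∀ y, y < ρ → (ρ - 1 - y + t) % 2 = 0 → V (x₀ + t) y) :
    Wv V H x₀ (x₀ + 2 * a) (fun s => preR ρ κ (r s)) (fun s => postR ρ κ a (r s)) := by
  refine ⟨fun x s => rowI ρ κ a (r s) (x - x₀), ?_, ?_, ?_⟩
  · funext s
    simp only [Nat.sub_self]
    exact rowI_zero _ _ _ _
  · funext s
    simp only [Nat.add_sub_cancel_left]
    exact rowI_end _ _ _ _ hκ
  · intro x hx0 hx1
    obtain ⟨t, rfl⟩ := Nat.exists_eq_add_of_le hx0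
    have ht : t < 2 * a := by omega
    have e1 : x₀ + t - x₀ = t := by omega
    have e2 : x₀ + t + 1 - x₀ = t + 1 := by omega
    simp only [e1, e2]
    constructor
    · intro s
      have := rowI_lt ρ κ a (r s) (t + 1) n hκ (hn s)
      omega
    · intro s s' h
      exact hr (rowI_inj ρ κ a _ _ (t + 1) hκ h)
    · intro s y hb
      have hm := rowI_mono ρ κ a (r s) t hκ
      simp only [Btw] at hb
      have hb' : rowI ρ κ a (r s) (t + 1) ≤ y ∧ y < rowI ρ κ a (r s) t := by
        rcases hb with hb | hb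
        · omega
        · exact hb
      rcases rowI_vert ρ κ a (r s) t y hκ ht hb'.1 hb'.2 with ⟨h1, h2⟩ | ⟨h1, h2⟩
      · exact hV1 t ht y h1 h2
      · exact hV2 t ht y h1 h2
    · intro s s' y hne hb hb'
      have hm := rowI_mono ρ κ a (r s) t hκ
      have hm' := rowI_mono ρ κ a (r s') t hκ
      simp only [Btw] at hb hb'
      have hb1 : rowI ρ κ a (r s) (t + 1) ≤ y ∧ y < rowI ρ κ a (r s) t := by
        rcases hb with hb | hb
        · omega
        · exact hb
      have hb2 : rowI ρ κ a (r s') (t + 1) ≤ y ∧ y < rowI ρ κ a (r s') t := by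
        rcases hb' with hb | hb
        · omega
        · exact hb
      have hrne : r s ≠ r s' := fun h => hne (hr h)
      rcases Nat.lt_or_gt_of_ne hrne with h | h
      · have := rowI_disj ρ κ a _ _ t hκ h (by omega) (by omega)
        omega
      · have := rowI_disj ρ κ a _ _ t hκ h (by omega) (by omega)
        omega

end Pool.Agent.Work.MP_d41d5f_lc
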