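import Pool.Agent.Work.MP_d41d5f_lc.ED.BDefs

/-!
Rank (M): ranks of the strands. (Checked by computer.)

Let `c` be increasing on `[0, m)` (hypothesis `hc`, extended to `c i ≤ c j` for `i ≤ j < m` by
induction), `c j ≤ B`. Put `N b = card {j < m | c j ≤ b}`; because `c` is increasing this set is
the initial segment `[0, N b)`: `c j ≤ b ↔ j < N b` for `j < m`. `N b ≤ m`, `N` is monotone.
`rk_lt`: `α + c α ≤ (m-1) + B`; `β + N β ≤ (B-1) + m`.
`rk_inj`: `α ↦ α + c α` and `β ↦ β + N β` are strictly increasing; and for `α`, `β`: if `c α ≤ β`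
then `α < N β`, so `α + c α < β + N β`; if `β < c α` then `N β ≤ α`, so
`β + N β < α + c α`.
`rk_zero` (`c = 0`): `N β = m`: ranks `α` and `β + m`. `rk_full` (`c j = B` for `j < m`):
`N β = 0`: ranks `α + B`, `β`.
`rk_step`: `c'` is `c` with `c' j₀ = c j₀ + a`, all other values on `[0, m)` equal, both increasing,
`κ = j₀ + c j₀`. Strand `inl α`: for `α = j₀` the rank changes from `κ` to `κ + a`. For `α ≠ j₀` it
does not change, and it is `< κ` if `α < j₀` (`c α ≤ c j₀`) and `> κ + a` if `α > j₀`
(`c' j₀ = c j₀ + a ≤ c' α = c α`, as `c'` is increasing). Strand `inr β`: `N' β = N β` unless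
`c j₀ ≤ β < c j₀ + a`, and then `N' β = N β - 1`. In that case `N β = j₀ + 1`: `j₀ < N β` since
`c j₀ ≤ β`, and for `j₀ < j < m`: `c j = c' j ≥ c j₀ + a > β`, so `N β ≤ j₀ + 1`; hence
`rk c (inr β) = β + j₀ + 1 ∈ (κ, κ + a]` and the new rank is one less. If `β < c j₀` then
`N β ≤ j₀` and the rank is `< κ`; if `c j₀ + a ≤ β` then `N β ≥ j₀ + 1` and the rank is
`≥ c j₀ + a + j₀ + 1 > κ + a`.
-/

set_option autoImplicit false

namespace Pool.Agent.Work.MP_d41d5f_lc

private def NN (m : ℕ) (c : ℕ → ℕ) (b : ℕ) : ℕ := ((Finset.range m).filter fun j => c j ≤ b).card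

private theorem NN_le (m : ℕ) (c : ℕ → ℕ) (b : ℕ) : NN m c b ≤ m := by
  unfold NN
  exact (Finset.card_filter_le _ _).trans (Finset.card_range m).le

private theorem mono_le {m : ℕ} {c : ℕ → ℕ} (hc : ∀ j, j + 1 < m → c j ≤ c (j + 1)) :
    ∀ k i, i + k < m → c i ≤ c (i + k) := by
  intro k
  induction k with
  | zero => intro i _; exact le_rfl
  | succ k ih =>
    intro i hi
    exact (ih i (by omega)).trans (hc (i + k) (by omega))

private theorem mono' {m : ℕ} {c : ℕ → ℕ} (hc : ∀ j, j + 1 < m → c j ≤ c (j + 1)) {i j : ℕ}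
    (hij : i ≤ j) (hj : j < m) : c i ≤ c j := by
  have := mono_le hc (j - i) i (by omega)
  have e : i + (j - i) = j := by omega
  rwa [e] at this

private theorem seg {m : ℕ} {c : ℕ → ℕ} (hc : ∀ j, j + 1 < m → c j ≤ c (j + 1)) (b j : ℕ)
    (hj : j < m) : c j ≤ b ↔ j < NN m c b := by
  constructor
  · intro h
    have hsub : Finset.range (j + 1) ⊆ (Finset.range m).filter fun j => c j ≤ b := by
      intro i hi
      rw [Finset.mem_range] at hi
      rw [Finset.mem_filter, Finset.mem_range]
      exact ⟨by omega, (mono' hc (by omega) hj).trans h⟩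
    have := Finset.card_le_card hsub
    rw [Finset.card_range] at this
    exact this
  · intro h
    by_contra hcon
    have hsub : ((Finset.range m).filter fun j => c j ≤ b) ⊆ Finset.range j := by
      intro i hi
      rw [Finset.mem_filter, Finset.mem_range] at hi
      rw [Finset.mem_range]
      by_contra hij
      exact hcon ((mono' hc (by omega) hi.1).trans hi.2)
    have := Finset.card_le_card hsub
    rw [Finset.card_range] at this
    unfold NN at h
    omega

private theorem NN_mono (m : ℕ) (c : ℕ → ℕ) {b b' : ℕ} (h : b ≤ b') : NN m c b ≤ NN m c b' := by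
  unfold NN
  refine Finset.card_le_card ?_
  intro j hj
  rw [Finset.mem_filter] at hj ⊢
  exact ⟨hj.1, hj.2.trans h⟩

private theorem rk_l (P : Prm) (c : ℕ → ℕ) (α : Fin P.m) : rk P c (.inl α) = α + c α := rfl

private theorem rk_r (P : Prm) (c : ℕ → ℕ) (β : Fin P.B) :
    rk P c (.inr β) = β + NN P.m c β := rfl

theorem rk_lt (P : Prm) (c : ℕ → ℕ) (hB : ∀ j < P.m, c j ≤ P.B) (s : Fin P.m ⊕ Fin P.B) :
    rk P c s < P.m + P.B := by
  rcases s with α | β
  · rw [rk_l]
    have h1 := α.2
    have h2 := hB α h1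
    omega
  · rw [rk_r]
    have h1 := β.2
    have h2 := NN_le P.m c β
    omega

theorem rk_inj (P : Prm) (c : ℕ → ℕ) (hc : ∀ j, j + 1 < P.m → c j ≤ c (j + 1)) :
    Function.Injective (rk P c) := by
  have key : ∀ (α : Fin P.m) (β : Fin P.B), rk P c (.inl α) ≠ rk P c (.inr β) := by
    intro α β h
    rw [rk_l, rk_r] at h
    have h1 := seg hc β α α.2
    by_cases h2 : c α ≤ β
    · have := h1.1 h2
      omega
    · have : ¬ ((α : ℕ) < NN P.m c β) := fun h3 => h2 (h1.2 h3)
      omega
  intro s s' h
  rcases s with α | β <;> rcases s' with α' | β'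
  · rw [rk_l, rk_l] at h
    congr 1
    apply Fin.ext
    rcases Nat.lt_trichotomy (α : ℕ) α' with h1 | h1 | h1
    · have := mono' hc h1.le α'.2
      omega
    · exact h1
    · have := mono' hc h1.le α.2
      omega
  · exact absurd h (key α β')
  · exact absurd h.symm (key α' β)
  · rw [rk_r, rk_r] at h
    congr 1
    apply Fin.ext
    rcases Nat.lt_trichotomy (β : ℕ) β' with h1 | h1 | h1
    · have := NN_mono P.m c h1.le
      omega
    · exact h1
    · have := NN_mono P.m c h1.le
      omega

theorem rk_zero (P : Prm) (c : ℕ → ℕ) (h : ∀ j < P.m, c j = 0) (s : Fin P.m ⊕ Fin P.B) :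
    rk P c s = match s with | .inl α => (α : ℕ) | .inr β => β + P.m := by
  rcases s with α | β
  · show rk P c (.inl α) = α
    rw [rk_l, h α α.2]
    rfl
  · show rk P c (.inr β) = β + P.m
    rw [rk_r]
    unfold NN
    rw [Finset.filter_true_of_mem, Finset.card_range]
    intro j hj
    rw [h j (Finset.mem_range.1 hj)]
    exact Nat.zero_le _

theorem rk_full (P : Prm) (c : ℕ → ℕ) (h : ∀ j < P.m, c j = P.B) (s : Fin P.m ⊕ Fin P.B) :
    rk P c s = match s with | .inl α => (α : ℕ) + P.B | .inr β => (β : ℕ) := by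
  rcases s with α | β
  · show rk P c (.inl α) = α + P.B
    rw [rk_l, h α α.2]
  · show rk P c (.inr β) = β
    rw [rk_r]
    unfold NN
    rw [Finset.filter_false_of_mem, Finset.card_empty, Nat.add_zero]
    intro j hj
    rw [h j (Finset.mem_range.1 hj)]
    have := β.2
    omega

theorem rk_step (P : Prm) (c c' : ℕ → ℕ) (j₀ a : ℕ) (hj : j₀ < P.m)
    (hc : ∀ j, j + 1 < P.m → c j ≤ c (j + 1)) (hc' : ∀ j, j + 1 < P.m → c' j ≤ c' (j + 1))
    (h1 : c' j₀ = c j₀ + a) (h2 : ∀ j < P.m, j ≠ j₀ → c' j = c j) (s : Fin P.m ⊕ Fin P.B) :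
    rk P c' s = if rk P c s < j₀ + c j₀ then rk P c s
      else if rk P c s = j₀ + c j₀ then j₀ + c j₀ + a
      else if rk P c s ≤ j₀ + c j₀ + a then rk P c s - 1 else rk P c s := by
  rcases s with α | β
  · rw [rk_l, rk_l]
    rcases Nat.lt_trichotomy (α : ℕ) j₀ with h3 | h3 | h3
    · have h4 := mono' hc h3.le hj
      have h5 := h2 α α.2 (by omega)
      rw [h5, if_pos (by omega)]
    · rw [h3, h1, if_neg (by omega), if_pos rfl]
      omega
    · have h4 := mono' hc' h3.le α.2
      have h5 := h2 α α.2 (by omega)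
      rw [h1, h5] at h4
      rw [h5, if_neg (by omega), if_neg (by omega), if_neg (by omega)]
  · rw [rk_r, rk_r]
    have k1 := seg hc β j₀ hj
    have k2 := seg hc' β j₀ hj
    have hN := NN_le P.m c β
    have hN' := NN_le P.m c' β
    have hsame : ((c j₀ ≤ β) ↔ (c' j₀ ≤ β)) → NN P.m c' β = NN P.m c β := by
      intro hiff
      unfold NN
      refine congrArg Finset.card (Finset.filter_congr ?_)
      intro j hj'
      rw [Finset.mem_range] at hj'
      by_cases hjj : j = j₀
      · rw [hjj]
        exact hiff.symm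
      · rw [h2 j hj' hjj]
    by_cases ha : c j₀ ≤ β
    · by_cases hb : c j₀ + a ≤ β
      · have he := hsame ⟨fun _ => by omega, fun _ => ha⟩
        have h3 := k1.1 ha
        rw [he, if_neg (by omega), if_neg (by omega), if_neg (by omega)]
      · have h3 := k1.1 ha
        have h4 : NN P.m c β ≤ j₀ + 1 := by
          by_cases hm : j₀ + 1 < P.m
          · have k3 := seg hc β (j₀ + 1) hm
            have k4 := mono' hc' (show j₀ ≤ j₀ + 1 by omega) hm
            have k5 := h2 (j₀ + 1) hm (by omega)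
            have k6 : ¬ c (j₀ + 1) ≤ β := by omega
            have k7 : ¬ (j₀ + 1 < NN P.m c β) := fun h => k6 (k3.2 h)
            omega
          · omega
        have h5 : NN P.m c' β ≤ j₀ := by
          have k6 : ¬ c' j₀ ≤ β := by omega
          have k7 : ¬ (j₀ < NN P.m c' β) := fun h => k6 (k2.2 h)
          omega
        have h6 : j₀ ≤ NN P.m c' β := by
          rcases Nat.eq_zero_or_pos j₀ with h0 | h0
          · omega
          · have k3 := seg hc' β (j₀ - 1) (by omega)
            have k5 := h2 (j₀ - 1) (by omega) (by omega)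
            have k4 := mono' hc (show j₀ - 1 ≤ j₀ by omega) hj
            have := k3.1 (by omega)
            omega
        have e1 : NN P.m c β = j₀ + 1 := by omega
        have e2 : NN P.m c' β = j₀ := by omega
        rw [e1, e2, if_neg (by omega), if_neg (by omega), if_pos (by omega)]
        omega
    · have he := hsame ⟨fun h => absurd h ha, fun h => by omega⟩
      have h3 : ¬ (j₀ < NN P.m c β) := fun h => ha (k1.2 h)
      rw [he, if_pos (by omega)]

end Pool.Agent.Work.MP_d41d5f_lc
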