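import Pool.Agent.Work.MP_d41d5f_lc.ED.Respace
import Pool.Agent.Work.MP_d41d5f_lc.ED.IslW
import Pool.Agent.Work.MP_d41d5f_lc.ED.Rank

/-!
BlkW (M-L): the weave of a block from an ordered perfect packing. (Checked by computer.)

Notation: `n = a.length`, `L = m + B`, `ρ = P.rho = L + a.sum`, `H = 2ρ+1`,
`T = 2 * (a.sum + L * (H+1))`, `V x y = (P.vert x y = true)`, `c t j = load P.a f t j`,
`rk_t = rk P (c t)`. The loads satisfy: `c t j ≤ B` (increasing in `t`, and `c n j = B`), `c t` is
increasing on `[0, m)` (`OrdPack`), `c 0 = 0`, and for `t < n`: `c (t+1) (f t) = c t (f t) + a t`,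
`c (t+1) j = c t j` for `j ≠ f t`, `f t < m`, with `a t = P.a.getD t 0`.
Put `κ t = f t + c t (f t)` and for `t < n` let `pre t = fun s => preR ρ (κ t) (rk_t s)`, and
`pre n = P.endR`.
Claim: for every `t ≤ n`: `Wv V H 0 ((t+1) * T) P.startR (pre t)`. Induction on `t`.
`t = 0`: there is no island in the first period (`isz 0 = 0`), so `V x y` holds in the columns
`x < T` whenever `x + y` is even. `startR s = φ (rk_0 s)` with `φ k = if k < m then k else
H - B + (k - m)` (by `rk_zero`), strictly increasing for `k < L`; `pre 0` is also a strictly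
increasing function of `rk_0` (for `n > 0` it is `preR ρ κ`; for `n = 0`, `pre 0 = endR` and the
ranks are also given by `rk_full` since `c 0 = c n`; so `endR s = ψ (rk_n s)` with
`ψ k = if k < B then k else H - m + (k - B)`). So the two configurations are injective and have the
same order, and `respace` applies: `card S = L` and `L * (H+1) ≤ T`.
Step `t → t + 1` (`t < n`): by hypothesis we are at column `x₀ = (t+1) * T` in configuration
`pre t`. In the columns `x₀ + r`, `r < 2 * a t` (note `2 * a t ≤ 2 * a.sum < T`),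
`x / T = t + 1`, `x % T = r`, `isz (t+1) = a t`, so `V` is the island pattern of `island_wv`, which
gives a weave to `fun s => postR ρ (κ t) (a t) (rk_t s)` (hypotheses: `κ t + a t ≤ (m-1) + B
+ a.sum ≤ ρ`; `n := L`, `ρ + L ≤ H`). By `rk_step` this configuration is a strictly increasing
function of `rk_{t+1}`: with `k' = rk_{t+1} s`: `k'` if `k' < κ`; `ρ - a + (k' - κ)` if
`κ ≤ k' < κ + a`; `ρ` if `k' = κ + a`; `ρ + (k' - κ)` if `k' > κ + a`. So it has the same order as
`pre (t+1)` (a strictly increasing function of `rk_{t+1}`, using `rk_full` and `endR` when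
`t + 1 = n`). In the columns from `x₀ + 2 * a t` to `(t+2) * T` the pattern is the brick wall
(`r ≥ 2 * isz`), and there are at least `T - 2 * a.sum ≥ L * (H+1)` of them: `respace`.
For `t = n` this is the statement, since `W = (n+1) * T`.
-/

set_option autoImplicit false

namespace Pool.Agent.Work.MP_d41d5f_lc

private theorem bw_load_succ (a : List ℕ) (f : ℕ → ℕ) (t j : ℕ) :
    load a f (t + 1) j = load a f t j + if f t = j then a.getD t 0 else 0 := by
  unfold load
  rw [Finset.range_add_one, Finset.filter_insert]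
  split_ifs with h
  · rw [Finset.sum_insert (by simp)]
    ring
  · simp

private theorem bw_load_mono (a : List ℕ) (f : ℕ → ℕ) {t t' : ℕ} (h : t ≤ t') (j : ℕ) :
    load a f t j ≤ load a f t' j := by
  unfold load
  refine Finset.sum_le_sum_of_subset ?_
  exact Finset.filter_subset_filter _ (Finset.range_mono h)

private theorem bw_divmod {T q r : ℕ} (hr : r < T) : (q * T + r) / T = q ∧
    (q * T + r) % T = r := by
  have hT : 0 < T := by omega
  exact (Nat.div_mod_unique hT).2 ⟨by ring, hr⟩

private theorem bw_brick (P : Prm) (q x y : ℕ) (h1 : q * P.T + 2 * P.isz q ≤ x)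
    (h2 : x < (q + 1) * P.T) (h : (x + y) % 2 = 0) : P.vert x y = true := by
  obtain ⟨r, rfl⟩ : ∃ r, x = q * P.T + r := ⟨x - q * P.T, by omega⟩
  have hr : r < P.T := by
    rw [add_mul, one_mul] at h2
    omega
  have hd := bw_divmod (q := q) hr
  unfold Prm.vert
  rw [hd.1, hd.2, if_neg (by omega)]
  exact decide_eq_true h

private theorem bw_isl1 (P : Prm) (q r y : ℕ) (hr : r < 2 * P.isz q)
    (hT : 2 * P.isz q ≤ P.T) (hy : P.rho ≤ y) (h : (y - P.rho + r) % 2 = 0) :
    P.vert (q * P.T + r) y = true := by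
  have hd := bw_divmod (q := q) (lt_of_lt_of_le hr hT)
  unfold Prm.vert
  rw [hd.1, hd.2, if_pos hr, if_pos hy]
  exact decide_eq_true h

private theorem bw_isl2 (P : Prm) (q r y : ℕ) (hr : r < 2 * P.isz q)
    (hT : 2 * P.isz q ≤ P.T) (hy : y < P.rho) (h : (P.rho - 1 - y + r) % 2 = 0) :
    P.vert (q * P.T + r) y = true := by
  have hd := bw_divmod (q := q) (lt_of_lt_of_le hr hT)
  unfold Prm.vert
  rw [hd.1, hd.2, if_pos hr, if_neg (by omega)]
  exact decide_eq_true h

private theorem bw_inj {S : Type} {p r : S → ℕ} (hr : Function.Injective r)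
    (h : ∀ s s', p s < p s' ↔ r s < r s') : Function.Injective p := by
  intro s s' hs
  refine hr ?_
  have h1 : ¬ r s < r s' := fun k => by
    have := (h s s').2 k
    omega
  have h2 : ¬ r s' < r s := fun k => by
    have := (h s' s).2 k
    omega
  omega

private theorem bw_pre {ρ κ k k' : ℕ} (h : κ ≤ ρ) : preR ρ κ k < preR ρ κ k' ↔ k < k' := by
  unfold preR
  split_ifs <;> omega

private theorem bw_post {ρ κ a k k' : ℕ} (h : κ + a ≤ ρ) :
    postR ρ κ a k < postR ρ κ a k' ↔
      (if k < κ then k else if k = κ then κ + a else if k ≤ κ + a then k - 1 else k) <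
        (if k' < κ then k' else if k' = κ then κ + a else if k' ≤ κ + a then k' - 1 else k') := by
  unfold postR
  split_ifs <;> omega

theorem block_weave (P : Prm) (hg : P.Good) (f : ℕ → ℕ) (hf : OrdPack P.m P.B P.a f) :
    Wv (fun x y => P.vert x y = true) P.H 0 P.W P.startR P.endR := by
  have hm := hg.hm
  have hB := hg.hB
  obtain ⟨hf1, hf2, hf3⟩ := hf
  -- numbers
  have hρ : P.rho = P.m + P.B + P.a.sum := rfl
  have hH : P.H = 2 * P.rho + 1 := rfl
  have hT : P.T = 2 * (P.a.sum + (P.m + P.B) * (P.H + 1)) := rfl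
  obtain ⟨X, hX⟩ : ∃ X, X = (P.m + P.B) * (P.H + 1) := ⟨_, rfl⟩
  have hTX : P.T = 2 * P.a.sum + 2 * X := by rw [hT, hX]; ring
  have hX1 : (P.m + P.B) * 2 ≤ X := by
    rw [hX]
    exact Nat.mul_le_mul_left _ (by omega)
  have hcard : Fintype.card (Fin P.m ⊕ Fin P.B) * (P.H + 1) = X := by
    rw [hX]
    simp
  -- loads
  obtain ⟨c, hc⟩ : ∃ c : ℕ → ℕ → ℕ, ∀ t j, c t j = load P.a f t j := ⟨_, fun _ _ => rfl⟩
  have hcm : ∀ t ≤ P.a.length, ∀ j, j + 1 < P.m → c t j ≤ c t (j + 1) := by
    intro t ht j hj
    rw [hc, hc]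
    exact hf3 t ht j hj
  have hcB : ∀ t ≤ P.a.length, ∀ j < P.m, c t j ≤ P.B := by
    intro t ht j hj
    rw [hc, ← hf2 j hj]
    exact bw_load_mono _ _ ht j
  have hcs : ∀ t, c (t + 1) (f t) = c t (f t) + P.a.getD t 0 := by
    intro t
    rw [hc, hc, bw_load_succ, if_pos rfl]
  have hcs' : ∀ t j, j ≠ f t → c (t + 1) j = c t j := by
    intro t j hj
    rw [hc, hc, bw_load_succ, if_neg (fun h => hj h.symm), add_zero]
  have hinj : ∀ t ≤ P.a.length, Function.Injective (rk P (c t)) := fun t ht =>
    rk_inj P (c t) (hcm t ht)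
  have hrlt : ∀ t ≤ P.a.length, ∀ s, rk P (c t) s < P.m + P.B := fun t ht s =>
    rk_lt P (c t) (hcB t ht) s
  -- the place of the island
  obtain ⟨κ, hκ⟩ : ∃ κ : ℕ → ℕ, ∀ t, κ t = f t + c t (f t) := ⟨_, fun _ => rfl⟩
  have hκa : ∀ t < P.a.length, κ t + P.a.getD t 0 ≤ P.rho ∧ P.a.getD t 0 ≤ P.B := by
    intro t ht
    have h1 := hf1 t ht
    have h2 := hcB (t + 1) ht (f t) h1
    rw [hcs] at h2
    rw [hκ]
    omega
  obtain ⟨pre, hpre1, hpre2⟩ : ∃ pre : ℕ → Fin P.m ⊕ Fin P.B → ℕ,
      (∀ t < P.a.length, pre t = fun s => preR P.rho (κ t) (rk P (c t) s)) ∧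
      pre P.a.length = P.endR := by
    refine ⟨fun t => if t < P.a.length then (fun s => preR P.rho (κ t) (rk P (c t) s))
      else P.endR, fun t ht => if_pos ht, if_neg (lt_irrefl _)⟩
  have hstart : (∀ s s', P.startR s < P.startR s' ↔ rk P (c 0) s < rk P (c 0) s') ∧
      ∀ s, P.startR s < P.H := by
    have h0 : ∀ j < P.m, c 0 j = 0 := fun j _ => by
      rw [hc]
      simp [load]
    constructor
    · intro s s'
      rw [rk_zero P (c 0) h0, rk_zero P (c 0) h0]
      rcases s with s | s <;> rcases s' with s' | s' <;> simp only [Prm.startR] <;>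
        have h1 := s.2 <;> have h2 := s'.2 <;> omega
    · intro s
      rcases s with s | s <;> simp only [Prm.startR] <;> have h1 := s.2 <;> omega
  have hend : (∀ s s', P.endR s < P.endR s' ↔
      rk P (c P.a.length) s < rk P (c P.a.length) s') ∧ ∀ s, P.endR s < P.H := by
    have h0 : ∀ j < P.m, c P.a.length j = P.B := fun j hj => by
      rw [hc]
      exact hf2 j hj
    constructor
    · intro s s'
      rw [rk_full P _ h0, rk_full P _ h0]
      rcases s with s | s <;> rcases s' with s' | s' <;> simp only [Prm.endR] <;>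
        have h1 := s.2 <;> have h2 := s'.2 <;> omega
    · intro s
      rcases s with s | s <;> simp only [Prm.endR] <;> have h1 := s.2 <;> omega
  have hpre : ∀ t ≤ P.a.length, (∀ s s', pre t s < pre t s' ↔ rk P (c t) s < rk P (c t) s') ∧
      ∀ s, pre t s < P.H := by
    intro t ht
    rcases Nat.lt_or_ge t P.a.length with h | h
    · rw [hpre1 t h]
      have h1 := (hκa t h).1
      refine ⟨fun s s' => bw_pre (by omega), fun s => ?_⟩
      have h2 := hrlt t ht s
      show preR P.rho (κ t) (rk P (c t) s) < P.H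
      unfold preR
      split_ifs <;> omega
    · have h' : t = P.a.length := le_antisymm ht h
      rw [h', hpre2]
      exact hend
  -- the claim
  have hTle : ∀ t, (t + 1) * P.T ≤ (t + 1 + 1) * P.T := fun t =>
    Nat.mul_le_mul_right _ (by omega)
  have key : ∀ t ≤ P.a.length,
      Wv (fun x y => P.vert x y = true) P.H 0 ((t + 1) * P.T) P.startR (pre t) := by
    intro t
    induction t with
    | zero =>
      intro ht
      obtain ⟨k1, k2⟩ := hpre 0 ht
      refine respace _ _ _ _ _ _ (bw_inj (hinj 0 ht) hstart.1) (bw_inj (hinj 0 ht) k1)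
        hstart.2 k2 (fun s s' => (hstart.1 s s').trans (k1 s s').symm) ?_ ?_
      · rw [hcard, zero_add, zero_add, one_mul]
        omega
      · intro x _ h2 y h3
        refine bw_brick P 0 x y ?_ h2 h3
        have h4 : P.isz 0 = 0 := rfl
        rw [h4]
        omega
    | succ t ih =>
      intro ht
      have ht' : t < P.a.length := ht
      have h1 := ih ht'.le
      rw [hpre1 t ht'] at h1
      obtain ⟨k1, k2⟩ := hpre (t + 1) ht
      obtain ⟨a1, a2⟩ := hκa t ht'
      have hisz : P.isz (t + 1) = P.a.getD t 0 := rfl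
      have hTa : 2 * P.isz (t + 1) ≤ P.T := by
        rw [hisz]
        omega
      have h2 : Wv (fun x y => P.vert x y = true) P.H ((t + 1) * P.T)
          ((t + 1) * P.T + 2 * P.a.getD t 0) (fun s => preR P.rho (κ t) (rk P (c t) s))
          (fun s => postR P.rho (κ t) (P.a.getD t 0) (rk P (c t) s)) := by
        refine island_wv _ _ _ _ _ _ (P.m + P.B) _ (hinj t ht'.le) (hrlt t ht'.le) a1
          (by omega) ?_ ?_
        · intro r hr y hy h3
          exact bw_isl1 P (t + 1) r y (by rw [hisz]; exact hr) hTa hy h3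
        · intro r hr y hy h3
          exact bw_isl2 P (t + 1) r y (by rw [hisz]; exact hr) hTa hy h3
      have hstep : ∀ s, rk P (c (t + 1)) s = if rk P (c t) s < κ t then rk P (c t) s
          else if rk P (c t) s = κ t then κ t + P.a.getD t 0
          else if rk P (c t) s ≤ κ t + P.a.getD t 0 then rk P (c t) s - 1
          else rk P (c t) s := by
        intro s
        rw [hκ]
        exact rk_step P (c t) (c (t + 1)) (f t) (P.a.getD t 0) (hf1 t ht') (hcm t ht'.le)
          (hcm (t + 1) ht) (hcs t) (fun j _ hj => hcs' t j hj) s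
      have hpost : ∀ s s', postR P.rho (κ t) (P.a.getD t 0) (rk P (c t) s) <
          postR P.rho (κ t) (P.a.getD t 0) (rk P (c t) s') ↔
          rk P (c (t + 1)) s < rk P (c (t + 1)) s' := by
        intro s s'
        rw [hstep s, hstep s']
        exact bw_post a1
      have hpostH : ∀ s, postR P.rho (κ t) (P.a.getD t 0) (rk P (c t) s) < P.H := by
        intro s
        have h4 := hrlt t ht'.le s
        unfold postR
        split_ifs <;> omega
      have hcols : (t + 1) * P.T + 2 * P.a.getD t 0 + X ≤ (t + 1 + 1) * P.T := by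
        have h5 : (t + 1 + 1) * P.T = (t + 1) * P.T + P.T := by ring
        rw [h5]
        omega
      have h3 : Wv (fun x y => P.vert x y = true) P.H ((t + 1) * P.T + 2 * P.a.getD t 0)
          ((t + 1 + 1) * P.T) (fun s => postR P.rho (κ t) (P.a.getD t 0) (rk P (c t) s))
          (pre (t + 1)) := by
        refine respace _ _ _ _ _ _ (bw_inj (hinj (t + 1) ht) hpost)
          (bw_inj (hinj (t + 1) ht) k1) hpostH k2
          (fun s s' => (hpost s s').trans (k1 s s').symm) ?_ ?_
        · rw [hcard]
          exact hcols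
        · intro x k3 k4 y k5
          exact bw_brick P (t + 1) x y (by rw [hisz]; exact k3) k4 k5
      refine wv_trans (Nat.zero_le _) ?_ (wv_trans (Nat.zero_le _) ?_ h1 h2) h3
      · omega
      · omega
  have h := key P.a.length le_rfl
  rw [hpre2] at h
  exact h

end Pool.Agent.Work.MP_d41d5f_lc
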