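import Pool.Agent.Work.MP_d41d5f_lc.ED.EndsI

/-!
CapE (M): the edge list has no repetitions, and the degrees of the terminals.

Proof. `edges_nodup`: the list is a concatenation of four lists, each the image under `ends` of a
list of typed edges without repetitions. Formally: let `tl` be the same list with `Ed` elements
(without `ends`), so `edges = tl.map P.ends` (`List.map_append`, `List.map_flatMap`,
`List.map_map`); `tl` is nodup (`List.nodup_append`, `List.nodup_flatMap`, ranges; different
constructors), all its members are valid, and `ends` is injective on valid edges (`ends_inj`), so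
the image is nodup (`List.Nodup.map_on`).
`deg_zero`: the valid edges with an end `[0]` are the `p 0 j α`, `j < R`, `α < m` (the left end of
`p i j α` is `[0]` iff `i = 0`; no right end is `[0]`; no block vertex is a singleton). Since the list
is nodup, `deg` is the number of elements of the set `{ends (p 0 j α)}`, that is `R * m`
(`ends_inj`). `deg_two`: `[2]` is the left end of `q i 0 β`: `R * B` edges. `deg_big`: no valid
edge has an end `[c]` with `4 ≤ c`.
`cap_arr`: `cap (arr k P) = ∑ l < k, deg [2 l] = R m + R B + 0 + ... + 0`.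
-/

set_option autoImplicit false

namespace Pool.Agent.Work.MP_d41d5f_lc

private theorem nodup_fm {α β : Type*} {l : List α} {f : α → List β} (hl : l.Nodup)
    (hf : ∀ x ∈ l, (f x).Nodup) (g : β → α) (hg : ∀ x ∈ l, ∀ b ∈ f x, g b = x) :
    (l.flatMap f).Nodup := by
  rw [List.nodup_flatMap]
  refine ⟨hf, List.Pairwise.imp_of_mem ?_ hl⟩
  intro x y hx hy hne b hb hb'
  exact hne ((hg x hx b hb).symm.trans (hg y hy b hb'))

private def p1 : Ed → ℕ
  | .h i _ _ _ => i
  | .v i _ _ _ => i
  | .p i _ _ => i
  | .q i _ _ => i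

private def p2 : Ed → ℕ
  | .h _ j _ _ => j
  | .v _ j _ _ => j
  | .p _ j _ => j
  | .q _ j _ => j

private def p3 : Ed → ℕ
  | .h _ _ x _ => x
  | .v _ _ x _ => x
  | .p _ _ α => α
  | .q _ _ β => β

/-- The list of the edges as typed edges. -/
private def tl (P : Prm) : List Ed :=
  ((List.range P.R).flatMap fun i => (List.range P.R).flatMap fun j =>
    (List.range (P.W - 1)).flatMap fun x => (List.range P.H).map fun y => Ed.h i j x y) ++
  (((List.range P.R).flatMap fun i => (List.range P.R).flatMap fun j =>
    (List.range P.W).flatMap fun x =>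
      ((List.range (P.H - 1)).filter fun y => P.vert x y).map fun y => Ed.v i j x y) ++
  (((List.range (P.R + 1)).flatMap fun i => (List.range P.R).flatMap fun j =>
    (List.range P.m).map fun α => Ed.p i j α) ++
  ((List.range P.R).flatMap fun i => (List.range (P.R + 1)).flatMap fun j =>
    (List.range P.B).map fun β => Ed.q i j β)))

private theorem edges_eq (P : Prm) : P.edges = (tl P).map P.ends := by
  simp only [Prm.edges, tl, List.map_append, List.map_flatMap, List.map_map, Function.comp_def]

private theorem mem_tl (P : Prm) (d : Ed) : d ∈ tl P ↔ P.ok d := by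
  simp only [tl, List.mem_append, List.mem_flatMap, List.mem_map, List.mem_filter,
    List.mem_range]
  constructor
  · rintro (⟨i, hi, j, hj, x, hx, y, hy, rfl⟩ | ⟨i, hi, j, hj, x, hx, y, ⟨hy, hv⟩, rfl⟩ |
      ⟨i, hi, j, hj, α, hα, rfl⟩ | ⟨i, hi, j, hj, β, hβ, rfl⟩)
    · exact ⟨hi, hj, by omega, hy⟩
    · exact ⟨hi, hj, hx, by omega, hv⟩
    · exact ⟨by omega, hj, hα⟩
    · exact ⟨hi, by omega, hβ⟩
  · intro hd
    cases d with
    | h i j x y =>
      obtain ⟨h1, h2, h3, h4⟩ := hd
      exact Or.inl ⟨i, h1, j, h2, x, by omega, y, h4, rfl⟩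
    | v i j x y =>
      obtain ⟨h1, h2, h3, h4, h5⟩ := hd
      exact Or.inr (Or.inl ⟨i, h1, j, h2, x, h3, y, ⟨by omega, h5⟩, rfl⟩)
    | p i j α =>
      obtain ⟨h1, h2, h3⟩ := hd
      exact Or.inr (Or.inr (Or.inl ⟨i, by omega, j, h2, α, h3, rfl⟩))
    | q i j β =>
      obtain ⟨h1, h2, h3⟩ := hd
      exact Or.inr (Or.inr (Or.inr ⟨i, h1, j, by omega, β, h3, rfl⟩))

private theorem tl_nodup (P : Prm) : (tl P).Nodup := by
  unfold tl
  rw [List.nodup_append, List.nodup_append, List.nodup_append]
  refine ⟨?_, ⟨?_, ⟨?_, ?_, ?_⟩, ?_⟩, ?_⟩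
  · refine nodup_fm List.nodup_range (fun i _ => nodup_fm List.nodup_range (fun j _ =>
      nodup_fm List.nodup_range (fun x _ => ?_) p3 ?_) p2 ?_) p1 ?_
    · exact List.nodup_range.map fun a b h => (Ed.h.inj h).2.2.2
    · intro x _ b hb
      simp only [List.mem_map] at hb
      obtain ⟨y, _, rfl⟩ := hb
      rfl
    · intro j _ b hb
      simp only [List.mem_flatMap, List.mem_map] at hb
      obtain ⟨x, _, y, _, rfl⟩ := hb
      rfl
    · intro i _ b hb
      simp only [List.mem_flatMap, List.mem_map] at hb
      obtain ⟨j, _, x, _, y, _, rfl⟩ := hb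
      rfl
  · refine nodup_fm List.nodup_range (fun i _ => nodup_fm List.nodup_range (fun j _ =>
      nodup_fm List.nodup_range (fun x _ => ?_) p3 ?_) p2 ?_) p1 ?_
    · exact (List.nodup_range.filter _).map fun a b h => (Ed.v.inj h).2.2.2
    · intro x _ b hb
      simp only [List.mem_map] at hb
      obtain ⟨y, _, rfl⟩ := hb
      rfl
    · intro j _ b hb
      simp only [List.mem_flatMap, List.mem_map] at hb
      obtain ⟨x, _, y, _, rfl⟩ := hb
      rfl
    · intro i _ b hb
      simp only [List.mem_flatMap, List.mem_map] at hb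
      obtain ⟨j, _, x, _, y, _, rfl⟩ := hb
      rfl
  · refine nodup_fm List.nodup_range (fun i _ => nodup_fm List.nodup_range (fun j _ => ?_)
      p2 ?_) p1 ?_
    · exact List.nodup_range.map fun a b h => (Ed.p.inj h).2.2
    · intro j _ b hb
      simp only [List.mem_map] at hb
      obtain ⟨x, _, rfl⟩ := hb
      rfl
    · intro i _ b hb
      simp only [List.mem_flatMap, List.mem_map] at hb
      obtain ⟨j, _, x, _, rfl⟩ := hb
      rfl
  · refine nodup_fm List.nodup_range (fun i _ => nodup_fm List.nodup_range (fun j _ => ?_)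
      p2 ?_) p1 ?_
    · exact List.nodup_range.map fun a b h => (Ed.q.inj h).2.2
    · intro j _ b hb
      simp only [List.mem_map] at hb
      obtain ⟨x, _, rfl⟩ := hb
      rfl
    · intro i _ b hb
      simp only [List.mem_flatMap, List.mem_map] at hb
      obtain ⟨j, _, x, _, rfl⟩ := hb
      rfl
  · intro a ha b hb
    simp only [List.mem_flatMap, List.mem_map] at ha hb
    obtain ⟨_, _, _, _, _, _, rfl⟩ := ha
    obtain ⟨_, _, _, _, _, _, rfl⟩ := hb
    simp
  · intro a ha b hb
    simp only [List.mem_append, List.mem_flatMap, List.mem_map] at ha hb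
    obtain ⟨_, _, _, _, _, _, _, _, rfl⟩ := ha
    rcases hb with ⟨_, _, _, _, _, _, rfl⟩ | ⟨_, _, _, _, _, _, rfl⟩ <;> simp
  · intro a ha b hb
    simp only [List.mem_append, List.mem_flatMap, List.mem_map] at ha hb
    obtain ⟨_, _, _, _, _, _, _, _, rfl⟩ := ha
    rcases hb with ⟨_, _, _, _, _, _, _, _, rfl⟩ | ⟨_, _, _, _, _, _, rfl⟩ |
      ⟨_, _, _, _, _, _, rfl⟩ <;> simp

theorem edges_nodup (P : Prm) (hg : P.Good) : P.edges.Nodup := by
  rw [edges_eq]
  refine List.Nodup.map_on (fun d hd d' hd' h => ?_) (tl_nodup P)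
  rw [mem_tl] at hd hd'
  refine ends_inj P hg d d' hd hd' ?_
  rw [h]

private theorem deg_eq (P : Prm) (c : Vx) (T : Finset Ed)
    (hT : ∀ d, d ∈ T ↔ P.ok d ∧ ((P.ends d).1 = c ∨ (P.ends d).2 = c)) :
    deg P.edges c = T.card := by
  unfold deg
  rw [edges_eq, List.filter_map, List.length_map]
  rw [← List.toFinset_card_of_nodup ((tl_nodup P).filter _)]
  congr 1
  ext d
  rw [List.mem_toFinset, List.mem_filter, mem_tl, hT]
  simp

theorem deg_zero (P : Prm) (hg : P.Good) : deg P.edges [0] = P.R * P.m := by
  have hR := hg.hR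
  rw [deg_eq P [0] ((Finset.range P.R ×ˢ Finset.range P.m).image fun x => Ed.p 0 x.1 x.2)]
  · rw [Finset.card_image_of_injective, Finset.card_product, Finset.card_range,
      Finset.card_range]
    intro x y h
    simp only [Ed.p.injEq, true_and] at h
    exact Prod.ext h.1 h.2
  · intro d
    simp only [Finset.mem_image, Finset.mem_product, Finset.mem_range, Prod.exists]
    constructor
    · rintro ⟨j, α, ⟨hj, hα⟩, rfl⟩
      exact ⟨⟨by omega, hj, hα⟩, Or.inl (by simp [Prm.ends])⟩
    · rintro ⟨hd, h⟩
      cases d with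
      | h i j x y => simp [Prm.ends] at h
      | v i j x y => simp [Prm.ends] at h
      | p i j α =>
        obtain ⟨h1, h2, h3⟩ := hd
        simp only [Prm.ends] at h
        split_ifs at h with h4 h5 h5
        · exact ⟨j, α, ⟨h2, h3⟩, by rw [h4]⟩
        · exact ⟨j, α, ⟨h2, h3⟩, by rw [h4]⟩
        · simp at h
        · simp at h
      | q i j β =>
        simp only [Prm.ends] at h
        split_ifs at h <;> simp at h

theorem deg_two (P : Prm) (hg : P.Good) : deg P.edges [2] = P.R * P.B := by
  have hR := hg.hR
  rw [deg_eq P [2] ((Finset.range P.R ×ˢ Finset.range P.B).image fun x => Ed.q x.1 0 x.2)]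
  · rw [Finset.card_image_of_injective, Finset.card_product, Finset.card_range,
      Finset.card_range]
    intro x y h
    simp only [Ed.q.injEq, true_and] at h
    exact Prod.ext h.1 h.2
  · intro d
    simp only [Finset.mem_image, Finset.mem_product, Finset.mem_range, Prod.exists]
    constructor
    · rintro ⟨i, β, ⟨hi, hβ⟩, rfl⟩
      exact ⟨⟨hi, by omega, hβ⟩, Or.inl (by simp [Prm.ends])⟩
    · rintro ⟨hd, h⟩
      cases d with
      | h i j x y => simp [Prm.ends] at h
      | v i j x y => simp [Prm.ends] at h
      | p i j α =>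
        simp only [Prm.ends] at h
        split_ifs at h <;> simp at h
      | q i j β =>
        obtain ⟨h1, h2, h3⟩ := hd
        simp only [Prm.ends] at h
        split_ifs at h with h4 h5 h5
        · exact ⟨i, β, ⟨h1, h3⟩, by rw [h4]⟩
        · exact ⟨i, β, ⟨h1, h3⟩, by rw [h4]⟩
        · simp at h
        · simp at h

theorem deg_big (P : Prm) (hg : P.Good) (c : ℕ) (hc : 4 ≤ c) : deg P.edges [c] = 0 := by
  have hR := hg.hR
  rw [deg_eq P [c] ∅]
  · simp
  · intro d
    simp only [Finset.notMem_empty, false_iff, not_and]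
    intro _ h
    cases d with
    | h i j x y => simp [Prm.ends] at h
    | v i j x y => simp [Prm.ends] at h
    | p i j α =>
      simp only [Prm.ends] at h
      split_ifs at h <;> simp at h <;> omega
    | q i j β =>
      simp only [Prm.ends] at h
      split_ifs at h <;> simp at h <;> omega

theorem cap_arr (k : ℕ) (hk : 2 ≤ k) (P : Prm) (hg : P.Good) :
    cap (arr k P) = P.R * (P.m + P.B) := by
  obtain ⟨k, rfl⟩ : ∃ k', k = k' + 2 := ⟨k - 2, by omega⟩
  have hgen : ∀ n, ((List.range (n + 2)).map fun l => deg P.edges [2 * l]).sum =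
      P.R * (P.m + P.B) := by
    intro n
    induction n with
    | zero =>
      have h1 := deg_zero P hg
      have h2 := deg_two P hg
      simp only [List.range_succ, List.range_zero, List.nil_append, List.map_append,
        List.map_cons, List.map_nil, List.sum_append, List.sum_cons, List.sum_nil, mul_zero,
        mul_one, add_zero, zero_add, h1, h2]
      ring
    | succ n ih =>
      rw [List.range_succ, List.map_append, List.sum_append, ih]
      simp only [List.map_cons, List.map_nil, List.sum_cons, List.sum_nil, add_zero]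
      rw [deg_big P hg _ (by omega), add_zero]
  rw [← hgen k]
  unfold cap arr pairs
  rw [List.map_map]
  rfl

end Pool.Agent.Work.MP_d41d5f_lc
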