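import Pool.Agent.Work.MP_d41d5f_lc.ED.ParA

/-!
Clean (M): almost all members are clean.

Proof. Let `p` = number of `a` with `ty a = true`, `q = N - p`. Since `nP (F a) 0` is odd, so `≥ 1`,
for `ty a = true` (`par_hub`), `p ≤ ∑ nP (F a) 0 ≤ R * m` (`tot_P`); same `q ≤ R * B`. Let
`α' = R m - p`, `β' = R B - q`, so `α' + β' = R (m+B) - N ≤ r`.
Members of type `true` that are not clean have `nQ (F a) 0 ≠ 0` or `nQ (F a) R ≠ 0`. For type
`true` the number `nQ (F a) 0` is even, so if it is not zero it is at least 2; for type `false` it
is at least 1. Hence `q + 2 * #{a | ty a = true, nQ (F a) 0 ≠ 0} ≤ ∑ nQ (F a) 0 ≤ R * B`, so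
`2 * #{...} ≤ β'`; same at `R`. So the number `u` of unclean members of type `true` satisfies
`2 u ≤ 2 β'`, `u ≤ β'`, and the number of clean ones is `p - u ≥ R m - α' - β' ≥ R m - r`.
The second statement is symmetric (`u ≤ α'`).
-/

set_option autoImplicit false

namespace Pool.Agent.Work.MP_d41d5f_lc

variable {P : Prm} {N : ℕ} {ty : Fin N → Bool} {F : Fin N → Finset Ed}

private lemma count_aux {M : ℕ} (b : Fin M → Bool) (c : Bool) (f : Fin M → ℕ)
    (h1 : ∀ a, b a = c → 1 ≤ f a) (h2 : ∀ a, b a ≠ c → f a % 2 = 0) :
    (Finset.univ.filter fun a => b a = c).card +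
      2 * (Finset.univ.filter fun a => b a ≠ c ∧ f a ≠ 0).card ≤ ∑ a, f a := by
  rw [Finset.card_filter, Finset.card_filter, Finset.mul_sum, ← Finset.sum_add_distrib]
  apply Finset.sum_le_sum
  intro a _
  by_cases hb : b a = c
  · have := h1 a hb
    simp [hb]
    omega
  · have := h2 a hb
    by_cases h0 : f a = 0
    · simp [hb, h0]
    · simp [hb, h0]
      omega

private lemma par_one {x : ℕ} {b : Bool} (h : x % 2 = if b = true then 1 else 0) :
    (b = true → 1 ≤ x) ∧ (b ≠ true → x % 2 = 0) := by
  cases b <;> simp_all <;> omega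

private lemma par_two {x : ℕ} {b : Bool} (h : x % 2 = if b = true then 0 else 1) :
    (b = false → 1 ≤ x) ∧ (b ≠ false → x % 2 = 0) := by
  cases b <;> simp_all <;> omega

private lemma card_split (ty : Fin N → Bool) :
    (Finset.univ.filter fun a => ty a = true).card +
      (Finset.univ.filter fun a => ty a = false).card = N := by
  have h := Finset.card_filter_add_card_filter_not (s := (Finset.univ : Finset (Fin N)))
    (fun a => ty a = true)
  simp only [Finset.card_univ, Fintype.card_fin, Bool.not_eq_true] at h
  exact h

/-- The number of members is at most the number of links at the terminals. -/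
theorem fam_le (hg : P.Good) (h : IsFam P N ty F) : N ≤ P.R * (P.m + P.B) := by
  have e1 := count_aux ty true (fun a => nP (F a) 0)
    (fun a => (par_one (par_hub hg h a).1).1) (fun a => (par_one (par_hub hg h a).1).2)
  have e2 := count_aux ty false (fun a => nQ (F a) 0)
    (fun a => (par_two (par_hub hg h a).2.2.1).1) (fun a => (par_two (par_hub hg h a).2.2.1).2)
  have e3 := tot_P hg h 0
  have e4 := tot_Q hg h 0
  have e5 := card_split ty
  rw [mul_add]
  omega

open Classical in
theorem clean_card (hg : P.Good) (h : IsFam P N ty F) (r : ℕ) (hN : P.R * (P.m + P.B) ≤ N + r) :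
    P.R * P.m ≤ (Finset.univ.filter fun a => cleanP P (ty a) (F a)).card + r ∧
    P.R * P.B ≤ (Finset.univ.filter fun a => cleanQ P (ty a) (F a)).card + r := by
  have e5 := card_split ty
  rw [mul_add] at hN
  constructor
  · have e2 := count_aux ty false (fun a => nQ (F a) 0)
      (fun a => (par_two (par_hub hg h a).2.2.1).1) (fun a => (par_two (par_hub hg h a).2.2.1).2)
    have e3 := count_aux ty false (fun a => nQ (F a) P.R)
      (fun a => (par_two (par_hub hg h a).2.2.2).1) (fun a => (par_two (par_hub hg h a).2.2.2).2)
    have t2 := tot_Q hg h 0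
    have t3 := tot_Q hg h P.R
    have key : (Finset.univ.filter fun a => ty a = true).card ≤
        (Finset.univ.filter fun a => cleanP P (ty a) (F a)).card +
        ((Finset.univ.filter fun a => ty a ≠ false ∧ nQ (F a) 0 ≠ 0).card +
        (Finset.univ.filter fun a => ty a ≠ false ∧ nQ (F a) P.R ≠ 0).card) := by
      refine le_trans (Finset.card_le_card (t := (Finset.univ.filter fun a => cleanP P (ty a) (F a)) ∪
        ((Finset.univ.filter fun a => ty a ≠ false ∧ nQ (F a) 0 ≠ 0) ∪
        (Finset.univ.filter fun a => ty a ≠ false ∧ nQ (F a) P.R ≠ 0))) ?_) ?_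
      · intro a ha
        simp only [Finset.mem_filter, Finset.mem_univ, true_and] at ha
        simp only [Finset.mem_union, Finset.mem_filter, Finset.mem_univ, true_and, cleanP, ha,
          ne_eq, Bool.true_eq_false, not_false_eq_true]
        tauto
      · refine (Finset.card_union_le _ _).trans ?_
        exact Nat.add_le_add_left (Finset.card_union_le _ _) _
    omega
  · have e2 := count_aux ty true (fun a => nP (F a) 0)
      (fun a => (par_one (par_hub hg h a).1).1) (fun a => (par_one (par_hub hg h a).1).2)
    have e3 := count_aux ty true (fun a => nP (F a) P.R)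
      (fun a => (par_one (par_hub hg h a).2.1).1) (fun a => (par_one (par_hub hg h a).2.1).2)
    have t2 := tot_P hg h 0
    have t3 := tot_P hg h P.R
    have key : (Finset.univ.filter fun a => ty a = false).card ≤
        (Finset.univ.filter fun a => cleanQ P (ty a) (F a)).card +
        ((Finset.univ.filter fun a => ty a ≠ true ∧ nP (F a) 0 ≠ 0).card +
        (Finset.univ.filter fun a => ty a ≠ true ∧ nP (F a) P.R ≠ 0).card) := by
      refine le_trans (Finset.card_le_card (t := (Finset.univ.filter fun a => cleanQ P (ty a) (F a)) ∪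
        ((Finset.univ.filter fun a => ty a ≠ true ∧ nP (F a) 0 ≠ 0) ∪
        (Finset.univ.filter fun a => ty a ≠ true ∧ nP (F a) P.R ≠ 0))) ?_) ?_
      · intro a ha
        simp only [Finset.mem_filter, Finset.mem_univ, true_and] at ha
        simp only [Finset.mem_union, Finset.mem_filter, Finset.mem_univ, true_and, cleanQ, ha,
          ne_eq, Bool.false_eq_true, not_false_eq_true]
        tauto
      · refine (Finset.card_union_le _ _).trans ?_
        exact Nat.add_le_add_left (Finset.card_union_le _ _) _
    omega

end Pool.Agent.Work.MP_d41d5f_lc
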