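import Pool.Agent.Work.MP_d41d5f_lc.ED.SDefs

/-!
CnfO (M): clause systems and systems of occurrences.

Proof. `sysOf_good`: `padC C` has the clause `[(false, fresh C)]`, so `K ≥ 1`; every variable of an
occurrence is a variable of `C` (at most the sum of all variables, `< fresh C`) or `fresh C`, so
`< fresh C + 1 = n`. (`mem_isV`: `(k, b, x) ∈ isV C ↔ ∃ c, C[k]? = some c ∧ (b, x) ∈ c`; for
`o < K`, `(isV _).getD o _` is the element number `o`.)
`sat_iff`: let `D = padC C`, all clauses of `D` are nonempty.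
`CnfSat C → CnfSat D`: change the assignment `X` at `fresh C` to `false` (this does not change the
literals of `C`): the clause `[(false, fresh C)]` holds, and the clauses `c ++ ..` hold by `c`.
`CnfSat D → CnfSat C`: the first clause gives `X (fresh C) = false`, so in `c ++ [(true, fresh C)]`
the true literal is in `c`.
`CnfSat D ↔ (sysOf C).Sat` with the same assignment: (→) for `o < K` the clause number `cl o` of `D`
has a true literal `(b, x)`, and `(cl o, b, x) ∈ isV D` is the occurrence number `o'`. (←) let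
`c = D[k]`; it is nonempty, so there is an occurrence `o` with `cl o = k`; `Sat` gives `o'` with
`cl o' = k` and a true literal, which is in `D[k]` by `mem_isV`.
-/

set_option autoImplicit false

namespace Pool.Agent.Work.MP_d41d5f_lc

open Pool.Agent.Work.PolyTime

private theorem var_lt {C : List NClause} {c : NClause} (hc : c ∈ C) {b : Bool} {x : ℕ}
    (hx : (b, x) ∈ c) : x < fresh C := by
  unfold fresh
  refine Nat.lt_succ_of_le (List.single_le_sum (fun _ _ => Nat.zero_le _) x ?_)
  rw [List.mem_flatMap]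
  exact ⟨c, hc, List.mem_map.2 ⟨(b, x), hx, rfl⟩⟩

private theorem mem_padC {C : List NClause} {c : NClause} : c ∈ padC C ↔
    c = [(false, fresh C)] ∨ ∃ c' ∈ C, c = c' ++ [(true, fresh C)] := by
  unfold padC
  rw [List.mem_cons, List.mem_map]
  constructor
  · rintro (h | ⟨c', hc', h⟩)
    · exact Or.inl h
    · exact Or.inr ⟨c', hc', h.symm⟩
  · rintro (h | ⟨c', hc', h⟩)
    · exact Or.inl h
    · exact Or.inr ⟨c', hc', h.symm⟩

private theorem get_spec {D : List NClause} {o : ℕ} (ho : o < (isV D).length) :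
    ∃ c, D[((isV D).getD o (0, true, 0)).1]? = some c ∧
      (((isV D).getD o (0, true, 0)).2.1, ((isV D).getD o (0, true, 0)).2.2) ∈ c := by
  have h1 : (isV D).getD o (0, true, 0) = (isV D)[o] := by
    rw [List.getD_eq_getElem?_getD, List.getElem?_eq_getElem ho]
    rfl
  rw [h1]
  have h2 : (isV D)[o] ∈ isV D := List.getElem_mem ho
  generalize (isV D)[o] = a at h2
  obtain ⟨k, b, x⟩ := a
  exact mem_isV.1 h2

private theorem get_ex {D : List NClause} {k : ℕ} {b : Bool} {x : ℕ} (h : (k, b, x) ∈ isV D) :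
    ∃ o < (isV D).length, (isV D).getD o (0, true, 0) = (k, b, x) := by
  obtain ⟨o, ho, h1⟩ := List.getElem_of_mem h
  refine ⟨o, ho, ?_⟩
  rw [List.getD_eq_getElem?_getD, List.getElem?_eq_getElem ho, h1]
  rfl

private theorem pad_ne {C : List NClause} {c : NClause} (hc : c ∈ padC C) : ∃ l, l ∈ c := by
  rcases mem_padC.1 hc with rfl | ⟨c', -, rfl⟩
  · exact ⟨(false, fresh C), by simp⟩
  · exact ⟨(true, fresh C), by simp⟩

private theorem sat_pad (C : List NClause) : CnfSat C ↔ CnfSat (padC C) := by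
  constructor
  · rintro ⟨X, hX⟩
    refine ⟨fun x => if x = fresh C then false else X x, fun c hc => ?_⟩
    rcases mem_padC.1 hc with rfl | ⟨c', hc', rfl⟩
    · exact ⟨(false, fresh C), by simp, by simp⟩
    · obtain ⟨l, hl, hXl⟩ := hX c' hc'
      refine ⟨l, List.mem_append_left _ hl, ?_⟩
      have h1 : l.2 < fresh C := var_lt hc' (b := l.1) (x := l.2) hl
      simp only
      rw [if_neg h1.ne]
      exact hXl
  · rintro ⟨X, hX⟩
    obtain ⟨l, hl, hXl⟩ := hX [(false, fresh C)] (mem_padC.2 (Or.inl rfl))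
    rw [List.mem_singleton] at hl
    subst hl
    refine ⟨X, fun c hc => ?_⟩
    obtain ⟨l, hl, hXl'⟩ := hX (c ++ [(true, fresh C)]) (mem_padC.2 (Or.inr ⟨c, hc, rfl⟩))
    rcases List.mem_append.1 hl with h1 | h1
    · exact ⟨l, h1, hXl'⟩
    · rw [List.mem_singleton] at h1
      subst h1
      simp only at hXl hXl'
      rw [hXl] at hXl'
      exact absurd hXl' (by decide)

theorem sysOf_good (C : List NClause) : (sysOf C).Good := by
  refine ⟨?_, ?_⟩
  · change 1 ≤ (isV (padC C)).length
    have h1 : (0, false, fresh C) ∈ isV (padC C) :=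
      mem_isV.2 ⟨[(false, fresh C)], rfl, by simp⟩
    exact List.length_pos_of_mem h1
  · intro o ho
    change ((isV (padC C)).getD o (0, true, 0)).2.2 < fresh C + 1
    obtain ⟨c, hc, hx⟩ := get_spec (D := padC C) ho
    have hc' : c ∈ padC C := List.mem_of_getElem? hc
    rcases mem_padC.1 hc' with rfl | ⟨c', hc'', rfl⟩
    · rw [List.mem_singleton, Prod.mk.injEq] at hx
      rw [hx.2]
      exact Nat.lt_succ_self _
    · rcases List.mem_append.1 hx with h1 | h1
      · exact Nat.lt_succ_of_lt (var_lt hc'' h1)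
      · rw [List.mem_singleton, Prod.mk.injEq] at h1
        rw [h1.2]
        exact Nat.lt_succ_self _

theorem sat_iff (C : List NClause) : CnfSat C ↔ (sysOf C).Sat := by
  rw [sat_pad]
  constructor
  · rintro ⟨X, hX⟩
    refine ⟨X, fun o ho => ?_⟩
    obtain ⟨c, hc, -⟩ := get_spec (D := padC C) ho
    obtain ⟨l, hl, hXl⟩ := hX c (List.mem_of_getElem? hc)
    obtain ⟨o', ho', h1⟩ := get_ex (D := padC C) (k := ((isV (padC C)).getD o (0, true, 0)).1)
      (b := l.1) (x := l.2) (mem_isV.2 ⟨c, hc, hl⟩)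
    refine ⟨o', ho', ?_, ?_⟩
    · change ((isV (padC C)).getD o' (0, true, 0)).1 = ((isV (padC C)).getD o (0, true, 0)).1
      rw [h1]
    · change X ((isV (padC C)).getD o' (0, true, 0)).2.2 =
        ((isV (padC C)).getD o' (0, true, 0)).2.1
      rw [h1]
      exact hXl
  · rintro ⟨X, hX⟩
    refine ⟨X, fun c hc => ?_⟩
    obtain ⟨l, hl⟩ := pad_ne hc
    obtain ⟨k, hk, hkc⟩ := List.getElem_of_mem hc
    have hkc' : (padC C)[k]? = some c := by
      rw [List.getElem?_eq_getElem hk, hkc]
    obtain ⟨o, ho, h1⟩ := get_ex (D := padC C) (k := k) (b := l.1) (x := l.2)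
      (mem_isV.2 ⟨c, hkc', hl⟩)
    obtain ⟨o', ho', h2, h3⟩ := hX o ho
    change ((isV (padC C)).getD o' (0, true, 0)).1 = ((isV (padC C)).getD o (0, true, 0)).1 at h2
    change X ((isV (padC C)).getD o' (0, true, 0)).2.2 =
      ((isV (padC C)).getD o' (0, true, 0)).2.1 at h3
    obtain ⟨c', hc', h4⟩ := get_spec (D := padC C) ho'
    rw [h2, h1] at hc'
    simp only at hc'
    rw [hkc'] at hc'
    have h5 : c = c' := Option.some.inj hc'
    exact ⟨_, h5 ▸ h4, h3⟩

end Pool.Agent.Work.MP_d41d5f_lc
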