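import Pool.Agent.Work.MP_d41d5f_lc.ED.BDefs

/-!
CrossZ (M): two traces in exchanged position cross an odd number of times.

Proof. Work in `ZMod 2`. For `x ≤ W` put
  `A x k = ∑ y < k, bz (hP x y)` and `Φ x = ∑ y' < H, A x y' * bz (hQ x y')`
(the parity of the number of pairs: P in row y, Q in row y', y < y').
Left side: `hP 0 y = decide (y = yP)`, `hQ 0 y = decide (y = yQ)` with `yP < yQ < H`, so
`Φ 0 = A 0 yQ = 1`. Right side: `hP W y = decide (y = zP)`, `hQ W y = decide (y = zQ)` with
`zQ ≤ zP`, so `Φ W = A W zQ = 0` (sum over `y < zQ` of the indicator of `zP ≥ zQ`).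
Step: for `x < W` the parity condition of `IsTr` gives for `y < H`
  `bz (hP (x+1) y) = bz (hP x y) + bz (vP x y) + [0 < y] bz (vP x (y-1))`, the same for Q.
Telescoping: `A (x+1) k = A x k + [0 < k] bz (vP x (k-1))` for `k ≤ H` (induction on `k`).
Hence `Φ (x+1) = ∑ y', (A x y' + [0<y'] vP x (y'-1)) * hQ (x+1) y'`
`= ∑ y', [0<y'] vP x (y'-1) * hQ (x+1) y' + ∑ y', A x y' * (hQ x y' + vQ x y' + [0<y'] vQ x (y'-1))`
`= Φ x + ∑ y', [0<y'] vP x (y'-1) * hQ (x+1) y' + ∑ y', (A x y' + A x (y'+1)) * vQ x y'`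
where the last step is a shift of the index (the term with `vQ x (H-1)` vanishes because
`IsTr.vert` gives `vQ x (H-1) = false`). Finally `A x y' + A x (y'+1) = bz (hP x y')` in `ZMod 2`
(`A x (y'+1) = A x y' + bz (hP x y')` and `2 = 0`). So
`Φ (x+1) = Φ x + ∑ y < H, loc hP vP hQ vQ x y`, and summing over `x < W` gives the statement.
(Convert the natural number parity condition to `ZMod 2` by a case distinction on the four
Booleans, or by `decide` after generalising them.)
-/

set_option autoImplicit false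

namespace Pool.Agent.Work.MP_d41d5f_lc

private theorem par_z (a b c d : Bool) (h : (a.toNat + b.toNat + c.toNat + d.toNat) % 2 = 0) :
    bz b = bz a + bz c + bz d := by
  revert h
  revert a b c d
  decide

private theorem two_z (a : ZMod 2) : a + a = 0 := by
  revert a
  decide

private theorem tr_step {P : Prm} {hz vt : ℕ → ℕ → Bool} (h : IsTr P hz vt) {x y : ℕ}
    (hx : x < P.W) (hy : y < P.H) :
    bz (hz (x + 1) y) = bz (hz x y) + bz (vt x y) + (if y = 0 then 0 else bz (vt x (y - 1))) := by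
  have h1 := h.par x hx y hy
  by_cases h0 : y = 0
  · rw [if_pos h0] at h1 ⊢
    have h2 := par_z (hz x y) (hz (x + 1) y) (vt x y) false (by simpa using h1)
    rw [h2]
    simp [bz]
  · rw [if_neg h0] at h1 ⊢
    exact par_z _ _ _ _ h1

private theorem tr_tele {P : Prm} {hz vt : ℕ → ℕ → Bool} (h : IsTr P hz vt) {x : ℕ}
    (hx : x < P.W) (k : ℕ) (hk : k ≤ P.H) :
    ∑ y ∈ Finset.range k, bz (hz (x + 1) y) =
      ∑ y ∈ Finset.range k, bz (hz x y) + (if k = 0 then 0 else bz (vt x (k - 1))) := by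
  induction k with
  | zero => simp
  | succ k ih =>
    rw [Finset.sum_range_succ, Finset.sum_range_succ, ih (by omega), tr_step h hx (by omega)]
    rw [if_neg (Nat.succ_ne_zero k), Nat.add_sub_cancel]
    have h2 := two_z (if k = 0 then 0 else bz (vt x (k - 1)))
    linear_combination h2

theorem cross_sum (P : Prm) (hP vP hQ vQ : ℕ → ℕ → Bool) (h1 : IsTr P hP vP) (h2 : IsTr P hQ vQ)
    (yP yQ zP zQ : ℕ) (hl : yP < yQ) (hyQ : yQ < P.H) (hr : zQ ≤ zP)
    (e1 : ∀ y, hP 0 y = decide (y = yP)) (e2 : ∀ y, hQ 0 y = decide (y = yQ))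
    (e3 : ∀ y, hP P.W y = decide (y = zP)) (e4 : ∀ y, hQ P.W y = decide (y = zQ)) :
    ∑ x ∈ Finset.range P.W, ∑ y ∈ Finset.range P.H, loc hP vP hQ vQ x y = 1 := by
  let A : ℕ → ℕ → ZMod 2 := fun x k => ∑ y ∈ Finset.range k, bz (hP x y)
  let Φ : ℕ → ZMod 2 := fun x => ∑ y ∈ Finset.range P.H, A x y * bz (hQ x y)
  have hA : ∀ x k, A x (k + 1) = A x k + bz (hP x k) := fun x k => Finset.sum_range_succ _ _
  have hΦ0 : Φ 0 = 1 := by
    have h3 : ∀ y ∈ Finset.range P.H, y ≠ yQ → A 0 y * bz (hQ 0 y) = 0 := by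
      intro y _ hne
      rw [e2 y, decide_eq_false hne]
      simp [bz]
    have h4 : Φ 0 = A 0 yQ * bz (hQ 0 yQ) :=
      Finset.sum_eq_single_of_mem yQ (Finset.mem_range.2 hyQ) h3
    have h5 : A 0 yQ = bz (hP 0 yP) := by
      refine Finset.sum_eq_single_of_mem yP (Finset.mem_range.2 hl) fun y _ hne => ?_
      rw [e1 y, decide_eq_false hne]
      simp [bz]
    rw [h4, h5, e1 yP, e2 yQ]
    simp [bz]
  have hΦW : Φ P.W = 0 := by
    refine Finset.sum_eq_zero fun y _ => ?_
    by_cases hy : y = zQ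
    · subst hy
      have h5 : A P.W y = 0 := by
        refine Finset.sum_eq_zero fun y' hy' => ?_
        have h6 := Finset.mem_range.1 hy'
        rw [e3 y', decide_eq_false (by omega)]
        simp [bz]
      rw [h5, zero_mul]
    · rw [e4 y, decide_eq_false hy]
      simp [bz]
  have hstep : ∀ x < P.W, Φ (x + 1) = Φ x + ∑ y ∈ Finset.range P.H, loc hP vP hQ vQ x y := by
    intro x hx
    have hshift : ∑ y ∈ Finset.range P.H, A x y * (if y = 0 then 0 else bz (vQ x (y - 1))) =
        ∑ y ∈ Finset.range P.H, A x (y + 1) * bz (vQ x y) := by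
      obtain ⟨n, hn⟩ : ∃ n, P.H = n + 1 := ⟨P.H - 1, by omega⟩
      rw [hn, Finset.sum_range_succ', Finset.sum_range_succ]
      have h3 : vQ x n = false := by
        by_contra hne
        have h4 := (h2.vert x n (by simpa using hne)).1
        omega
      rw [h3]
      simp [bz]
    have h3 : Φ (x + 1) = ∑ y ∈ Finset.range P.H,
        ((if y = 0 then 0 else bz (vP x (y - 1))) * bz (hQ (x + 1) y) +
          (A x y * bz (hQ x y) + A x y * bz (vQ x y) +
            A x y * (if y = 0 then 0 else bz (vQ x (y - 1))))) := by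
      refine Finset.sum_congr rfl fun y hy => ?_
      have hy' := Finset.mem_range.1 hy
      have h4 : A (x + 1) y = A x y + (if y = 0 then 0 else bz (vP x (y - 1))) :=
        tr_tele h1 hx y hy'.le
      have h5 := tr_step h2 hx hy'
      rw [h4, add_mul, h5]
      ring
    rw [h3, Finset.sum_add_distrib, Finset.sum_add_distrib, Finset.sum_add_distrib, hshift]
    have h6 : ∑ y ∈ Finset.range P.H, loc hP vP hQ vQ x y =
        ∑ y ∈ Finset.range P.H, (if y = 0 then 0 else bz (vP x (y - 1))) * bz (hQ (x + 1) y) +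
          (∑ y ∈ Finset.range P.H, A x y * bz (vQ x y) +
            ∑ y ∈ Finset.range P.H, A x (y + 1) * bz (vQ x y)) := by
      rw [← Finset.sum_add_distrib, ← Finset.sum_add_distrib]
      refine Finset.sum_congr rfl fun y _ => ?_
      have h7 := two_z (A x y * bz (vQ x y))
      rw [hA]
      unfold loc
      linear_combination -h7
    rw [h6]
    show _ = (∑ y ∈ Finset.range P.H, A x y * bz (hQ x y)) + _
    ring
  have hsum : ∀ n ≤ P.W, Φ n = Φ 0 +
      ∑ x ∈ Finset.range n, ∑ y ∈ Finset.range P.H, loc hP vP hQ vQ x y := by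
    intro n
    induction n with
    | zero => intro _; simp
    | succ n ih =>
      intro hn
      rw [hstep n (by omega), ih (by omega), Finset.sum_range_succ]
      ring
  have h3 := hsum P.W le_rfl
  rw [hΦ0, hΦW] at h3
  have h4 := two_z (1 : ZMod 2)
  linear_combination -h3 - h4

end Pool.Agent.Work.MP_d41d5f_lc
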