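import Pool.Agent.Work.MP_d41d5f_lc.ED.SBas

/-!
DecU (M): the contents of an occurrence bin.

Proof. Let `Y` be a set of tokens with the digit sums `need (U o)`. Digit 6: the number of tokens of
the kinds `A`, `Cl` in `Y` is 1 (each contributes 1 and the others 0); digit 5: the number of tokens
of the kinds `Wr`, `Fl` is 1; digit 4: the number of tokens of the kind `Tp` is 1. So `Y = {a, b, t}`
with one of each. Digit 3: only `a` contributes, the value is `n K + cl o`: `a = A x' o₁ f` is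
impossible as `x' K + o₁ < n K` (`x' < n`, `o₁ < K`); so `a = Cl o₁`, `o₁ < K`, `cl o₁ = cl o`.
Digit 2: the value is `n K`: `b = Wr x' o₂ f` is impossible (`x' K + o₂ < n K`), so `b = Fl o₂ f₂`.
Digit 1: `t = Tp x' o₃ s' f₃` with `2 (x' K + o₃) + sn s' = 2 (va o K + o) + sn (sg o)`, so
`s' = sg o`, `x' = va o`, `o₃ = o`. Digit 0: the flags.
-/

set_option autoImplicit false

namespace Pool.Agent.Work.MP_d41d5f_lc

namespace Sys

private theorem du_one (Y : Finset Tk) (f : Tk → ℕ) (h : ∑ t ∈ Y, f t = 1) :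
    ∃ a ∈ Y, f a = 1 ∧ ∀ t ∈ Y, t ≠ a → f t = 0 := by
  have h1 : ∃ a ∈ Y, f a ≠ 0 := by
    by_contra hc
    push Not at hc
    rw [Finset.sum_eq_zero hc] at h
    omega
  obtain ⟨a, ha, ha0⟩ := h1
  have h2 := Finset.add_sum_erase Y f ha
  rw [h] at h2
  have h3 : ∑ t ∈ Y.erase a, f t = 0 := by omega
  refine ⟨a, ha, by omega, fun t ht hta => ?_⟩
  exact (Finset.sum_eq_zero_iff.1 h3) t (Finset.mem_erase.2 ⟨hta, ht⟩)

private theorem du_lt {x o n K : ℕ} (hx : x < n) (ho : o < K) : x * K + o < n * K := by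
  have : (x + 1) * K ≤ n * K := Nat.mul_le_mul_right _ hx
  rw [Nat.add_mul, Nat.one_mul] at this
  omega

private theorem du_inj {x o x' o' K : ℕ} (ho : o < K) (ho' : o' < K)
    (h : x * K + o = x' * K + o') : x = x' ∧ o = o' := by
  have h1 : (x * K + o) % K = o := by
    rw [Nat.mul_comm, Nat.mul_add_mod, Nat.mod_eq_of_lt ho]
  have h2 : (x' * K + o') % K = o' := by
    rw [Nat.mul_comm, Nat.mul_add_mod, Nat.mod_eq_of_lt ho']
  have h3 : o = o' := by rw [← h1, ← h2, h]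
  refine ⟨?_, h3⟩
  subst h3
  have h4 : x * K = x' * K := by omega
  exact Nat.eq_of_mul_eq_mul_right (by omega) h4

private theorem du_sn {u v : ℕ} {s s' : Bool} (h : 2 * u + sn s = 2 * v + sn s') :
    u = v ∧ s = s' := by
  cases s <;> cases s' <;> simp [sn] at h ⊢ <;> omega

theorem dec_U (S : Sys) (hS : S.Good) (Y : Finset Tk) (hY : ∀ t ∈ Y, t ∈ S.tokL) (o : ℕ)
    (ho : o < S.K) (h : ∀ k, ∑ t ∈ Y, S.dig t k = S.need (.U o) k) :
    ∃ (o₁ o₂ : ℕ) (f₂ f₃ : Bool), o₁ < S.K ∧ o₂ < S.K ∧ S.cl o₁ = S.cl o ∧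
      Y = {Tk.Cl o₁, Tk.Fl o₂ f₂, Tk.Tp (S.va o) o (S.sg o) f₃} ∧
      (S.fst o₁).toNat + f₂.toNat + f₃.toNat = 1 := by
  obtain ⟨a, haY, ha1, ha⟩ := du_one Y (fun t => S.dig t 6) (h 6)
  obtain ⟨b, hbY, hb1, hb⟩ := du_one Y (fun t => S.dig t 5) (h 5)
  obtain ⟨c, hcY, hc1, hc⟩ := du_one Y (fun t => S.dig t 4) (h 4)
  have hYe : Y = {a, b, c} := by
    ext t
    simp only [Finset.mem_insert, Finset.mem_singleton]
    constructor
    · intro ht
      by_contra hne
      push Not at hne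
      have t6 := ha t ht hne.1
      have t5 := hb t ht hne.2.1
      have t4 := hc t ht hne.2.2
      cases t <;> simp [dig] at t6 t5 t4
    · rintro (rfl | rfl | rfl)
      exacts [haY, hbY, hcY]
  have haL := (S.mem_tokL a).1 (hY a haY)
  have hbL := (S.mem_tokL b).1 (hY b hbY)
  have hcL := (S.mem_tokL c).1 (hY c hcY)
  have hab : a ≠ b := by
    rintro rfl
    cases a <;> simp [dig] at ha1 hb1
  have hac : a ≠ c := by
    rintro rfl
    cases a <;> simp [dig] at ha1 hc1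
  have hbc : b ≠ c := by
    rintro rfl
    cases b <;> simp [dig] at hb1 hc1
  have hsum : ∀ k, S.dig a k + (S.dig b k + S.dig c k) = S.need (.U o) k := by
    intro k
    rw [← h k, hYe, Finset.sum_insert (by simp [hab, hac]), Finset.sum_insert (by simp [hbc]),
      Finset.sum_singleton]
  have s0 := hsum 0
  have s1 := hsum 1
  have s2 := hsum 2
  have s3 := hsum 3
  -- the token a
  obtain ⟨o₁, rfl⟩ : ∃ o₁, a = .Cl o₁ := by
    cases a with
    | A x o' f =>
      exfalso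
      have := du_lt haL.1 haL.2
      cases b <;> simp [dig] at hb1 <;> cases c <;> simp [dig] at hc1 <;>
        simp [dig, need] at s3 <;> omega
    | Cl o' => exact ⟨o', rfl⟩
    | Wr x o' f => simp [dig] at ha1
    | Tp x o' s f => simp [dig] at ha1
    | Fl o' f => simp [dig] at ha1
  obtain ⟨o₂, f₂, rfl⟩ : ∃ o₂ f₂, b = .Fl o₂ f₂ := by
    cases b with
    | A x o' f => simp [dig] at hb1
    | Cl o' => simp [dig] at hb1
    | Wr x o' f =>
      exfalso
      have := du_lt hbL.1 hbL.2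
      cases c <;> simp [dig] at hc1 <;>
        simp [dig, need] at s2 <;> omega
    | Tp x o' s f => simp [dig] at hb1
    | Fl o' f => exact ⟨o', f, rfl⟩
  obtain ⟨x₃, o₃, s₃, f₃, rfl⟩ : ∃ x₃ o₃ s₃ f₃, c = .Tp x₃ o₃ s₃ f₃ := by
    cases c with
    | A x o' f => simp [dig] at hc1
    | Cl o' => simp [dig] at hc1
    | Wr x o' f => simp [dig] at hc1
    | Tp x o' s f => exact ⟨_, _, _, _, rfl⟩
    | Fl o' f => simp [dig] at hc1
  simp [dig, need] at s0 s1 s2 s3
  obtain ⟨e1, e2⟩ := du_sn s1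
  obtain ⟨e3, e4⟩ := du_inj hcL.2 ho e1
  subst e2 e3 e4
  refine ⟨o₁, o₂, f₂, f₃, haL, hbL, by omega, hYe, by omega⟩

end Sys

end Pool.Agent.Work.MP_d41d5f_lc
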