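import Pool.Agent.Work.MP_d41d5f_lc.ED.SBas

/-!
DecV (M): the contents of a wheel bin.

Proof. Let `Y` be a set of tokens with the digit sums `need (V x o s)`. Digit 6: the number of tokens
of the kinds `A`, `Cl` in `Y` is 1 (each contributes 1 and the others 0); digit 5: the number of
tokens of the kinds `Wr`, `Fl` is 1; digit 4: the number of tokens of the kind `Tp` is 1. So
`Y = {a, b, t}` with one of each. Digit 3: only `a` contributes: `a = A x' o₁ f`:
`x' K + o₁ = x K + o'` with `o₁, o' < K`, so `x' = x`, `o₁ = o'` (`o' = if s then o else (o+1) % K`);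
`a = Cl o₁` is impossible as `n K + cl o₁ ≥ n K > x K + o'` (`x < n`, `o' < K`). Digit 2: `b = Wr x o f₂`
in the same way (`Fl` would have `n K > x K + o`). Digit 1: `t = Tp x' o₁ s' f₃` with
`2 (x' K + o₁) + sn s' = 2 (x K + o) + sn s`, so `s' = s` and `x' = x`, `o₁ = o`. Digit 0:
`3 f₁ + 2 f₂ + f₃ = 3`.
-/

set_option autoImplicit false

namespace Pool.Agent.Work.MP_d41d5f_lc

namespace Sys

private def kd : Tk → ℕ
  | .A _ _ _ => 2
  | .Cl _ => 2
  | .Wr _ _ _ => 1
  | .Fl _ _ => 1
  | .Tp _ _ _ _ => 0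

private theorem dig6 (S : Sys) (t : Tk) : S.dig t 6 = if kd t = 2 then 1 else 0 := by
  cases t <;> simp [dig, kd]

private theorem dig5 (S : Sys) (t : Tk) : S.dig t 5 = if kd t = 1 then 1 else 0 := by
  cases t <;> simp [dig, kd]

private theorem dig4 (S : Sys) (t : Tk) : S.dig t 4 = if kd t = 0 then 1 else 0 := by
  cases t <;> simp [dig, kd]

private theorem kd3 (t : Tk) : kd t = 0 ∨ kd t = 1 ∨ kd t = 2 := by
  cases t <;> simp [kd]

private theorem split3 (S : Sys) (Y : Finset Tk) (h6 : ∑ t ∈ Y, S.dig t 6 = 1)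
    (h5 : ∑ t ∈ Y, S.dig t 5 = 1) (h4 : ∑ t ∈ Y, S.dig t 4 = 1) :
    ∃ a b t : Tk, kd a = 2 ∧ kd b = 1 ∧ kd t = 0 ∧ Y = {a, b, t} ∧
      ∀ k, ∑ u ∈ Y, S.dig u k = S.dig a k + (S.dig b k + S.dig t k) := by
  have e6 : (Y.filter fun t => kd t = 2).card = 1 := by
    refine Eq.trans ?_ h6
    rw [Finset.card_filter]
    exact Finset.sum_congr rfl fun t _ => (dig6 S t).symm
  have e5 : (Y.filter fun t => kd t = 1).card = 1 := by
    refine Eq.trans ?_ h5
    rw [Finset.card_filter]
    exact Finset.sum_congr rfl fun t _ => (dig5 S t).symm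
  have e4 : (Y.filter fun t => kd t = 0).card = 1 := by
    refine Eq.trans ?_ h4
    rw [Finset.card_filter]
    exact Finset.sum_congr rfl fun t _ => (dig4 S t).symm
  obtain ⟨a, ha⟩ := Finset.card_eq_one.1 e6
  obtain ⟨b, hb⟩ := Finset.card_eq_one.1 e5
  obtain ⟨t, ht⟩ := Finset.card_eq_one.1 e4
  have ma : a ∈ Y ∧ kd a = 2 := by
    have : a ∈ Y.filter fun t => kd t = 2 := by rw [ha]; exact Finset.mem_singleton_self _
    simpa using this
  have mb : b ∈ Y ∧ kd b = 1 := by
    have : b ∈ Y.filter fun t => kd t = 1 := by rw [hb]; exact Finset.mem_singleton_self _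
    simpa using this
  have mt : t ∈ Y ∧ kd t = 0 := by
    have : t ∈ Y.filter fun t => kd t = 0 := by rw [ht]; exact Finset.mem_singleton_self _
    simpa using this
  have hYe : Y = {a, b, t} := by
    ext u
    simp only [Finset.mem_insert, Finset.mem_singleton]
    constructor
    · intro hu
      rcases kd3 u with k | k | k
      · have : u ∈ Y.filter fun t => kd t = 0 := Finset.mem_filter.2 ⟨hu, k⟩
        rw [ht] at this
        exact Or.inr (Or.inr (Finset.mem_singleton.1 this))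
      · have : u ∈ Y.filter fun t => kd t = 1 := Finset.mem_filter.2 ⟨hu, k⟩
        rw [hb] at this
        exact Or.inr (Or.inl (Finset.mem_singleton.1 this))
      · have : u ∈ Y.filter fun t => kd t = 2 := Finset.mem_filter.2 ⟨hu, k⟩
        rw [ha] at this
        exact Or.inl (Finset.mem_singleton.1 this)
    · rintro (rfl | rfl | rfl)
      · exact ma.1
      · exact mb.1
      · exact mt.1
  have nab : a ≠ b := by
    rintro rfl
    have := ma.2
    rw [mb.2] at this
    omega
  have nat' : a ≠ t := by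
    rintro rfl
    have := ma.2
    rw [mt.2] at this
    omega
  have nbt : b ≠ t := by
    rintro rfl
    have := mb.2
    rw [mt.2] at this
    omega
  refine ⟨a, b, t, ma.2, mb.2, mt.2, hYe, fun k => ?_⟩
  rw [hYe, Finset.sum_insert (by simp [nab, nat']), Finset.sum_insert (by simp [nbt]),
    Finset.sum_singleton]

private theorem uniq {K x y o q : ℕ} (ho : o < K) (hq : q < K) (h : x * K + o = y * K + q) :
    x = y ∧ o = q := by
  have hK : 0 < K := lt_of_le_of_lt (Nat.zero_le _) ho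
  have h1 : (x * K + o) / K = x := by
    rw [mul_comm, Nat.mul_add_div hK, Nat.div_eq_of_lt ho, add_zero]
  have h2 : (y * K + q) / K = y := by
    rw [mul_comm, Nat.mul_add_div hK, Nat.div_eq_of_lt hq, add_zero]
  have hxy : x = y := by rw [← h1, ← h2, h]
  subst hxy
  exact ⟨rfl, by omega⟩

private theorem below {K n x o : ℕ} (hx : x < n) (ho : o < K) : x * K + o < n * K := by
  calc x * K + o < x * K + K := by omega
    _ = (x + 1) * K := by ring
    _ ≤ n * K := Nat.mul_le_mul_right K hx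

private theorem sn_inj {s s' : Bool} {p q : ℕ} (h : 2 * p + sn s = 2 * q + sn s') :
    p = q ∧ s = s' := by
  cases s <;> cases s' <;> simp [sn] at h ⊢ <;> omega

theorem dec_V (S : Sys) (hS : S.Good) (Y : Finset Tk) (hY : ∀ t ∈ Y, t ∈ S.tokL) (x o : ℕ)
    (s : Bool) (hx : x < S.n) (ho : o < S.K)
    (h : ∀ k, ∑ t ∈ Y, S.dig t k = S.need (.V x o s) k) :
    ∃ f₁ f₂ f₃ : Bool, Y = {Tk.A x (if s then o else (o + 1) % S.K) f₁, Tk.Wr x o f₂,
      Tk.Tp x o s f₃} ∧ 3 * f₁.toNat + 2 * f₂.toNat + f₃.toNat = 3 := by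
  have h6 := h 6
  have h5 := h 5
  have h4 := h 4
  have ho' : (if s then o else (o + 1) % S.K) < S.K := by
    split_ifs
    · exact ho
    · exact Nat.mod_lt _ (by omega)
  simp only [need] at h6 h5 h4
  obtain ⟨a, b, t, ka, kb, kt, hYe, hs⟩ := split3 S Y (by simpa using h6) (by simpa using h5)
    (by simpa using h4)
  have g3 := (hs 3).symm.trans (h 3)
  have g2 := (hs 2).symm.trans (h 2)
  have g1 := (hs 1).symm.trans (h 1)
  have g0 := (hs 0).symm.trans (h 0)
  have ia : a ∈ S.tokL := hY a (by rw [hYe]; simp)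
  have ib : b ∈ S.tokL := hY b (by rw [hYe]; simp)
  have it : t ∈ S.tokL := hY t (by rw [hYe]; simp)
  rw [S.mem_tokL] at ia ib it
  simp only [need] at g3 g2 g1 g0
  simp only [Matrix.cons_val] at g3 g2 g1 g0
  generalize (if s then o else (o + 1) % S.K) = o' at ho' g3 ⊢
  have b3 : S.dig b 3 = 0 := by
    cases b <;> simp [kd] at kb <;> simp [dig]
  have t3 : S.dig t 3 = 0 := by
    cases t <;> simp [kd] at kt <;> simp [dig]
  have a2 : S.dig a 2 = 0 := by
    cases a <;> simp [kd] at ka <;> simp [dig]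
  have t2 : S.dig t 2 = 0 := by
    cases t <;> simp [kd] at kt <;> simp [dig]
  have a1 : S.dig a 1 = 0 := by
    cases a <;> simp [kd] at ka <;> simp [dig]
  have b1 : S.dig b 1 = 0 := by
    cases b <;> simp [kd] at kb <;> simp [dig]
  rw [b3, t3] at g3
  rw [a2, t2] at g2
  rw [a1, b1] at g1
  have ha : ∃ f₁, a = Tk.A x o' f₁ := by
    cases a with
    | A x' o₁ f =>
      simp [dig] at g3
      obtain ⟨rfl, rfl⟩ := uniq ia.2 ho' g3
      exact ⟨f, rfl⟩
    | Cl o₁ =>
      simp [dig] at g3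
      have := below hx ho'
      omega
    | Wr x' o₁ f => simp [kd] at ka
    | Tp x' o₁ s' f => simp [kd] at ka
    | Fl o₁ f => simp [kd] at ka
  have hb : ∃ f₂, b = Tk.Wr x o f₂ := by
    cases b with
    | Wr x' o₁ f =>
      simp [dig] at g2
      obtain ⟨rfl, rfl⟩ := uniq ib.2 ho g2
      exact ⟨f, rfl⟩
    | Fl o₁ f =>
      simp [dig] at g2
      have := below hx ho
      omega
    | A x' o₁ f => simp [kd] at kb
    | Tp x' o₁ s' f => simp [kd] at kb
    | Cl o₁ => simp [kd] at kb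
  have ht : ∃ f₃, t = Tk.Tp x o s f₃ := by
    cases t with
    | Tp x' o₁ s' f =>
      simp [dig] at g1
      obtain ⟨g1', rfl⟩ := sn_inj g1
      obtain ⟨rfl, rfl⟩ := uniq it.2 ho g1'
      exact ⟨f, rfl⟩
    | Fl o₁ f => simp [kd] at kt
    | A x' o₁ f => simp [kd] at kt
    | Wr x' o₁ f => simp [kd] at kt
    | Cl o₁ => simp [kd] at kt
  obtain ⟨f₁, rfl⟩ := ha
  obtain ⟨f₂, rfl⟩ := hb
  obtain ⟨f₃, rfl⟩ := ht
  refine ⟨f₁, f₂, f₃, hYe, ?_⟩
  simp [dig] at g0
  omega

end Sys

end Pool.Agent.Work.MP_d41d5f_lc
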