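import Pool.Agent.Work.MP_d41d5f_lc.ED.Stmt
import Pool.Agent.Work.PolyTime.NPHard
import Pool.Agent.Work.PolyTime.More

/-!
Maximum edge-disjoint terminal paths in planar graphs: definitions.
-/

set_option autoImplicit false

namespace Pool.Agent.Work.MP_d41d5f_lc

/-- The trivial upper bound: the sum over the pairs of the degree of the first vertex. -/
def cap (I : Inst) : ℕ := (I.2.map fun p => deg I.1 p.1).sum

/-! ### Perfect packings -/

/-- The numbers of the list can be divided into `m` groups of sum `B` each. -/
def Pack (m B : ℕ) (a : List ℕ) : Prop :=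
  ∃ g : ℕ → ℕ, (∀ i < a.length, g i < m) ∧
    ∀ j < m, (∑ i ∈ (Finset.range a.length).filter (fun i => g i = j), a.getD i 0) = B

/-- The load of group `j` after the first `t` numbers. -/
def load (a : List ℕ) (f : ℕ → ℕ) (t j : ℕ) : ℕ :=
  ∑ i ∈ (Finset.range t).filter (fun i => f i = j), a.getD i 0

/-- A perfect packing in which at any time the loads of the groups are increasing. -/
def OrdPack (m B : ℕ) (a : List ℕ) (f : ℕ → ℕ) : Prop :=
  (∀ i < a.length, f i < m) ∧ (∀ j < m, load a f a.length j = B) ∧
    ∀ t ≤ a.length, ∀ j, j + 1 < m → load a f t j ≤ load a f t (j + 1)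

/-! ### The graphs -/

/-- Parameters: numbers `m`, `B` of strands of the two kinds, number `R` of rows and columns of
the array, list of the sizes of the islands. -/
structure Prm where
  /-- number of strands of the first kind -/
  m : ℕ
  /-- number of strands of the second kind -/
  B : ℕ
  /-- side of the array -/
  R : ℕ
  /-- sizes of the islands -/
  a : List ℕ

namespace Prm

variable (P : Prm)

/-- The row of the islands. -/
def rho : ℕ := P.m + P.B + P.a.sum

/-- Number of rows of a block. -/
def H : ℕ := 2 * P.rho + 1

/-- Length of a period. -/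
def T : ℕ := 2 * (P.a.sum + (P.m + P.B) * (P.H + 1))

/-- Number of columns of a block. -/
def W : ℕ := (P.a.length + 1) * P.T

/-- Size of the island in period `i`; there is none in period `0`. -/
def isz (i : ℕ) : ℕ := (0 :: P.a).getD i 0

/-- Is there a vertical edge between the rows `y` and `y + 1` in column `x`? -/
def vert (x y : ℕ) : Bool :=
  if x % P.T < 2 * P.isz (x / P.T) then
    (if P.rho ≤ y then decide ((y - P.rho + x % P.T) % 2 = 0)
      else decide ((P.rho - 1 - y + x % P.T) % 2 = 0))
  else decide ((x + y) % 2 = 0)

/-- The crossing columns: the vertex in row `rho` has degree four. -/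
def isX (x : ℕ) : Bool := decide (x % P.T < 2 * P.isz (x / P.T)) && decide (x % P.T % 2 = 0)

end Prm

/-- Edges: horizontal and vertical edges of the block `(i, j)`, links of the two kinds. -/
inductive Ed where
  | h (i j x y : ℕ)
  | v (i j x y : ℕ)
  | p (i j α : ℕ)
  | q (i j β : ℕ)
deriving DecidableEq

namespace Prm

variable (P : Prm)

/-- The edges that are present. -/
def ok : Ed → Prop
  | .h i j x y => i < P.R ∧ j < P.R ∧ x + 1 < P.W ∧ y < P.H
  | .v i j x y => i < P.R ∧ j < P.R ∧ x < P.W ∧ y + 1 < P.H ∧ P.vert x y = true
  | .p i j α => i ≤ P.R ∧ j < P.R ∧ α < P.m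
  | .q i j β => i < P.R ∧ j ≤ P.R ∧ β < P.B

/-- The ends of an edge. -/
def ends : Ed → Vx × Vx
  | .h i j x y => ([i, j, x, y], [i, j, x + 1, y])
  | .v i j x y => ([i, j, x, y], [i, j, x, y + 1])
  | .p i j α => (if i = 0 then [0] else [i - 1, j, P.W - 1, P.H - P.m + α],
      if i = P.R then [1] else [i, j, 0, α])
  | .q i j β => (if j = 0 then [2] else [i, j - 1, P.W - 1, β],
      if j = P.R then [3] else [i, j, 0, P.H - P.B + β])

/-- The list of the edges of the array. -/
def edges : List (Vx × Vx) :=
  ((List.range P.R).flatMap fun i => (List.range P.R).flatMap fun j =>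
    (List.range (P.W - 1)).flatMap fun x => (List.range P.H).map fun y => P.ends (.h i j x y)) ++
  (((List.range P.R).flatMap fun i => (List.range P.R).flatMap fun j =>
    (List.range P.W).flatMap fun x =>
      ((List.range (P.H - 1)).filter fun y => P.vert x y).map fun y => P.ends (.v i j x y)) ++
  (((List.range (P.R + 1)).flatMap fun i => (List.range P.R).flatMap fun j =>
    (List.range P.m).map fun α => P.ends (.p i j α)) ++
  ((List.range P.R).flatMap fun i => (List.range (P.R + 1)).flatMap fun j =>
    (List.range P.B).map fun β => P.ends (.q i j β))))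

/-- Hypotheses on the parameters. -/
structure Good : Prop where
  hm : 1 ≤ P.m
  hB : 1 ≤ P.B
  hR : 1 ≤ P.R

end Prm

/-- The terminal pairs. -/
def pairs (k : ℕ) : List (Vx × Vx) := (List.range k).map fun l => ([2 * l], [2 * l + 1])

/-- The instance: an `R` by `R` array of blocks. -/
def arr (k : ℕ) (P : Prm) : Inst := (P.edges, pairs k)

end Pool.Agent.Work.MP_d41d5f_lc
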