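import Pool.Agent.Work.MP_d41d5f_lc.ED.PDefs

/-!
PosB (M): the fans are free: no block vertex is between a port and its terminal.

Inequalities from `Good`: `H = 2 (m + B + a.sum) + 1`, `H - m ≥ B + 1`, `H - B ≥ m + 1`, `W ≥ 4`.
Let `v` be the port of the fan edge at `[c]` and `u = [i', j', x', y']` any block vertex. Claim
(`dom`): if `u` is strictly on the side of the terminal in the first coordinate
(`sgx c * ((pos u).1 - (pos v).1) < 0`) then it is strictly on the other side in the second one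
(`0 < sgy c * ((pos u).2 - (pos v).2)`).
`c = 0`, `v = [0,j,0,α]` at `(j W, (R-j)(H-B) + α)`: `(i'+j') W + x' < j W` gives
`i' + j' ≤ j - 1`, so `j' ≤ j - 1` and
`pos u .2 ≥ (R-j')(H-B) ≥ (R-j)(H-B) + (H-B) > (R-j)(H-B) + α`.
`c = 1`, `v = [R-1,j,W-1,H-m+α]` at `((R+j) W - 1, R (H-m) + (R-j)(H-B) + α)`:
`(i'+j') W + x' > (R+j) W - 1` gives `i' + j' ≥ R + j`, so `j' ≥ j + 1` (as `i' ≤ R-1`) and
`pos u .2 ≤ (R-1)(H-m) + (R-j-1)(H-B) + H - 1 < R (H-m) + (R-j)(H-B) + α` since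
`(H-m) + (H-B) ≥ H`.
`c = 2`, `v = [i,0,0,H-B+β]` at `(i W, i (H-m) + R (H-B) + H-B+β)`: `(i'+j') W + x' < i W` gives
`i' + j' ≤ i - 1`, so `pos u .2 ≤ (i-1)(H-m) + R (H-B) + H - 1 = i (H-m) + R (H-B) + m - 1`, smaller
since `m - 1 < H - B`.
`c = 3`, `v = [i,R-1,W-1,β]` at `((i+R) W - 1, i (H-m) + (H-B) + β)`: `(i'+j') W + x' ≥ (i+R) W`
gives `i' ≥ i + 1` (as `j' ≤ R-1`), and `pos u .2 ≥ (i+1)(H-m) + (H-B)` (`R - j' ≥ 1`), larger since
`β < B ≤ H - m`.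
`away`: the port is strictly away from the terminal in both coordinates: the terminals are at
`(-1,-1)`, `(xM,yM)`, `(-1,yM)`, `(xM,-1)` and block vertices satisfy `0 ≤ X < xM`, `0 ≤ Y < yM`.
`fan_sep` (by `seg_le`): the fan at `[0]` lies in `x ≤ (R-1) W`, `y ≤ R (H-B) + m - 1`; at `[2]` in
`x ≤ (R-1) W`, `y ≥ (R+1) (H-B)`; at `[1]` in `x ≥ R W - 1`, `y ≥ R (H-m) + (H-B)`; at `[3]` in
`x ≥ R W - 1`, `y ≤ (R-1) (H-m) + (H-B) + B - 1`; and `(R-1) W < R W - 1`, `m - 1 < H - B`,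
`B - 1 < H - m`; so any two of them are separated by a horizontal or vertical line.
`fan_det`: two different ports `v`, `v'` of the same terminal are not collinear with it: with
`s` = the terminal, same `j` (or `i`): same first coordinate and different second coordinates; for
`c = 0` and `j < j'`: `0 < v.1 - s.1 < v'.1 - s.1` and `v.2 - s.2 > v'.2 - s.2 > 0`
(`(R-j)(H-B) + α > (R-j')(H-B) + α'` because `H - B > α'`); so the products differ; the other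
corners: `c = 1`, `j < j'`: `s.1 - v.1 > s.1 - v'.1 > 0`, `0 < s.2 - v.2 < s.2 - v'.2`
(`(R-j)(H-B)+α > (R-j')(H-B)+α'`). `c = 2`, `i < i'`: `0 < v.1 - s.1 < v'.1 - s.1`,
`s.2 - v.2 > s.2 - v'.2 > 0` (`(H-m) > β`). `c = 3`, `i < i'`: `s.1 - v.1 > s.1 - v'.1 > 0`,
`0 < v.2 - s.2 < v'.2 - s.2`.
-/

set_option autoImplicit false

namespace Pool.Agent.Work.MP_d41d5f_lc

private theorem pb_dims {P : Prm} (hg : P.Good) :
    P.B + 1 ≤ P.H - P.m ∧ P.m + 1 ≤ P.H - P.B ∧ P.H + 1 ≤ (P.H - P.m) + (P.H - P.B) ∧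
      P.H = P.H - P.m + P.m ∧ P.H = P.H - P.B + P.B ∧ 4 ≤ P.W := by
  have h1 := hg.hm
  have h2 := hg.hB
  have h3 : 2 * (P.m + P.B) + 1 ≤ P.H := by
    unfold Prm.H Prm.rho
    omega
  have h4 : 4 ≤ P.T := by
    unfold Prm.T
    have h5 : 2 ≤ (P.m + P.B) * (P.H + 1) := by
      calc 2 = 2 * 1 := by norm_num
        _ ≤ (P.m + P.B) * (P.H + 1) := Nat.mul_le_mul (by omega) (by omega)
    omega
  have h6 : 4 ≤ P.W := by
    unfold Prm.W
    calc 4 ≤ P.T := h4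
      _ = 1 * P.T := (one_mul _).symm
      _ ≤ (P.a.length + 1) * P.T := Nat.mul_le_mul_right _ (by omega)
  refine ⟨by omega, by omega, by omega, by omega, by omega, h6⟩

private theorem pb_mulS {a b : ℕ} (c : ℕ) (h : a < b) : a * c + c ≤ b * c := by
  have h1 := Nat.mul_le_mul_right c (Nat.succ_le_of_lt h)
  rwa [Nat.succ_mul] at h1

private theorem pb_mulL {a b : ℕ} (c : ℕ) (h : a ≤ b) : a * c ≤ b * c :=
  Nat.mul_le_mul_right c h

private theorem pb_lt {a b c : ℕ} (h : a * c < b * c) : a < b := by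
  by_contra h1
  have h2 := Nat.mul_le_mul_right c (not_lt.1 h1)
  omega

private theorem pb_pos (P : Prm) (i j x y : ℕ) : pos P [i, j, x, y] =
    ((((i + j) * P.W + x : ℕ) : ℝ),
      ((i * (P.H - P.m) + (P.R - j) * (P.H - P.B) + y : ℕ) : ℝ)) := by
  show lat (pX P i j x) (pY P i j y) = _
  unfold lat pX pY
  rw [Int.cast_natCast, Int.cast_natCast]

/-- the coordinates of a port -/
private def PbC (P : Prm) (c : ℕ) (d : Ed) (X Y k a : ℕ) : Prop :=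
  (c = 0 ∧ a < P.m ∧ d = .p 0 k a ∧ X = k * P.W ∧ Y = (P.R - k) * (P.H - P.B) + a) ∨
  (c = 1 ∧ a < P.m ∧ d = .p P.R k a ∧ X = (P.R - 1 + k) * P.W + (P.W - 1) ∧
    Y = (P.R - 1) * (P.H - P.m) + (P.R - k) * (P.H - P.B) + (P.H - P.m + a)) ∨
  (c = 2 ∧ a < P.B ∧ d = .q k 0 a ∧ X = k * P.W ∧
    Y = k * (P.H - P.m) + P.R * (P.H - P.B) + (P.H - P.B + a)) ∨
  (c = 3 ∧ a < P.B ∧ d = .q k P.R a ∧ X = (k + (P.R - 1)) * P.W + (P.W - 1) ∧
    Y = k * (P.H - P.m) + (P.H - P.B) + a)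

private theorem pb_fan {P : Prm} (hg : P.Good) {c : ℕ} {v : Vx} {d : Ed} (h : isFan P c v d) :
    ∃ X Y k a : ℕ, pos P v = ((X : ℝ), (Y : ℝ)) ∧ k < P.R ∧ PbC P c d X Y k a := by
  have hR := hg.hR
  obtain ⟨_, _, _, h1 | h1 | h1 | h1⟩ := h
  · obtain ⟨rfl, j, α, hj, hα, rfl, rfl⟩ := h1
    refine ⟨_, _, j, α, pb_pos P 0 j 0 α, hj, Or.inl ⟨rfl, hα, rfl, ?_, ?_⟩⟩
    · rw [zero_add, add_zero]
    · rw [zero_mul, zero_add]
  · obtain ⟨rfl, j, α, hj, hα, rfl, rfl⟩ := h1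
    exact ⟨_, _, j, α, pb_pos P _ _ _ _, hj, Or.inr (Or.inl ⟨rfl, hα, rfl, rfl, rfl⟩)⟩
  · obtain ⟨rfl, i, β, hi, hβ, rfl, rfl⟩ := h1
    refine ⟨_, _, i, β, pb_pos P _ _ _ _, hi, Or.inr (Or.inr (Or.inl ⟨rfl, hβ, rfl, ?_, ?_⟩))⟩
    · rw [add_zero, add_zero]
    · rw [Nat.sub_zero]
  · obtain ⟨rfl, i, β, hi, hβ, rfl, rfl⟩ := h1
    refine ⟨_, _, i, β, pb_pos P _ _ _ _, hi, Or.inr (Or.inr (Or.inr ⟨rfl, hβ, rfl, rfl, ?_⟩))⟩
    rw [show P.R - (P.R - 1) = 1 by omega, one_mul]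

theorem dom (P : Prm) (hg : P.Good) (c : ℕ) (v : Vx) (d : Ed) (h : isFan P c v d) (u : Vx)
    (hu : isBV P u) (h1 : sgx c * ((pos P u).1 - (pos P v).1) < 0) :
    0 < sgy c * ((pos P u).2 - (pos P v).2) := by
  have hR := hg.hR
  obtain ⟨hA, hC, hAC, hHm, hHB, hW⟩ := pb_dims hg
  obtain ⟨X, Y, k, a, hpv, hk, hc⟩ := pb_fan hg h
  obtain ⟨i, j, x, y, hi, hj, hx, hy, rfl⟩ := hu
  rw [pb_pos, hpv] at h1 ⊢
  simp only at h1 ⊢
  set A := P.H - P.m with hAdef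
  set C := P.H - P.B with hCdef
  rcases hc with ⟨rfl, ha, _, hX, hY⟩ | ⟨rfl, ha, _, hX, hY⟩ | ⟨rfl, ha, _, hX, hY⟩ |
    ⟨rfl, ha, _, hX, hY⟩
  · rw [← hCdef] at hY
    have e1 : sgx 0 = 1 := by simp [sgx]
    have e2 : sgy 0 = 1 := by simp [sgy]
    rw [e1, one_mul, sub_neg, Nat.cast_lt] at h1
    rw [e2, one_mul, sub_pos, Nat.cast_lt]
    have h2 : i + j < k := pb_lt (c := P.W) (by omega)
    have h3 : (P.R - k) * C + C ≤ (P.R - j) * C := pb_mulS C (by omega)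
    omega
  · rw [← hCdef, ← hAdef] at hY
    have e1 : sgx 1 = -1 := by simp [sgx]
    have e2 : sgy 1 = -1 := by simp [sgy]
    rw [e1, neg_one_mul, neg_sub, sub_neg, Nat.cast_lt] at h1
    rw [e2, neg_one_mul, neg_sub, sub_pos, Nat.cast_lt]
    have h2 : P.R - 1 + k < i + j := pb_lt (c := P.W) (by omega)
    have h3 : (P.R - j) * C + C ≤ (P.R - k) * C := pb_mulS C (by omega)
    have h4 : i * A ≤ (P.R - 1) * A := pb_mulL A (by omega)
    omega
  · rw [← hCdef, ← hAdef] at hY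
    have e1 : sgx 2 = 1 := by simp [sgx]
    have e2 : sgy 2 = -1 := by simp [sgy]
    rw [e1, one_mul, sub_neg, Nat.cast_lt] at h1
    rw [e2, neg_one_mul, neg_sub, sub_pos, Nat.cast_lt]
    have h2 : i + j < k := pb_lt (c := P.W) (by omega)
    have h3 : (P.R - j) * C ≤ P.R * C := pb_mulL C (by omega)
    have h4 : i * A + A ≤ k * A := pb_mulS A (by omega)
    omega
  · rw [← hCdef, ← hAdef] at hY
    have e1 : sgx 3 = -1 := by simp [sgx]
    have e2 : sgy 3 = 1 := by simp [sgy]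
    rw [e1, neg_one_mul, neg_sub, sub_neg, Nat.cast_lt] at h1
    rw [e2, one_mul, sub_pos, Nat.cast_lt]
    have h2 : k + (P.R - 1) < i + j := pb_lt (c := P.W) (by omega)
    have h3 : 1 * C ≤ (P.R - j) * C := pb_mulL C (by omega)
    have h4 : k * A + A ≤ i * A := pb_mulS A (by omega)
    omega

private theorem pb_t0 (P : Prm) : pos P [0] = (((-1 : ℤ) : ℝ), ((-1 : ℤ) : ℝ)) := by
  unfold pos
  simp [lat]

private theorem pb_t1 (P : Prm) : pos P [1] = (((2 * P.R * P.W : ℕ) : ℝ),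
    ((P.R * (P.H - P.m) + P.R * (P.H - P.B) + P.H : ℕ) : ℝ)) := by
  have h : pos P [1] = lat (xM P) (yM P) := by
    unfold pos
    simp
  rw [h]
  unfold lat xM yM
  rw [Int.cast_natCast, Int.cast_natCast]

private theorem pb_t2 (P : Prm) : pos P [2] = (((-1 : ℤ) : ℝ),
    ((P.R * (P.H - P.m) + P.R * (P.H - P.B) + P.H : ℕ) : ℝ)) := by
  have h : pos P [2] = lat (-1) (yM P) := by
    unfold pos
    simp
  rw [h]
  unfold lat yM
  rw [Int.cast_natCast]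

private theorem pb_t3 (P : Prm) : pos P [3] = (((2 * P.R * P.W : ℕ) : ℝ), ((-1 : ℤ) : ℝ)) := by
  have h : pos P [3] = lat (xM P) (-1) := by
    unfold pos
    simp
  rw [h]
  unfold lat xM
  rw [Int.cast_natCast]

theorem away (P : Prm) (hg : P.Good) (c : ℕ) (v : Vx) (d : Ed) (h : isFan P c v d) :
    0 < sgx c * ((pos P v).1 - (pos P [c]).1) ∧ 0 < sgy c * ((pos P v).2 - (pos P [c]).2) := by
  have hR := hg.hR
  obtain ⟨hA, hC, hAC, hHm, hHB, hW⟩ := pb_dims hg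
  obtain ⟨X, Y, k, a, hpv, hk, hc⟩ := pb_fan hg h
  rw [hpv]
  have hneg : ∀ n : ℕ, (0 : ℝ) < (n : ℝ) - ((-1 : ℤ) : ℝ) := by
    intro n
    have : (0 : ℝ) ≤ n := Nat.cast_nonneg n
    push_cast
    linarith
  have hWW : 2 * P.R * P.W = P.R * P.W + P.R * P.W := by ring
  rcases hc with ⟨rfl, ha, _, hX, hY⟩ | ⟨rfl, ha, _, hX, hY⟩ | ⟨rfl, ha, _, hX, hY⟩ |
    ⟨rfl, ha, _, hX, hY⟩
  · have e1 : sgx 0 = 1 := by simp [sgx]
    have e2 : sgy 0 = 1 := by simp [sgy]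
    rw [e1, e2, pb_t0, one_mul, one_mul]
    exact ⟨hneg X, hneg Y⟩
  · have e1 : sgx 1 = -1 := by simp [sgx]
    have e2 : sgy 1 = -1 := by simp [sgy]
    rw [e1, e2, pb_t1, neg_one_mul, neg_one_mul, neg_sub, neg_sub]
    simp only
    rw [sub_pos, sub_pos, Nat.cast_lt, Nat.cast_lt]
    have h1 : (P.R - 1 + k) * P.W + P.W ≤ (P.R + P.R) * P.W := pb_mulS P.W (by omega)
    have h2 : (P.R - 1) * (P.H - P.m) + (P.H - P.m) ≤ P.R * (P.H - P.m) :=
      pb_mulS _ (by omega)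
    have h3 : (P.R - k) * (P.H - P.B) ≤ P.R * (P.H - P.B) := pb_mulL _ (by omega)
    rw [add_mul P.R] at h1
    omega
  · have e1 : sgx 2 = 1 := by simp [sgx]
    have e2 : sgy 2 = -1 := by simp [sgy]
    rw [e1, e2, pb_t2, one_mul, neg_one_mul, neg_sub]
    refine ⟨hneg X, ?_⟩
    simp only
    rw [sub_pos, Nat.cast_lt]
    have h2 : k * (P.H - P.m) ≤ P.R * (P.H - P.m) := pb_mulL _ (by omega)
    omega
  · have e1 : sgx 3 = -1 := by simp [sgx]
    have e2 : sgy 3 = 1 := by simp [sgy]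
    rw [e1, e2, pb_t3, one_mul, neg_one_mul, neg_sub]
    refine ⟨?_, hneg Y⟩
    simp only
    rw [sub_pos, Nat.cast_lt]
    have h1 : (k + (P.R - 1)) * P.W + P.W ≤ (P.R + P.R) * P.W := pb_mulS P.W (by omega)
    rw [add_mul P.R] at h1
    omega

private theorem pb_det (p q p' q' : ℝ) (hp : 0 < p) (hp' : 0 < p') (hq : 0 < q) (hq' : 0 < q')
    (h : (p = p' ∧ q ≠ q') ∨ (p < p' ∧ q' < q) ∨ (p' < p ∧ q < q')) : p * q' ≠ p' * q := by
  rcases h with ⟨rfl, h⟩ | ⟨h1, h2⟩ | ⟨h1, h2⟩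
  · intro h1
    exact h (mul_left_cancel₀ hp.ne' h1).symm
  · exact (mul_lt_mul'' h1 h2 hp.le hq'.le).ne
  · exact (mul_lt_mul'' h1 h2 hp'.le hq.le).ne'

private theorem pb_det' (σ τ a b a' b' : ℝ) (h1 : 0 < σ * a) (h2 : 0 < τ * b)
    (h1' : 0 < σ * a') (h2' : 0 < τ * b')
    (h : (a = a' ∧ b ≠ b') ∨ (σ * a < σ * a' ∧ τ * b' < τ * b) ∨
      (σ * a' < σ * a ∧ τ * b < τ * b')) : a * b' ≠ a' * b := by
  intro he
  refine pb_det (σ * a) (τ * b) (σ * a') (τ * b') h1 h1' h2 h2' ?_ ?_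
  · rcases h with ⟨h3, h4⟩ | h3 | h3
    · refine Or.inl ⟨by rw [h3], ?_⟩
      intro h5
      have hτ : τ ≠ 0 := by
        rintro rfl
        rw [zero_mul] at h2
        exact lt_irrefl _ h2
      exact h4 (mul_left_cancel₀ hτ h5)
    · exact Or.inr (Or.inl h3)
    · exact Or.inr (Or.inr h3)
  · calc σ * a * (τ * b') = σ * τ * (a * b') := by ring
      _ = σ * τ * (a' * b) := by rw [he]
      _ = σ * a' * (τ * b) := by ring

private theorem pb_mono {P : Prm} (hg : P.Good) {c : ℕ} {d d' : Ed} {X Y k a X' Y' k' a' : ℕ}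
    (hk : k < P.R) (hk' : k' < P.R) (hc : PbC P c d X Y k a) (hc' : PbC P c d' X' Y' k' a')
    (hne : d ≠ d') :
    (X = X' ∧ Y ≠ Y') ∨
    (sgx c * (X : ℝ) < sgx c * (X' : ℝ) ∧ sgy c * (Y' : ℝ) < sgy c * (Y : ℝ)) ∨
    (sgx c * (X' : ℝ) < sgx c * (X : ℝ) ∧ sgy c * (Y : ℝ) < sgy c * (Y' : ℝ)) := by
  have hR := hg.hR
  obtain ⟨hA, hC, hAC, hHm, hHB, hW⟩ := pb_dims hg
  set A := P.H - P.m with hAdef
  set C := P.H - P.B with hCdef
  rcases hc with ⟨rfl, ha, hd, hX, hY⟩ | ⟨rfl, ha, hd, hX, hY⟩ | ⟨rfl, ha, hd, hX, hY⟩ |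
    ⟨rfl, ha, hd, hX, hY⟩
  · rcases hc' with ⟨_, ha', hd', hX', hY'⟩ | ⟨h0, _⟩ | ⟨h0, _⟩ | ⟨h0, _⟩
    · have e1 : sgx 0 = 1 := by simp [sgx]
      have e2 : sgy 0 = 1 := by simp [sgy]
      rw [e1, e2, one_mul, one_mul, one_mul, one_mul, Nat.cast_lt, Nat.cast_lt, Nat.cast_lt,
        Nat.cast_lt]
      rw [← hCdef] at hY hY'
      rcases lt_trichotomy k k' with h | h | h
      · have h3 : (P.R - k') * C + C ≤ (P.R - k) * C := pb_mulS C (by omega)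
        have h4 : k * P.W + P.W ≤ k' * P.W := pb_mulS P.W h
        omega
      · subst h
        left
        refine ⟨by omega, ?_⟩
        intro h5
        apply hne
        rw [hd, hd']
        congr 1
        omega
      · have h3 : (P.R - k) * C + C ≤ (P.R - k') * C := pb_mulS C (by omega)
        have h4 : k' * P.W + P.W ≤ k * P.W := pb_mulS P.W h
        omega
    · omega
    · omega
    · omega
  · rcases hc' with ⟨h0, _⟩ | ⟨_, ha', hd', hX', hY'⟩ | ⟨h0, _⟩ | ⟨h0, _⟩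
    · omega
    · have e1 : sgx 1 = -1 := by simp [sgx]
      have e2 : sgy 1 = -1 := by simp [sgy]
      rw [e1, e2, neg_one_mul, neg_one_mul, neg_one_mul, neg_one_mul, neg_lt_neg_iff,
        neg_lt_neg_iff, neg_lt_neg_iff, neg_lt_neg_iff, Nat.cast_lt, Nat.cast_lt, Nat.cast_lt,
        Nat.cast_lt]
      rw [← hCdef, ← hAdef] at hY hY'
      rcases lt_trichotomy k k' with h | h | h
      · have h3 : (P.R - k') * C + C ≤ (P.R - k) * C := pb_mulS C (by omega)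
        have h4 : (P.R - 1 + k) * P.W + P.W ≤ (P.R - 1 + k') * P.W := pb_mulS P.W (by omega)
        omega
      · subst h
        left
        refine ⟨by omega, ?_⟩
        intro h5
        apply hne
        rw [hd, hd']
        congr 1
        omega
      · have h3 : (P.R - k) * C + C ≤ (P.R - k') * C := pb_mulS C (by omega)
        have h4 : (P.R - 1 + k') * P.W + P.W ≤ (P.R - 1 + k) * P.W := pb_mulS P.W (by omega)
        omega
    · omega
    · omega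
  · rcases hc' with ⟨h0, _⟩ | ⟨h0, _⟩ | ⟨_, ha', hd', hX', hY'⟩ | ⟨h0, _⟩
    · omega
    · omega
    · have e1 : sgx 2 = 1 := by simp [sgx]
      have e2 : sgy 2 = -1 := by simp [sgy]
      rw [e1, e2, one_mul, neg_one_mul, one_mul, neg_one_mul, neg_lt_neg_iff,
        neg_lt_neg_iff, Nat.cast_lt, Nat.cast_lt, Nat.cast_lt, Nat.cast_lt]
      rw [← hCdef, ← hAdef] at hY hY'
      rcases lt_trichotomy k k' with h | h | h
      · have h3 : k * A + A ≤ k' * A := pb_mulS A h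
        have h4 : k * P.W + P.W ≤ k' * P.W := pb_mulS P.W h
        omega
      · subst h
        left
        refine ⟨by omega, ?_⟩
        intro h5
        apply hne
        rw [hd, hd']
        congr 1
        omega
      · have h3 : k' * A + A ≤ k * A := pb_mulS A h
        have h4 : k' * P.W + P.W ≤ k * P.W := pb_mulS P.W h
        omega
    · omega
  · rcases hc' with ⟨h0, _⟩ | ⟨h0, _⟩ | ⟨h0, _⟩ | ⟨_, ha', hd', hX', hY'⟩
    · omega
    · omega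
    · omega
    · have e1 : sgx 3 = -1 := by simp [sgx]
      have e2 : sgy 3 = 1 := by simp [sgy]
      rw [e1, e2, one_mul, neg_one_mul, one_mul, neg_one_mul, neg_lt_neg_iff,
        neg_lt_neg_iff, Nat.cast_lt, Nat.cast_lt, Nat.cast_lt, Nat.cast_lt]
      rw [← hCdef, ← hAdef] at hY hY'
      rcases lt_trichotomy k k' with h | h | h
      · have h3 : k * A + A ≤ k' * A := pb_mulS A h
        have h4 : (k + (P.R - 1)) * P.W + P.W ≤ (k' + (P.R - 1)) * P.W :=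
          pb_mulS P.W (by omega)
        omega
      · subst h
        left
        refine ⟨by omega, ?_⟩
        intro h5
        apply hne
        rw [hd, hd']
        congr 1
        omega
      · have h3 : k' * A + A ≤ k * A := pb_mulS A h
        have h4 : (k' + (P.R - 1)) * P.W + P.W ≤ (k + (P.R - 1)) * P.W :=
          pb_mulS P.W (by omega)
        omega

theorem fan_det (P : Prm) (hg : P.Good) (c : ℕ) (v v' : Vx) (d d' : Ed) (h : isFan P c v d)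
    (h' : isFan P c v' d') (hne : d ≠ d') :
    ((pos P v).1 - (pos P [c]).1) * ((pos P v').2 - (pos P [c]).2) ≠
      ((pos P v').1 - (pos P [c]).1) * ((pos P v).2 - (pos P [c]).2) := by
  obtain ⟨h1, h2⟩ := away P hg c v d h
  obtain ⟨h1', h2'⟩ := away P hg c v' d' h'
  refine pb_det' (sgx c) (sgy c) _ _ _ _ h1 h2 h1' h2' ?_
  obtain ⟨X, Y, k, a, hpv, hk, hc⟩ := pb_fan hg h
  obtain ⟨X', Y', k', a', hpv', hk', hc'⟩ := pb_fan hg h'
  rw [hpv, hpv']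
  simp only
  rcases pb_mono hg hk hk' hc hc' hne with ⟨h3, h4⟩ | ⟨h3, h4⟩ | ⟨h3, h4⟩
  · refine Or.inl ⟨by rw [h3], ?_⟩
    intro h5
    apply h4
    have h6 : (Y : ℝ) = (Y' : ℝ) := by linarith
    exact_mod_cast h6
  · refine Or.inr (Or.inl ⟨?_, ?_⟩)
    · rw [mul_sub, mul_sub]
      linarith
    · rw [mul_sub, mul_sub]
      linarith
  · refine Or.inr (Or.inr ⟨?_, ?_⟩)
    · rw [mul_sub, mul_sub]
      linarith
    · rw [mul_sub, mul_sub]
      linarith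

/-- the box of a fan edge -/
private theorem pb_box {P : Prm} (hg : P.Good) {c : ℕ} {v : Vx} {d : Ed} (h : isFan P c v d)
    {z : ℝ × ℝ} (hz : z ∈ segment ℝ (pos P [c]) (pos P v)) :
    (c = 0 ∧ z.1 ≤ (((P.R - 1) * P.W : ℕ) : ℝ) ∧
      z.2 ≤ ((P.R * (P.H - P.B) + (P.m - 1) : ℕ) : ℝ)) ∨
    (c = 1 ∧ ((P.R * P.W - 1 : ℕ) : ℝ) ≤ z.1 ∧
      ((P.R * (P.H - P.m) + (P.H - P.B) : ℕ) : ℝ) ≤ z.2) ∨
    (c = 2 ∧ z.1 ≤ (((P.R - 1) * P.W : ℕ) : ℝ) ∧
      ((P.R * (P.H - P.B) + (P.H - P.B) : ℕ) : ℝ) ≤ z.2) ∨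
    (c = 3 ∧ ((P.R * P.W - 1 : ℕ) : ℝ) ≤ z.1 ∧
      z.2 ≤ (((P.R - 1) * (P.H - P.m) + (P.H - P.B) + (P.B - 1) : ℕ) : ℝ)) := by
  have hR := hg.hR
  have hm := hg.hm
  have hB := hg.hB
  obtain ⟨hA, hC, hAC, hHm, hHB, hW⟩ := pb_dims hg
  obtain ⟨X, Y, k, a, hpv, hk, hc⟩ := pb_fan hg h
  obtain ⟨z1, z2, z3, z4⟩ := seg_le _ _ z hz
  rw [hpv] at z1 z2 z3 z4
  set A := P.H - P.m with hAdef
  set C := P.H - P.B with hCdef
  have hneg : ∀ n : ℕ, (((-1 : ℤ) : ℝ)) ≤ (n : ℝ) := by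
    intro n
    have : (0 : ℝ) ≤ n := Nat.cast_nonneg n
    push_cast
    linarith
  rcases hc with ⟨rfl, ha, _, hX, hY⟩ | ⟨rfl, ha, _, hX, hY⟩ | ⟨rfl, ha, _, hX, hY⟩ |
    ⟨rfl, ha, _, hX, hY⟩
  · left
    rw [← hCdef] at hY
    rw [pb_t0] at z1 z2 z3 z4
    simp only at z1 z2 z3 z4
    have h1 : k * P.W ≤ (P.R - 1) * P.W := pb_mulL _ (by omega)
    have h2 : (P.R - k) * C ≤ P.R * C := pb_mulL _ (by omega)
    refine ⟨rfl, z2.trans (max_le (hneg _) ?_), z4.trans (max_le (hneg _) ?_)⟩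
    · rw [Nat.cast_le]
      omega
    · rw [Nat.cast_le]
      omega
  · right; left
    rw [← hCdef, ← hAdef] at hY
    rw [pb_t1] at z1 z2 z3 z4
    simp only at z1 z2 z3 z4
    rw [← hCdef, ← hAdef] at z3 z4
    have h0 : (P.R - 1) * P.W + P.W = P.R * P.W := by
      obtain ⟨r, hr⟩ : ∃ r, P.R = r + 1 := ⟨P.R - 1, by omega⟩
      rw [hr, Nat.add_sub_cancel]
      ring
    have h0' : (P.R - 1) * A + A = P.R * A := by
      obtain ⟨r, hr⟩ : ∃ r, P.R = r + 1 := ⟨P.R - 1, by omega⟩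
      rw [hr, Nat.add_sub_cancel]
      ring
    have h1 : (P.R - 1) * P.W ≤ (P.R - 1 + k) * P.W := pb_mulL _ (by omega)
    have h2 : 1 * C ≤ (P.R - k) * C := pb_mulL _ (by omega)
    have h3 : 2 * P.R * P.W = P.R * P.W + P.R * P.W := by ring
    have h4 : 1 * C ≤ P.R * C := pb_mulL _ (by omega)
    refine ⟨rfl, le_trans (le_min ?_ ?_) z1, le_trans (le_min ?_ ?_) z3⟩
    · rw [Nat.cast_le]
      omega
    · rw [Nat.cast_le]
      omega
    · rw [Nat.cast_le]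
      omega
    · rw [Nat.cast_le]
      omega
  · right; right; left
    rw [← hCdef, ← hAdef] at hY
    rw [pb_t2] at z1 z2 z3 z4
    simp only at z1 z2 z3 z4
    rw [← hCdef, ← hAdef] at z3 z4
    have h1 : k * P.W ≤ (P.R - 1) * P.W := pb_mulL _ (by omega)
    refine ⟨rfl, z2.trans (max_le (hneg _) ?_), le_trans (le_min ?_ ?_) z3⟩
    · rw [Nat.cast_le]
      omega
    · rw [Nat.cast_le]
      omega
    · rw [Nat.cast_le]
      omega
  · right; right; right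
    rw [← hCdef, ← hAdef] at hY
    rw [pb_t3] at z1 z2 z3 z4
    simp only at z1 z2 z3 z4
    have h0 : (P.R - 1) * P.W + P.W = P.R * P.W := by
      obtain ⟨r, hr⟩ : ∃ r, P.R = r + 1 := ⟨P.R - 1, by omega⟩
      rw [hr, Nat.add_sub_cancel]
      ring
    have h1 : (P.R - 1) * P.W ≤ (k + (P.R - 1)) * P.W := pb_mulL _ (by omega)
    have h2 : k * A ≤ (P.R - 1) * A := pb_mulL _ (by omega)
    have h3 : 2 * P.R * P.W = P.R * P.W + P.R * P.W := by ring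
    refine ⟨rfl, le_trans (le_min ?_ ?_) z1, z4.trans (max_le (hneg _) ?_)⟩
    · rw [Nat.cast_le]
      omega
    · rw [Nat.cast_le]
      omega
    · rw [Nat.cast_le]
      omega

private theorem pb_sepx {P : Prm} (hg : P.Good) {t : ℝ} (h1 : t ≤ (((P.R - 1) * P.W : ℕ) : ℝ))
    (h2 : ((P.R * P.W - 1 : ℕ) : ℝ) ≤ t) : False := by
  have hR := hg.hR
  obtain ⟨hA, hC, hAC, hHm, hHB, hW⟩ := pb_dims hg
  have h3 := h2.trans h1
  rw [Nat.cast_le] at h3
  have h0 : (P.R - 1) * P.W + P.W = P.R * P.W := by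
    obtain ⟨r, hr⟩ : ∃ r, P.R = r + 1 := ⟨P.R - 1, by omega⟩
    rw [hr, Nat.add_sub_cancel]
    ring
  omega

private theorem pb_sep {P : Prm} (hg : P.Good) {c c' : ℕ} {v v' : Vx} {d d' : Ed}
    (h : isFan P c v d) (h' : isFan P c' v' d') (hne : c < c') {z : ℝ × ℝ}
    (hz : z ∈ segment ℝ (pos P [c]) (pos P v)) (hz' : z ∈ segment ℝ (pos P [c']) (pos P v')) :
    False := by
  have hR := hg.hR
  have hm := hg.hm
  have hB := hg.hB
  obtain ⟨hA, hC, hAC, hHm, hHB, hW⟩ := pb_dims hg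
  rcases pb_box hg h hz with ⟨rfl, h1, h2⟩ | ⟨rfl, h1, h2⟩ | ⟨rfl, h1, h2⟩ | ⟨rfl, h1, h2⟩ <;>
    rcases pb_box hg h' hz' with ⟨rfl, h1', h2'⟩ | ⟨rfl, h1', h2'⟩ | ⟨rfl, h1', h2'⟩ |
      ⟨rfl, h1', h2'⟩
  · omega
  · exact pb_sepx hg h1 h1'
  · have h3 := h2'.trans h2
    rw [Nat.cast_le] at h3
    omega
  · exact pb_sepx hg h1 h1'
  · omega
  · omega
  · exact pb_sepx hg h1' h1
  · have h3 := h2.trans h2'
    rw [Nat.cast_le] at h3
    have h0' : (P.R - 1) * (P.H - P.m) + (P.H - P.m) = P.R * (P.H - P.m) := by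
      obtain ⟨r, hr⟩ : ∃ r, P.R = r + 1 := ⟨P.R - 1, by omega⟩
      rw [hr, Nat.add_sub_cancel]
      ring
    omega
  · omega
  · omega
  · omega
  · exact pb_sepx hg h1 h1'
  · omega
  · omega
  · omega
  · omega

/-- Fans at different terminals do not meet. -/
theorem fan_sep (P : Prm) (hg : P.Good) (c c' : ℕ) (v v' : Vx) (d d' : Ed) (h : isFan P c v d)
    (h' : isFan P c' v' d') (hne : c ≠ c') (z : ℝ × ℝ)
    (hz : z ∈ segment ℝ (pos P [c]) (pos P v)) (hz' : z ∈ segment ℝ (pos P [c']) (pos P v')) :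
    False := by
  rcases Nat.lt_or_gt_of_ne hne with h1 | h1
  · exact pb_sep hg h h' h1 hz hz'
  · exact pb_sep hg h' h h1 hz' hz

end Pool.Agent.Work.MP_d41d5f_lc
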