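import Pool.Agent.Work.MP_d41d5f_lc.ED.PosA
import Pool.Agent.Work.MP_d41d5f_lc.ED.PosB

/-!
DrawP (M-L): the array is drawn without crossings.

Proof. Vertices of the instance `arr k P`: ends of valid edges (`mem_edges`, `cls`): block vertices
and the terminals `[0]`, `[1]`, `[2]`, `[3]`; and the terminals `[2l]`, `[2l+1]`, `l < k`.
`inj`: block vertices among themselves: `bv_inj`. Block vertex and terminal: the block vertex has
first coordinate in `[0, xM)`, the terminals have first coordinate `-1` or `xM`. Terminals among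
themselves: `[0]`, `[2]` and `[c]`, `c ≥ 4`, have first coordinate `-1` and second coordinates `-1`,
`yM ≥ 1`, `1/c ∈ (0, 1/4]`, all different; `[1]`, `[3]` have first coordinate `xM > 0` and
second coordinates `yM`, `-1`.
`edge`: let `e = ends d`, `f = ends d'`, `e ≠ f`, so `d ≠ d'`. By `cls` each of `d`, `d'` is a unit edge or
a fan edge. unit/unit: the data `(X,Y,b)` are different, since equal data would give equal positions
of both ends, so `ends d = ends d'` by `bv_inj`; by `unit_unit` the point `z` is the position of an end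
of `d` and of an end of `d'`, and these ends are equal by `bv_inj`. fan/unit (and unit/fan): `fan_unit`
with `σ = sgx c`, `τ = sgy c`, `s = pos [c]`, `p = pos v` (a lattice point by `bv_box`), hypotheses
from `away` and `dom`: `z = pos v` and `z` is an end of the unit edge; `bv_inj`. (`segment_symm` if
the fan edge is `(v, [c])`.) fan/fan, same `c`: `fan_fan` with `fan_det`: `z = pos [c]`, the common
end. fan/fan, different terminals: `fan_sep`.
`vert`: let `v` be a vertex on the edge `e = ends d`. If `v` is an end of some edge `f`: if `f = e`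
done; otherwise `pos v` lies on both edges, so by `edge` it is the position of a common end `v'`,
and `v = v'` by `inj`. Otherwise `v = [c]`, `c ≥ 4` (for `[0]`: it is an end of `p 0 0 0`, valid as
`R, m ≥ 1`; same for `[1]`, `[2]`, `[3]` with `p R 0 0`, `q 0 0 0`, `q 0 R 0`); its position is
`(-1, 1/c)`: a unit edge has first coordinates `≥ 0`; a fan edge at `[1]`, `[3]` too; a point of a
fan edge at `[0]` or `[2]` with first coordinate `-1` is the terminal itself (the port has first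
coordinate `≥ 0`), which has second coordinate `-1` or `yM ≥ 1`.
`arr_outer`: the rectangle `[-1, xM] × [-1, yM]` contains all positions (`bv_box`, `1/c ≤ 1 ≤ yM`),
and the terminals are on its boundary.
-/

set_option autoImplicit false

namespace Pool.Agent.Work.MP_d41d5f_lc

private theorem dw_W (P : Prm) (hg : P.Good) : 0 < P.W := by
  have h1 := hg.hm
  have h2 : 0 < P.T := by
    unfold Prm.T
    have : 0 < (P.m + P.B) * (P.H + 1) := Nat.mul_pos (by omega) (by omega)
    omega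
  unfold Prm.W
  exact Nat.mul_pos (by omega) h2

private theorem dw_x (P : Prm) (hg : P.Good) : (0 : ℝ) < (xM P : ℝ) := by
  have h1 := hg.hR
  have h2 := dw_W P hg
  have h3 : 0 < 2 * P.R * P.W := Nat.mul_pos (by omega) h2
  have h4 : (0 : ℤ) < xM P := by
    unfold xM
    exact_mod_cast h3
  exact_mod_cast h4

private theorem dw_y (P : Prm) : (1 : ℝ) ≤ (yM P : ℝ) := by
  have h3 : 1 ≤ P.R * (P.H - P.m) + P.R * (P.H - P.B) + P.H := by
    have : 1 ≤ P.H := by
      unfold Prm.H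
      omega
    omega
  have h4 : (1 : ℤ) ≤ yM P := by
    unfold yM
    exact_mod_cast h3
  exact_mod_cast h4

/-- the terminals -/
private theorem dw_t (P : Prm) (c : ℕ) :
    (c = 0 ∧ (pos P [c]).1 = -1 ∧ (pos P [c]).2 = -1) ∨
    (c = 1 ∧ (pos P [c]).1 = xM P ∧ (pos P [c]).2 = yM P) ∨
    (c = 2 ∧ (pos P [c]).1 = -1 ∧ (pos P [c]).2 = yM P) ∨
    (c = 3 ∧ (pos P [c]).1 = xM P ∧ (pos P [c]).2 = -1) ∨
    (4 ≤ c ∧ (pos P [c]).1 = -1 ∧ (pos P [c]).2 = 1 / (c : ℝ) ∧ 0 < 1 / (c : ℝ) ∧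
      1 / (c : ℝ) < 1) := by
  have h0 : pos P [c] = if c = 0 then lat (-1) (-1) else if c = 1 then lat (xM P) (yM P)
      else if c = 2 then lat (-1) (yM P) else if c = 3 then lat (xM P) (-1)
      else (-1, 1 / (c : ℝ)) := rfl
  rw [h0]
  by_cases c0 : c = 0
  · left
    rw [if_pos c0]
    refine ⟨c0, ?_, ?_⟩ <;> simp [lat]
  rw [if_neg c0]
  by_cases c1 : c = 1
  · right; left
    rw [if_pos c1]
    exact ⟨c1, rfl, rfl⟩
  rw [if_neg c1]
  by_cases c2 : c = 2
  · right; right; left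
    rw [if_pos c2]
    refine ⟨c2, ?_, ?_⟩ <;> simp [lat]
  rw [if_neg c2]
  by_cases c3 : c = 3
  · right; right; right; left
    rw [if_pos c3]
    refine ⟨c3, ?_, ?_⟩ <;> simp [lat]
  rw [if_neg c3]
  right; right; right; right
  have hc : 4 ≤ c := by omega
  have hc' : (4 : ℝ) ≤ c := by exact_mod_cast hc
  refine ⟨hc, rfl, rfl, by positivity, ?_⟩
  rw [div_lt_one (by linarith)]
  linarith

private theorem dw_t1 (P : Prm) (c : ℕ) : (pos P [c]).1 = -1 ∨ (pos P [c]).1 = xM P := by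
  rcases dw_t P c with h | h | h | h | h
  · exact Or.inl h.2.1
  · exact Or.inr h.2.1
  · exact Or.inl h.2.1
  · exact Or.inr h.2.1
  · exact Or.inl h.2.1

private theorem dw_tinj (P : Prm) (hg : P.Good) (c c' : ℕ) (h : pos P [c] = pos P [c']) :
    c = c' := by
  have hx := dw_x P hg
  have hy := dw_y P
  have e1 : (pos P [c]).1 = (pos P [c']).1 := by rw [h]
  have e2 : (pos P [c]).2 = (pos P [c']).2 := by rw [h]
  rcases dw_t P c with ⟨a, b, d⟩ | ⟨a, b, d⟩ | ⟨a, b, d⟩ | ⟨a, b, d⟩ | ⟨a, b, d, f, g⟩ <;>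
    rcases dw_t P c' with ⟨a', b', d'⟩ | ⟨a', b', d'⟩ | ⟨a', b', d'⟩ | ⟨a', b', d'⟩ |
      ⟨a', b', d', f', g'⟩ <;>
    rw [b, b'] at e1 <;> rw [d, d'] at e2 <;>
    first
    | omega
    | (exfalso; linarith)
    | skip
  have hc : (4 : ℝ) ≤ c := by exact_mod_cast a
  have hc' : (4 : ℝ) ≤ c' := by exact_mod_cast a'
  have h3 : (c : ℝ) = c' := by
    rw [div_eq_div_iff (by linarith) (by linarith), one_mul, one_mul] at e2
    exact e2.symm
  exact_mod_cast h3

private theorem dw_vx (k : ℕ) (P : Prm) (hg : P.Good) (v : Vx) (hv : IsVx (arr k P) v) :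
    isBV P v ∨ ∃ c : ℕ, v = [c] := by
  rcases hv with ⟨e, he, hv⟩ | ⟨p, hp, hv⟩
  · have he' : e ∈ P.edges := he
    rw [mem_edges] at he'
    obtain ⟨d, hd, rfl⟩ := he'
    rcases cls P hg d hd with ⟨X, Y, b, h⟩ | ⟨c, w, h⟩
    · left
      rcases hv with rfl | rfl
      · exact h.1
      · exact h.2.1
    · rcases h.2.2.1 with h1 | h1
      · rcases hv with h2 | h2
        · right
          exact ⟨c, by rw [h2, h1]⟩
        · left
          rw [h2, h1]
          exact h.2.1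
      · rcases hv with h2 | h2
        · left
          rw [h2, h1]
          exact h.2.1
        · right
          exact ⟨c, by rw [h2, h1]⟩
  · have hp' : p ∈ pairs k := hp
    unfold pairs at hp'
    rw [List.mem_map] at hp'
    obtain ⟨l, -, rfl⟩ := hp'
    right
    rcases hv with h2 | h2
    · exact ⟨_, h2⟩
    · exact ⟨_, h2⟩

private theorem dw_inj (k : ℕ) (P : Prm) (hg : P.Good) (u v : Vx) (hu : IsVx (arr k P) u)
    (hv : IsVx (arr k P) v) (h : pos P u = pos P v) : u = v := by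
  have hx := dw_x P hg
  have key : ∀ w : Vx, isBV P w → ∀ c : ℕ, pos P w = pos P [c] → False := by
    intro w hw c hwc
    obtain ⟨X, Y, h1, h2, h3, -, -⟩ := bv_box P hg w hw
    have h4 : (pos P w).1 = (X : ℝ) := by rw [h1]; rfl
    have h5 : (0 : ℝ) ≤ X := by exact_mod_cast h2
    have h6 : (X : ℝ) < xM P := by exact_mod_cast h3
    rcases dw_t1 P c with h7 | h7
    · rw [← hwc, h4] at h7
      linarith
    · rw [← hwc, h4] at h7
      linarith
  rcases dw_vx k P hg u hu with hu' | ⟨c, rfl⟩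
  · rcases dw_vx k P hg v hv with hv' | ⟨c', rfl⟩
    · exact bv_inj P hg u v hu' hv' h
    · exact (key u hu' c' h).elim
  · rcases dw_vx k P hg v hv with hv' | ⟨c', rfl⟩
    · exact (key v hv' c h.symm).elim
    · rw [dw_tinj P hg c c' h]

private theorem dw_sgx (c : ℕ) : sgx c = 1 ∨ sgx c = -1 := by
  unfold sgx
  split_ifs
  · exact Or.inl rfl
  · exact Or.inr rfl

private theorem dw_sgy (c : ℕ) : sgy c = 1 ∨ sgy c = -1 := by
  unfold sgy
  split_ifs
  · exact Or.inl rfl
  · exact Or.inr rfl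

private theorem dw_seg {P : Prm} {c : ℕ} {v : Vx} {d : Ed} (h : isFan P c v d) {z : ℝ × ℝ}
    (hz : z ∈ segment ℝ (pos P (P.ends d).1) (pos P (P.ends d).2)) :
    z ∈ segment ℝ (pos P [c]) (pos P v) := by
  rcases h.2.2.1 with h1 | h1
  · rw [h1] at hz
    exact hz
  · rw [h1] at hz
    rw [segment_symm]
    exact hz

private theorem dw_fu (P : Prm) (hg : P.Good) {c : ℕ} {v : Vx} {d d' : Ed} {X Y : ℤ} {b : Bool}
    (h : isFan P c v d) (h' : isUnit P d' X Y b) (z : ℝ × ℝ)
    (hz : z ∈ segment ℝ (pos P (P.ends d).1) (pos P (P.ends d).2))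
    (hz' : z ∈ segment ℝ (pos P (P.ends d').1) (pos P (P.ends d').2)) :
    ∃ w, (w = (P.ends d).1 ∨ w = (P.ends d).2) ∧ (w = (P.ends d').1 ∨ w = (P.ends d').2) ∧
      z = pos P w := by
  obtain ⟨u1, u2, u3, u4⟩ := h'
  obtain ⟨pX, pY, hp, -, -, -, -⟩ := bv_box P hg v h.2.1
  have hp1 : (pos P v).1 = (pX : ℝ) := by rw [hp]; rfl
  have hp2 : (pos P v).2 = (pY : ℝ) := by rw [hp]; rfl
  obtain ⟨a1, a2⟩ := away P hg c v d h
  rw [hp1] at a1
  rw [hp2] at a2
  have hz2 := dw_seg h hz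
  rw [hp] at hz2
  rw [u3, u4] at hz'
  have d1 := dom P hg c v d h _ u1
  have d2 := dom P hg c v d h _ u2
  rw [u3, hp1, hp2] at d1
  rw [u4, hp1, hp2] at d2
  obtain ⟨e1, e2⟩ := fan_unit (sgx c) (sgy c) (dw_sgx c) (dw_sgy c) (pos P [c]) pX pY a1 a2 X Y b
    d1 d2 z hz2 hz'
  rw [← hp] at e1
  refine ⟨v, ?_, ?_, e1⟩
  · rcases h.2.2.1 with h1 | h1
    · rw [h1]
      exact Or.inr rfl
    · rw [h1]
      exact Or.inl rfl
  · rcases e2 with e2 | e2
    · left
      exact bv_inj P hg _ _ h.2.1 u1 (by rw [← e1, e2, u3])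
    · right
      exact bv_inj P hg _ _ h.2.1 u2 (by rw [← e1, e2, u4])

private theorem dw_edge (P : Prm) (hg : P.Good) (e f : Vx × Vx) (he : e ∈ P.edges)
    (hf : f ∈ P.edges) (hne : e ≠ f) (z : ℝ × ℝ) (hz : z ∈ segment ℝ (pos P e.1) (pos P e.2))
    (hz' : z ∈ segment ℝ (pos P f.1) (pos P f.2)) :
    ∃ w, (w = e.1 ∨ w = e.2) ∧ (w = f.1 ∨ w = f.2) ∧ z = pos P w := by
  rw [mem_edges] at he hf
  obtain ⟨d, hd, rfl⟩ := he
  obtain ⟨d', hd', rfl⟩ := hf
  have hdd : d ≠ d' := fun h => hne (by rw [h])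
  rcases cls P hg d hd with ⟨X, Y, b, h⟩ | ⟨c, v, h⟩
  · rcases cls P hg d' hd' with ⟨X', Y', b', h'⟩ | ⟨c', v', h'⟩
    · obtain ⟨u1, u2, u3, u4⟩ := h
      obtain ⟨v1, v2, v3, v4⟩ := h'
      have hn : ¬ (X = X' ∧ Y = Y' ∧ b = b') := by
        rintro ⟨rfl, rfl, rfl⟩
        apply hne
        have e1 := bv_inj P hg _ _ u1 v1 (by rw [u3, v3])
        have e2 := bv_inj P hg _ _ u2 v2 (by rw [u4, v4])
        exact Prod.ext e1 e2
      have hz2 := hz
      have hz2' := hz'
      rw [u3, u4] at hz2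
      rw [v3, v4] at hz2'
      obtain ⟨e1, e2⟩ := unit_unit X Y X' Y' b b' hn z hz2 hz2'
      rcases e1 with e1 | e1 <;> rcases e2 with e2 | e2
      · exact ⟨_, Or.inl rfl, Or.inl (bv_inj P hg _ _ u1 v1 (by rw [u3, v3, ← e1, e2])),
          by rw [u3]; exact e1⟩
      · exact ⟨_, Or.inl rfl, Or.inr (bv_inj P hg _ _ u1 v2 (by rw [u3, v4, ← e1, e2])),
          by rw [u3]; exact e1⟩
      · exact ⟨_, Or.inr rfl, Or.inl (bv_inj P hg _ _ u2 v1 (by rw [u4, v3, ← e1, e2])),
          by rw [u4]; exact e1⟩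
      · exact ⟨_, Or.inr rfl, Or.inr (bv_inj P hg _ _ u2 v2 (by rw [u4, v4, ← e1, e2])),
          by rw [u4]; exact e1⟩
    · obtain ⟨w, h1, h2, h3⟩ := dw_fu P hg h' h z hz' hz
      exact ⟨w, h2, h1, h3⟩
  · rcases cls P hg d' hd' with ⟨X', Y', b', h'⟩ | ⟨c', v', h'⟩
    · exact dw_fu P hg h h' z hz hz'
    · by_cases hc : c = c'
      · subst hc
        have h1 := fan_det P hg c v v' d d' h h' hdd
        have h2 := fan_fan _ _ _ h1 z (dw_seg h hz) (dw_seg h' hz')
        refine ⟨[c], ?_, ?_, h2⟩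
        · rcases h.2.2.1 with h1 | h1
          · rw [h1]
            exact Or.inl rfl
          · rw [h1]
            exact Or.inr rfl
        · rcases h'.2.2.1 with h1 | h1
          · rw [h1]
            exact Or.inl rfl
          · rw [h1]
            exact Or.inr rfl
      · exact (fan_sep P hg c c' v v' d d' h h' hc z (dw_seg h hz) (dw_seg h' hz')).elim

private theorem dw_small (P : Prm) (hg : P.Good) (c : ℕ) (hc : c < 4) :
    ∃ e ∈ P.edges, [c] = e.1 ∨ [c] = e.2 := by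
  have h1 := hg.hm
  have h2 := hg.hB
  have h3 := hg.hR
  have h4 : c = 0 ∨ c = 1 ∨ c = 2 ∨ c = 3 := by omega
  rcases h4 with rfl | rfl | rfl | rfl
  · refine ⟨P.ends (.p 0 0 0), (mem_edges P _).2 ⟨.p 0 0 0, ⟨by omega, by omega, by omega⟩, rfl⟩, Or.inl ?_⟩
    rfl
  · refine ⟨P.ends (.p P.R 0 0), (mem_edges P _).2 ⟨.p P.R 0 0, ⟨le_rfl, by omega, by omega⟩, rfl⟩,
      Or.inr ?_⟩
    show [1] = if P.R = P.R then [1] else _
    rw [if_pos rfl]
  · refine ⟨P.ends (.q 0 0 0), (mem_edges P _).2 ⟨.q 0 0 0, ⟨by omega, by omega, by omega⟩, rfl⟩,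
      Or.inl ?_⟩
    rfl
  · refine ⟨P.ends (.q 0 P.R 0), (mem_edges P _).2 ⟨.q 0 P.R 0, ⟨by omega, le_rfl, by omega⟩, rfl⟩,
      Or.inr ?_⟩
    show [3] = if P.R = P.R then [3] else _
    rw [if_pos rfl]

private theorem dw_big (P : Prm) (hg : P.Good) (c : ℕ) (hc : 4 ≤ c) (e : Vx × Vx)
    (he : e ∈ P.edges) (hz : pos P [c] ∈ segment ℝ (pos P e.1) (pos P e.2)) : False := by
  have hx := dw_x P hg
  have hy := dw_y P
  obtain ⟨t1, t2, t3, t4⟩ : (pos P [c]).1 = -1 ∧ (pos P [c]).2 = 1 / (c : ℝ) ∧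
      0 < 1 / (c : ℝ) ∧ 1 / (c : ℝ) < 1 := by
    rcases dw_t P c with h | h | h | h | h
    · omega
    · omega
    · omega
    · omega
    · exact ⟨h.2.1, h.2.2.1, h.2.2.2.1, h.2.2.2.2⟩
  have hbv : ∀ w, isBV P w → 0 ≤ (pos P w).1 := by
    intro w hw
    obtain ⟨X, Y, h1, h2, -, -, -⟩ := bv_box P hg w hw
    rw [h1]
    show (0 : ℝ) ≤ (X : ℝ)
    exact_mod_cast h2
  rw [mem_edges] at he
  obtain ⟨d, hd, rfl⟩ := he
  rcases cls P hg d hd with ⟨X, Y, b, h⟩ | ⟨c', v, h⟩
  · have h1 := (seg_le _ _ _ hz).1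
    have h2 := le_min (hbv _ h.1) (hbv _ h.2.1)
    rw [t1] at h1
    linarith
  · have hz2 := dw_seg h hz
    have hv := hbv v h.2.1
    have hc' := h.1
    have hcase : ((pos P [c']).1 = xM P) ∨ ((pos P [c']).1 = -1 ∧
        ((pos P [c']).2 = -1 ∨ (pos P [c']).2 = yM P)) := by
      rcases dw_t P c' with h | h | h | h | h
      · exact Or.inr ⟨h.2.1, Or.inl h.2.2⟩
      · exact Or.inl h.2.1
      · exact Or.inr ⟨h.2.1, Or.inr h.2.2⟩
      · exact Or.inl h.2.1
      · omega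
    rcases hcase with h3 | ⟨h3, h4⟩
    · have h1 := (seg_le _ _ _ hz2).1
      have h2 := le_min (h3.symm ▸ hx.le : (0 : ℝ) ≤ (pos P [c']).1) hv
      rw [t1] at h1
      linarith
    · rw [segment_eq_image] at hz2
      obtain ⟨t, ⟨ht0, ht1⟩, hz3⟩ := hz2
      have e1 : (1 - t) * (pos P [c']).1 + t * (pos P v).1 = (pos P [c]).1 := by
        rw [← hz3]
        rfl
      have e2 : (1 - t) * (pos P [c']).2 + t * (pos P v).2 = (pos P [c]).2 := by
        rw [← hz3]
        rfl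
      rw [h3, t1] at e1
      have e3 : t * (1 + (pos P v).1) = 0 := by linarith
      have e4 : t = 0 := by
        rcases mul_eq_zero.1 e3 with h5 | h5
        · exact h5
        · linarith
      rw [e4, t2] at e2
      rcases h4 with h4 | h4
      · rw [h4] at e2
        linarith
      · rw [h4] at e2
        linarith

theorem arr_draws (k : ℕ) (P : Prm) (hg : P.Good) : Draws (arr k P) (pos P) := by
  have hvert : ∀ v, (∃ f ∈ P.edges, v = f.1 ∨ v = f.2) → ∀ e ∈ P.edges,
      pos P v ∈ segment ℝ (pos P e.1) (pos P e.2) → v = e.1 ∨ v = e.2 := by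
    rintro v ⟨f, hf, hv⟩ e he hz
    by_cases hef : e = f
    · rw [hef]
      exact hv
    · have hz' : pos P v ∈ segment ℝ (pos P f.1) (pos P f.2) := by
        rcases hv with hv | hv
        · rw [hv]
          exact left_mem_segment _ _ _
        · rw [hv]
          exact right_mem_segment _ _ _
      obtain ⟨w, h1, h2, h3⟩ := dw_edge P hg e f he hf hef _ hz hz'
      have h4 : v = w := dw_inj k P hg v w (Or.inl ⟨f, hf, hv⟩) (Or.inl ⟨f, hf, h2⟩) h3
      rw [h4]
      exact h1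
  refine ⟨dw_inj k P hg, ?_, ?_⟩
  · intro v hv e he hz
    rcases hv with ⟨f, hf, hv⟩ | ⟨p, hp, hv⟩
    · exact hvert v ⟨f, hf, hv⟩ e he hz
    · obtain ⟨c, rfl⟩ : ∃ c : ℕ, v = [c] := by
        have hp' : p ∈ pairs k := hp
        unfold pairs at hp'
        rw [List.mem_map] at hp'
        obtain ⟨l, -, rfl⟩ := hp'
        rcases hv with h2 | h2
        · exact ⟨_, h2⟩
        · exact ⟨_, h2⟩
      by_cases hc : c < 4
      · exact hvert [c] (dw_small P hg c hc) e he hz
      · exact (dw_big P hg c (by omega) e he hz).elim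
  · intro e he f hf hne z hz hz'
    exact dw_edge P hg e f he hf hne z hz hz'

theorem arr_outer (k : ℕ) (P : Prm) (hg : P.Good) : Outer (arr k P) := by
  have hx := dw_x P hg
  have hy := dw_y P
  have ht : ∀ c : ℕ, -1 ≤ (pos P [c]).2 ∧ (pos P [c]).2 ≤ yM P := by
    intro c
    rcases dw_t P c with h | h | h | h | h
    · rw [h.2.2]
      constructor <;> linarith
    · rw [h.2.2]
      constructor <;> linarith
    · rw [h.2.2]
      constructor <;> linarith
    · rw [h.2.2]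
      constructor <;> linarith
    · rw [h.2.2.1]
      have h1 := h.2.2.2.1
      have h2 := h.2.2.2.2
      constructor <;> linarith
  refine ⟨pos P, -1, xM P, -1, yM P, arr_draws k P hg, ?_, ?_⟩
  · intro v hv
    rcases dw_vx k P hg v hv with hv' | ⟨c, rfl⟩
    · obtain ⟨X, Y, h1, h2, h3, h4, h5⟩ := bv_box P hg v hv'
      have g2 : (0 : ℝ) ≤ X := by exact_mod_cast h2
      have g3 : (X : ℝ) < xM P := by exact_mod_cast h3
      have g4 : (0 : ℝ) ≤ Y := by exact_mod_cast h4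
      have g5 : (Y : ℝ) < yM P := by exact_mod_cast h5
      rw [h1]
      show (-1 : ℝ) ≤ (X : ℝ) ∧ (X : ℝ) ≤ xM P ∧ (-1 : ℝ) ≤ (Y : ℝ) ∧ (Y : ℝ) ≤ yM P
      exact ⟨by linarith, by linarith, by linarith, by linarith⟩
    · refine ⟨?_, ?_, (ht c).1, (ht c).2⟩
      · rcases dw_t1 P c with h | h <;> rw [h]
        linarith
      · rcases dw_t1 P c with h | h <;> rw [h]
        linarith
  · intro p hp
    have hp' : p ∈ pairs k := hp
    unfold pairs at hp'
    rw [List.mem_map] at hp'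
    obtain ⟨l, -, rfl⟩ := hp'
    exact ⟨Or.inr ⟨(ht _).1, (ht _).2, dw_t1 P _⟩, Or.inr ⟨(ht _).1, (ht _).2, dw_t1 P _⟩⟩

end Pool.Agent.Work.MP_d41d5f_lc
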