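import Pool.Agent.Work.MP_d41d5f_lc.ED.ADefs

/-!
EndsI (M): the edges of the array: membership in the list, different ends, injectivity.

Proof. `mem_edges`: unfold `edges`, `List.mem_append`, `List.mem_flatMap`, `List.mem_map`,
`List.mem_filter`, `List.mem_range`; the four parts are the four constructors (`x < W - 1` iff
`x + 1 < W`, `y < H - 1` iff `y + 1 < H`, `i < R + 1` iff `i ≤ R`).
Basic inequalities from `Good`: `H = 2 * (m + B + a.sum) + 1 ≥ m + B + 1`,
`W ≥ T ≥ 2 * (m+B) * (H+1) ≥ 4`.
`ends_ne`: for `h`, `v` the two lists differ in one coordinate; for `p i j α`: a singleton list is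
never equal to a list of length four; `[0] ≠ [1]` and `i = 0`, `i = R` are not both true as
`1 ≤ R`; if both ends are block vertices then the first coordinates are `i - 1 ≠ i`. Same for `q`.
`ends_inj`: let `s(ends d) = s(ends d')`, that is `ends d = ends d'` or `ends d = (ends d').swap`
(`Sym2.eq_iff`, `Prod.ext_iff`). Cases of constructors:
 h/h: equal lists give equal indices; swapped: `x = x' + 1` and `x + 1 = x'`, absurd.
 v/v: same. h/v: equal or swapped: `[i,j,x,y]`, `[i,j,x+1,y]` versus `[i',j',x',y']`,
`[i',j',x',y'+1]`: the x-coordinates of the two ends are different for `h`, equal for `v`.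
 h/p, v/p, h/q, v/q: for `h`, `v` both ends are in the same block; for `p i j α` either an end is a
singleton, or the ends are in the blocks `(i-1, j)`, `(i, j)` with `i ≥ 1`.
 p/p: `p i j α` (the left end has `x = W - 1` if it is a block vertex, the right end has `x = 0`, and
`W - 1 ≠ 0`, so a swap is impossible; `[0]` occurs only as left end of `i = 0`, `[1]` only as right
end of `i = R`): from one block end read off `i`, `j`, `α` (if `i = 0` use the right end, which is a
block vertex because `0 < R`; if `i ≥ 1` use the left end `[i-1, j, W-1, H-m+α]`).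
 q/q: same. p/q: `[0]`, `[1]` are ends of `p`-links only, `[2]`, `[3]` of `q`-links only; if all
four ends are block vertices: a `p`-link joins blocks `(i-1,j)`, `(i,j)`, a `q`-link joins
`(i',j'-1)`, `(i',j')`: different.
-/

set_option autoImplicit false

namespace Pool.Agent.Work.MP_d41d5f_lc

private theorem good_H (P : Prm) : P.m + P.B + 1 ≤ P.H := by
  unfold Prm.H Prm.rho
  omega

private theorem good_W (P : Prm) (hg : P.Good) : 2 ≤ P.W := by
  have h1 := hg.hm
  have h2 : 1 ≤ (P.m + P.B) * (P.H + 1) := Nat.mul_pos (by omega) (by omega)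
  have h3 : 2 ≤ P.T := by
    unfold Prm.T
    omega
  unfold Prm.W
  calc 2 ≤ P.T := h3
    _ = 1 * P.T := (one_mul _).symm
    _ ≤ (P.a.length + 1) * P.T := Nat.mul_le_mul_right _ (by omega)

theorem mem_edges (P : Prm) (e : Vx × Vx) : e ∈ P.edges ↔ ∃ d, P.ok d ∧ P.ends d = e := by
  simp only [Prm.edges, List.mem_append, List.mem_flatMap, List.mem_map, List.mem_filter,
    List.mem_range]
  constructor
  · rintro (⟨i, hi, j, hj, x, hx, y, hy, rfl⟩ | ⟨i, hi, j, hj, x, hx, y, ⟨hy, hv⟩, rfl⟩ |
      ⟨i, hi, j, hj, α, hα, rfl⟩ | ⟨i, hi, j, hj, β, hβ, rfl⟩)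
    · exact ⟨.h i j x y, ⟨hi, hj, by omega, hy⟩, rfl⟩
    · exact ⟨.v i j x y, ⟨hi, hj, hx, by omega, hv⟩, rfl⟩
    · exact ⟨.p i j α, ⟨by omega, hj, hα⟩, rfl⟩
    · exact ⟨.q i j β, ⟨hi, by omega, hβ⟩, rfl⟩
  · rintro ⟨d, hd, rfl⟩
    cases d with
    | h i j x y =>
      obtain ⟨h1, h2, h3, h4⟩ := hd
      exact Or.inl ⟨i, h1, j, h2, x, by omega, y, h4, rfl⟩
    | v i j x y =>
      obtain ⟨h1, h2, h3, h4, h5⟩ := hd
      exact Or.inr (Or.inl ⟨i, h1, j, h2, x, h3, y, ⟨by omega, h5⟩, rfl⟩)
    | p i j α =>
      obtain ⟨h1, h2, h3⟩ := hd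
      exact Or.inr (Or.inr (Or.inl ⟨i, by omega, j, h2, α, h3, rfl⟩))
    | q i j β =>
      obtain ⟨h1, h2, h3⟩ := hd
      exact Or.inr (Or.inr (Or.inr ⟨i, h1, j, by omega, β, h3, rfl⟩))

theorem ends_ne (P : Prm) (hg : P.Good) (d : Ed) (hd : P.ok d) : (P.ends d).1 ≠ (P.ends d).2 := by
  have hR := hg.hR
  intro h
  cases d with
  | h i j x y =>
    simp only [Prm.ends, List.cons.injEq] at h
    omega
  | v i j x y =>
    simp only [Prm.ends, List.cons.injEq] at h
    omega
  | p i j α =>
    simp only [Prm.ends] at h
    split_ifs at h <;> simp only [List.cons.injEq, reduceCtorEq, and_false] at h <;> omega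
  | q i j β =>
    simp only [Prm.ends] at h
    split_ifs at h <;> simp only [List.cons.injEq, reduceCtorEq, and_false] at h <;> omega

theorem ends_inj (P : Prm) (hg : P.Good) (d d' : Ed) (hd : P.ok d) (hd' : P.ok d')
    (h : s((P.ends d).1, (P.ends d).2) = s((P.ends d').1, (P.ends d').2)) : d = d' := by
  have hR := hg.hR
  have hm := hg.hm
  have hB := hg.hB
  have hH := good_H P
  have hW := good_W P hg
  rw [Sym2.eq_iff] at h
  cases d with
  | h i j x y =>
    cases d' with
    | h i' j' x' y' =>
      simp only [Prm.ends, List.cons.injEq] at h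
      simp only [Ed.h.injEq]
      omega
    | v i' j' x' y' =>
      simp only [Prm.ends, List.cons.injEq] at h
      omega
    | p i' j' α' =>
      obtain ⟨a1, a2, a3⟩ := hd'
      simp only [Prm.ends] at h
      split_ifs at h <;> simp only [List.cons.injEq, reduceCtorEq, and_false, false_and, or_false,
        false_or] at h <;> omega
    | q i' j' β' =>
      obtain ⟨a1, a2, a3⟩ := hd'
      simp only [Prm.ends] at h
      split_ifs at h <;> simp only [List.cons.injEq, reduceCtorEq, and_false, false_and, or_false,
        false_or] at h <;> omega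
  | v i j x y =>
    cases d' with
    | h i' j' x' y' =>
      simp only [Prm.ends, List.cons.injEq] at h
      omega
    | v i' j' x' y' =>
      simp only [Prm.ends, List.cons.injEq] at h
      simp only [Ed.v.injEq]
      omega
    | p i' j' α' =>
      obtain ⟨a1, a2, a3⟩ := hd'
      simp only [Prm.ends] at h
      split_ifs at h <;> simp only [List.cons.injEq, reduceCtorEq, and_false, false_and, or_false,
        false_or] at h <;> omega
    | q i' j' β' =>
      obtain ⟨a1, a2, a3⟩ := hd'
      simp only [Prm.ends] at h
      split_ifs at h <;> simp only [List.cons.injEq, reduceCtorEq, and_false, false_and, or_false,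
        false_or] at h <;> omega
  | p i j α =>
    obtain ⟨b1, b2, b3⟩ := hd
    cases d' with
    | h i' j' x' y' =>
      simp only [Prm.ends] at h
      split_ifs at h <;> simp only [List.cons.injEq, reduceCtorEq, and_false, false_and, or_false,
        false_or] at h <;> omega
    | v i' j' x' y' =>
      simp only [Prm.ends] at h
      split_ifs at h <;> simp only [List.cons.injEq, reduceCtorEq, and_false, false_and, or_false,
        false_or] at h <;> omega
    | p i' j' α' =>
      obtain ⟨a1, a2, a3⟩ := hd'
      simp only [Prm.ends] at h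
      simp only [Ed.p.injEq]
      split_ifs at h <;> simp only [List.cons.injEq, reduceCtorEq, and_false, false_and, or_false,
        false_or] at h <;> omega
    | q i' j' β' =>
      obtain ⟨a1, a2, a3⟩ := hd'
      simp only [Prm.ends] at h
      split_ifs at h <;> simp only [List.cons.injEq, reduceCtorEq, and_false, false_and, or_false,
        false_or] at h <;> omega
  | q i j β =>
    obtain ⟨b1, b2, b3⟩ := hd
    cases d' with
    | h i' j' x' y' =>
      simp only [Prm.ends] at h
      split_ifs at h <;> simp only [List.cons.injEq, reduceCtorEq, and_false, false_and, or_false,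
        false_or] at h <;> omega
    | v i' j' x' y' =>
      simp only [Prm.ends] at h
      split_ifs at h <;> simp only [List.cons.injEq, reduceCtorEq, and_false, false_and, or_false,
        false_or] at h <;> omega
    | p i' j' α' =>
      obtain ⟨a1, a2, a3⟩ := hd'
      simp only [Prm.ends] at h
      split_ifs at h <;> simp only [List.cons.injEq, reduceCtorEq, and_false, false_and, or_false,
        false_or] at h <;> omega
    | q i' j' β' =>
      obtain ⟨a1, a2, a3⟩ := hd'
      simp only [Prm.ends] at h
      simp only [Ed.q.injEq]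
      split_ifs at h <;> simp only [List.cons.injEq, reduceCtorEq, and_false, false_and, or_false,
        false_or] at h <;> omega

end Pool.Agent.Work.MP_d41d5f_lc
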