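import Pool.Agent.Work.MP_d41d5f_lc.ED.Defs

/-!
GapC (S-M): polynomial-time reductions from an arbitrary language in NP, for a function of clause
systems.

Proof. `np_to_taut` gives `r` (computable in polynomial time) with `w ∈ L ↔ r w ∉ TAUT`, and
`cnfOf_correct`: `v ∉ TAUT ↔ CnfSat (cnfOf v)`. Put `f w = F (cnfOf (r w))`. As in `nphard_of_cnf`
(library file NPHard): `PolyTimeComputable.comp` of the word function of
`hF.comp (PTime.cnfOf PTime.id)` (`polyTimeComputable_of_PTime`) and `r`.
-/

set_option autoImplicit false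

namespace Pool.Agent.Work.MP_d41d5f_lc

open Pool.Agent.Work.PolyTime

theorem np_map {α : Type} [Code α] (F : List NClause → α) (hF : PTime F) (L : Set (List Bool))
    (hL : InNP L) : ∃ g : List Bool → List NClause,
      PolyTimeComputable (fun w => (code (F (g w))).ser) ∧ ∀ w, w ∈ L ↔ CnfSat (g w) := by
  obtain ⟨r, hr, hr'⟩ := np_to_taut hL
  refine ⟨fun w => cnfOf (r w), ?_, fun w => ?_⟩
  · exact PolyTimeComputable.comp (g := fun w => (code (F (cnfOf w))).ser)
      (polyTimeComputable_of_PTime (hF.comp (PTime.cnfOf PTime.id))) hr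
  · rw [hr', cnfOf_correct]

end Pool.Agent.Work.MP_d41d5f_lc
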