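import Mathlib

/-!
Geo (M): elementary geometry of unit segments and fans.

`up X Y b` is the end of the unit segment that starts at the lattice point `(X, Y)`: to the right if
`b`, upwards otherwise.
Membership: `z ∈ segment ℝ a b` iff `z = (1-t) • a + t • b` with `0 ≤ t ≤ 1` (`segment_eq_image`);
for unit segments: horizontal: `z.2 = Y`, `X ≤ z.1 ≤ X + 1`; vertical: `z.1 = X`,
`Y ≤ z.2 ≤ Y + 1`.
`unit_unit`: both horizontal: `Y = Y'` (equal second coordinates), so `X ≠ X'`, and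
`max X X' ≤ z.1 ≤ min X X' + 1` with `|X - X'| ≥ 1` forces `|X - X'| = 1` and `z` is the common
end. Both vertical: same. Horizontal and vertical: `z.2 = Y`, `z.1 = X'`, integers with
`X ≤ X' ≤ X+1`, `Y' ≤ Y ≤ Y'+1`: `z = (X', Y)` is an end of both.
`fan_unit`: `z = s + t (p - s)`. If `t = 1`, `z = p` is a lattice point on the unit segment, so one
of its ends. If `t < 1` then `σ (z.1 - p.1) < 0` and `τ (z.2 - p.2) < 0` (from
`0 < σ (p.1 - s.1)`, `0 < τ (p.2 - s.2)`). Horizontal unit segment (`z.2 = Y`): one of the two ends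
`u` satisfies `σ (u.1 - p.1) < 0`: the left end if `σ = 1`, the right end if `σ = -1`. Then the
hypothesis gives `τ (u.2 - p.2) > 0`, but `u.2 = Y = z.2`: contradiction. Vertical unit segment
(`z.1 = X`): both ends satisfy `σ (X - p.1) < 0`, so `τ (u.2 - p.2) > 0` for both, hence also for
`z.2` which is between: contradiction.
`fan_fan`: `z - s = t (p - s) = t' (p' - s)`, and the determinant of `p - s`, `p' - s` is not zero,
so `t = t' = 0`.
-/

set_option autoImplicit false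

namespace Pool.Agent.Work.MP_d41d5f_lc

/-- A lattice point. -/
def lat (X Y : ℤ) : ℝ × ℝ := ((X : ℝ), (Y : ℝ))

/-- The end of the unit segment from `(X, Y)`. -/
def up (X Y : ℤ) (b : Bool) : ℝ × ℝ := if b then lat (X + 1) Y else lat X (Y + 1)

theorem lat_inj (X Y X' Y' : ℤ) (h : lat X Y = lat X' Y') : X = X' ∧ Y = Y' := by
  have h1 : (X : ℝ) = X' := congrArg Prod.fst h
  have h2 : (Y : ℝ) = Y' := congrArg Prod.snd h
  exact ⟨by exact_mod_cast h1, by exact_mod_cast h2⟩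

/-- a point of a segment -/
private theorem geo_seg {s p z : ℝ × ℝ} (h : z ∈ segment ℝ s p) :
    ∃ t : ℝ, 0 ≤ t ∧ t ≤ 1 ∧ z.1 = s.1 + t * (p.1 - s.1) ∧ z.2 = s.2 + t * (p.2 - s.2) := by
  rw [segment_eq_image'] at h
  obtain ⟨t, ht, rfl⟩ := h
  exact ⟨t, ht.1, ht.2, rfl, rfl⟩

private theorem geo_hor {X Y : ℤ} {z : ℝ × ℝ} (h : z ∈ segment ℝ (lat X Y) (up X Y true)) :
    z.2 = Y ∧ (X : ℝ) ≤ z.1 ∧ z.1 ≤ X + 1 := by
  obtain ⟨t, h0, h1, h2, h3⟩ := geo_seg h
  have e1 : (lat X Y).1 = (X : ℝ) := rfl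
  have e2 : (lat X Y).2 = (Y : ℝ) := rfl
  have e3 : (up X Y true).1 = (X : ℝ) + 1 := by
    show (((X + 1 : ℤ)) : ℝ) = _
    push_cast
    ring
  have e4 : (up X Y true).2 = (Y : ℝ) := rfl
  rw [e1, e3] at h2
  rw [e2, e4] at h3
  refine ⟨?_, ?_, ?_⟩
  · rw [h3]
    ring
  · rw [h2]
    nlinarith
  · rw [h2]
    nlinarith

private theorem geo_ver {X Y : ℤ} {z : ℝ × ℝ} (h : z ∈ segment ℝ (lat X Y) (up X Y false)) :
    z.1 = X ∧ (Y : ℝ) ≤ z.2 ∧ z.2 ≤ Y + 1 := by
  obtain ⟨t, h0, h1, h2, h3⟩ := geo_seg h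
  have e1 : (lat X Y).1 = (X : ℝ) := rfl
  have e2 : (lat X Y).2 = (Y : ℝ) := rfl
  have e3 : (up X Y false).1 = (X : ℝ) := rfl
  have e4 : (up X Y false).2 = (Y : ℝ) + 1 := by
    show (((Y + 1 : ℤ)) : ℝ) = _
    push_cast
    ring
  rw [e1, e3] at h2
  rw [e2, e4] at h3
  refine ⟨?_, ?_, ?_⟩
  · rw [h2]
    ring
  · rw [h3]
    nlinarith
  · rw [h3]
    nlinarith

private theorem lat_eq {z : ℝ × ℝ} {X Y : ℤ} (h1 : z.1 = X) (h2 : z.2 = Y) : z = lat X Y :=
  Prod.ext h1 h2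

private theorem up_t (X Y : ℤ) : up X Y true = lat (X + 1) Y := rfl

private theorem up_f (X Y : ℤ) : up X Y false = lat X (Y + 1) := rfl

/-- an integer between `X` and `X + 1` -/
private theorem int_bet {X Z : ℤ} (h1 : (X : ℝ) ≤ Z) (h2 : (Z : ℝ) ≤ X + 1) :
    Z = X ∨ Z = X + 1 := by
  have h3 : X ≤ Z := by exact_mod_cast h1
  have h4 : Z ≤ X + 1 := by exact_mod_cast h2
  omega

private theorem hor_ver {X Y X' Y' : ℤ} {z : ℝ × ℝ}
    (h : z ∈ segment ℝ (lat X Y) (up X Y true))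
    (h' : z ∈ segment ℝ (lat X' Y') (up X' Y' false)) :
    (z = lat X Y ∨ z = up X Y true) ∧ (z = lat X' Y' ∨ z = up X' Y' false) := by
  obtain ⟨a1, a2, a3⟩ := geo_hor h
  obtain ⟨b1, b2, b3⟩ := geo_ver h'
  rw [b1] at a2 a3
  rw [a1] at b2 b3
  constructor
  · rcases int_bet a2 a3 with hx | hx
    · left
      exact lat_eq (by rw [b1, hx]) a1
    · right
      rw [up_t]
      exact lat_eq (by rw [b1, hx]) a1
  · rcases int_bet b2 b3 with hy | hy
    · left
      exact lat_eq b1 (by rw [a1, hy])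
    · right
      rw [up_f]
      exact lat_eq b1 (by rw [a1, hy])

theorem unit_unit (X Y X' Y' : ℤ) (b b' : Bool) (hne : ¬ (X = X' ∧ Y = Y' ∧ b = b'))
    (z : ℝ × ℝ) (h : z ∈ segment ℝ (lat X Y) (up X Y b))
    (h' : z ∈ segment ℝ (lat X' Y') (up X' Y' b')) :
    (z = lat X Y ∨ z = up X Y b) ∧ (z = lat X' Y' ∨ z = up X' Y' b') := by
  cases b
  · cases b'
    · obtain ⟨a1, a2, a3⟩ := geo_ver h
      obtain ⟨b1, b2, b3⟩ := geo_ver h'
      have hX : X = X' := by
        have : (X : ℝ) = X' := by rw [← a1, b1]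
        exact_mod_cast this
      have hY : Y ≠ Y' := fun hY => hne ⟨hX, hY, rfl⟩
      have c1 : (Y : ℝ) ≤ Y' + 1 := by linarith
      have c2 : (Y' : ℝ) ≤ Y + 1 := by linarith
      have c3 : Y ≤ Y' + 1 := by exact_mod_cast c1
      have c4 : Y' ≤ Y + 1 := by exact_mod_cast c2
      have c5 : Y = Y' + 1 ∨ Y' = Y + 1 := by omega
      rcases c5 with c | c
      · have d1 : (Y : ℝ) = Y' + 1 := by rw [c]; push_cast; ring
        have d2 : z.2 = Y := by linarith
        refine ⟨Or.inl (lat_eq a1 d2), Or.inr ?_⟩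
        rw [up_f]
        exact lat_eq b1 (by rw [d2, c])
      · have d1 : (Y' : ℝ) = Y + 1 := by rw [c]; push_cast; ring
        have d2 : z.2 = Y' := by linarith
        refine ⟨Or.inr ?_, Or.inl (lat_eq b1 d2)⟩
        rw [up_f]
        exact lat_eq a1 (by rw [d2, c])
    · exact (hor_ver h' h).symm
  · cases b'
    · exact hor_ver h h'
    · obtain ⟨a1, a2, a3⟩ := geo_hor h
      obtain ⟨b1, b2, b3⟩ := geo_hor h'
      have hY : Y = Y' := by
        have : (Y : ℝ) = Y' := by rw [← a1, b1]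
        exact_mod_cast this
      have hX : X ≠ X' := fun hX => hne ⟨hX, hY, rfl⟩
      have c1 : (X : ℝ) ≤ X' + 1 := by linarith
      have c2 : (X' : ℝ) ≤ X + 1 := by linarith
      have c3 : X ≤ X' + 1 := by exact_mod_cast c1
      have c4 : X' ≤ X + 1 := by exact_mod_cast c2
      have c5 : X = X' + 1 ∨ X' = X + 1 := by omega
      rcases c5 with c | c
      · have d1 : (X : ℝ) = X' + 1 := by rw [c]; push_cast; ring
        have d2 : z.1 = X := by linarith
        refine ⟨Or.inl (lat_eq d2 a1), Or.inr ?_⟩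
        rw [up_t]
        exact lat_eq (by rw [d2, c]) b1
      · have d1 : (X' : ℝ) = X + 1 := by rw [c]; push_cast; ring
        have d2 : z.1 = X' := by linarith
        refine ⟨Or.inr ?_, Or.inl (lat_eq d2 b1)⟩
        rw [up_t]
        exact lat_eq (by rw [d2, c]) a1

theorem fan_unit (σ τ : ℝ) (hσ : σ = 1 ∨ σ = -1) (hτ : τ = 1 ∨ τ = -1) (s : ℝ × ℝ)
    (pX pY : ℤ) (h1 : 0 < σ * ((pX : ℝ) - s.1)) (h2 : 0 < τ * ((pY : ℝ) - s.2))
    (X Y : ℤ) (b : Bool)
    (hu : σ * ((lat X Y).1 - pX) < 0 → 0 < τ * ((lat X Y).2 - pY))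
    (hw : σ * ((up X Y b).1 - pX) < 0 → 0 < τ * ((up X Y b).2 - pY))
    (z : ℝ × ℝ) (h : z ∈ segment ℝ s (lat pX pY)) (h' : z ∈ segment ℝ (lat X Y) (up X Y b)) :
    z = lat pX pY ∧ (z = lat X Y ∨ z = up X Y b) := by
  obtain ⟨t, h0, ht1, e1, e2⟩ := geo_seg h
  have e1' : z.1 = s.1 + t * ((pX : ℝ) - s.1) := e1
  have e2' : z.2 = s.2 + t * ((pY : ℝ) - s.2) := e2
  rcases eq_or_lt_of_le ht1 with ht | ht
  · have hz1 : z.1 = pX := by rw [e1', ht]; ring
    have hz2 : z.2 = pY := by rw [e2', ht]; ring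
    refine ⟨lat_eq hz1 hz2, ?_⟩
    cases b
    · obtain ⟨b1, b2, b3⟩ := geo_ver h'
      rw [hz2] at b2 b3
      rcases int_bet b2 b3 with hy | hy
      · left
        exact lat_eq b1 (by rw [hz2, hy])
      · right
        rw [up_f]
        exact lat_eq b1 (by rw [hz2, hy])
    · obtain ⟨b1, b2, b3⟩ := geo_hor h'
      rw [hz1] at b2 b3
      rcases int_bet b2 b3 with hy | hy
      · left
        exact lat_eq (by rw [hz1, hy]) b1
      · right
        rw [up_t]
        exact lat_eq (by rw [hz1, hy]) b1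
  · exfalso
    have k1 : σ * (z.1 - pX) < 0 := by
      have : σ * (z.1 - pX) = -((1 - t) * (σ * ((pX : ℝ) - s.1))) := by rw [e1']; ring
      rw [this]
      have := mul_pos (sub_pos.2 ht) h1
      linarith
    have k2 : τ * (z.2 - pY) < 0 := by
      have : τ * (z.2 - pY) = -((1 - t) * (τ * ((pY : ℝ) - s.2))) := by rw [e2']; ring
      rw [this]
      have := mul_pos (sub_pos.2 ht) h2
      linarith
    have l1 : (lat X Y).1 = (X : ℝ) := rfl
    have l2 : (lat X Y).2 = (Y : ℝ) := rfl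
    cases b
    · have l3 : (up X Y false).1 = (X : ℝ) := rfl
      have l4 : (up X Y false).2 = (Y : ℝ) + 1 := by
        show (((Y + 1 : ℤ)) : ℝ) = _
        push_cast
        ring
      rw [l1, l2] at hu
      rw [l3, l4] at hw
      obtain ⟨b1, b2, b3⟩ := geo_ver h'
      rw [b1] at k1
      have m1 := hu k1
      have m2 := hw k1
      rcases hτ with rfl | rfl
      · linarith
      · linarith
    · have l3 : (up X Y true).1 = (X : ℝ) + 1 := by
        show (((X + 1 : ℤ)) : ℝ) = _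
        push_cast
        ring
      have l4 : (up X Y true).2 = (Y : ℝ) := rfl
      rw [l1, l2] at hu
      rw [l3, l4] at hw
      obtain ⟨b1, b2, b3⟩ := geo_hor h'
      rw [b1] at k2
      rcases hσ with rfl | rfl
      · have m1 := hu (by linarith)
        linarith
      · have m1 := hw (by linarith)
        linarith

theorem fan_fan (s p p' : ℝ × ℝ)
    (hd : (p.1 - s.1) * (p'.2 - s.2) ≠ (p'.1 - s.1) * (p.2 - s.2)) (z : ℝ × ℝ)
    (h : z ∈ segment ℝ s p) (h' : z ∈ segment ℝ s p') : z = s := by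
  obtain ⟨t, _, _, e1, e2⟩ := geo_seg h
  obtain ⟨t', _, _, f1, f2⟩ := geo_seg h'
  have g1 : t * (p.1 - s.1) = t' * (p'.1 - s.1) := by linarith
  have g2 : t * (p.2 - s.2) = t' * (p'.2 - s.2) := by linarith
  have h0 : t * ((p.1 - s.1) * (p'.2 - s.2) - (p'.1 - s.1) * (p.2 - s.2)) = 0 := by
    linear_combination (p'.2 - s.2) * g1 - (p'.1 - s.1) * g2
  have ht : t = 0 := by
    rcases mul_eq_zero.1 h0 with h1 | h1
    · exact h1
    · exact absurd (sub_eq_zero.1 h1) hd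
  rw [ht] at e1 e2
  exact Prod.ext (by rw [e1]; ring) (by rw [e2]; ring)

/-- Coordinates on a segment are between those of the ends. -/
theorem seg_le (s p z : ℝ × ℝ) (h : z ∈ segment ℝ s p) :
    min s.1 p.1 ≤ z.1 ∧ z.1 ≤ max s.1 p.1 ∧ min s.2 p.2 ≤ z.2 ∧ z.2 ≤ max s.2 p.2 := by
  obtain ⟨t, h0, h1, e1, e2⟩ := geo_seg h
  have key : ∀ a b w : ℝ, w = a + t * (b - a) → min a b ≤ w ∧ w ≤ max a b := by
    intro a b w hw
    rcases le_total a b with hab | hab
    · rw [min_eq_left hab, max_eq_right hab, hw]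
      constructor <;> nlinarith
    · rw [min_eq_right hab, max_eq_left hab, hw]
      constructor <;> nlinarith
  obtain ⟨k1, k2⟩ := key _ _ _ e1
  obtain ⟨k3, k4⟩ := key _ _ _ e2
  exact ⟨k1, k2, k3, k4⟩

end Pool.Agent.Work.MP_d41d5f_lc
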