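import Pool.Agent.Work.MP_d41d5f_lc.ED.BadC

/-!
GoodB (M): there is a block all of whose links are good.

Proof. Suppose not. Then every block `(i, j)`, `i, j < R`, has a bad link: some `p i j α`,
`p (i+1) j α` (`α < m`), `q i j β` or `q i (j+1) β` (`β < B`) is not good. Map every block to such a
link; every link `p i' j' α` is the image of at most the two blocks `(i', j')`, `(i'-1, j')`, every
link `q i' j' β` of at most `(i', j')`, `(i', j'-1)`. So `R² ≤ 2 * (number of bad links)`. The number
of bad links of the first kind is the sum over `i ≤ R` of the numbers in `bad_P`, so twice it is at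
most `3 r (R+1)`; same for the second kind. Hence `R² ≤ 2 * (number) ≤ 3 r (R+1) + 3 r (R+1) =
6 r (R+1)`, against the hypothesis. (Formally: the set of blocks is the union of four sets: blocks
with a bad `p i j α`: the number is at most the number of bad `(i, j, α)` with `i < R`, etc.; each
of the four numbers is at most half of `3 r (R+1)`, so `2 R² ≤ 4 * 3 r (R+1)`, that is
`R² ≤ 6 r (R+1)`.)
-/

set_option autoImplicit false

namespace Pool.Agent.Work.MP_d41d5f_lc

variable {P : Prm} {N : ℕ} {ty : Fin N → Bool} {F : Fin N → Finset Ed}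

open Classical in
private theorem aux (R m k : ℕ) (p : ℕ → ℕ → ℕ → Prop)
    (h : ∀ i < R, 2 * ((Finset.range R ×ˢ Finset.range m).filter
      fun jα => ¬ p i jα.1 jα.2).card ≤ k) :
    2 * (∑ i ∈ Finset.range R, ∑ j ∈ Finset.range R, (if ∃ α < m, ¬ p i j α then 1 else 0)) ≤
      R * k := by
  rw [Finset.mul_sum]
  calc ∑ i ∈ Finset.range R, 2 * (∑ j ∈ Finset.range R, (if ∃ α < m, ¬ p i j α then 1 else 0)) ≤
      ∑ i ∈ Finset.range R, k := by
        refine Finset.sum_le_sum (fun i hi => ?_)
        refine le_trans ?_ (h i (Finset.mem_range.1 hi))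
        refine Nat.mul_le_mul_left 2 ?_
        rw [← Finset.card_filter]
        have hsub : (Finset.range R).filter (fun j => ∃ α < m, ¬ p i j α) ⊆
            ((Finset.range R ×ˢ Finset.range m).filter fun jα => ¬ p i jα.1 jα.2).image Prod.fst := by
          intro j hj
          rw [Finset.mem_filter] at hj
          obtain ⟨hj1, α, hα, hp⟩ := hj
          rw [Finset.mem_image]
          refine ⟨(j, α), ?_, rfl⟩
          rw [Finset.mem_filter, Finset.mem_product]
          exact ⟨⟨hj1, Finset.mem_range.2 hα⟩, hp⟩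
        exact (Finset.card_le_card hsub).trans Finset.card_image_le
    _ = R * k := by rw [Finset.sum_const, Finset.card_range, smul_eq_mul]

theorem good_block (hg : P.Good) (h : IsFam P N ty F) (r : ℕ) (hN : P.R * (P.m + P.B) ≤ N + r)
    (hr : 6 * r * (P.R + 1) < P.R * P.R) :
    ∃ i < P.R, ∃ j < P.R, (∀ α < P.m, goodP P ty F i j α ∧ goodP P ty F (i + 1) j α) ∧
      (∀ β < P.B, goodQ P ty F i j β ∧ goodQ P ty F i (j + 1) β) := by
  classical
  by_contra hcon
  have h1 := aux P.R P.m (3 * r) (fun i j α => goodP P ty F i j α)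
    (fun i hi => bad_P hg h r hN i hi.le)
  have h2 := aux P.R P.m (3 * r) (fun i j α => goodP P ty F (i + 1) j α)
    (fun i hi => bad_P hg h r hN (i + 1) hi)
  have h3 := aux P.R P.B (3 * r) (fun j i β => goodQ P ty F i j β)
    (fun j hj => bad_Q hg h r hN j hj.le)
  have h4 := aux P.R P.B (3 * r) (fun j i β => goodQ P ty F i (j + 1) β)
    (fun j hj => bad_Q hg h r hN (j + 1) hj)
  rw [Finset.sum_comm] at h3 h4
  have hall : ∑ i ∈ Finset.range P.R, ∑ j ∈ Finset.range P.R, 1 ≤
      ∑ i ∈ Finset.range P.R, ∑ j ∈ Finset.range P.R,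
        ((if ∃ α < P.m, ¬ goodP P ty F i j α then 1 else 0) +
        (if ∃ α < P.m, ¬ goodP P ty F (i + 1) j α then 1 else 0) +
        (if ∃ β < P.B, ¬ goodQ P ty F i j β then 1 else 0) +
        (if ∃ β < P.B, ¬ goodQ P ty F i (j + 1) β then 1 else 0)) := by
    refine Finset.sum_le_sum (fun i hi => Finset.sum_le_sum (fun j hj => ?_))
    by_contra hlt
    have e1 : ¬ ∃ α < P.m, ¬ goodP P ty F i j α := by
      intro hh
      rw [if_pos hh] at hlt
      omega
    have e2 : ¬ ∃ α < P.m, ¬ goodP P ty F (i + 1) j α := by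
      intro hh
      rw [if_pos hh] at hlt
      omega
    have e3 : ¬ ∃ β < P.B, ¬ goodQ P ty F i j β := by
      intro hh
      rw [if_pos hh] at hlt
      omega
    have e4 : ¬ ∃ β < P.B, ¬ goodQ P ty F i (j + 1) β := by
      intro hh
      rw [if_pos hh] at hlt
      omega
    push Not at e1 e2 e3 e4
    exact hcon ⟨i, Finset.mem_range.1 hi, j, Finset.mem_range.1 hj,
      fun α hα => ⟨e1 α hα, e2 α hα⟩, fun β hβ => ⟨e3 β hβ, e4 β hβ⟩⟩
  simp only [Finset.sum_add_distrib] at hall
  have hRR : ∑ i ∈ Finset.range P.R, ∑ j ∈ Finset.range P.R, 1 = P.R * P.R := by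
    simp
  rw [hRR] at hall
  nlinarith

end Pool.Agent.Work.MP_d41d5f_lc
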