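import Pool.Agent.Work.MP_d41d5f_lc.ED.BDefs

/-!
LocX (M): the local crossing number of two disjoint traces vanishes at vertices of degree at most
three, and at a vertex of degree four it is nonzero only if the traces pass straight.

Proof. Fix `x < W`, `y < H`. The available edges at `(x,y)` are: left, right, up (`vt x y`), down
(`vt x (y-1)`, only if `0 < y`). Which vertical edges can be used (`IsTr.vert`): up needs
`P.vert x y = true`, down needs `P.vert x (y-1) = true`. From the definition of `vert`, with
`r = x % T`, `i = x / T`: if `r < 2 * isz i` (island column): for `y > ρ` up needs `(y-ρ+r)` even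
and down needs `(y-1-ρ+r)` even; for `y < ρ` up needs `(ρ-1-y+r)` even and down needs `(ρ-y+r)`
even; so never both; for `y = ρ` both need `r` even (up: `(ρ-ρ+r)` even; down, `y-1 = ρ-1 < ρ`:
`(ρ-1-(ρ-1)+r)` even, note `0 < ρ` in that case because `0 < y`). If `2 * isz i ≤ r`: up needs
`x + y` even and down needs `x + y - 1` even. So both vertical edges can be available only if
`y = ρ` and `isX x = true`.
The edges of the two traces at `(x,y)` are disjoint (`dh`, `dv`), and each trace has an even number
of them. (1) If at most one vertical edge is available, there are at most three available edges,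
so one of the two traces has none of the edges at `(x,y)`; both products in `loc` contain a factor
of each trace, so `loc = 0`. (2) In general, if `loc ≠ 0` then both traces have an edge at `(x,y)`,
hence exactly two each; going through the six possibilities for the two edges of P (and the
complementary pair for Q) shows that `loc = 1` exactly if {P horizontal, Q vertical} or
{P vertical, Q horizontal}. This is a finite check over eight Booleans
(`pl pr pu pd ql qr qu qd`, with `pl && ql = false` etc. and the two parity conditions).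
When `y = 0` in (2): down is not available; then `loc ≠ 0` is impossible by (1); so `0 < y`.
-/

set_option autoImplicit false

namespace Pool.Agent.Work.MP_d41d5f_lc

private theorem chk0 : ∀ pl pr pu pd ql qr qu qd : Bool,
    (pl.toNat + pr.toNat + pu.toNat + pd.toNat) % 2 = 0 →
    (ql.toNat + qr.toNat + qu.toNat + qd.toNat) % 2 = 0 →
    ¬ (pl = true ∧ ql = true) → ¬ (pr = true ∧ qr = true) → ¬ (pu = true ∧ qu = true) →
    ¬ (pd = true ∧ qd = true) → ((pu = false ∧ qu = false) ∨ (pd = false ∧ qd = false)) →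
    bz pd * bz qr + bz pl * bz qu = 0 := by
  decide

private theorem chk1 : ∀ pl pr pu pd ql qr qu qd : Bool,
    (pl.toNat + pr.toNat + pu.toNat + pd.toNat) % 2 = 0 →
    (ql.toNat + qr.toNat + qu.toNat + qd.toNat) % 2 = 0 →
    ¬ (pl = true ∧ ql = true) → ¬ (pr = true ∧ qr = true) → ¬ (pu = true ∧ qu = true) →
    ¬ (pd = true ∧ qd = true) → bz pd * bz qr + bz pl * bz qu ≠ 0 →
    (pl = true ∧ pr = true ∧ qu = true ∧ qd = true) ∨
      (pu = true ∧ pd = true ∧ ql = true ∧ qr = true) := by
  decide

/-- Both vertical edges at a vertex are present only at the crossing vertices. -/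
theorem vert_both (P : Prm) (x y : ℕ) (hy : 0 < y) (h1 : P.vert x y = true)
    (h2 : P.vert x (y - 1) = true) : y = P.rho ∧ P.isX x = true := by
  unfold Prm.vert at h1 h2
  unfold Prm.isX
  generalize P.rho = ρ at *
  generalize hr : x % P.T = r at *
  generalize P.isz (x / P.T) = s at *
  by_cases hs : r < 2 * s
  · rw [if_pos hs] at h1 h2
    by_cases ha : ρ ≤ y
    · rw [if_pos ha, decide_eq_true_eq] at h1
      by_cases hb : ρ ≤ y - 1
      · rw [if_pos hb, decide_eq_true_eq] at h2
        omega
      · rw [if_neg hb, decide_eq_true_eq] at h2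
        refine ⟨by omega, ?_⟩
        rw [Bool.and_eq_true, decide_eq_true_eq, decide_eq_true_eq]
        exact ⟨hs, by omega⟩
    · rw [if_neg ha, decide_eq_true_eq] at h1
      rw [if_neg (by omega), decide_eq_true_eq] at h2
      omega
  · rw [if_neg hs, decide_eq_true_eq] at h1 h2
    omega

private theorem no_vert {P : Prm} {h v : ℕ → ℕ → Bool} (h1 : IsTr P h v) {x y : ℕ}
    (hn : P.vert x y ≠ true) : v x y = false := by
  by_contra hc
  rw [Bool.not_eq_false] at hc
  exact hn (h1.vert x y hc).2

theorem loc_zero (P : Prm) (hP vP hQ vQ : ℕ → ℕ → Bool) (h1 : IsTr P hP vP) (h2 : IsTr P hQ vQ)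
    (dh : ∀ x y, ¬ (hP x y = true ∧ hQ x y = true)) (dv : ∀ x y, ¬ (vP x y = true ∧ vQ x y = true))
    (x y : ℕ) (hx : x < P.W) (hy : y < P.H) (hn : ¬ (y = P.rho ∧ P.isX x = true)) :
    loc hP vP hQ vQ x y = 0 := by
  have p1 := h1.par x hx y hy
  have p2 := h2.par x hx y hy
  unfold loc
  by_cases h0 : y = 0
  · rw [if_pos h0] at p1 p2 ⊢
    have := chk0 (hP x y) (hP (x + 1) y) (vP x y) false (hQ x y) (hQ (x + 1) y) (vQ x y) false p1 p2
      (dh x y) (dh (x + 1) y) (dv x y) (by simp) (Or.inr ⟨rfl, rfl⟩)
    simpa [bz] using this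
  · rw [if_neg h0] at p1 p2 ⊢
    refine chk0 _ _ _ _ _ _ _ _ p1 p2 (dh x y) (dh (x + 1) y) (dv x y) (dv x (y - 1)) ?_
    by_cases hv : P.vert x y = true
    · have hv' : P.vert x (y - 1) ≠ true := fun h => hn (vert_both P x y (by omega) hv h)
      exact Or.inr ⟨no_vert h1 hv', no_vert h2 hv'⟩
    · exact Or.inl ⟨no_vert h1 hv, no_vert h2 hv⟩

theorem loc_str (P : Prm) (hP vP hQ vQ : ℕ → ℕ → Bool) (h1 : IsTr P hP vP) (h2 : IsTr P hQ vQ)
    (dh : ∀ x y, ¬ (hP x y = true ∧ hQ x y = true)) (dv : ∀ x y, ¬ (vP x y = true ∧ vQ x y = true))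
    (x y : ℕ) (hx : x < P.W) (hy : y < P.H) (hn : loc hP vP hQ vQ x y ≠ 0) :
    0 < y ∧ Str hP vP hQ vQ x y := by
  have p1 := h1.par x hx y hy
  have p2 := h2.par x hx y hy
  unfold loc at hn
  by_cases h0 : y = 0
  · exfalso
    apply hn
    rw [if_pos h0] at p1 p2 ⊢
    have := chk0 (hP x y) (hP (x + 1) y) (vP x y) false (hQ x y) (hQ (x + 1) y) (vQ x y) false p1 p2
      (dh x y) (dh (x + 1) y) (dv x y) (by simp) (Or.inr ⟨rfl, rfl⟩)
    simpa [bz] using this
  · rw [if_neg h0] at p1 p2 hn
    exact ⟨by omega, chk1 _ _ _ _ _ _ _ _ p1 p2 (dh x y) (dh (x + 1) y) (dv x y) (dv x (y - 1)) hn⟩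

end Pool.Agent.Work.MP_d41d5f_lc
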