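import Pool.Agent.Work.MP_d41d5f_lc.ED.CapE

/-!
LowD (M): all vertices that are not terminals have degree at most four.

Proof. Let `v` be not a terminal; so `v ≠ [0], [1], [2], [3]` (`2 ≤ k`). If no edge has the end `v`
the degree is `0`. Otherwise `v = [i, j, x, y]` with `i, j < R`, `x < W`, `y < H` (ends of valid
edges). Give every valid edge `d` with an end `v` a side: `h` or a link with first end `v`: right;
`h` or a link with second end `v`: left; `v`-edge with first end `v`: up, with second end `v`: down.
Two valid edges with the same side are equal: right: `h i j x y` needs `x + 1 < W`; a link with left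
end `[i,j,x,y]` needs `x = W - 1`, and it is `p (i+1) j (y - (H-m))` with `H - m ≤ y` or
`q i (j+1) y` with `y < B`; not both because `B ≤ H - m`. Left: `h i j (x-1) y` needs `1 ≤ x`; a
link with right end `[i,j,x,y]` has `x = 0`, and it is `p i j y` with `y < m`, or
`q i j (y - (H-B))` with `H - B ≤ y`; not both because `m ≤ H - B`. Up: `v i j x y`; down:
`v i j x (y-1)`. So the filtered list has at most four elements: it is nodup (`edges_nodup`) and
contained in an explicit list of four elements (or: injective map of its members into `Fin 4`).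
-/

set_option autoImplicit false

namespace Pool.Agent.Work.MP_d41d5f_lc

private def cand (P : Prm) (i j x y : ℕ) : List (Vx × Vx) :=
  [if x + 1 < P.W then P.ends (.h i j x y) else
      if P.H - P.m ≤ y then P.ends (.p (i + 1) j (y - (P.H - P.m))) else P.ends (.q i (j + 1) y),
   if 1 ≤ x then P.ends (.h i j (x - 1) y) else
      if y < P.m then P.ends (.p i j y) else P.ends (.q i j (y - (P.H - P.B))),
   P.ends (.v i j x y), P.ends (.v i j x (y - 1))]

private theorem mem_cand (P : Prm) (i j x y : ℕ) (d : Ed) (hd : P.ok d)
    (h : (P.ends d).1 = [i, j, x, y] ∨ (P.ends d).2 = [i, j, x, y]) :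
    P.ends d ∈ cand P i j x y := by
  have hH : P.H = 2 * (P.m + P.B + P.a.sum) + 1 := rfl
  simp only [cand, List.mem_cons]
  cases d with
  | h i' j' x' y' =>
    simp only [Prm.ok] at hd
    simp only [Prm.ends, List.cons.injEq, and_true] at h
    rcases h with ⟨rfl, rfl, rfl, rfl⟩ | ⟨rfl, rfl, rfl, rfl⟩
    · left
      rw [if_pos hd.2.2.1]
    · right; left
      rw [if_pos (by omega), Nat.add_sub_cancel]
  | v i' j' x' y' =>
    simp only [Prm.ok] at hd
    simp only [Prm.ends, List.cons.injEq, and_true] at h
    rcases h with ⟨rfl, rfl, rfl, rfl⟩ | ⟨rfl, rfl, rfl, rfl⟩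
    · right; right; left
      rfl
    · right; right; right; left
      rw [Nat.add_sub_cancel]
  | p i' j' α =>
    simp only [Prm.ok] at hd
    rcases h with h | h
    · left
      simp only [Prm.ends] at h
      by_cases h0 : i' = 0
      · rw [if_pos h0] at h
        simp at h
      · rw [if_neg h0] at h
        simp only [List.cons.injEq, and_true] at h
        obtain ⟨h1, h2, h3, h4⟩ := h
        rw [if_neg (by omega), if_pos (by omega)]
        have e1 : i + 1 = i' := by omega
        have e2 : y - (P.H - P.m) = α := by omega
        rw [e1, e2, h2]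
    · right; left
      simp only [Prm.ends] at h
      by_cases h0 : i' = P.R
      · rw [if_pos h0] at h
        simp at h
      · rw [if_neg h0] at h
        simp only [List.cons.injEq, and_true] at h
        obtain ⟨h1, h2, h3, h4⟩ := h
        rw [if_neg (by omega), if_pos (by omega)]
        rw [h1, h2, h4]
  | q i' j' β =>
    simp only [Prm.ok] at hd
    rcases h with h | h
    · left
      simp only [Prm.ends] at h
      by_cases h0 : j' = 0
      · rw [if_pos h0] at h
        simp at h
      · rw [if_neg h0] at h
        simp only [List.cons.injEq, and_true] at h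
        obtain ⟨h1, h2, h3, h4⟩ := h
        rw [if_neg (by omega), if_neg (by omega)]
        have e1 : j + 1 = j' := by omega
        rw [e1, h1, h4]
    · right; left
      simp only [Prm.ends] at h
      by_cases h0 : j' = P.R
      · rw [if_pos h0] at h
        simp at h
      · rw [if_neg h0] at h
        simp only [List.cons.injEq, and_true] at h
        obtain ⟨h1, h2, h3, h4⟩ := h
        rw [if_neg (by omega), if_neg (by omega)]
        have e1 : y - (P.H - P.B) = β := by omega
        rw [e1, h1, h2]

private theorem form (P : Prm) (d : Ed) (v : Vx)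
    (h : (P.ends d).1 = v ∨ (P.ends d).2 = v) (h0 : v ≠ [0]) (h1 : v ≠ [1]) (h2 : v ≠ [2])
    (h3 : v ≠ [3]) : ∃ i j x y, v = [i, j, x, y] := by
  cases d with
  | h i' j' x' y' =>
    rcases h with h | h
    · exact ⟨_, _, _, _, h.symm⟩
    · exact ⟨_, _, _, _, h.symm⟩
  | v i' j' x' y' =>
    rcases h with h | h
    · exact ⟨_, _, _, _, h.symm⟩
    · exact ⟨_, _, _, _, h.symm⟩
  | p i' j' α =>
    simp only [Prm.ends] at h
    rcases h with h | h
    · split_ifs at h with h4
      · exact absurd h.symm h0
      · exact ⟨_, _, _, _, h.symm⟩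
    · split_ifs at h with h4
      · exact absurd h.symm h1
      · exact ⟨_, _, _, _, h.symm⟩
  | q i' j' β =>
    simp only [Prm.ends] at h
    rcases h with h | h
    · split_ifs at h with h4
      · exact absurd h.symm h2
      · exact ⟨_, _, _, _, h.symm⟩
    · split_ifs at h with h4
      · exact absurd h.symm h3
      · exact ⟨_, _, _, _, h.symm⟩

theorem arr_lowDeg (k : ℕ) (hk : 2 ≤ k) (P : Prm) (hg : P.Good) : LowDeg (arr k P) := by
  intro v hv
  have ht0 : (([0], [1]) : Vx × Vx) ∈ (arr k P).2 := by
    simp only [arr, pairs, List.mem_map, List.mem_range]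
    exact ⟨0, by omega, rfl⟩
  have ht1 : (([2], [3]) : Vx × Vx) ∈ (arr k P).2 := by
    simp only [arr, pairs, List.mem_map, List.mem_range]
    exact ⟨1, by omega, rfl⟩
  have h0 := (hv _ ht0).1
  have h1 := (hv _ ht0).2
  have h2 := (hv _ ht1).1
  have h3 := (hv _ ht1).2
  simp only at h0 h1 h2 h3
  change (P.edges.filter fun e => e.1 = v ∨ e.2 = v).length ≤ 4
  by_cases hex : ∃ i j x y, v = [i, j, x, y]
  · obtain ⟨i, j, x, y, rfl⟩ := hex
    have hsub : (P.edges.filter fun e => e.1 = [i, j, x, y] ∨ e.2 = [i, j, x, y]) ⊆
        cand P i j x y := by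
      intro e he
      rw [List.mem_filter] at he
      obtain ⟨he1, he2⟩ := he
      obtain ⟨d, hd, rfl⟩ := (mem_edges P e).1 he1
      exact mem_cand P i j x y d hd (by simpa using he2)
    have hnd : (P.edges.filter fun e => e.1 = [i, j, x, y] ∨ e.2 = [i, j, x, y]).Nodup :=
      (edges_nodup P hg).filter _
    exact (List.subperm_of_subset hnd hsub).length_le
  · have hemp : (P.edges.filter fun e => e.1 = v ∨ e.2 = v) = [] := by
      rw [List.filter_eq_nil_iff]
      intro e he h4
      obtain ⟨d, hd, rfl⟩ := (mem_edges P e).1 he
      exact hex (form P d v (by simpa using h4) h0 h1 h2 h3)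
    rw [hemp]
    simp

end Pool.Agent.Work.MP_d41d5f_lc
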