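import Mathlib

/-!
NumE (S-M): the choice of the exponent.

Proof. Take a natural number `c ≥ 1` with `c * ε ≥ 2` (for example `⌈2 / ε⌉₊ + 1`). Let `q ≥ 1`,
`s = 7 q ≥ 7` (real), `R = s ^ c`, `D = R * q = s ^ (c+1) / 7`. If `ε ≥ 1`: `D ≥ 1`, so
`D ^ (1-ε) ≤ 1 ≤ 7 ^ c / 7 ≤ R / 7`. If `ε < 1`: `D ≤ s ^ (c+1)` so
`D ^ (1-ε) ≤ s ^ ((c+1) (1-ε))` (`Real.rpow_le_rpow`, `Real.rpow_mul`), and
`(c+1)(1-ε) = c + 1 - c ε - ε ≤ c - 1`, so it is at most `s ^ (c-1) = R / s ≤ R / 7`.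
-/

set_option autoImplicit false

namespace Pool.Agent.Work.MP_d41d5f_lc

theorem num_exp (ε : ℝ) (hε : 0 < ε) : ∃ c : ℕ, 1 ≤ c ∧ ∀ q : ℕ, 1 ≤ q →
    (((7 * q) ^ c * q : ℕ) : ℝ) ^ (1 - ε) ≤ (((7 * q) ^ c : ℕ) : ℝ) / 7 := by
  refine ⟨⌈2 / ε⌉₊ + 1, by omega, fun q hq => ?_⟩
  set c : ℕ := ⌈2 / ε⌉₊ + 1 with hc
  have hcε : 2 ≤ (c : ℝ) * ε := by
    have h1 : 2 / ε ≤ (⌈2 / ε⌉₊ : ℝ) := Nat.le_ceil _
    have h2 : 2 / ε ≤ (c : ℝ) := by rw [hc]; push_cast; linarith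
    rwa [div_le_iff₀ hε] at h2
  have hq1 : (1 : ℝ) ≤ (q : ℝ) := by exact_mod_cast hq
  have hs : (7 : ℝ) ≤ 7 * (q : ℝ) := by linarith
  have hs0 : (0 : ℝ) < 7 * (q : ℝ) := by linarith
  have hs1 : (1 : ℝ) ≤ 7 * (q : ℝ) := by linarith
  push_cast
  have hc1 : c = (c - 1) + 1 := by omega
  have hR : (7 * (q : ℝ)) ^ c = (7 * (q : ℝ)) ^ (c - 1) * (7 * (q : ℝ)) := by
    conv_lhs => rw [hc1]
    rw [pow_succ]
  have hpow1 : (1 : ℝ) ≤ (7 * (q : ℝ)) ^ (c - 1) := one_le_pow₀ hs1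
  have hmain : (7 * (q : ℝ)) ^ (c - 1) ≤ (7 * (q : ℝ)) ^ c / 7 := by
    rw [hR, le_div_iff₀ (by norm_num)]
    have : (0 : ℝ) ≤ (7 * (q : ℝ)) ^ (c - 1) := by positivity
    nlinarith
  refine le_trans ?_ hmain
  have hD1 : (1 : ℝ) ≤ (7 * (q : ℝ)) ^ c * q := by
    have : (1 : ℝ) ≤ (7 * (q : ℝ)) ^ c := one_le_pow₀ hs1
    nlinarith
  rcases le_or_gt 1 ε with h1 | h1
  · refine le_trans (Real.rpow_le_one_of_one_le_of_nonpos hD1 (by linarith)) hpow1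
  · have hD2 : (7 * (q : ℝ)) ^ c * q ≤ (7 * (q : ℝ)) ^ (c + 1) := by
      rw [pow_succ]
      have : (0 : ℝ) ≤ (7 * (q : ℝ)) ^ c := by positivity
      exact mul_le_mul_of_nonneg_left (by linarith) this
    have h2 : ((7 * (q : ℝ)) ^ c * q) ^ (1 - ε) ≤ ((7 * (q : ℝ)) ^ (c + 1)) ^ (1 - ε) :=
      Real.rpow_le_rpow (by linarith) hD2 (by linarith)
    refine h2.trans ?_
    rw [← Real.rpow_natCast, ← Real.rpow_mul hs0.le, ← Real.rpow_natCast]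
    apply Real.rpow_le_rpow_of_exponent_le hs1
    have hc2 : ((c - 1 : ℕ) : ℝ) = (c : ℝ) - 1 := by
      rw [Nat.cast_sub (by omega)]; norm_num
    rw [hc2]
    push_cast
    nlinarith

end Pool.Agent.Work.MP_d41d5f_lc
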