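import Pool.Agent.Work.MP_d41d5f_lc.ED.Defs

/-!
OptG (M): the optimum of an instance.

`routable_mono`: drop paths (`Fin.castLE`). `routable_zero`: the empty family.
`routable_le_cap`: every path `P a` joins two different vertices, so it has a first edge `e a`, which
is an edge of the graph at the vertex `(t a).1`; choose an element `d a ∈ I.1` of the list with
`e a = s((d a).1, (d a).2)`; then `(d a).1 = (t a).1 ∨ (d a).2 = (t a).1`. The map
`a ↦ (t a, d a)` is injective because `e a` determines `a` (the paths are edge-disjoint) and `d a`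
determines `e a`. For fixed pair `p` the `d a` with `t a = p` are different elements of the list
`I.1.filter (fun e => e.1 = p.1 ∨ e.2 = p.1)`, so there are at most `deg I.1 p.1` of them; the sum
over the different pairs `p` in `I.2` is at most the sum over the list, `cap I`
(`Finset.card_le_card_of_injOn`, or map `a` to the pair of an index of `t a` in `I.2` and an index
of `d a` in the filtered list).
`le_opt`, `opt_le`: the set `{N | Routable I N}` is nonempty, bounded above by `cap I` and closed
downwards, so `Routable I N ↔ N ≤ opt I` (`Nat.sSup_mem`).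
-/

set_option autoImplicit false

namespace Pool.Agent.Work.MP_d41d5f_lc

theorem routable_mono (I : Inst) (M N : ℕ) (h : M ≤ N) (hN : Routable I N) : Routable I M := by
  obtain ⟨t, P, h1, h2⟩ := hN
  refine ⟨fun a => t (Fin.castLE h a), fun a => P (Fin.castLE h a), fun a => h1 _, ?_⟩
  intro a b hab
  exact h2 _ _ fun h3 => hab (Fin.castLE_injective h h3)

theorem routable_zero (I : Inst) : Routable I 0 :=
  ⟨fun a => a.elim0, fun a => a.elim0, fun a => a.elim0, fun a => a.elim0⟩

private theorem exists_dart (I : Inst) {u v : Vx} (hne : u ≠ v) (W : (graphOf I.1).Walk u v) :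
    ∃ d ∈ I.1, s(d.1, d.2) ∈ W.edges ∧ (d.1 = u ∨ d.2 = u) := by
  cases W with
  | nil => exact absurd rfl hne
  | @cons _ w _ hadj W' =>
    have h1 : ∃ p ∈ I.1, s(u, w) = s(p.1, p.2) := by
      have h2 := hadj
      unfold graphOf at h2
      rw [SimpleGraph.fromEdgeSet_adj] at h2
      exact h2.1
    obtain ⟨p, hp, hpe⟩ := h1
    refine ⟨p, hp, ?_, ?_⟩
    · rw [SimpleGraph.Walk.edges_cons, ← hpe]
      exact List.mem_cons_self
    · rcases Sym2.eq_iff.1 hpe with ⟨h3, _⟩ | ⟨h3, _⟩
      · exact Or.inl h3.symm
      · exact Or.inr h3.symm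

private theorem sum_toFinset_le' {α : Type*} [DecidableEq α] (l : List α) (f : α → ℕ) :
    ∑ p ∈ l.toFinset, f p ≤ (l.map f).sum := by
  induction l with
  | nil => simp
  | cons a l ih =>
    rw [List.toFinset_cons, List.map_cons, List.sum_cons]
    by_cases h : a ∈ l.toFinset
    · rw [Finset.insert_eq_of_mem h]
      omega
    · rw [Finset.sum_insert h]
      omega

theorem routable_le_cap (I : Inst) (hne : ∀ p ∈ I.2, p.1 ≠ p.2) (N : ℕ) (h : Routable I N) :
    N ≤ cap I := by
  classical
  obtain ⟨t, P, h1, h2⟩ := h
  choose d hd hde hdv using fun a => exists_dart I (hne (t a) (h1 a).1) (P a)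
  -- count the pairs
  have hinj : ∀ a b, d a = d b → a = b := by
    intro a b hab
    by_contra hne'
    refine h2 a b hne' _ (hde a) ?_
    rw [hab]
    exact hde b
  have hcount : N ≤ ∑ p ∈ I.2.toFinset, deg I.1 p.1 := by
    calc N = (Finset.univ : Finset (Fin N)).card := by simp
      _ = ∑ p ∈ I.2.toFinset, (Finset.univ.filter fun a => t a = p).card :=
        Finset.card_eq_sum_card_fiberwise fun a _ => by
          simpa using (h1 a).1
      _ ≤ ∑ p ∈ I.2.toFinset, deg I.1 p.1 := by
        refine Finset.sum_le_sum fun p _ => ?_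
        have h3 : (Finset.univ.filter fun a => t a = p).card ≤
            (I.1.filter fun e => e.1 = p.1 ∨ e.2 = p.1).toFinset.card := by
          refine Finset.card_le_card_of_injOn d ?_ fun a _ b _ hab => hinj a b hab
          intro a ha
          have h4 : t a = p := (Finset.mem_filter.1 (Finset.mem_coe.1 ha)).2
          have h5 := hdv a
          rw [h4] at h5
          rw [Finset.mem_coe, List.mem_toFinset, List.mem_filter]
          exact ⟨hd a, by simpa using h5⟩
        exact h3.trans (List.toFinset_card_le _)
  refine hcount.trans ?_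
  unfold cap
  exact sum_toFinset_le' I.2 fun p => deg I.1 p.1

theorem routable_iff (I : Inst) (hne : ∀ p ∈ I.2, p.1 ≠ p.2) (N : ℕ) :
    Routable I N ↔ N ≤ opt I := by
  have hbdd : BddAbove {N | Routable I N} := ⟨cap I, fun N hN => routable_le_cap I hne N hN⟩
  have hmem : Routable I (opt I) := Nat.sSup_mem ⟨0, routable_zero I⟩ hbdd
  constructor
  · intro h
    exact le_csSup hbdd h
  · intro h
    exact routable_mono I N _ h hmem

theorem opt_le_cap (I : Inst) (hne : ∀ p ∈ I.2, p.1 ≠ p.2) : opt I ≤ cap I :=
  routable_le_cap I hne _ ((routable_iff I hne _).2 le_rfl)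

end Pool.Agent.Work.MP_d41d5f_lc
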