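import Pool.Agent.Work.MP_d41d5f_lc.ED.PadF

/-!
PadC (M): a perfect packing gives an ordered perfect packing of the padded list.

Proof. `D = padD m B`, `K = padK m B`, `B₁ = B (m+1)`; `B₁ ≤ m B₁ ≤ D`. Let `g` be a perfect packing
of `a`. Define `f i = m - 1 - i` for `i < m`; `f (m + t) = g t` for `t < a.length`;
`f (m + a.length + t) = m - 1 - t` for `t < m` (and `0` beyond). Let `n = a.length`.
Loads of group `j < m` (from `padL_start`, `padL_mid`, `padL_end`):
after `t ≤ m` numbers: `K + j D` if `m - 1 - j < t`, else `0` (the start pad of group `j` is number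
`m - 1 - j`, of size `K + (m-1-(m-1-j)) D = K + j D`);
after `m + t` numbers, `t ≤ n`: `K + j D + (m+1) * (load a g t j)`, and `(m+1) * load a g t j ≤ B₁`
because `load a g t j ≤ load a g n j = B`;
after `m + n + t` numbers, `t ≤ m`: `K + j D + B₁`, plus `K + (m - j) D` if `m - 1 - j < t`.
(Formally by induction: `load a f (t+1) j = load a f t j + (if f t = j then a t else 0)`.)
Final load: `K + j D + B₁ + K + (m-j) D = padB m B`.
Order, for `j + 1 < m`: first phase: if group `j` has its pad then so has `j + 1`, and
`K + j D ≤ K + (j+1) D`; otherwise the load of `j` is `0`. Second phase: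
`K + j D + (m+1) load j ≤ K + j D + B₁ ≤ K + (j+1) D ≤ load (j+1)`. Third phase: without end pads
`K + j D + B₁ ≤ K + (j+1) D + B₁`; if `j` has its end pad then so has `j + 1`, and both loads are
`padB m B`; if only `j + 1` has it, its load is larger.
-/

set_option autoImplicit false

namespace Pool.Agent.Work.MP_d41d5f_lc

private theorem pc_load_succ (a : List ℕ) (f : ℕ → ℕ) (t j : ℕ) :
    load a f (t + 1) j = load a f t j + if f t = j then a.getD t 0 else 0 := by
  unfold load
  rw [Finset.range_add_one, Finset.filter_insert]
  split_ifs with h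
  · rw [Finset.sum_insert (by simp)]
    omega
  · rfl

private theorem pc_load_zero (a : List ℕ) (f : ℕ → ℕ) (j : ℕ) : load a f 0 j = 0 := by
  unfold load
  simp

private theorem pc_load_mono (a : List ℕ) (f : ℕ → ℕ) (j : ℕ) {t t' : ℕ} (h : t ≤ t') :
    load a f t j ≤ load a f t' j := by
  unfold load
  exact Finset.sum_le_sum_of_subset (Finset.filter_subset_filter _ (Finset.range_mono h))

theorem pad_complete (m B : ℕ) (a : List ℕ) (hm : 1 ≤ m) (h : Pack m B a) :
    ∃ f, OrdPack m (padB m B) (padL m B a) f := by
  obtain ⟨g, hg1, hg2⟩ := h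
  set n := a.length with hn
  set L := padL m B a with hL
  set D := padD m B with hD
  set K := padK m B with hK
  set B₁ := B * (m + 1) with hB₁
  have hlen : L.length = m + (n + m) := padL_length m B a
  have hload : ∀ j < m, load a g n j = B := hg2
  have hBD : B₁ ≤ D := by
    have h1 : B₁ ≤ m * B₁ := Nat.le_mul_of_pos_left _ (by omega)
    have h2 : D = m * B₁ + 1 := rfl
    omega
  let f : ℕ → ℕ := fun i => if i < m then m - 1 - i else if i < m + n then g (i - m) else
    if i < m + n + m then m - 1 - (i - (m + n)) else 0
  have f1 : ∀ i < m, f i = m - 1 - i := fun i hi => by simp only [f, if_pos hi]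
  have f2 : ∀ t < n, f (m + t) = g t := by
    intro t ht
    have h1 : ¬ (m + t < m) := by omega
    have h2 : m + t < m + n := by omega
    simp only [f, if_neg h1, if_pos h2]
    rw [Nat.add_sub_cancel_left]
  have f3 : ∀ t < m, f (m + n + t) = m - 1 - t := by
    intro t ht
    have h1 : ¬ (m + n + t < m) := by omega
    have h2 : ¬ (m + n + t < m + n) := by omega
    have h3 : m + n + t < m + n + m := by omega
    simp only [f, if_neg h1, if_neg h2, if_pos h3]
    rw [Nat.add_sub_cancel_left]
  have e1 : ∀ t < m, L.getD t 0 = K + (m - 1 - t) * D := fun t ht => padL_start m B a t ht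
  have e2 : ∀ t < n, L.getD (m + t) 0 = a.getD t 0 * (m + 1) := fun t ht => padL_mid m B a t ht
  have e3 : ∀ t < m, L.getD (m + n + t) 0 = K + (t + 1) * D := fun t ht => padL_end m B a t ht
  -- phase 1
  have p1 : ∀ t ≤ m, ∀ j < m, load L f t j = if m - 1 - j < t then K + j * D else 0 := by
    intro t
    induction t with
    | zero =>
      intro _ j _
      rw [pc_load_zero]
      simp
    | succ t ih =>
      intro ht j hj
      rw [pc_load_succ, ih (by omega) j hj, f1 t (by omega), e1 t (by omega)]
      by_cases h1 : m - 1 - j < t
      · have h2 : ¬ (m - 1 - t = j) := by omega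
        have h3 : m - 1 - j < t + 1 := by omega
        rw [if_pos h1, if_neg h2, if_pos h3]
        omega
      · by_cases h2 : m - 1 - t = j
        · have h3 : m - 1 - j < t + 1 := by omega
          rw [if_neg h1, if_pos h2, if_pos h3, h2]
          omega
        · have h3 : ¬ (m - 1 - j < t + 1) := by omega
          rw [if_neg h1, if_neg h2, if_neg h3]
  -- phase 2
  have p2 : ∀ t ≤ n, ∀ j < m, load L f (m + t) j = K + j * D + (m + 1) * load a g t j := by
    intro t
    induction t with
    | zero =>
      intro _ j hj
      rw [Nat.add_zero, p1 m le_rfl j hj, pc_load_zero, if_pos (by omega)]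
      simp
    | succ t ih =>
      intro ht j hj
      rw [← Nat.add_assoc, pc_load_succ, ih (by omega) j hj, f2 t (by omega),
        e2 t (by omega), pc_load_succ a g t j]
      by_cases h1 : g t = j
      · rw [if_pos h1, if_pos h1]
        ring
      · rw [if_neg h1, if_neg h1]
        simp only [Nat.add_zero]
  -- phase 3
  have p3 : ∀ t ≤ m, ∀ j < m, load L f (m + n + t) j =
      K + j * D + B₁ + if m - 1 - j < t then K + (m - j) * D else 0 := by
    intro t
    induction t with
    | zero =>
      intro _ j hj
      rw [Nat.add_zero, p2 n le_rfl j hj, hload j hj]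
      have h1 : (m + 1) * B = B₁ := by rw [hB₁, Nat.mul_comm]
      rw [h1]
      simp
    | succ t ih =>
      intro ht j hj
      rw [← Nat.add_assoc, pc_load_succ, ih (by omega) j hj, f3 t (by omega),
        e3 t (by omega)]
      by_cases h1 : m - 1 - j < t
      · have h2 : ¬ (m - 1 - t = j) := by omega
        have h3 : m - 1 - j < t + 1 := by omega
        rw [if_pos h1, if_neg h2, if_pos h3]
        omega
      · by_cases h2 : m - 1 - t = j
        · have h3 : m - 1 - j < t + 1 := by omega
          have h4 : t + 1 = m - j := by omega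
          rw [if_neg h1, if_pos h2, if_pos h3, h4]
          omega
        · have h3 : ¬ (m - 1 - j < t + 1) := by omega
          rw [if_neg h1, if_neg h2, if_neg h3]
  refine ⟨f, ?_, ?_, ?_⟩
  · intro i hi
    rw [hlen] at hi
    rcases lt_or_ge i m with h1 | h1
    · rw [f1 i h1]; omega
    · rcases lt_or_ge i (m + n) with h2 | h2
      · have h3 := f2 (i - m) (by omega)
        rw [Nat.add_sub_cancel' h1] at h3
        rw [h3]
        exact hg1 _ (by omega)
      · have h3 := f3 (i - (m + n)) (by omega)
        rw [Nat.add_sub_cancel' h2] at h3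
        rw [h3]
        omega
  · intro j hj
    have h1 : L.length = m + n + m := by omega
    rw [h1, p3 m le_rfl j hj, if_pos (by omega)]
    show K + j * D + B₁ + (K + (m - j) * D) = 2 * K + m * D + B₁
    have h2 : j * D + (m - j) * D = m * D := by
      rw [← Nat.add_mul]
      congr 1
      omega
    omega
  · intro t ht j hj
    rw [hlen] at ht
    have hs : (j + 1) * D = j * D + D := Nat.succ_mul j D
    rcases le_total t m with h1 | h1
    · rw [p1 t h1 j (by omega), p1 t h1 (j + 1) hj]
      split_ifs with h2 h3 h3
      · omega
      · omega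
      · omega
      · omega
    · rcases le_total t (m + n) with h2 | h2
      · obtain ⟨t', rfl⟩ : ∃ t', t = m + t' := ⟨t - m, by omega⟩
        rw [p2 t' (by omega) j (by omega), p2 t' (by omega) (j + 1) hj]
        have h3 : load a g t' j ≤ B := by
          rw [← hload j (by omega)]
          exact pc_load_mono a g j (by omega)
        have h4 : (m + 1) * load a g t' j ≤ B₁ := by
          rw [hB₁, Nat.mul_comm B]
          exact Nat.mul_le_mul_left _ h3
        omega
      · obtain ⟨t', rfl⟩ : ∃ t', t = m + n + t' := ⟨t - (m + n), by omega⟩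
        rw [p3 t' (by omega) j (by omega), p3 t' (by omega) (j + 1) hj]
        split_ifs with h3 h4 h4
        · have h5 : (m - j) * D = (m - (j + 1)) * D + D := by
            rw [← Nat.succ_mul]
            congr 1
            omega
          omega
        · omega
        · omega
        · omega

end Pool.Agent.Work.MP_d41d5f_lc
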