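import Pool.Agent.Work.MP_d41d5f_lc.ED.PadF

/-!
PadS (M): a perfect packing of the padded list gives one of the original list.

Proof. `D = padD m B`, `K = padK m B = m D + B₁ + 1`, `B₁ = B (m+1)`, capacity
`C = padB m B = 2 K + m D + B₁`. Let `g` be the packing of the padded list
(indices `t < m`: start pads `K + (m-1-t) D`; `m + t`, `t < a.length`: scaled numbers;
`m + a.length + t`, `t < m`: end pads `K + (t+1) D`; by `padL_start`, `padL_mid`, `padL_end`).
For a group `j < m` let `u j` be the number of pads in it. Its sum is at least `u j * K`, and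
`3 K > C` (`3 K = 2 K + m D + B₁ + 1`); so `u j ≤ 2`. The sum of the `u j` is `2 m`, so `u j = 2` for
all `j`. So the sum of group `j` is `2 K + w D + I`, with `w` = the sum of the coefficients of its two
pads and `I` = the sum of its scaled numbers, `I ≤ (m+1) * a.sum = m B₁ < D`; and
`2 K + w D + I = 2 K + m D + B₁` with `B₁ ≤ m B₁ < D` (`1 ≤ m`); uniqueness of division with
remainder by `D`: `w = m` and `I = B₁`. So the numbers of the original list in group `j` have the
sum `B` (`I = (m+1) * (sum)`). Packing of `a`: `g' t = g (m + t)`.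
-/

set_option autoImplicit false

namespace Pool.Agent.Work.MP_d41d5f_lc

private theorem ps_sum_getD (a : List ℕ) : ∑ i ∈ Finset.range a.length, a.getD i 0 = a.sum := by
  induction a with
  | nil => simp
  | cons x a ih =>
    rw [List.length_cons, Finset.sum_range_succ', List.sum_cons, ← ih]
    simp only [List.getD_cons_succ, List.getD_cons_zero]
    omega

/-- Division with remainder. -/
private theorem ps_div {D w I m B₁ : ℕ} (hI : I < D) (hB : B₁ < D)
    (h : w * D + I = m * D + B₁) : I = B₁ := by
  have h1 : (w * D + I) % D = I := by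
    rw [Nat.mul_comm, Nat.mul_add_mod, Nat.mod_eq_of_lt hI]
  have h2 : (m * D + B₁) % D = B₁ := by
    rw [Nat.mul_comm, Nat.mul_add_mod, Nat.mod_eq_of_lt hB]
  rw [← h1, ← h2, h]

theorem pad_sound (m B : ℕ) (a : List ℕ) (hm : 1 ≤ m) (hs : a.sum = m * B)
    (h : Pack m (padB m B) (padL m B a)) : Pack m B a := by
  obtain ⟨g, hg1, hg2⟩ := h
  set n := a.length with hn
  set L := padL m B a with hL
  set D := padD m B with hD
  set K := padK m B with hK
  set B₁ := B * (m + 1) with hB₁
  have hlen : L.length = m + (n + m) := padL_length m B a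
  have e1 : ∀ t < m, L.getD t 0 = K + (m - 1 - t) * D := fun t ht => padL_start m B a t ht
  have e2 : ∀ t < n, L.getD (m + t) 0 = a.getD t 0 * (m + 1) := fun t ht => padL_mid m B a t ht
  have e3 : ∀ t < m, L.getD (m + n + t) 0 = K + (t + 1) * D := fun t ht => padL_end m B a t ht
  have hDeq : D = m * B₁ + 1 := rfl
  have hKeq : K = m * D + B₁ + 1 := rfl
  have hC : padB m B = 2 * K + m * D + B₁ := rfl
  have hB₁m : B₁ ≤ m * B₁ := Nat.le_mul_of_pos_left _ (by omega)
  -- the three parts
  let u : ℕ → ℕ := fun j => (∑ t ∈ Finset.range m, if g t = j then 1 else 0) +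
    ∑ t ∈ Finset.range m, if g (m + n + t) = j then 1 else 0
  let w : ℕ → ℕ := fun j => (∑ t ∈ Finset.range m, if g t = j then (m - 1 - t) else 0) +
    ∑ t ∈ Finset.range m, if g (m + n + t) = j then (t + 1) else 0
  let S : ℕ → ℕ := fun j => ∑ t ∈ Finset.range n, if g (m + t) = j then a.getD t 0 else 0
  have hsum : ∀ j < m, u j * K + w j * D + S j * (m + 1) = 2 * K + m * D + B₁ := by
    intro j hj
    rw [← hC, ← hg2 j hj, Finset.sum_filter, hlen, ← Nat.add_assoc, Finset.sum_range_add,
      Finset.sum_range_add]
    have s1 : ∑ x ∈ Finset.range m, (if g x = j then L.getD x 0 else 0) =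
        (∑ t ∈ Finset.range m, if g t = j then 1 else 0) * K +
        (∑ t ∈ Finset.range m, if g t = j then (m - 1 - t) else 0) * D := by
      rw [Finset.sum_mul, Finset.sum_mul, ← Finset.sum_add_distrib]
      refine Finset.sum_congr rfl fun t ht => ?_
      rw [e1 t (Finset.mem_range.1 ht)]
      split_ifs
      · rw [Nat.one_mul]
      · simp
    have s2 : ∑ x ∈ Finset.range n, (if g (m + x) = j then L.getD (m + x) 0 else 0) =
        S j * (m + 1) := by
      show _ = (∑ t ∈ Finset.range n, if g (m + t) = j then a.getD t 0 else 0) * (m + 1)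
      rw [Finset.sum_mul]
      refine Finset.sum_congr rfl fun t ht => ?_
      rw [e2 t (Finset.mem_range.1 ht)]
      split_ifs
      · rfl
      · simp
    have s3 : ∑ x ∈ Finset.range m, (if g (m + n + x) = j then L.getD (m + n + x) 0 else 0) =
        (∑ t ∈ Finset.range m, if g (m + n + t) = j then 1 else 0) * K +
        (∑ t ∈ Finset.range m, if g (m + n + t) = j then (t + 1) else 0) * D := by
      rw [Finset.sum_mul, Finset.sum_mul, ← Finset.sum_add_distrib]
      refine Finset.sum_congr rfl fun t ht => ?_
      rw [e3 t (Finset.mem_range.1 ht)]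
      split_ifs
      · rw [Nat.one_mul]
      · simp
    rw [s1, s2, s3]
    show ((∑ t ∈ Finset.range m, if g t = j then 1 else 0) +
      ∑ t ∈ Finset.range m, if g (m + n + t) = j then 1 else 0) * K +
      ((∑ t ∈ Finset.range m, if g t = j then (m - 1 - t) else 0) +
      ∑ t ∈ Finset.range m, if g (m + n + t) = j then (t + 1) else 0) * D + _ = _
    ring
  -- every group has at most two pads
  have hu2 : ∀ j < m, u j ≤ 2 := by
    intro j hj
    by_contra hc
    have h1 : 3 * K ≤ u j * K := Nat.mul_le_mul_right _ (by omega)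
    have h2 := hsum j hj
    omega
  -- the number of pads
  have hutot : ∑ j ∈ Finset.range m, u j = 2 * m := by
    have h1 : ∀ (φ : ℕ → ℕ), (∀ t < m, φ t < m) →
        ∑ j ∈ Finset.range m, ∑ t ∈ Finset.range m, (if φ t = j then 1 else 0) = m := by
      intro φ hφ
      rw [Finset.sum_comm]
      have h2 : ∀ t ∈ Finset.range m, ∑ j ∈ Finset.range m, (if φ t = j then 1 else 0) = 1 := by
        intro t ht
        rw [Finset.sum_ite_eq, if_pos (Finset.mem_range.2 (hφ t (Finset.mem_range.1 ht)))]
      rw [Finset.sum_congr rfl h2]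
      simp
    show ∑ j ∈ Finset.range m, ((∑ t ∈ Finset.range m, if g t = j then 1 else 0) +
      ∑ t ∈ Finset.range m, if g (m + n + t) = j then 1 else 0) = 2 * m
    rw [Finset.sum_add_distrib, h1 g (fun t ht => hg1 t (by omega)),
      h1 (fun t => g (m + n + t)) (fun t ht => hg1 _ (by omega))]
    omega
  have hu : ∀ j < m, u j = 2 := by
    intro j hj
    by_contra hc
    have h1 : ∑ j ∈ Finset.range m, u j < ∑ _j ∈ Finset.range m, 2 := by
      refine Finset.sum_lt_sum (fun i hi => hu2 i (Finset.mem_range.1 hi))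
        ⟨j, Finset.mem_range.2 hj, ?_⟩
      have := hu2 j hj
      omega
    rw [hutot, Finset.sum_const, Finset.card_range, smul_eq_mul] at h1
    omega
  -- the scaled numbers
  have hStot : ∀ j, S j * (m + 1) ≤ m * B₁ := by
    intro j
    have h1 : S j ≤ a.sum := by
      rw [← ps_sum_getD a]
      refine Finset.sum_le_sum fun t _ => ?_
      split_ifs
      · exact le_rfl
      · exact Nat.zero_le _
    calc S j * (m + 1) ≤ a.sum * (m + 1) := Nat.mul_le_mul_right _ h1
      _ = m * B₁ := by rw [hs, hB₁, Nat.mul_assoc]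
  refine ⟨fun t => g (m + t), fun t ht => hg1 _ (by omega), fun j hj => ?_⟩
  have h1 := hsum j hj
  rw [hu j hj] at h1
  have h2 : S j * (m + 1) = B₁ := by
    refine ps_div (D := D) (w := w j) (m := m) ?_ ?_ ?_
    · have := hStot j
      omega
    · omega
    · omega
  rw [Finset.sum_filter]
  exact Nat.eq_of_mul_eq_mul_right (by omega) h2

end Pool.Agent.Work.MP_d41d5f_lc
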