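import Pool.Agent.Work.MP_d41d5f_lc.ED.PtA
import Pool.Agent.Work.PolyTime.Pairs

/-!
PtArr (M): the array is computed in polynomial time from its parameters.

Proof. `pt_prm`: `rho`, `H`, `T`, `W` are sums and products (`PTime.listSum`, `PTime.length`).
`pt_vert`: unfold `vert`, `isz`; `pt_div`, `pt_mod`, `pt_getD` (list `0 :: a`), `PTime.ite` with
conditions `decide (.. < ..)` (`PTime.natLt`), `decide (.. ≤ ..)` (`PTime.natLe`), `pt_even`,
`PTime.natSub`.
`pt_arr`: `edges` is built with `List.flatMap`, `List.map`, `List.filter` over ranges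
(`PTime.flatMap`, `PTime.map`, `PTime.filter`, `PTime.range`, `PTime.append`); the inner functions
are functions of the tuple of all outer variables (`α × ℕ × ℕ × ℕ × ℕ`), lists `[i, j, x, y]` by
`PTime.cons`, `if i = 0` by `PTime.ite` and `PTime.eq`. `pairs k` is a constant (`PTime.const`).
(General statements with `m, B, R, a` functions on an arbitrary coded type compose well: to use them
under a `flatMap` over `ℕ`, apply them with the functions `fun y : α × ℕ => m y.1` etc.)
-/

set_option autoImplicit false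

namespace Pool.Agent.Work.MP_d41d5f_lc

open Pool.Agent.Work.PolyTime

variable {α : Type} [Code α]

private theorem pta_hE {R W H : α → ℕ} (hR : PTime R) (hW : PTime W) (hH : PTime H) :
    PTime (fun x => (List.range (R x)).flatMap fun i => (List.range (R x)).flatMap fun j =>
      (List.range (W x - 1)).flatMap fun u => (List.range (H x)).map fun y =>
        (([i, j, u, y] : Vx), ([i, j, u + 1, y] : Vx))) := by
  refine PTime.flatMap (PTime.range hR) ?_
  refine PTime.flatMap (PTime.range (hR.comp PTime.fst)) ?_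
  refine PTime.flatMap (f := fun (z : (α × ℕ) × ℕ) (u : ℕ) => (List.range (H z.1.1)).map fun y =>
    (([z.1.2, z.2, u, y] : Vx), ([z.1.2, z.2, u + 1, y] : Vx)))
    (PTime.range (by fun_prop)) ?_
  refine PTime.map (f := fun (z : ((α × ℕ) × ℕ) × ℕ) (y : ℕ) =>
    (([z.1.1.2, z.1.2, z.2, y] : Vx), ([z.1.1.2, z.1.2, z.2 + 1, y] : Vx)))
    (PTime.range (by fun_prop)) ?_
  fun_prop

private theorem pta_vE {R W H : α → ℕ} {V : α → ℕ → ℕ → Bool} (hR : PTime R) (hW : PTime W)
    (hH : PTime H) (hV : PTime (fun y : α × ℕ × ℕ => V y.1 y.2.1 y.2.2)) :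
    PTime (fun x => (List.range (R x)).flatMap fun i => (List.range (R x)).flatMap fun j =>
      (List.range (W x)).flatMap fun u => ((List.range (H x - 1)).filter fun y => V x u y).map
        fun y => (([i, j, u, y] : Vx), ([i, j, u, y + 1] : Vx))) := by
  refine PTime.flatMap (PTime.range hR) ?_
  refine PTime.flatMap (PTime.range (hR.comp PTime.fst)) ?_
  refine PTime.flatMap (f := fun (z : (α × ℕ) × ℕ) (u : ℕ) =>
    ((List.range (H z.1.1 - 1)).filter fun y => V z.1.1 u y).map fun y =>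
    (([z.1.2, z.2, u, y] : Vx), ([z.1.2, z.2, u, y + 1] : Vx)))
    (PTime.range (by fun_prop)) ?_
  refine PTime.map (f := fun (z : ((α × ℕ) × ℕ) × ℕ) (y : ℕ) =>
    (([z.1.1.2, z.1.2, z.2, y] : Vx), ([z.1.1.2, z.1.2, z.2, y + 1] : Vx)))
    (PTime.filter (p := fun (z : ((α × ℕ) × ℕ) × ℕ) (y : ℕ) => V z.1.1.1 z.2 y)
      (PTime.range (by fun_prop)) ?_) ?_
  · exact hV.comp (f := fun w : (((α × ℕ) × ℕ) × ℕ) × ℕ => (w.1.1.1.1, w.1.2, w.2)) (by fun_prop)
  · fun_prop

private theorem pta_pE {R W H m : α → ℕ} (hR : PTime R) (hW : PTime W) (hH : PTime H)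
    (hm : PTime m) :
    PTime (fun x => (List.range (R x + 1)).flatMap fun i => (List.range (R x)).flatMap fun j =>
      (List.range (m x)).map fun c => ((if i = 0 then ([0] : Vx) else
        [i - 1, j, W x - 1, H x - m x + c]), (if i = R x then ([1] : Vx) else [i, j, 0, c]))) := by
  refine PTime.flatMap (PTime.range (by fun_prop)) ?_
  refine PTime.flatMap (f := fun (z : α × ℕ) (j : ℕ) => (List.range (m z.1)).map fun c =>
    ((if z.2 = 0 then ([0] : Vx) else [z.2 - 1, j, W z.1 - 1, H z.1 - m z.1 + c]),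
      (if z.2 = R z.1 then ([1] : Vx) else [z.2, j, 0, c])))
    (PTime.range (by fun_prop)) ?_
  refine PTime.map (f := fun (z : (α × ℕ) × ℕ) (c : ℕ) =>
    ((if z.1.2 = 0 then ([0] : Vx) else [z.1.2 - 1, z.2, W z.1.1 - 1, H z.1.1 - m z.1.1 + c]),
      (if z.1.2 = R z.1.1 then ([1] : Vx) else [z.1.2, z.2, 0, c])))
    (PTime.range (by fun_prop)) ?_
  fun_prop

private theorem pta_qE {R W H B : α → ℕ} (hR : PTime R) (hW : PTime W) (hH : PTime H)
    (hB : PTime B) :
    PTime (fun x => (List.range (R x)).flatMap fun i => (List.range (R x + 1)).flatMap fun j =>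
      (List.range (B x)).map fun c => ((if j = 0 then ([2] : Vx) else
        [i, j - 1, W x - 1, c]), (if j = R x then ([3] : Vx) else [i, j, 0, H x - B x + c]))) := by
  refine PTime.flatMap (PTime.range (by fun_prop)) ?_
  refine PTime.flatMap (f := fun (z : α × ℕ) (j : ℕ) => (List.range (B z.1)).map fun c =>
    ((if j = 0 then ([2] : Vx) else [z.2, j - 1, W z.1 - 1, c]),
      (if j = R z.1 then ([3] : Vx) else [z.2, j, 0, H z.1 - B z.1 + c])))
    (PTime.range (by fun_prop)) ?_
  refine PTime.map (f := fun (z : (α × ℕ) × ℕ) (c : ℕ) =>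
    ((if z.2 = 0 then ([2] : Vx) else [z.1.2, z.2 - 1, W z.1.1 - 1, c]),
      (if z.2 = R z.1.1 then ([3] : Vx) else [z.1.2, z.2, 0, H z.1.1 - B z.1.1 + c])))
    (PTime.range (by fun_prop)) ?_
  fun_prop

theorem pt_prm {m B R : α → ℕ} {a : α → List ℕ} (hm : PTime m) (hB : PTime B) (hR : PTime R)
    (ha : PTime a) :
    PTime (fun x => (Prm.mk (m x) (B x) (R x) (a x)).rho) ∧
    PTime (fun x => (Prm.mk (m x) (B x) (R x) (a x)).H) ∧
    PTime (fun x => (Prm.mk (m x) (B x) (R x) (a x)).T) ∧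
    PTime (fun x => (Prm.mk (m x) (B x) (R x) (a x)).W) := by
  have hs : PTime (fun x => (a x).sum) := PTime.listSum ha
  have h1 : PTime (fun x => (Prm.mk (m x) (B x) (R x) (a x)).rho) := by
    change PTime (fun x => m x + B x + (a x).sum)
    exact PTime.natAdd (PTime.natAdd hm hB) hs
  have h2 : PTime (fun x => (Prm.mk (m x) (B x) (R x) (a x)).H) := by
    change PTime (fun x => 2 * (Prm.mk (m x) (B x) (R x) (a x)).rho + 1)
    exact PTime.natAdd (PTime.natMul (PTime.const 2) h1) (PTime.const 1)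
  have h3 : PTime (fun x => (Prm.mk (m x) (B x) (R x) (a x)).T) := by
    change PTime (fun x => 2 * ((a x).sum + (m x + B x) *
      ((Prm.mk (m x) (B x) (R x) (a x)).H + 1)))
    exact PTime.natMul (PTime.const 2) (PTime.natAdd hs (PTime.natMul (PTime.natAdd hm hB)
      (PTime.natAdd h2 (PTime.const 1))))
  refine ⟨h1, h2, h3, ?_⟩
  change PTime (fun x => ((a x).length + 1) * (Prm.mk (m x) (B x) (R x) (a x)).T)
  exact PTime.natMul (PTime.natAdd (PTime.length ha) (PTime.const 1)) h3

theorem pt_vert {m B R u v : α → ℕ} {a : α → List ℕ} (hm : PTime m) (hB : PTime B) (hR : PTime R)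
    (ha : PTime a) (hu : PTime u) (hv : PTime v) :
    PTime (fun x => (Prm.mk (m x) (B x) (R x) (a x)).vert (u x) (v x)) := by
  obtain ⟨h1, h2, h3, h4⟩ := pt_prm hm hB hR ha
  have hd : PTime (fun x => u x / (Prm.mk (m x) (B x) (R x) (a x)).T) := pt_div hu h3
  have hr : PTime (fun x => u x % (Prm.mk (m x) (B x) (R x) (a x)).T) := pt_mod hu h3
  have hi : PTime (fun x => (Prm.mk (m x) (B x) (R x) (a x)).isz
      (u x / (Prm.mk (m x) (B x) (R x) (a x)).T)) :=
    pt_getD (l := fun x => 0 :: a x) (PTime.cons (PTime.const 0) ha) hd 0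
  unfold Prm.vert
  refine PTime.ite (PTime.natLt hr (PTime.natMul (PTime.const 2) hi))
    (PTime.ite (PTime.natLe h1 hv) ?_ ?_) ?_
  · exact pt_even (PTime.natAdd (PTime.natSub hv h1) hr)
  · exact pt_even (PTime.natAdd (PTime.natSub (PTime.natSub h1 (PTime.const 1)) hv) hr)
  · exact pt_even (PTime.natAdd hu hv)

theorem pt_arr (k : ℕ) {m B R : α → ℕ} {a : α → List ℕ} (hm : PTime m) (hB : PTime B)
    (hR : PTime R) (ha : PTime a) :
    PTime (fun x => arr k (Prm.mk (m x) (B x) (R x) (a x))) := by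
  obtain ⟨h1, h2, h3, h4⟩ := pt_prm hm hB hR ha
  refine PTime.prodMk ?_ (PTime.const (pairs k))
  refine PTime.append (pta_hE hR h4 h2) (PTime.append (pta_vE hR h4 h2 ?_)
    (PTime.append (pta_pE hR h4 h2 hm) (pta_qE hR h4 h2 hB)))
  exact pt_vert (hm.comp PTime.fst) (hB.comp PTime.fst) (hR.comp PTime.fst) (ha.comp PTime.fst)
    (PTime.fst.comp PTime.snd) (PTime.snd.comp PTime.snd)

end Pool.Agent.Work.MP_d41d5f_lc
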