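import Pool.Agent.Work.MP_d41d5f_lc.ED.PtTok

/-!
PtNum (M): the packing instance in polynomial time.

Proof. All numbers are in unary, all expressions are polynomials of fixed degree.
`Z`: `pt_tokmap` with `w x t = ∑ k, dig t k`: unfold (`Fin.sum_univ_seven` or `Fin.sum_univ_succ`,
`simp [Sys.dig]`) for each kind: sums and products of `x`, `o`, `n`, `K`, `cl o`, `(fst o).toNat`
(a Boolean to a number: `bif .. then 1 else 0`), constants; then `PTime.listSum` and `+ 1`.
`tsz`: `num Z d = ∑ k, d k * Z ^ k`: expand to seven terms (`pt_pow`); `req` in the same way with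
`need` (`(o+1) % K`: `pt_mod`; `sn (sg o)`: `PTime.cond`). `tot`, `reqs`: `pt_tokmap`, `pt_binmap`,
`PTime.listSum`. `cp`, `bsz`: sums and truncated differences (`bsz G`, `bsz (V ..)`, `bsz (U ..)`
separately). `a0 = binL.map bsz ++ tokL.map tsz`; `m0 = binL.length = (binL.map (fun _ => 0)).length`.
-/

set_option autoImplicit false

namespace Pool.Agent.Work.MP_d41d5f_lc

open Pool.Agent.Work.PolyTime

variable {α : Type} [Code α]

private theorem pn_num {γ : Type} [Code γ] {Z a0 a1 a2 a3 a4 a5 a6 : γ → ℕ} (hZ : PTime Z)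
    (h0 : PTime a0) (h1 : PTime a1) (h2 : PTime a2) (h3 : PTime a3) (h4 : PTime a4)
    (h5 : PTime a5) (h6 : PTime a6) :
    PTime (fun y => Sys.num (Z y) ![a0 y, a1 y, a2 y, a3 y, a4 y, a5 y, a6 y]) := by
  have e : (fun y => Sys.num (Z y) ![a0 y, a1 y, a2 y, a3 y, a4 y, a5 y, a6 y]) =
      fun y => a0 y * Z y ^ 0 + a1 y * Z y ^ 1 + a2 y * Z y ^ 2 + a3 y * Z y ^ 3 +
        a4 y * Z y ^ 4 + a5 y * Z y ^ 5 + a6 y * Z y ^ 6 := by
    funext y
    unfold Sys.num
    rw [Fin.sum_univ_seven]
    rfl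
  rw [e]
  have k0 := PTime.natMul h0 (pt_pow hZ 0)
  have k1 := PTime.natMul h1 (pt_pow hZ 1)
  have k2 := PTime.natMul h2 (pt_pow hZ 2)
  have k3 := PTime.natMul h3 (pt_pow hZ 3)
  have k4 := PTime.natMul h4 (pt_pow hZ 4)
  have k5 := PTime.natMul h5 (pt_pow hZ 5)
  have k6 := PTime.natMul h6 (pt_pow hZ 6)
  exact (((((k0.natAdd k1).natAdd k2).natAdd k3).natAdd k4).natAdd k5).natAdd k6

private theorem pn_sn {γ : Type} [Code γ] {s : γ → Bool} (hs : PTime s) :
    PTime (fun y => Sys.sn (s y)) := by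
  refine (PTime.cond hs (PTime.const 0) (PTime.const 1)).code_congr (fun a => ?_)
  unfold Sys.sn
  cases s a <;> rfl

private theorem pn_toNat {γ : Type} [Code γ] {s : γ → Bool} (hs : PTime s) :
    PTime (fun y => (s y).toNat) := by
  refine (PTime.cond hs (PTime.const 1) (PTime.const 0)).code_congr (fun a => ?_)
  cases s a <;> rfl

/-- `x * K + o` -/
private theorem pn_xo {γ : Type} [Code γ] {C : γ → List NClause} (hC : PTime C) {x o : γ → ℕ}
    (hx : PTime x) (ho : PTime o) : PTime (fun y => x y * (sysOf (C y)).K + o y) :=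
  PTime.natAdd (PTime.natMul hx (pt_K hC)) ho

/-- the lists of the numbers of the digits of the tokens -/
private theorem pn_tok {C : α → List NClause} (hC : PTime C) {Z : α → ℕ} (hZ : PTime Z) :
    PTime (fun x => (sysOf (C x)).tokL.map fun t => Sys.num (Z x) ((sysOf (C x)).dig t)) := by
  have f1 : PTime (fun y : α × ℕ × ℕ => y.1) := PTime.fst
  have f2 : PTime (fun y : α × ℕ × ℕ => y.2) := PTime.snd
  have g1 : PTime (fun y : α × ℕ => y.1) := PTime.fst
  have hx : PTime (fun y : α × ℕ × ℕ => y.2.1) := PTime.comp (g := Prod.fst) PTime.fst f2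
  have ho : PTime (fun y : α × ℕ × ℕ => y.2.2) := PTime.comp (g := Prod.snd) PTime.snd f2
  have ho' : PTime (fun y : α × ℕ => y.2) := PTime.snd
  have hC1 : PTime (fun y : α × ℕ × ℕ => C y.1) := PTime.comp hC f1
  have hC2 : PTime (fun y : α × ℕ => C y.1) := PTime.comp hC g1
  have hZ1 : PTime (fun y : α × ℕ × ℕ => Z y.1) := PTime.comp hZ f1
  have hZ2 : PTime (fun y : α × ℕ => Z y.1) := PTime.comp hZ g1
  have hxo := pn_xo hC1 hx ho
  refine pt_tokmap hC (fun x t => Sys.num (Z x) ((sysOf (C x)).dig t)) ?_ ?_ ?_ ?_ ?_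
  · intro f
    exact pn_num hZ1 (PTime.const (3 * f.toNat)) (PTime.const 0) (PTime.const 0) hxo
      (PTime.const 0) (PTime.const 0) (PTime.const 1)
  · intro f
    exact pn_num hZ1 (PTime.const (2 * f.toNat)) (PTime.const 0) hxo (PTime.const 0)
      (PTime.const 0) (PTime.const 1) (PTime.const 0)
  · intro s f
    exact pn_num hZ1 (PTime.const f.toNat)
      (PTime.natAdd (PTime.natMul (PTime.const 2) hxo) (PTime.const (Sys.sn s)))
      (PTime.const 0) (PTime.const 0) (PTime.const 1) (PTime.const 0) (PTime.const 0)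
  · exact pn_num hZ2 (pn_toNat (pt_fst hC2 ho')) (PTime.const 0) (PTime.const 0)
      (PTime.natAdd (PTime.natMul (pt_n hC2) (pt_K hC2)) (pt_cl hC2 ho'))
      (PTime.const 0) (PTime.const 0) (PTime.const 1)
  · intro f
    exact pn_num hZ2 (PTime.const f.toNat) (PTime.const 0) (PTime.natMul (pt_n hC2) (pt_K hC2))
      (PTime.const 0) (PTime.const 0) (PTime.const 1) (PTime.const 0)

private theorem pn_needV {C : α → List NClause} (hC : PTime C) {Z : α → ℕ} (hZ : PTime Z)
    (s : Bool) :
    PTime (fun y : α × ℕ × ℕ => Sys.num (Z y.1) ((sysOf (C y.1)).need (.V y.2.1 y.2.2 s))) := by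
  have f1 : PTime (fun y : α × ℕ × ℕ => y.1) := PTime.fst
  have f2 : PTime (fun y : α × ℕ × ℕ => y.2) := PTime.snd
  have hx : PTime (fun y : α × ℕ × ℕ => y.2.1) := PTime.comp (g := Prod.fst) PTime.fst f2
  have ho : PTime (fun y : α × ℕ × ℕ => y.2.2) := PTime.comp (g := Prod.snd) PTime.snd f2
  have hC1 : PTime (fun y : α × ℕ × ℕ => C y.1) := PTime.comp hC f1
  have hZ1 : PTime (fun y : α × ℕ × ℕ => Z y.1) := PTime.comp hZ f1
  have hxo := pn_xo hC1 hx ho
  have h3 : PTime (fun y : α × ℕ × ℕ => y.2.1 * (sysOf (C y.1)).K +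
      (if s then y.2.2 else (y.2.2 + 1) % (sysOf (C y.1)).K)) := by
    cases s
    · exact PTime.natAdd (PTime.natMul hx (pt_K hC1))
        (pt_mod (PTime.natAdd ho (PTime.const 1)) (pt_K hC1))
    · exact hxo
  exact pn_num hZ1 (PTime.const 3)
    (PTime.natAdd (PTime.natMul (PTime.const 2) hxo) (PTime.const (Sys.sn s))) hxo h3
    (PTime.const 1) (PTime.const 1) (PTime.const 1)

private theorem pn_needU {C : α → List NClause} (hC : PTime C) {Z : α → ℕ} (hZ : PTime Z) :
    PTime (fun y : α × ℕ => Sys.num (Z y.1) ((sysOf (C y.1)).need (.U y.2))) := by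
  have g1 : PTime (fun y : α × ℕ => y.1) := PTime.fst
  have ho' : PTime (fun y : α × ℕ => y.2) := PTime.snd
  have hC2 : PTime (fun y : α × ℕ => C y.1) := PTime.comp hC g1
  have hZ2 : PTime (fun y : α × ℕ => Z y.1) := PTime.comp hZ g1
  have hnk := PTime.natMul (pt_n hC2) (pt_K hC2)
  exact pn_num hZ2 (PTime.const 1)
    (PTime.natAdd (PTime.natMul (PTime.const 2)
      (PTime.natAdd (PTime.natMul (pt_va hC2 ho') (pt_K hC2)) ho')) (pn_sn (pt_sg hC2 ho')))
    hnk (PTime.natAdd hnk (pt_cl hC2 ho')) (PTime.const 1) (PTime.const 1) (PTime.const 1)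

private theorem pn_needG (C : α → List NClause) {Z : α → ℕ} (hZ : PTime Z) :
    PTime (fun x : α => Sys.num (Z x) ((sysOf (C x)).need .G)) :=
  pn_num hZ (PTime.const 0) (PTime.const 0) (PTime.const 0) (PTime.const 0) (PTime.const 0)
    (PTime.const 0) (PTime.const 0)

private theorem pn_Z {C : α → List NClause} (hC : PTime C) :
    PTime (fun x => (sysOf (C x)).Z) := by
  have h1 := PTime.natAdd (PTime.const (α := α) 1)
    (PTime.listSum (pn_tok hC (PTime.const (α := α) 1)))
  refine h1.code_congr fun x => ?_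
  show 1 + (List.map (fun t => Sys.num 1 ((sysOf (C x)).dig t)) (sysOf (C x)).tokL).sum =
    1 + (List.map (fun t => ∑ k, (sysOf (C x)).dig t k) (sysOf (C x)).tokL).sum
  have h2 : ∀ d : Fin 7 → ℕ, Sys.num 1 d = ∑ k, d k := by
    intro d
    unfold Sys.num
    simp only [one_pow, mul_one]
  simp only [h2]

private theorem pn_req {C : α → List NClause} (hC : PTime C) :
    PTime (fun x => (sysOf (C x)).binL.map (sysOf (C x)).req) := by
  have hZ := pn_Z hC
  have hV := fun s => pn_needV hC hZ s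
  have hU := pn_needU hC hZ
  have hG := pn_needG C hZ
  have h1 := pt_binmap hC (fun x b => Sys.num ((sysOf (C x)).Z) ((sysOf (C x)).need b)) hV hU hG
  exact h1

private theorem pn_tsz {C : α → List NClause} (hC : PTime C) :
    PTime (fun x => (sysOf (C x)).tokL.map (sysOf (C x)).tsz) :=
  pn_tok hC (pn_Z hC)

private theorem pn_tot {C : α → List NClause} (hC : PTime C) :
    PTime (fun x => (sysOf (C x)).tot) := PTime.listSum (pn_tsz hC)

private theorem pn_reqs {C : α → List NClause} (hC : PTime C) :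
    PTime (fun x => (sysOf (C x)).reqs) := PTime.listSum (pn_req hC)

theorem pt_m0 {C : α → List NClause} (hC : PTime C) : PTime (fun x => (sysOf (C x)).m0) := by
  refine (PTime.length (pn_req hC)).code_congr fun x => ?_
  show (List.map _ (sysOf (C x)).binL).length = (sysOf (C x)).binL.length
  exact List.length_map _

theorem pt_cp {C : α → List NClause} (hC : PTime C) : PTime (fun x => (sysOf (C x)).cp) :=
  PTime.natAdd (PTime.natMul (PTime.const 2) (PTime.natAdd (pn_tot hC) (pn_reqs hC)))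
    (PTime.const 1)

theorem pt_a0 {C : α → List NClause} (hC : PTime C) : PTime (fun x => (sysOf (C x)).a0) := by
  have hZ := pn_Z hC
  have hcp := pt_cp hC
  have h1 : PTime (fun x => (sysOf (C x)).binL.map (sysOf (C x)).bsz) := by
    refine pt_binmap hC (fun x b => (sysOf (C x)).bsz b) ?_ ?_ ?_
    · intro s
      refine (PTime.natSub (PTime.comp hcp (PTime.fst (α := α) (β := ℕ × ℕ)))
        (pn_needV hC hZ s)).code_congr fun y => ?_
      unfold Sys.bsz
      rw [if_neg (by simp)]
      rfl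
    · refine (PTime.natSub (PTime.comp hcp (PTime.fst (α := α) (β := ℕ)))
        (pn_needU hC hZ)).code_congr fun y => ?_
      unfold Sys.bsz
      rw [if_neg (by simp)]
      rfl
    · refine (PTime.natSub (PTime.natAdd hcp (pn_reqs hC)) (pn_tot hC)).code_congr fun y => ?_
      unfold Sys.bsz
      rw [if_pos rfl]
  exact PTime.append h1 (pn_tsz hC)

end Pool.Agent.Work.MP_d41d5f_lc
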