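import Pool.Agent.Work.MP_d41d5f_lc.ED.Defs

/-!
Scaling and padding of a packing instance. (Definitions, FIXED.)
-/

set_option autoImplicit false

namespace Pool.Agent.Work.MP_d41d5f_lc

/-- The step of the pads, larger than the sum of all scaled numbers. -/
def padD (m B : ℕ) : ℕ := m * (B * (m + 1)) + 1

/-- The base size of the pads. -/
def padK (m B : ℕ) : ℕ := m * padD m B + B * (m + 1) + 1

/-- The new capacity. -/
def padB (m B : ℕ) : ℕ := 2 * padK m B + m * padD m B + B * (m + 1)

/-- The new list: start pads, scaled numbers, end pads. -/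
def padL (m B : ℕ) (a : List ℕ) : List ℕ :=
  ((List.range m).map fun t => padK m B + (m - 1 - t) * padD m B) ++
  ((a.map fun x => x * (m + 1)) ++
  ((List.range m).map fun t => padK m B + (t + 1) * padD m B))

end Pool.Agent.Work.MP_d41d5f_lc
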