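import Pool.Agent.Work.MP_d41d5f_lc.ED.PtA
import Pool.Agent.Work.MP_d41d5f_lc.ED.PadD

/-!
PtPad (S-M): padding in polynomial time.

Proof. Unfold `padD`, `padK`, `padB`, `padL`: sums, products, truncated differences
(`PTime.natAdd`, `PTime.natMul`, `PTime.natSub`), `PTime.map` over `PTime.range` and over the list,
`PTime.append`.
-/

set_option autoImplicit false

namespace Pool.Agent.Work.MP_d41d5f_lc

open Pool.Agent.Work.PolyTime

variable {α : Type} [Code α]

private theorem pt_padD {m B : α → ℕ} (hm : PTime m) (hB : PTime B) :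
    PTime (fun x => padD (m x) (B x)) := by
  unfold padD; fun_prop

private theorem pt_padK {m B : α → ℕ} (hm : PTime m) (hB : PTime B) :
    PTime (fun x => padK (m x) (B x)) := by
  have := pt_padD hm hB
  unfold padK; fun_prop

theorem pt_padB {m B : α → ℕ} (hm : PTime m) (hB : PTime B) :
    PTime (fun x => padB (m x) (B x)) := by
  have := pt_padD hm hB
  have := pt_padK hm hB
  unfold padB; fun_prop

theorem pt_padL {m B : α → ℕ} {a : α → List ℕ} (hm : PTime m) (hB : PTime B) (ha : PTime a) :
    PTime (fun x => padL (m x) (B x) (a x)) := by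
  have h1 := pt_padD hm hB
  have h2 := pt_padK hm hB
  have h1' : PTime (fun y : α × ℕ => padD (m y.1) (B y.1)) := h1.comp PTime.fst
  have h2' : PTime (fun y : α × ℕ => padK (m y.1) (B y.1)) := h2.comp PTime.fst
  have hm' : PTime (fun y : α × ℕ => m y.1) := hm.comp PTime.fst
  unfold padL
  refine PTime.append (PTime.map (f := fun x t => padK (m x) (B x) + (m x - 1 - t) *
    padD (m x) (B x)) (PTime.range hm) ?_) (PTime.append (PTime.map
    (f := fun x u => u * (m x + 1)) ha ?_) (PTime.map (f := fun x t => padK (m x) (B x) + (t + 1) *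
    padD (m x) (B x)) (PTime.range hm) ?_))
  · exact PTime.natAdd h2' (PTime.natMul (PTime.natSub (PTime.natSub hm' (PTime.const 1))
      PTime.snd) h1')
  · exact PTime.natMul PTime.snd (PTime.natAdd hm' (PTime.const 1))
  · exact PTime.natAdd h2' (PTime.natMul (PTime.natAdd PTime.snd (PTime.const 1)) h1')

end Pool.Agent.Work.MP_d41d5f_lc
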