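import Pool.Agent.Work.MP_d41d5f_lc.ED.EndsI

/-!
ReachP (M): a strand of the first kind connects `[0]` with `[1]`.

Hypotheses: `h 0 (inl α) = α`, `h W (inl α) = H - m + α`, all rows `h x s < H` for `x ≤ W`, and
the vertical edges used are present (`hv`).
Proof. Let `G = fromEdgeSet (eset P (gP P h j α))`. For a valid edge `d ∈ gP` the two ends of `d` are
adjacent in `G` (`ends_ne`).
(1) In the block `(i, j)`, `i < R`: for `x < W` the vertex `[i, j, x, h x s]` is connected to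
`[i, j, x, h (x+1) s]`, `s = inl α`: more generally for rows `y₁ ≤ y₂` with all `v i j x y`,
`y₁ ≤ y < y₂`, in the set (induction on `y₂`); they are valid: `hv` gives `vert x y`, and
`y + 1 ≤ y₂ < H`. For `x + 1 < W` the edge `h i j x (h (x+1) s)` joins `[i,j,x,h (x+1) s]` to
`[i,j,x+1,h (x+1) s]`. So by induction on `x`: `[i,j,0,h 0 s] = [i,j,0,α]` is connected to
`[i,j,x,h x s]` for `x ≤ W - 1` (`x < W`), and then to
`[i,j,W-1,h W s] = [i,j,W-1,H-m+α]`.
(2) The links: `p 0 j α` joins `[0]` to `[0,j,0,α]`; `p i j α`, `0 < i < R`, joins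
`[i-1,j,W-1,H-m+α]` to `[i,j,0,α]`; `p R j α` joins `[R-1,j,W-1,H-m+α]` to `[1]` (`R ≥ 1`).
Induction on `i`: `[0]` is connected to `[i,j,0,α]` for `i < R`, then to `[1]`.
-/

set_option autoImplicit false

namespace Pool.Agent.Work.MP_d41d5f_lc

private lemma adj_of (P : Prm) (hg : P.Good) (D : Set Ed) (hD : ∀ d ∈ D, P.ok d) (d : Ed)
    (hd : d ∈ D) : (SimpleGraph.fromEdgeSet (eset P D)).Adj (P.ends d).1 (P.ends d).2 := by
  rw [SimpleGraph.fromEdgeSet_adj]
  exact ⟨⟨d, hd, rfl⟩, ends_ne P hg d (hD d hd)⟩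

private lemma vert_reach (P : Prm) (hg : P.Good) (D : Set Ed) (hD : ∀ d ∈ D, P.ok d)
    (i j x y₁ : ℕ) (n : ℕ) (h : ∀ y, y₁ ≤ y → y < y₁ + n → Ed.v i j x y ∈ D) :
    (SimpleGraph.fromEdgeSet (eset P D)).Reachable [i, j, x, y₁] [i, j, x, y₁ + n] := by
  induction n with
  | zero => exact SimpleGraph.Reachable.refl _
  | succ n ih =>
    refine (ih fun y h1 h2 => h y h1 (by omega)).trans ?_
    exact (adj_of P hg D hD _ (h (y₁ + n) (by omega) (by omega))).reachable

private lemma vert_reach' (P : Prm) (hg : P.Good) (D : Set Ed) (hD : ∀ d ∈ D, P.ok d)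
    (i j x p q : ℕ) (h : ∀ y, Btw p q y → Ed.v i j x y ∈ D) :
    (SimpleGraph.fromEdgeSet (eset P D)).Reachable [i, j, x, p] [i, j, x, q] := by
  rcases le_total p q with hpq | hpq
  · obtain ⟨n, rfl⟩ := Nat.exists_eq_add_of_le hpq
    exact vert_reach P hg D hD i j x p n fun y h1 h2 => h y (Or.inl ⟨h1, h2⟩)
  · obtain ⟨n, rfl⟩ := Nat.exists_eq_add_of_le hpq
    exact (vert_reach P hg D hD i j x q n fun y h1 h2 => h y (Or.inr ⟨h1, h2⟩)).symm

private lemma W_pos (P : Prm) (hg : P.Good) : 1 ≤ P.W := by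
  have h1 := hg.hm
  unfold Prm.W Prm.T
  have h2 : 1 ≤ (P.m + P.B) * (P.H + 1) := Nat.mul_pos (by omega) (by omega)
  exact Nat.mul_pos (by omega) (by omega)

theorem reach_P (P : Prm) (hg : P.Good) (h : ℕ → (Fin P.m ⊕ Fin P.B) → ℕ)
    (h0 : h 0 = P.startR) (h1 : h P.W = P.endR) (hr : ∀ x ≤ P.W, ∀ s, h x s < P.H)
    (hv : ∀ x < P.W, ∀ s y, Btw (h x s) (h (x + 1) s) y → P.vert x y = true)
    (j : Fin P.R) (α : Fin P.m) :
    (SimpleGraph.fromEdgeSet (eset P (gP P h j α))).Reachable [0] [1] := by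
  have hD : ∀ d ∈ gP P h j α, P.ok d := fun d hd => hd.1
  have hW := W_pos P hg
  have hR := hg.hR
  have step1 : ∀ i < P.R, ∀ x < P.W,
      (SimpleGraph.fromEdgeSet (eset P (gP P h j α))).Reachable [i, j, x, h x (.inl α)]
        [i, j, x, h (x + 1) (.inl α)] := by
    intro i hi x hx
    refine vert_reach' P hg _ hD i j x _ _ fun y hy => ⟨⟨hi, j.2, hx, ?_, hv x hx _ y hy⟩, rfl, hy⟩
    rcases hy with hy | hy
    · have := hr (x + 1) hx (.inl α)
      omega
    · have := hr x hx.le (.inl α)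
      omega
  have step2 : ∀ i < P.R, ∀ x < P.W,
      (SimpleGraph.fromEdgeSet (eset P (gP P h j α))).Reachable [i, j, 0, h 0 (.inl α)]
        [i, j, x, h (x + 1) (.inl α)] := by
    intro i hi x
    induction x with
    | zero => exact fun h0 => step1 i hi 0 h0
    | succ x ih =>
      intro hx
      refine (ih (by omega)).trans (SimpleGraph.Reachable.trans ?_ (step1 i hi (x + 1) hx))
      have hm : Ed.h i j x (h (x + 1) (.inl α)) ∈ gP P h j α :=
        ⟨⟨hi, j.2, hx, hr (x + 1) hx.le _⟩, rfl, rfl⟩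
      exact (adj_of P hg _ hD _ hm).reachable
  have hblock : ∀ i < P.R,
      (SimpleGraph.fromEdgeSet (eset P (gP P h j α))).Reachable [i, j, 0, α]
        [i, j, P.W - 1, P.H - P.m + α] := by
    intro i hi
    have h2 := step2 i hi (P.W - 1) (by omega)
    have h3 : P.W - 1 + 1 = P.W := by omega
    rw [h3, h1, h0] at h2
    exact h2
  have hlink0 : (SimpleGraph.fromEdgeSet (eset P (gP P h j α))).Reachable [0] [0, j, 0, α] := by
    have hm : Ed.p 0 j α ∈ gP P h j α := ⟨⟨Nat.zero_le _, j.2, α.2⟩, rfl, rfl⟩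
    have h2 := (adj_of P hg _ hD _ hm).reachable
    have h3 : (0 : ℕ) ≠ P.R := by omega
    simpa only [Prm.ends, if_true, if_neg h3] using h2
  have hlink : ∀ i, i + 1 < P.R → (SimpleGraph.fromEdgeSet (eset P (gP P h j α))).Reachable
      [i, j, P.W - 1, P.H - P.m + α] [i + 1, j, 0, α] := by
    intro i hi
    have hm : Ed.p (i + 1) j α ∈ gP P h j α := ⟨⟨hi.le, j.2, α.2⟩, rfl, rfl⟩
    have h2 := (adj_of P hg _ hD _ hm).reachable
    have h3 : i + 1 ≠ P.R := by omega
    have h4 : i + 1 ≠ 0 := by omega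
    simpa only [Prm.ends, if_neg h3, if_neg h4, Nat.add_sub_cancel] using h2
  have hlinkR : (SimpleGraph.fromEdgeSet (eset P (gP P h j α))).Reachable
      [P.R - 1, j, P.W - 1, P.H - P.m + α] [1] := by
    have hm : Ed.p P.R j α ∈ gP P h j α := ⟨⟨le_rfl, j.2, α.2⟩, rfl, rfl⟩
    have h2 := (adj_of P hg _ hD _ hm).reachable
    have h4 : P.R ≠ 0 := by omega
    simpa only [Prm.ends, if_true, if_neg h4] using h2
  have hall : ∀ i < P.R, (SimpleGraph.fromEdgeSet (eset P (gP P h j α))).Reachable [0]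
      [i, j, 0, α] := by
    intro i
    induction i with
    | zero => exact fun _ => hlink0
    | succ i ih => exact fun hi => ((ih (by omega)).trans (hblock i (by omega))).trans (hlink i hi)
  exact ((hall (P.R - 1) (by omega)).trans (hblock (P.R - 1) (by omega))).trans hlinkR

end Pool.Agent.Work.MP_d41d5f_lc
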