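import Pool.Agent.Work.MP_d41d5f_lc.ED.EndsI

/-!
ReachQ (M): a strand of the second kind connects `[2]` with `[3]`.

Hypotheses: `h 0 (inr β) = H - B + β`, `h W (inr β) = β` (`startR`, `endR`), all rows
`h x s < H` for `x ≤ W`, and the vertical edges used are present (`hv`).
Proof. Let `G = fromEdgeSet (eset P (gQ P h i β))`. For a valid edge `d ∈ gQ` the two ends of `d` are
adjacent in `G` (`ends_ne`).
(1) In the block `(i, j)`, `j < R`: for `x < W` the vertex `[i, j, x, h x s]` is connected to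
`[i, j, x, h (x+1) s]`, `s = inr β`: more generally for rows `y₁ ≤ y₂` with all `v i j x y`,
`y₁ ≤ y < y₂`, in the set (induction on `y₂`); they are valid: `hv` gives `vert x y`, and
`y + 1 ≤ y₂ < H`. For `x + 1 < W` the edge `h i j x (h (x+1) s)` joins `[i,j,x,h (x+1) s]` to
`[i,j,x+1,h (x+1) s]`. So by induction on `x`: `[i,j,0,h 0 s] = [i,j,0,H-B+β]` is connected to
`[i,j,x,h x s]` for `x < W`, and then to `[i,j,W-1,h W s] = [i,j,W-1,β]`.
(2) The links: `q i 0 β` joins `[2]` to `[i,0,0,H-B+β]`; `q i j β`, `0 < j < R`, joins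
`[i,j-1,W-1,β]` to `[i,j,0,H-B+β]`; `q i R β` joins `[i,R-1,W-1,β]` to `[3]` (`R ≥ 1`).
Induction on `j`: `[2]` is connected to `[i,j,0,H-B+β]` for `j < R`, then to `[3]`.
-/

set_option autoImplicit false

namespace Pool.Agent.Work.MP_d41d5f_lc

theorem reach_Q (P : Prm) (hg : P.Good) (h : ℕ → (Fin P.m ⊕ Fin P.B) → ℕ)
    (h0 : h 0 = P.startR) (h1 : h P.W = P.endR) (hr : ∀ x ≤ P.W, ∀ s, h x s < P.H)
    (hv : ∀ x < P.W, ∀ s y, Btw (h x s) (h (x + 1) s) y → P.vert x y = true)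
    (i : Fin P.R) (β : Fin P.B) :
    (SimpleGraph.fromEdgeSet (eset P (gQ P h i β))).Reachable [2] [3] := by
  obtain ⟨G, hG⟩ : ∃ G, G = SimpleGraph.fromEdgeSet (eset P (gQ P h i β)) := ⟨_, rfl⟩
  rw [← hG]
  have adj : ∀ d ∈ gQ P h i β, G.Reachable (P.ends d).1 (P.ends d).2 := by
    intro d hd
    refine SimpleGraph.Adj.reachable ?_
    rw [hG, SimpleGraph.fromEdgeSet_adj]
    exact ⟨⟨d, hd, rfl⟩, ends_ne P hg d hd.1⟩
  have hW : 1 ≤ P.W := by
    have h2 : 1 ≤ P.T := by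
      have h3 : 1 ≤ (P.m + P.B) * (P.H + 1) :=
        Nat.mul_pos (lt_of_lt_of_le hg.hm (Nat.le_add_right _ _)) (Nat.succ_pos _)
      unfold Prm.T
      omega
    exact Nat.mul_pos (Nat.succ_pos _) h2
  obtain ⟨s, hs⟩ : ∃ s : Fin P.m ⊕ Fin P.B, s = Sum.inr β := ⟨_, rfl⟩
  have i1 : ∀ j < P.R, ∀ x < P.W, ∀ y₁ y₂ : ℕ, y₁ ≤ y₂ → y₂ < P.H →
      (∀ y, y₁ ≤ y → y < y₂ → Btw (h x s) (h (x + 1) s) y) →
      G.Reachable [(i : ℕ), j, x, y₁] [(i : ℕ), j, x, y₂] := by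
    intro j hj x hx y₁ y₂ hy
    induction y₂, hy using Nat.le_induction with
    | base => intro _ _; exact SimpleGraph.Reachable.refl _
    | succ y hy ih =>
      intro h2 h3
      have h4 := ih (Nat.lt_of_succ_lt h2) (fun y' h5 h6 => h3 y' h5 (Nat.lt_succ_of_lt h6))
      refine h4.trans ?_
      have h5 := h3 y hy (Nat.lt_succ_self y)
      refine adj (Ed.v i j x y) ⟨⟨i.2, hj, hx, h2, hv x hx s y h5⟩, rfl, ?_⟩
      rw [← hs]
      exact h5
  have i2 : ∀ j < P.R, ∀ x < P.W,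
      G.Reachable [(i : ℕ), j, x, h x s] [(i : ℕ), j, x, h (x + 1) s] := by
    intro j hj x hx
    rcases Nat.le_total (h x s) (h (x + 1) s) with h2 | h2
    · exact i1 j hj x hx _ _ h2 (hr (x + 1) hx s) (fun y h3 h4 => Or.inl ⟨h3, h4⟩)
    · exact (i1 j hj x hx _ _ h2 (hr x hx.le s) (fun y h3 h4 => Or.inr ⟨h3, h4⟩)).symm
  have i3 : ∀ j < P.R, ∀ x < P.W,
      G.Reachable [(i : ℕ), j, 0, h 0 s] [(i : ℕ), j, x, h x s] := by
    intro j hj x
    induction x with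
    | zero => intro _; exact SimpleGraph.Reachable.refl _
    | succ x ih =>
      intro hx
      refine (ih (Nat.lt_of_succ_lt hx)).trans ((i2 j hj x (Nat.lt_of_succ_lt hx)).trans ?_)
      refine adj (Ed.h i j x (h (x + 1) s)) ⟨⟨i.2, hj, hx, hr (x + 1) hx.le s⟩, rfl, ?_⟩
      rw [hs]
  have e0 : h 0 s = P.H - P.B + β := by rw [h0, hs]; rfl
  have e1 : h P.W s = β := by rw [h1, hs]; rfl
  have i4 : ∀ j < P.R, G.Reachable [(i : ℕ), j, 0, P.H - P.B + β] [(i : ℕ), j, P.W - 1, β] := by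
    intro j hj
    have h2 := (i3 j hj (P.W - 1) (by omega)).trans (i2 j hj (P.W - 1) (by omega))
    rw [Nat.sub_add_cancel hW, e0, e1] at h2
    exact h2
  have hq : ∀ j ≤ P.R, G.Reachable (P.ends (Ed.q i j β)).1 (P.ends (Ed.q i j β)).2 := fun j hj =>
    adj (Ed.q i j β) ⟨⟨i.2, hj, β.2⟩, rfl, rfl⟩
  have i5 : ∀ j < P.R, G.Reachable [2] [(i : ℕ), j, 0, P.H - P.B + β] := by
    intro j
    induction j with
    | zero =>
      intro hj
      have h2 := hq 0 hj.le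
      have e2 : (P.ends (Ed.q i 0 β)).1 = [2] := by simp [Prm.ends]
      have e3 : (P.ends (Ed.q i 0 β)).2 = [(i : ℕ), 0, 0, P.H - P.B + β] := by
        simp [Prm.ends, hj.ne]
      rwa [e2, e3] at h2
    | succ j ih =>
      intro hj
      have h2 := hq (j + 1) hj.le
      have e2 : (P.ends (Ed.q i (j + 1) β)).1 = [(i : ℕ), j, P.W - 1, β] := by simp [Prm.ends]
      have e3 : (P.ends (Ed.q i (j + 1) β)).2 = [(i : ℕ), j + 1, 0, P.H - P.B + β] := by
        simp [Prm.ends, hj.ne]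
      rw [e2, e3] at h2
      exact (ih (Nat.lt_of_succ_lt hj)).trans ((i4 j (Nat.lt_of_succ_lt hj)).trans h2)
  have hR := hg.hR
  have h2 := hq P.R le_rfl
  have e2 : (P.ends (Ed.q i P.R β)).1 = [(i : ℕ), P.R - 1, P.W - 1, β] := by
    simp [Prm.ends, show P.R ≠ 0 by omega]
  have e3 : (P.ends (Ed.q i P.R β)).2 = [3] := by simp [Prm.ends]
  rw [e2, e3] at h2
  exact (i5 (P.R - 1) (by omega)).trans ((i4 (P.R - 1) (by omega)).trans h2)

end Pool.Agent.Work.MP_d41d5f_lc
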