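import Pool.Agent.Work.MP_d41d5f_lc.ED.EndsI

/-!
Strand (M): the edge sets of different strands are disjoint.

Hypotheses on the weave `h` of the block: `hinj`: for `x ≤ W` the rows `h x` are injective; `hdis`:
the vertical movements in every column `x < W` are disjoint.
Proof. First on the typed edges: let `d` be in two of the sets.
`gP j α`, `gP j' α'`: if `d = h i j₀ x y`: `j = j₀ = j'` (as elements of `Fin R`) and
`h (x+1) (inl α) = y = h (x+1) (inl α')`, with `x + 1 < W`, so `α = α'` by injectivity.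
`d = v i j₀ x y`: `j = j'`, and `y` is between the rows of both strands; `hdis` gives equality.
`d = p i j₀ α₀`: `j = j'`, `α = α₀ = α'`. `d = q`: impossible.
`gP j α`, `gQ i β`: `d = h`: `h (x+1) (inl α) = h (x+1) (inr β)`, against injectivity; `d = v`:
against `hdis`; `p`, `q`: impossible. `gQ`, `gQ`: symmetric.
Then for the sets of unordered pairs: if `e = s(ends d) = s(ends d')` with `d`, `d'` valid then
`d = d'` (`ends_inj`).
-/

set_option autoImplicit false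

namespace Pool.Agent.Work.MP_d41d5f_lc

/-- The edge sets of the strands. -/
def dset (P : Prm) (h : ℕ → (Fin P.m ⊕ Fin P.B) → ℕ) :
    (Fin P.R × Fin P.m) ⊕ (Fin P.R × Fin P.B) → Set (Sym2 Vx)
  | .inl jα => eset P (gP P h jα.1 jα.2)
  | .inr iβ => eset P (gQ P h iβ.1 iβ.2)

private lemma gP_gP (P : Prm) (h : ℕ → (Fin P.m ⊕ Fin P.B) → ℕ)
    (hinj : ∀ x ≤ P.W, Function.Injective (h x))
    (hdis : ∀ x < P.W, ∀ s s' y, s ≠ s' → Btw (h x s) (h (x + 1) s) y →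
      ¬ Btw (h x s') (h (x + 1) s') y)
    (j j' : Fin P.R) (α α' : Fin P.m) (d : Ed) (hd : d ∈ gP P h j α) (hd' : d ∈ gP P h j' α') :
    j = j' ∧ α = α' := by
  obtain ⟨ho, hd⟩ := hd
  obtain ⟨-, hd'⟩ := hd'
  cases d with
  | h i j₀ x y =>
    obtain ⟨h1, h2⟩ := hd
    obtain ⟨h3, h4⟩ := hd'
    have ho' : x + 1 < P.W := ho.2.2.1
    refine ⟨Fin.ext (h1.symm.trans h3), ?_⟩
    have := hinj (x + 1) ho'.le (h2.trans h4.symm)
    simpa using this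
  | v i j₀ x y =>
    obtain ⟨h1, h2⟩ := hd
    obtain ⟨h3, h4⟩ := hd'
    have ho' : x < P.W := ho.2.2.1
    refine ⟨Fin.ext (h1.symm.trans h3), ?_⟩
    by_contra hne
    exact hdis x ho' (.inl α) (.inl α') y (by simpa using hne) h2 h4
  | p i j₀ α₀ =>
    obtain ⟨h1, h2⟩ := hd
    obtain ⟨h3, h4⟩ := hd'
    exact ⟨Fin.ext (h1.symm.trans h3), Fin.ext (h2.symm.trans h4)⟩
  | q i j₀ α₀ => exact hd.elim

private lemma gQ_gQ (P : Prm) (h : ℕ → (Fin P.m ⊕ Fin P.B) → ℕ)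
    (hinj : ∀ x ≤ P.W, Function.Injective (h x))
    (hdis : ∀ x < P.W, ∀ s s' y, s ≠ s' → Btw (h x s) (h (x + 1) s) y →
      ¬ Btw (h x s') (h (x + 1) s') y)
    (j j' : Fin P.R) (α α' : Fin P.B) (d : Ed) (hd : d ∈ gQ P h j α) (hd' : d ∈ gQ P h j' α') :
    j = j' ∧ α = α' := by
  obtain ⟨ho, hd⟩ := hd
  obtain ⟨-, hd'⟩ := hd'
  cases d with
  | h i j₀ x y =>
    obtain ⟨h1, h2⟩ := hd
    obtain ⟨h3, h4⟩ := hd'
    have ho' : x + 1 < P.W := ho.2.2.1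
    refine ⟨Fin.ext (h1.symm.trans h3), ?_⟩
    have := hinj (x + 1) ho'.le (h2.trans h4.symm)
    simpa using this
  | v i j₀ x y =>
    obtain ⟨h1, h2⟩ := hd
    obtain ⟨h3, h4⟩ := hd'
    have ho' : x < P.W := ho.2.2.1
    refine ⟨Fin.ext (h1.symm.trans h3), ?_⟩
    by_contra hne
    exact hdis x ho' (.inr α) (.inr α') y (by simpa using hne) h2 h4
  | p i j₀ α₀ => exact hd.elim
  | q i j₀ α₀ =>
    obtain ⟨h1, h2⟩ := hd
    obtain ⟨h3, h4⟩ := hd'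
    exact ⟨Fin.ext (h1.symm.trans h3), Fin.ext (h2.symm.trans h4)⟩

private lemma gP_gQ (P : Prm) (h : ℕ → (Fin P.m ⊕ Fin P.B) → ℕ)
    (hinj : ∀ x ≤ P.W, Function.Injective (h x))
    (hdis : ∀ x < P.W, ∀ s s' y, s ≠ s' → Btw (h x s) (h (x + 1) s) y →
      ¬ Btw (h x s') (h (x + 1) s') y)
    (j : Fin P.R) (i' : Fin P.R) (α : Fin P.m) (β : Fin P.B) (d : Ed) (hd : d ∈ gP P h j α)
    (hd' : d ∈ gQ P h i' β) : False := by
  obtain ⟨ho, hd⟩ := hd
  obtain ⟨-, hd'⟩ := hd'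
  cases d with
  | h i j₀ x y =>
    obtain ⟨h1, h2⟩ := hd
    obtain ⟨h3, h4⟩ := hd'
    have ho' : x + 1 < P.W := ho.2.2.1
    have := hinj (x + 1) ho'.le (h2.trans h4.symm)
    simp at this
  | v i j₀ x y =>
    obtain ⟨h1, h2⟩ := hd
    obtain ⟨h3, h4⟩ := hd'
    have ho' : x < P.W := ho.2.2.1
    exact hdis x ho' (.inl α) (.inr β) y (by simp) h2 h4
  | p i j₀ α₀ => exact hd'.elim
  | q i j₀ α₀ => exact hd.elim

theorem dset_disj (P : Prm) (hg : P.Good) (h : ℕ → (Fin P.m ⊕ Fin P.B) → ℕ)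
    (hinj : ∀ x ≤ P.W, Function.Injective (h x))
    (hdis : ∀ x < P.W, ∀ s s' y, s ≠ s' → Btw (h x s) (h (x + 1) s) y →
      ¬ Btw (h x s') (h (x + 1) s') y)
    (a b : (Fin P.R × Fin P.m) ⊕ (Fin P.R × Fin P.B)) (hab : a ≠ b) (e : Sym2 Vx)
    (ha : e ∈ dset P h a) : e ∉ dset P h b := by
  intro hb
  rcases a with ⟨j, α⟩ | ⟨i, β⟩ <;> rcases b with ⟨j', α'⟩ | ⟨i', β'⟩
  · obtain ⟨d, hd, rfl⟩ := ha
    obtain ⟨d', hd', he⟩ := hb
    have hdd := ends_inj P hg d d' hd.1 hd'.1 he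
    subst hdd
    obtain ⟨h1, h2⟩ := gP_gP P h hinj hdis j j' α α' d hd hd'
    exact hab (by rw [h1, h2])
  · obtain ⟨d, hd, rfl⟩ := ha
    obtain ⟨d', hd', he⟩ := hb
    have hdd := ends_inj P hg d d' hd.1 hd'.1 he
    subst hdd
    exact gP_gQ P h hinj hdis j i' α β' d hd hd'
  · obtain ⟨d, hd, rfl⟩ := ha
    obtain ⟨d', hd', he⟩ := hb
    have hdd := ends_inj P hg d d' hd.1 hd'.1 he
    subst hdd
    exact gP_gQ P h hinj hdis j' i α' β d hd' hd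
  · obtain ⟨d, hd, rfl⟩ := ha
    obtain ⟨d', hd', he⟩ := hb
    have hdd := ends_inj P hg d d' hd.1 hd'.1 he
    subst hdd
    obtain ⟨h1, h2⟩ := gQ_gQ P h hinj hdis i i' β β' d hd hd'
    exact hab (by rw [h1, h2])

end Pool.Agent.Work.MP_d41d5f_lc
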