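import Pool.Agent.Work.MP_d41d5f_lc.ED.RSet
import Pool.Agent.Work.MP_d41d5f_lc.ED.Strand
import Pool.Agent.Work.MP_d41d5f_lc.ED.ReachP
import Pool.Agent.Work.MP_d41d5f_lc.ED.ReachQ
import Pool.Agent.Work.MP_d41d5f_lc.ED.BlkW

/-!
RouteC (M): an ordered perfect packing gives `R (m + B)` edge-disjoint terminal paths.

Proof. Take `h` from `block_weave`: `h 0 = startR`, `h W = endR` and `Step` in all columns.
`startR` is injective with values `< H` (`α < m ≤ H - B ≤ H - B + β < H`), so by `wv_all` all
`h x`, `x ≤ W`, are injective and below `H`. Apply `routable_of_sets` with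
`ι = (Fin R × Fin m) ⊕ (Fin R × Fin B)` (cardinality `R * m + R * B`), `t (inl _) = ([0], [1])`,
`t (inr _) = ([2], [3])` (members of `pairs k` because `2 ≤ k`: `l = 0`, `l = 1`),
`D = dset P h`. `hD`: an element of `eset P (gP ..)` is `s(ends d)` with `ok d`; it is an edge of the
graph: `mem_edges` and `ends_ne` (`fromEdgeSet_adj`). `hd`: `dset_disj`. `hr`: `reach_P`,
`reach_Q`.
-/

set_option autoImplicit false

namespace Pool.Agent.Work.MP_d41d5f_lc

private lemma H_ge (P : Prm) : P.m + P.B + 1 ≤ P.H := by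
  unfold Prm.H Prm.rho
  omega

private lemma startR_inj (P : Prm) : Function.Injective P.startR := by
  have hH := H_ge P
  rintro (a | b) (a' | b') h
  · simp only [Prm.startR] at h
    rw [Fin.ext h]
  · simp only [Prm.startR] at h
    have := a.2
    omega
  · simp only [Prm.startR] at h
    have := a'.2
    omega
  · simp only [Prm.startR] at h
    have h1 : (b : ℕ) = b' := by omega
    rw [Fin.ext h1]

private lemma startR_lt (P : Prm) (s : Fin P.m ⊕ Fin P.B) : P.startR s < P.H := by
  have hH := H_ge P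
  rcases s with a | b
  · have := a.2
    simp only [Prm.startR]
    omega
  · have := b.2
    simp only [Prm.startR]
    omega

private lemma eset_sub (k : ℕ) (P : Prm) (hg : P.Good) (D : Set Ed) (hD : ∀ d ∈ D, P.ok d) :
    eset P D ⊆ (graphOf (arr k P).1).edgeSet := by
  rintro e ⟨d, hd, rfl⟩
  rw [SimpleGraph.mem_edgeSet]
  unfold graphOf
  rw [SimpleGraph.fromEdgeSet_adj]
  refine ⟨⟨P.ends d, ?_, rfl⟩, ends_ne P hg d (hD d hd)⟩
  exact (mem_edges P (P.ends d)).2 ⟨d, hD d hd, rfl⟩

theorem arr_complete (k : ℕ) (hk : 2 ≤ k) (P : Prm) (hg : P.Good) (f : ℕ → ℕ)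
    (hf : OrdPack P.m P.B P.a f) : Routable (arr k P) (P.R * (P.m + P.B)) := by
  obtain ⟨h, h0, h1, hs⟩ := block_weave P hg f hf
  have hall : ∀ x ≤ P.W, Function.Injective (h x) ∧ ∀ s, h x s < P.H := by
    intro x hx
    apply wv_all (x₀ := 0) (x₁ := P.W) (V := fun x y => P.vert x y = true) h _ _ hs x
      (Nat.zero_le _) hx
    · rw [h0]
      exact startR_inj P
    · rw [h0]
      exact startR_lt P
  apply routable_of_sets (arr k P) _ ((Fin P.R × Fin P.m) ⊕ (Fin P.R × Fin P.B)) _
    (fun x => match x with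
      | .inl _ => (([0] : Vx), ([1] : Vx))
      | .inr _ => (([2] : Vx), ([3] : Vx))) (dset P h)
  · rintro (a | b)
    · show (([0] : Vx), ([1] : Vx)) ∈ pairs k
      unfold pairs
      rw [List.mem_map]
      exact ⟨0, List.mem_range.2 (by omega), rfl⟩
    · show (([2] : Vx), ([3] : Vx)) ∈ pairs k
      unfold pairs
      rw [List.mem_map]
      exact ⟨1, List.mem_range.2 (by omega), rfl⟩
  · rintro (a | b)
    · exact eset_sub k P hg _ (fun d hd => hd.1)
    · exact eset_sub k P hg _ (fun d hd => hd.1)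
  · intro a b hab e he
    exact dset_disj P hg h (fun x hx => (hall x hx).1)
      (fun x hx s s' y hne hb => (hs x (Nat.zero_le _) hx).disj s s' y hne hb) a b hab e he
  · rintro (a | b)
    · exact reach_P P hg h h0 h1 (fun x hx => (hall x hx).2)
        (fun x hx s y hb => (hs x (Nat.zero_le _) hx).vert s y hb) a.1 a.2
    · exact reach_Q P hg h h0 h1 (fun x hx => (hall x hx).2)
        (fun x hx s y hb => (hs x (Nat.zero_le _) hx).vert s y hb) b.1 b.2
  · simp only [Fintype.card_sum, Fintype.card_prod, Fintype.card_fin]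
    ring

end Pool.Agent.Work.MP_d41d5f_lc
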