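import Pool.Agent.Work.MP_d41d5f_lc.ED.SDefs

/-!
NumU (S-M): uniqueness of digits.

Proof. `num_sum`: exchange the sums. `num_inj`: `d`, `e` with all digits `< Z` and the same number
are equal: induction on the number of digits (general `Fin n`): modulo `Z` the digits number 0 agree,
subtract and divide by `Z`. (Or `Nat.ofDigits_inj_of_len_eq`.)
-/

set_option autoImplicit false

namespace Pool.Agent.Work.MP_d41d5f_lc

namespace Sys

theorem num_sum (Z : ℕ) (Y : Finset Tk) (d : Tk → Fin 7 → ℕ) :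
    ∑ t ∈ Y, num Z (d t) = num Z (fun k => ∑ t ∈ Y, d t k) := by
  simp only [num]
  rw [Finset.sum_comm]
  refine Finset.sum_congr rfl fun k _ => ?_
  rw [Finset.sum_mul]

private theorem inj_aux (Z : ℕ) : ∀ (n : ℕ) (d e : Fin n → ℕ), (∀ k, d k < Z) → (∀ k, e k < Z) →
    ∑ k, d k * Z ^ (k : ℕ) = ∑ k, e k * Z ^ (k : ℕ) → d = e
  | 0, d, e, _, _, _ => Subsingleton.elim _ _
  | n + 1, d, e, hd, he, h => by
    rw [Fin.sum_univ_succ, Fin.sum_univ_succ] at h
    have h1 : ∀ f : Fin (n + 1) → ℕ, ∑ i : Fin n, f i.succ * Z ^ ((i.succ : Fin (n + 1)) : ℕ) =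
        Z * ∑ i : Fin n, f i.succ * Z ^ (i : ℕ) := by
      intro f
      rw [Finset.mul_sum]
      refine Finset.sum_congr rfl fun i _ => ?_
      rw [Fin.val_succ, pow_succ]
      ring
    rw [h1, h1] at h
    have hv : (((0 : Fin (n + 1)) : ℕ)) = 0 := rfl
    rw [hv, pow_zero, mul_one, mul_one] at h
    have hz : 0 < Z := lt_of_le_of_lt (Nat.zero_le _) (hd 0)
    have h0 : d 0 = e 0 := by
      have h2 := congrArg (fun x => x % Z) h
      simp only [Nat.add_mul_mod_self_left] at h2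
      rw [Nat.mod_eq_of_lt (hd 0), Nat.mod_eq_of_lt (he 0)] at h2
      exact h2
    rw [h0] at h
    have h2 := Nat.eq_of_mul_eq_mul_left hz (Nat.add_left_cancel h)
    have h3 := inj_aux Z n (fun i => d i.succ) (fun i => e i.succ) (fun k => hd _)
      (fun k => he _) h2
    funext k
    exact Fin.cases h0 (fun i => congrFun h3 i) k

theorem num_inj (Z : ℕ) (d e : Fin 7 → ℕ) (hd : ∀ k, d k < Z) (he : ∀ k, e k < Z)
    (h : num Z d = num Z e) : d = e := by
  exact inj_aux Z 7 d e hd he h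

end Sys

end Pool.Agent.Work.MP_d41d5f_lc
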