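import Pool.Agent.Work.MP_d41d5f_lc.ED.PackTk
import Pool.Agent.Work.MP_d41d5f_lc.ED.NumU

/-!
SatC (M-L): a satisfying assignment gives a perfect packing. (Checked by computer.)

Proof. Let `β` be satisfying; for every clause value `e` that occurs let `ch e < K` be an occurrence
with `cl (ch e) = e` and `β (va (ch e)) = sg (ch e)`, and `fi e < K` the first occurrence with
`cl = e`. Define
 `γ (A x o f)` = `V x o true` if `f = not (β x)`, else `V x ((o + K - 1) % K) false`;
 `γ (Wr x o f)` = `V x o true` if `f = β x`, else `V x o false`;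
 `γ (Tp x o s f)` = `V x o s` if `f = (if s then β x else not (β x))`; else `U o` if `x = va o` and
   `s = sg o`; else `G`;
 `γ (Cl o)` = `U (ch e)` if `o = fi e`, `U (fi e)` if `o = ch e` (and `o ≠ fi e`), else `U o`, where
   `e = cl o` (a transposition of the occurrences of the clause);
 `γ (Fl o f)` = `U o` if `f = (β (va o) = sg o and o ≠ ch (cl o))`, else `G`.
Contents: `grp (V x o true) = {A x o (not (β x)), Wr x o (β x), Tp x o true (β x)}`
(a token `A x o₁ f` with `γ = V x o true` needs `o₁ = o`, `f = not (β x)`), digit sums: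
`3 (1-β) + 2 β + β = 3`. `grp (V x o false) = {A x ((o+1) % K) (β x), Wr x o (not (β x)),
Tp x o false (not (β x))}` (`(o₁ + K - 1) % K = o` iff `o₁ = (o+1) % K` for `o, o₁ < K`), digit sums
`3 β + 2 (1-β) + (1-β) = 3`. `grp (U o) = {Cl o₁, Fl o f₂, Tp (va o) o (sg o) f₃}` with `o₁` the
image of `o` under the transposition (`cl o₁ = cl o`; `fst o₁ = true` iff `o₁ = fi e` iff
`o = ch e`), `f₃ = true` iff `β (va o) ≠ sg o`, `f₂` as above; flags: if `o = ch e`: `1 + 0 + 0`;
otherwise `0 + [β (va o) = sg o] + [β (va o) ≠ sg o] = 1`. So in all bins except `G` the digit sums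
are `need b`, and by `num_sum` the sum of the sizes is `req b`. Apply `pack_tk`.
-/

set_option autoImplicit false

namespace Pool.Agent.Work.MP_d41d5f_lc

namespace Sys

private def gam (S : Sys) (β : ℕ → Bool) (ch tr : ℕ → ℕ) : Tk → Bn
  | .A x o f => if f = !β x then .V x o true else .V x ((o + S.K - 1) % S.K) false
  | .Wr x o f => if f = β x then .V x o true else .V x o false
  | .Tp x o s f => if f = (if s then β x else !β x) then .V x o s else
      if x = S.va o ∧ s = S.sg o then .U o else .G
  | .Cl o => .U (tr o)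
  | .Fl o f => if f = (decide (β (S.va o) = S.sg o ∧ o ≠ ch (S.cl o))) then .U o else .G

private theorem sum3 (f : Tk → ℕ) (a b c : Tk) (h1 : a ≠ b) (h2 : a ≠ c) (h3 : b ≠ c) :
    ∑ t ∈ ({a, b, c} : Finset Tk), f t = f a + (f b + f c) := by
  rw [Finset.sum_insert (by simp [h1, h2]), Finset.sum_pair h3]

private theorem cyc (K o o1 : ℕ) (h : o < K) (h1 : o1 < K) :
    (o1 + K - 1) % K = o ↔ o1 = (o + 1) % K := by
  have hK : 0 < K := by omega
  rcases Nat.eq_zero_or_pos o1 with h0 | h0
  · subst h0
    have e1 : (0 + K - 1) % K = K - 1 := by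
      rw [Nat.zero_add]
      exact Nat.mod_eq_of_lt (by omega)
    rw [e1]
    constructor
    · intro h2
      have : o + 1 = K := by omega
      rw [this, Nat.mod_self]
    · intro h2
      by_contra h3
      have h4 : (o + 1) % K = o + 1 := Nat.mod_eq_of_lt (by omega)
      omega
  · have e1 : (o1 + K - 1) % K = o1 - 1 := by
      have : o1 + K - 1 = (o1 - 1) + K := by omega
      rw [this, Nat.add_mod_right]
      exact Nat.mod_eq_of_lt (by omega)
    rw [e1]
    rcases Nat.lt_or_ge (o + 1) K with h3 | h3
    · rw [Nat.mod_eq_of_lt h3]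
      omega
    · have h4 : o + 1 = K := by omega
      rw [h4, Nat.mod_self]
      omega

private theorem grp_Vt (S : Sys) (β : ℕ → Bool) (ch tr : ℕ → ℕ) (x o : ℕ) (hx : x < S.n)
    (ho : o < S.K) : S.grp (gam S β ch tr) (.V x o true) =
      {.A x o (!β x), .Wr x o (β x), .Tp x o true (β x)} := by
  ext t
  simp only [Sys.grp, Finset.mem_filter, List.mem_toFinset, S.mem_tokL, Finset.mem_insert,
    Finset.mem_singleton]
  constructor
  · rintro ⟨h1, h2⟩
    cases t with
    | A x' o' f =>
      simp only [gam] at h2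
      split_ifs at h2 with hf
      · simp only [Bn.V.injEq, and_true] at h2
        left
        rw [hf, h2.1, h2.2]
      · simp at h2
    | Wr x' o' f =>
      simp only [gam] at h2
      split_ifs at h2 with hf
      · simp only [Bn.V.injEq, and_true] at h2
        right; left
        rw [hf, h2.1, h2.2]
      · simp at h2
    | Tp x' o' s f =>
      simp only [gam] at h2
      by_cases hf : f = (if s then β x' else !β x')
      · rw [if_pos hf] at h2
        simp only [Bn.V.injEq] at h2
        obtain ⟨rfl, rfl, rfl⟩ := h2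
        right; right
        rw [hf]
        simp
      · rw [if_neg hf] at h2
        split_ifs at h2
    | Cl o' => simp [gam] at h2
    | Fl o' f =>
      simp only [gam] at h2
      split_ifs at h2
  · rintro (rfl | rfl | rfl)
    · exact ⟨⟨hx, ho⟩, by simp [gam]⟩
    · exact ⟨⟨hx, ho⟩, by simp [gam]⟩
    · exact ⟨⟨hx, ho⟩, by simp [gam]⟩

private theorem grp_Vf (S : Sys) (β : ℕ → Bool) (ch tr : ℕ → ℕ) (x o : ℕ) (hx : x < S.n)
    (ho : o < S.K) : S.grp (gam S β ch tr) (.V x o false) =
      {.A x ((o + 1) % S.K) (β x), .Wr x o (!β x), .Tp x o false (!β x)} := by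
  have hK : 0 < S.K := by omega
  ext t
  simp only [Sys.grp, Finset.mem_filter, List.mem_toFinset, S.mem_tokL, Finset.mem_insert,
    Finset.mem_singleton]
  constructor
  · rintro ⟨h1, h2⟩
    cases t with
    | A x' o' f =>
      simp only [gam] at h2
      split_ifs at h2 with hf
      · simp at h2
      · simp only [Bn.V.injEq, and_true] at h2
        left
        have h3 := (cyc S.K o o' ho h1.2).1 h2.2
        have h4 : f = β x' := by
          cases f <;> cases hb : β x' <;> simp_all
        rw [h4, h2.1, h3]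
    | Wr x' o' f =>
      simp only [gam] at h2
      split_ifs at h2 with hf
      · simp at h2
      · simp only [Bn.V.injEq, and_true] at h2
        right; left
        have h4 : f = !β x' := by
          cases f <;> cases hb : β x' <;> simp_all
        rw [h4, h2.1, h2.2]
    | Tp x' o' s f =>
      simp only [gam] at h2
      by_cases hf : f = (if s then β x' else !β x')
      · rw [if_pos hf] at h2
        simp only [Bn.V.injEq] at h2
        obtain ⟨rfl, rfl, rfl⟩ := h2
        right; right
        rw [hf]
        simp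
      · rw [if_neg hf] at h2
        split_ifs at h2
    | Cl o' => simp [gam] at h2
    | Fl o' f =>
      simp only [gam] at h2
      split_ifs at h2
  · rintro (rfl | rfl | rfl)
    · refine ⟨⟨hx, Nat.mod_lt _ hK⟩, ?_⟩
      have h1 := (cyc S.K o ((o + 1) % S.K) ho (Nat.mod_lt _ hK)).2 rfl
      simp only [gam]
      rw [if_neg (by cases β x <;> simp), h1]
    · refine ⟨⟨hx, ho⟩, ?_⟩
      simp only [gam]
      rw [if_neg (by cases β x <;> simp)]
    · exact ⟨⟨hx, ho⟩, by simp [gam]⟩

private theorem grp_U (S : Sys) (hS : S.Good) (β : ℕ → Bool) (ch tr : ℕ → ℕ)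
    (htr : ∀ o < S.K, tr o < S.K ∧ tr (tr o) = o) (o : ℕ) (ho : o < S.K) :
    S.grp (gam S β ch tr) (.U o) =
      {.Cl (tr o), .Fl o (decide (β (S.va o) = S.sg o ∧ o ≠ ch (S.cl o))),
        .Tp (S.va o) o (S.sg o) (!(if S.sg o then β (S.va o) else !β (S.va o)))} := by
  ext t
  simp only [Sys.grp, Finset.mem_filter, List.mem_toFinset, S.mem_tokL, Finset.mem_insert,
    Finset.mem_singleton]
  constructor
  · rintro ⟨h1, h2⟩
    cases t with
    | A x' o' f =>
      simp only [gam] at h2
      split_ifs at h2
    | Wr x' o' f =>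
      simp only [gam] at h2
      split_ifs at h2
    | Tp x' o' s f =>
      simp only [gam] at h2
      by_cases hf : f = (if s then β x' else !β x')
      · rw [if_pos hf] at h2
        simp at h2
      · rw [if_neg hf] at h2
        by_cases h3 : x' = S.va o' ∧ s = S.sg o'
        · rw [if_pos h3] at h2
          simp only [Bn.U.injEq] at h2
          subst h2
          right; right
          obtain ⟨h3, h4⟩ := h3
          subst h3; subst h4
          have h5 : f = !(if S.sg o' then β (S.va o') else !β (S.va o')) := by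
            cases f <;> cases hb : (if S.sg o' then β (S.va o') else !β (S.va o')) <;> simp_all
          rw [← h5]
        · rw [if_neg h3] at h2
          simp at h2
    | Cl o' =>
      simp only [gam, Bn.U.injEq] at h2
      left
      rw [← h2, (htr o' h1).2]
    | Fl o' f =>
      simp only [gam] at h2
      split_ifs at h2 with hf
      · simp only [Bn.U.injEq] at h2
        subst h2
        right; left
        rw [← hf]
  · rintro (rfl | rfl | rfl)
    · refine ⟨(htr o ho).1, ?_⟩
      simp only [gam]
      rw [(htr o ho).2]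
    · refine ⟨ho, ?_⟩
      simp [gam]
    · refine ⟨⟨hS.va o ho, ho⟩, ?_⟩
      simp only [gam]
      rw [if_neg (by cases (if S.sg o then β (S.va o) else !β (S.va o)) <;> simp)]
      simp

theorem sat_complete (S : Sys) (hS : S.Good) (h : S.Sat) : Pack S.m0 S.cp S.a0 := by
  classical
  obtain ⟨β, hβ⟩ := h
  have hch : ∃ ch : ℕ → ℕ, ∀ o < S.K, ch (S.cl o) < S.K ∧ S.cl (ch (S.cl o)) = S.cl o ∧
      β (S.va (ch (S.cl o))) = S.sg (ch (S.cl o)) := by
    have h1 : ∀ e : ℕ, ∃ c : ℕ, (∃ o < S.K, S.cl o = e) →
        c < S.K ∧ S.cl c = e ∧ β (S.va c) = S.sg c := by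
      intro e
      by_cases h2 : ∃ o < S.K, S.cl o = e
      · obtain ⟨o, ho, he⟩ := h2
        obtain ⟨c, hc, hc1, hc2⟩ := hβ o ho
        exact ⟨c, fun _ => ⟨hc, by rw [hc1, he], hc2⟩⟩
      · exact ⟨0, fun h3 => absurd h3 h2⟩
    choose ch hch using h1
    exact ⟨ch, fun o ho => hch (S.cl o) ⟨o, ho, rfl⟩⟩
  obtain ⟨ch, hch⟩ := hch
  have hfi : ∃ fi : ℕ → ℕ, ∀ o < S.K, fi (S.cl o) ≤ o ∧ S.cl (fi (S.cl o)) = S.cl o ∧
      ∀ o' < fi (S.cl o), S.cl o' ≠ S.cl o := by
    have h1 : ∀ e : ℕ, ∃ c : ℕ, ∀ o, S.cl o = e → c ≤ o ∧ S.cl c = e ∧ ∀ o' < c, S.cl o' ≠ e := by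
      intro e
      by_cases h2 : ∃ o, S.cl o = e
      · refine ⟨Nat.find h2, fun o ho => ⟨Nat.find_min' h2 ho, Nat.find_spec h2, ?_⟩⟩
        intro o' ho'
        exact Nat.find_min h2 ho'
      · exact ⟨0, fun o ho => absurd ⟨o, ho⟩ h2⟩
    choose fi hfi using h1
    exact ⟨fi, fun o ho => hfi (S.cl o) o rfl⟩
  obtain ⟨fi, hfi⟩ := hfi
  have htr : ∃ tr : ℕ → ℕ, ∀ o, tr o = if o = fi (S.cl o) then ch (S.cl o) else
      if o = ch (S.cl o) then fi (S.cl o) else o := ⟨_, fun _ => rfl⟩
  obtain ⟨tr, htr⟩ := htr
  have hcl : ∀ o < S.K, tr o < S.K ∧ S.cl (tr o) = S.cl o := by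
    intro o ho
    rw [htr o]
    split_ifs with h1 h2
    · exact ⟨(hch o ho).1, (hch o ho).2.1⟩
    · exact ⟨lt_of_le_of_lt (hfi o ho).1 ho, (hfi o ho).2.1⟩
    · exact ⟨ho, rfl⟩
  have htr2 : ∀ o < S.K, tr o < S.K ∧ tr (tr o) = o := by
    intro o ho
    refine ⟨(hcl o ho).1, ?_⟩
    rw [htr (tr o), (hcl o ho).2, htr o]
    split_ifs <;> omega
  have hfst : ∀ o < S.K, S.fst (tr o) = decide (o = ch (S.cl o)) := by
    intro o ho
    have e1 : S.fst (tr o) = decide (tr o = fi (S.cl o)) := by
      unfold Sys.fst
      rw [decide_eq_decide, (hcl o ho).2]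
      constructor
      · intro h1
        rcases lt_trichotomy (tr o) (fi (S.cl o)) with h2 | h2 | h2
        · exact absurd (hcl o ho).2 ((hfi o ho).2.2 _ h2)
        · exact h2
        · exact absurd (hfi o ho).2.1 (h1 _ h2)
      · intro h1
        rw [h1]
        exact (hfi o ho).2.2
    rw [e1, decide_eq_decide, htr o]
    split_ifs with h1 h2
    · constructor
      · intro h3; rw [h3]; exact h1
      · intro h3; rw [← h3]; exact h1
    · exact ⟨fun _ => h2, fun _ => rfl⟩
    · exact ⟨fun h3 => absurd h3 h1, fun h3 => absurd h3 h2⟩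
  refine S.pack_tk.2 ⟨gam S β ch tr, ?_, ?_⟩
  · intro t ht
    have hK : 0 < S.K := hS.K1
    rw [S.mem_tokL] at ht
    rw [S.mem_binL]
    cases t with
    | A x o f =>
      simp only [gam]
      split_ifs
      · exact ht
      · exact ⟨ht.1, Nat.mod_lt _ hK⟩
    | Wr x o f =>
      simp only [gam]
      split_ifs
      · exact ht
      · exact ht
    | Tp x o s f =>
      simp only [gam]
      by_cases hf : f = (if s then β x else !β x)
      · rw [if_pos hf]
        exact ht
      · rw [if_neg hf]
        split_ifs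
        · exact ht.2
        · trivial
    | Cl o => exact (htr2 o ht).1
    | Fl o f =>
      simp only [gam]
      split_ifs
      · exact ht
      · trivial
  · intro b hb hG
    unfold Sys.tsz Sys.req
    rw [Sys.num_sum]
    refine congrArg (Sys.num S.Z) (funext fun k => ?_)
    rw [S.mem_binL] at hb
    cases b with
    | V x o s =>
      cases s with
      | true =>
        rw [grp_Vt S β ch tr x o hb.1 hb.2, sum3 _ _ _ _ (by simp) (by simp) (by simp)]
        fin_cases k <;> cases β x <;> simp [Sys.dig, Sys.need, Sys.sn]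
      | false =>
        rw [grp_Vf S β ch tr x o hb.1 hb.2, sum3 _ _ _ _ (by simp) (by simp) (by simp)]
        fin_cases k <;> cases β x <;> simp [Sys.dig, Sys.need, Sys.sn]
    | U o =>
      have ho : o < S.K := hb
      rw [grp_U S hS β ch tr htr2 o ho, sum3 _ _ _ _ (by simp) (by simp) (by simp)]
      have e1 := hfst o ho
      have e2 := (hcl o ho).2
      have e3 : o = ch (S.cl o) → β (S.va o) = S.sg o := by
        intro h1
        have h2 := (hch o ho).2.2
        rw [← h1] at h2
        exact h2
      fin_cases k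
      · simp only [Sys.dig, Sys.need, e1]
        by_cases h1 : o = ch (S.cl o)
        · have h2 := e3 h1
          rw [decide_eq_true h1, decide_eq_false (by tauto), h2]
          cases S.sg o <;> simp
        · rw [decide_eq_false h1]
          by_cases h2 : β (S.va o) = S.sg o
          · rw [decide_eq_true ⟨h2, h1⟩, h2]
            cases S.sg o <;> simp
          · rw [decide_eq_false (fun h3 => h2 h3.1)]
            cases h4 : S.sg o <;> cases h5 : β (S.va o) <;>
              first
              | exact absurd (h5.trans h4.symm) h2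
              | simp
      all_goals simp [Sys.dig, Sys.need, e2]
    | G => exact absurd rfl hG

end Sys

end Pool.Agent.Work.MP_d41d5f_lc
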