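import Pool.Agent.Work.MP_d41d5f_lc.ED.SBas

/-!
Wheel (M): in every wheel the flags are consistent. (Checked by computer.)

Proof. Fix `x < n`. For `o < K` let `(a o, b o, t o)` be the flags of the tokens in the bin
`V x o true` (tokens `A x o`, `Wr x o`, `Tp x o true`) and `(a' o, b' o, t' o)` the flags in
`V x o false` (tokens `A x ((o+1) % K)`, `Wr x o`, `Tp x o false`);
`3 a + 2 b + t = 3`, `3 a' + 2 b' + t' = 3`. Solutions over the Booleans: `(1,0,0)` and `(0,1,1)`.
The tokens `Wr x o (b o)` and `Wr x o (b' o)` are in different bins (`γ` is a function), so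
`b' o = not (b o)`; in the same way `A x ((o+1) % K) (a' o)` is in `V x o false` and
`A x ((o+1) % K) (a ((o+1) % K))` is in `V x ((o+1) % K) true`, so `a ((o+1) % K) = not (a' o)`.
Since `a = not b`, `a' = not b'` (from the solutions): `not (b ((o+1) % K)) = a ((o+1) % K)
= not (a' o) = b' o = not (b o)`, so `b ((o+1) % K) = b o`, hence `b o = b 0 =: β x` for all
`o < K` (induction on `o`). Then `t o = b o = β x`, `t' o = b' o = not (β x)`.
-/

set_option autoImplicit false

namespace Pool.Agent.Work.MP_d41d5f_lc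

namespace Sys

theorem wheel (S : Sys) (hS : S.Good) (γ : Tk → Bn)
    (hV : ∀ x < S.n, ∀ o < S.K, ∀ s : Bool, ∃ f₁ f₂ f₃ : Bool,
      S.grp γ (.V x o s) = {Tk.A x (if s then o else (o + 1) % S.K) f₁, Tk.Wr x o f₂,
        Tk.Tp x o s f₃} ∧ 3 * f₁.toNat + 2 * f₂.toNat + f₃.toNat = 3) :
    ∃ β : ℕ → Bool, ∀ x < S.n, ∀ o < S.K, γ (.Tp x o true (β x)) = .V x o true ∧
      γ (.Tp x o false (!(β x))) = .V x o false := by
  have hstep : ∀ x < S.n, ∀ o < S.K, ∀ s : Bool, ∃ b : Bool,
      γ (.A x (if s then o else (o + 1) % S.K) (!b)) = .V x o s ∧ γ (.Wr x o b) = .V x o s ∧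
        γ (.Tp x o s b) = .V x o s := by
    intro x hx o ho s
    obtain ⟨f₁, f₂, f₃, hg, hf⟩ := hV x hx o ho s
    have hm : ∀ t ∈ S.grp γ (.V x o s), γ t = .V x o s := fun t ht => by
      unfold grp at ht
      exact (Finset.mem_filter.1 ht).2
    have h1 := hm (Tk.A x (if s then o else (o + 1) % S.K) f₁) (by rw [hg]; simp)
    have h2 := hm (Tk.Wr x o f₂) (by rw [hg]; simp)
    have h3 := hm (Tk.Tp x o s f₃) (by rw [hg]; simp)
    have e1 : f₁ = !f₂ ∧ f₃ = f₂ := by
      revert hf
      cases f₁ <;> cases f₂ <;> cases f₃ <;> simp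
    refine ⟨f₂, ?_, h2, ?_⟩
    · rw [← e1.1]
      exact h1
    · rw [← e1.2] at h2 ⊢
      exact h3
  choose! b hb using hstep
  have hK := hS.K1
  have hne : ∀ x < S.n, ∀ o < S.K, b x o false = !(b x o true) := by
    intro x hx o ho
    have h1 := (hb x hx o ho true).2.1
    have h2 := (hb x hx o ho false).2.1
    by_contra hc
    have h3 : b x o false = b x o true := by
      revert hc
      cases b x o false <;> cases b x o true <;> simp
    rw [h3, h1] at h2
    simp at h2
  have hnext : ∀ x < S.n, ∀ o < S.K, b x ((o + 1) % S.K) true = b x o true := by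
    intro x hx o ho
    have ho' : (o + 1) % S.K < S.K := Nat.mod_lt _ (by omega)
    have h1 := (hb x hx o ho false).1
    have h2 := (hb x hx _ ho' true).1
    simp only [Bool.false_eq_true, if_false] at h1
    simp only [if_true] at h2
    by_contra hc
    have h3 : b x ((o + 1) % S.K) true = b x o false := by
      rw [hne x hx o ho]
      revert hc
      cases b x ((o + 1) % S.K) true <;> cases b x o true <;> simp
    rw [h3, h1] at h2
    simp at h2
  have hall : ∀ x < S.n, ∀ o < S.K, b x o true = b x 0 true := by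
    intro x hx o
    induction o with
    | zero => exact fun _ => rfl
    | succ o ih =>
      intro ho
      have h1 := hnext x hx o (by omega)
      rw [Nat.mod_eq_of_lt ho] at h1
      rw [h1, ih (by omega)]
  refine ⟨fun x => b x 0 true, fun x hx o ho => ⟨?_, ?_⟩⟩
  · have h1 := (hb x hx o ho true).2.2
    rw [hall x hx o ho] at h1
    exact h1
  · have h1 := (hb x hx o ho false).2.2
    rw [hne x hx o ho, hall x hx o ho] at h1
    exact h1

end Sys

end Pool.Agent.Work.MP_d41d5f_lc
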