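import Pool.Agent.Work.MP_d41d5f_lc.ED.PackTk
import Pool.Agent.Work.MP_d41d5f_lc.ED.NumU
import Pool.Agent.Work.MP_d41d5f_lc.ED.DecV
import Pool.Agent.Work.MP_d41d5f_lc.ED.DecU
import Pool.Agent.Work.MP_d41d5f_lc.ED.Wheel

/-!
SatS (M): a perfect packing gives a satisfying assignment.

Proof. Take `γ` from `pack_tk`. For `b ≠ G` the group `Y = grp γ b` has
`num Z (digit sums) = req b = num Z (need b)` (`num_sum`), all digits `< Z` (`dig_lt`, `need_lt`),
so the digit sums are `need b` (`num_inj`). `dec_V` and `wheel` give `β`. For `o < K` let `dec_U` give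
`o₁ = c o` (`cl (c o) = cl o`, `Cl (c o)` in `U o`), `f₂`, `f₃`. Since
`Tp (va o) o (sg o) f₃` is in the bin `U o` and `Tp (va o) o (sg o) f` with `f = β (va o)` (if
`sg o = true`) or `f = not (β (va o))` (if `sg o = false`) is in a `V`-bin, `f₃` is the opposite
value: `f₃ = true` iff `β (va o) ≠ sg o`.
Let `o < K`; the clause is `e = cl o`. Let `u` be the first occurrence with `cl u = e` (`fst u = true`,
`u < K`). The map `c` is injective (the token `Cl (c o')` is in `U o'`), and maps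
`{o' < K | cl o' = e}` to itself, so it is surjective on this finite set: `c o' = u` for some
`o' < K` with `cl o' = e`. In the bin `U o'`: `fst u + f₂ + f₃ = 1`, so `f₃ = false`, so
`β (va o') = sg o'`.
-/

set_option autoImplicit false

namespace Pool.Agent.Work.MP_d41d5f_lc

namespace Sys

private theorem grp_sub (S : Sys) (γ : Tk → Bn) (b : Bn) : ∀ t ∈ S.grp γ b, t ∈ S.tokL := by
  intro t ht
  unfold grp at ht
  rw [Finset.mem_filter, List.mem_toFinset] at ht
  exact ht.1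

private theorem grp_eq (S : Sys) (γ : Tk → Bn) (b : Bn) (t : Tk) (ht : t ∈ S.grp γ b) :
    γ t = b := by
  unfold grp at ht
  exact (Finset.mem_filter.1 ht).2

theorem sat_sound (S : Sys) (hS : S.Good) (h : Pack S.m0 S.cp S.a0) : S.Sat := by
  classical
  obtain ⟨γ, hγ, hsum⟩ := (pack_tk S).1 h
  have key : ∀ b ∈ S.binL, b ≠ .G → ∀ k, ∑ t ∈ S.grp γ b, S.dig t k = S.need b k := by
    intro b hb hG k
    have h1 := hsum b hb hG
    have h3 : ∑ t ∈ S.grp γ b, num S.Z (S.dig t) = num S.Z (S.need b) := h1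
    rw [num_sum] at h3
    have h2 := num_inj S.Z _ _ (fun k => S.dig_lt _ (grp_sub S γ b) k)
      (fun k => S.need_lt hS b hb k) h3
    exact congrFun h2 k
  obtain ⟨β, hβ⟩ := wheel S hS γ (fun x hx o ho s => dec_V S hS _ (grp_sub S γ _) x o s hx ho
    (key _ ((S.mem_binL _).2 ⟨hx, ho⟩) (by simp)))
  have hU : ∀ o, ∃ (o₁ o₂ : ℕ) (f₂ f₃ : Bool), o < S.K → (o₁ < S.K ∧ o₂ < S.K ∧
      S.cl o₁ = S.cl o ∧
      S.grp γ (.U o) = {Tk.Cl o₁, Tk.Fl o₂ f₂, Tk.Tp (S.va o) o (S.sg o) f₃} ∧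
      (S.fst o₁).toNat + f₂.toNat + f₃.toNat = 1) := by
    intro o
    by_cases ho : o < S.K
    · obtain ⟨o₁, o₂, f₂, f₃, h⟩ := dec_U S hS _ (grp_sub S γ _) o ho
        (key _ ((S.mem_binL _).2 ho) (by simp))
      exact ⟨o₁, o₂, f₂, f₃, fun _ => h⟩
    · exact ⟨0, 0, true, true, fun h => absurd h ho⟩
  choose c c2 f2 f3 hU using hU
  refine ⟨β, fun o ho => ?_⟩
  have hex : ∃ u, S.cl u = S.cl o := ⟨o, rfl⟩
  obtain ⟨u, hu1, hu2, hu3⟩ : ∃ u, S.cl u = S.cl o ∧ u ≤ o ∧ S.fst u = true := by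
    refine ⟨Nat.find hex, Nat.find_spec hex, Nat.find_min' hex rfl, ?_⟩
    unfold fst
    rw [decide_eq_true_eq]
    intro o' ho' he
    exact Nat.find_min hex ho' (he.trans (Nat.find_spec hex))
  have cinj : ∀ o' < S.K, ∀ o'' < S.K, c o' = c o'' → o' = o'' := by
    intro o' h1 o'' h2 he
    have m1 : Tk.Cl (c o') ∈ S.grp γ (.U o') := by
      rw [(hU o' h1).2.2.2.1]
      simp
    have m2 : Tk.Cl (c o'') ∈ S.grp γ (.U o'') := by
      rw [(hU o'' h2).2.2.2.1]
      simp
    have e1 := grp_eq S γ _ _ m1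
    have e2 := grp_eq S γ _ _ m2
    rw [he, e2] at e1
    injection e1 with e
    exact e.symm
  have hsurj := Finset.surj_on_of_inj_on_of_card_le
    (s := (Finset.range S.K).filter fun o' => S.cl o' = S.cl o)
    (t := (Finset.range S.K).filter fun o' => S.cl o' = S.cl o) (fun a _ => c a) ?_ ?_ le_rfl u ?_
  · obtain ⟨o', ho', hc⟩ := hsurj
    rw [Finset.mem_filter, Finset.mem_range] at ho'
    obtain ⟨h1, h2, h3, h4, h5⟩ := hU o' ho'.1
    refine ⟨o', ho'.1, ho'.2, ?_⟩
    have hc' : c o' = u := hc.symm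
    rw [hc', hu3] at h5
    have hf3 : f3 o' = false := by
      cases hf : f3 o'
      · rfl
      · rw [hf] at h5
        simp at h5
    have m1 : Tk.Tp (S.va o') o' (S.sg o') (f3 o') ∈ S.grp γ (.U o') := by
      rw [h4]
      simp
    have e1 := grp_eq S γ _ _ m1
    rw [hf3] at e1
    obtain ⟨b1, b2⟩ := hβ (S.va o') (hS.va o' ho'.1) o' ho'.1
    by_contra hne
    cases hs : S.sg o'
    · rw [hs] at hne e1
      rw [Bool.not_eq_false] at hne
      rw [hne] at b2
      rw [Bool.not_true, e1] at b2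
      cases b2
    · rw [hs] at hne e1
      rw [Bool.not_eq_true] at hne
      rw [hne, e1] at b1
      cases b1
  · intro a ha
    rw [Finset.mem_filter, Finset.mem_range] at ha ⊢
    obtain ⟨h1, h2, h3, h4, h5⟩ := hU a ha.1
    exact ⟨h1, h3.trans ha.2⟩
  · intro a b ha hb hab
    rw [Finset.mem_filter, Finset.mem_range] at ha hb
    exact cinj a ha.1 b hb.1 hab
  · rw [Finset.mem_filter, Finset.mem_range]
    exact ⟨lt_of_le_of_lt hu2 ho, hu1⟩

end Sys

end Pool.Agent.Work.MP_d41d5f_lc
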