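import Pool.Agent.Work.MP_d41d5f_lc.ED.DrawP
import Pool.Agent.Work.MP_d41d5f_lc.ED.CapE

/-!
WFA (S): the array is a well-formed instance.

Proof. `pairs`: the length of the list is `k`. `ne`: `2 l ≠ 2 l + 1`. `nodup`: `edges_nodup`. `loop`:
`mem_edges`, `ends_ne`. `planar`: `arr_draws`.
-/

set_option autoImplicit false

namespace Pool.Agent.Work.MP_d41d5f_lc

theorem pairs_ne (k : ℕ) : ∀ p ∈ pairs k, p.1 ≠ p.2 := by
  intro p hp
  obtain ⟨l, -, rfl⟩ := List.mem_map.1 hp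
  intro h
  simp only [List.cons.injEq, and_true] at h
  omega

theorem arr_wf (k : ℕ) (P : Prm) (hg : P.Good) : WF k (arr k P) := by
  refine ⟨?_, pairs_ne k, edges_nodup P hg, ?_, ⟨pos P, arr_draws k P hg⟩⟩
  · simp [arr, pairs]
  · intro e he
    obtain ⟨d, hd, rfl⟩ := (mem_edges P e).1 he
    exact ends_ne P hg d hd

end Pool.Agent.Work.MP_d41d5f_lc
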