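import Pool.Agent.Work.MP_d41d5f_lc.ED.ArrS
import Pool.Agent.Work.MP_d41d5f_lc.ED.RouteC
import Pool.Agent.Work.MP_d41d5f_lc.ED.OptG
import Pool.Agent.Work.MP_d41d5f_lc.ED.CapE
import Pool.Agent.Work.MP_d41d5f_lc.ED.LowD
import Pool.Agent.Work.MP_d41d5f_lc.ED.WFA
import Pool.Agent.Work.MP_d41d5f_lc.ED.PadS
import Pool.Agent.Work.MP_d41d5f_lc.ED.PadC
import Pool.Agent.Work.MP_d41d5f_lc.ED.SatS
import Pool.Agent.Work.MP_d41d5f_lc.ED.SatC
import Pool.Agent.Work.MP_d41d5f_lc.ED.CnfO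
import Pool.Agent.Work.MP_d41d5f_lc.ED.PtArr
import Pool.Agent.Work.MP_d41d5f_lc.ED.PtPad
import Pool.Agent.Work.MP_d41d5f_lc.ED.PtNum
import Pool.Agent.Work.MP_d41d5f_lc.ED.GapC
import Pool.Agent.Work.MP_d41d5f_lc.ED.NumE

/-!
Main: assembly.
-/

set_option autoImplicit false

namespace Pool.Agent.Work.MP_d41d5f_lc

open Pool.Agent.Work.PolyTime

/-- The parameters of the array of a clause system. -/
def prmOf (c : ℕ) (C : List NClause) : Prm :=
  ⟨(sysOf C).m0, padB (sysOf C).m0 (sysOf C).cp,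
    (7 * ((sysOf C).m0 + padB (sysOf C).m0 (sysOf C).cp)) ^ c,
    padL (sysOf C).m0 (sysOf C).cp (sysOf C).a0⟩

theorem prmOf_good (c : ℕ) (C : List NClause) : (prmOf c C).Good := by
  refine ⟨(sysOf C).m0_pos, padB_pos _ _, ?_⟩
  have h := (sysOf C).m0_pos
  exact Nat.one_le_pow _ _ (by omega)

theorem prmOf_sum (c : ℕ) (C : List NClause) :
    (prmOf c C).a.sum = (prmOf c C).m * (prmOf c C).B :=
  padL_sum _ _ _ (sysOf C).a0_sum

theorem prmOf_big (c : ℕ) (C : List NClause) : ∀ x ∈ (prmOf c C).a, (prmOf c C).m < x :=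
  padL_big _ _ _ (sysOf C).a0_pos

/-- The instance of a clause system. -/
def instOf (k c : ℕ) (C : List NClause) : Inst := arr k (prmOf c C)

theorem cap_instOf (k c : ℕ) (hk : 2 ≤ k) (C : List NClause) :
    cap (instOf k c C) = (prmOf c C).R * ((prmOf c C).m + (prmOf c C).B) :=
  cap_arr k hk _ (prmOf_good c C)

theorem instOf_yes (k c : ℕ) (hk : 2 ≤ k) (C : List NClause) (h : CnfSat C) :
    Routable (instOf k c C) (cap (instOf k c C)) := by
  have h1 := (sat_iff C).1 h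
  have h2 := (sysOf C).sat_complete (sysOf_good C) h1
  obtain ⟨f, hf⟩ := pad_complete _ _ _ (sysOf C).m0_pos h2
  rw [cap_instOf k c hk]
  exact arr_complete k hk (prmOf c C) (prmOf_good c C) f hf

theorem instOf_no (k c : ℕ) (hk : 2 ≤ k) (hc : 1 ≤ c) (C : List NClause) (h : ¬ CnfSat C) (N : ℕ)
    (hN : Routable (instOf k c C) N) : N + (prmOf c C).R / 7 < cap (instOf k c C) := by
  by_contra hcon
  apply h
  rw [sat_iff]
  apply (sysOf C).sat_sound (sysOf_good C)
  apply pad_sound _ _ _ (sysOf C).m0_pos (sysOf C).a0_sum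
  have hg := prmOf_good c C
  rw [cap_instOf k c hk] at hcon
  have hR7 : 7 ∣ (prmOf c C).R := by
    refine dvd_pow (Dvd.intro _ rfl) (by omega)
  have hRpos := hg.hR
  obtain ⟨u, hu⟩ := hR7
  have hdiv : (prmOf c C).R / 7 = u := by rw [hu]; simp
  refine arr_sound k (prmOf c C) hg (prmOf_big c C) (prmOf_sum c C) N ((prmOf c C).R / 7)
    (by omega) ?_ hN
  rw [hdiv, hu]
  have hu1 : 1 ≤ u := by omega
  nlinarith

theorem instOf_ptime (k c : ℕ) {α : Type} [Code α] {C : α → List NClause} (hC : PTime C) :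
    PTime (fun x => instOf k c (C x)) := by
  have h1 := pt_m0 hC
  have h2 := pt_cp hC
  have h3 := pt_a0 hC
  have h4 := pt_padB h1 h2
  have h5 := pt_padL h1 h2 h3
  have h6 : PTime (fun x => (7 * ((sysOf (C x)).m0 + padB (sysOf (C x)).m0 (sysOf (C x)).cp)) ^ c) :=
    pt_pow (PTime.natMul (PTime.const 7) (PTime.natAdd h1 h4)) c
  exact pt_arr k h1 h4 h6 h5

theorem capR_ptime (c : ℕ) {α : Type} [Code α] {C : α → List NClause} (hC : PTime C) :
    PTime (fun x => (prmOf c (C x)).R * ((prmOf c (C x)).m + (prmOf c (C x)).B)) := by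
  have h1 := pt_m0 hC
  have h2 := pt_cp hC
  have h4 := pt_padB h1 h2
  have h6 : PTime (fun x => (7 * ((sysOf (C x)).m0 + padB (sysOf (C x)).m0 (sysOf (C x)).cp)) ^ c) :=
    pt_pow (PTime.natMul (PTime.const 7) (PTime.natAdd h1 h4)) c
  exact PTime.natMul h6 (PTime.natAdd h1 h4)

/-- Planar max-EDP with `k` pairs is NP-hard. -/
theorem edp_nphard (k : ℕ) (hk : 2 ≤ k) :
    NPHard (problem (fun x : Inst × ℕ => WF k x.1) (fun x => x.2 ≤ opt x.1)) := by
  refine nphard_of_cnf (F := fun C => (instOf k 1 C,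
    (prmOf 1 C).R * ((prmOf 1 C).m + (prmOf 1 C).B))) ?_ ?_ ?_
  · exact PTime.prodMk (instOf_ptime k 1 PTime.id) (capR_ptime 1 PTime.id)
  · intro C
    exact arr_wf k _ (prmOf_good 1 C)
  · intro C _
    simp only
    have hcap := cap_instOf k 1 hk C
    rw [← hcap, ← routable_iff (instOf k 1 C) (pairs_ne k)]
    constructor
    · exact instOf_yes k 1 hk C
    · intro h
      by_contra hC
      have := instOf_no k 1 hk le_rfl C hC _ h
      omega

/-- The gap theorem. -/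
theorem edp_gap (k : ℕ) (hk : 2 ≤ k) (ε : ℝ) (hε : 0 < ε) (L : Set (List Bool)) (hL : InNP L) :
    ∃ f : List Bool → Inst, PolyTimeComputable (fun w => (code (f w)).ser) ∧
      ∀ w, WF k (f w) ∧ Outer (f w) ∧ LowDeg (f w) ∧ opt (f w) ≤ cap (f w) ∧
        (w ∈ L → opt (f w) = cap (f w)) ∧
        (w ∉ L → (opt (f w) : ℝ) ≤ cap (f w) - (cap (f w) : ℝ) ^ (1 - ε)) := by
  obtain ⟨c, hc, hnum⟩ := num_exp ε hε
  obtain ⟨g, hg1, hg2⟩ := np_map (instOf k c) (instOf_ptime k c PTime.id) L hL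
  refine ⟨fun w => instOf k c (g w), hg1, fun w => ?_⟩
  have hG := prmOf_good c (g w)
  have hle : opt (instOf k c (g w)) ≤ cap (instOf k c (g w)) := opt_le_cap _ (pairs_ne k)
  refine ⟨arr_wf k _ hG, arr_outer k _ hG, arr_lowDeg k hk _ hG, hle, ?_, ?_⟩
  · intro hw
    have h1 := instOf_yes k c hk (g w) ((hg2 w).1 hw)
    have h2 := (routable_iff (instOf k c (g w)) (pairs_ne k) _).1 h1
    exact le_antisymm hle h2
  · intro hw
    have hns : ¬ CnfSat (g w) := fun h => hw ((hg2 w).2 h)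
    have h1 : Routable (instOf k c (g w)) (opt (instOf k c (g w))) :=
      (routable_iff (instOf k c (g w)) (pairs_ne k) _).2 le_rfl
    have h2 := instOf_no k c hk hc (g w) hns _ h1
    have hcap := cap_instOf k c hk (g w)
    have hq : 1 ≤ (prmOf c (g w)).m + (prmOf c (g w)).B := by have := hG.hm; omega
    have h3 := hnum _ hq
    have hReq : (prmOf c (g w)).R = (7 * ((prmOf c (g w)).m + (prmOf c (g w)).B)) ^ c := rfl
    rw [← hReq, ← hcap] at h3
    have hdvd : 7 ∣ (prmOf c (g w)).R := by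
      rw [hReq]; exact dvd_pow (Dvd.intro _ rfl) (by omega)
    have h4 : (((prmOf c (g w)).R / 7 : ℕ) : ℝ) = ((prmOf c (g w)).R : ℝ) / 7 := by
      rw [Nat.cast_div hdvd (by norm_num)]; norm_num
    have h5 : (opt (instOf k c (g w)) : ℝ) + (((prmOf c (g w)).R / 7 : ℕ) : ℝ) ≤
        (cap (instOf k c (g w)) : ℝ) := by
      exact_mod_cast h2.le
    rw [h4] at h5
    linarith

end Pool.Agent.Work.MP_d41d5f_lc
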