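import Pool.Agent.Work.MP_d41d5f_lc.ED.WvB

/-!
Move (M): in a brick wall one strand can be led to a free row.

Proof. Let `u = p s`, and `w` the target row; no other strand has its row between `u` and `w`
(inclusive). Case `w = u`: idle. Case `w < u`: let `δ = 0` if `x₀ + u - 1` is even, else `δ = 1`.
Define `r k = u` for `k ≤ δ` and `r k = max w (u - (k - δ))` for `k ≥ δ`, and let the configuration
entering column `x₀ + k` be `Function.update p s (r k)`, for `k ≤ H + 1`. Since
`u - w ≤ H - 1` and `δ ≤ 1` we get `r (H+1) = w`. Step in column `x₀ + k`: if `r (k+1) = r k`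
nothing moves. Otherwise `δ ≤ k`, `r k = u - (k-δ) > w`, `r (k+1) = r k - 1`, the only `y` between
is `y = u - (k-δ) - 1`, and `x₀ + k + y = x₀ + δ + u - 1` is even, so `V (x₀+k) y` by hypothesis.
All values `r k` are in `[w, u]`, so the configuration stays injective; only one strand moves, so
the disjointness is trivial (`Btw (p s') (p s') y` is false). Case `u < w`: symmetric, with
`δ = 0` if `x₀ + u` is even, `r k = min w (u + (k - δ))`, the edge between is
`y = u + (k - δ)`, and `x₀ + k + y = x₀ + 2 k + u - δ`, even because `x₀ + u + δ` is even.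
-/

set_option autoImplicit false

namespace Pool.Agent.Work.MP_d41d5f_lc

private theorem move_gen {S : Type} [DecidableEq S] (V : ℕ → ℕ → Prop) (H x₀ : ℕ) (p : S → ℕ)
    (hi : Function.Injective p) (hr : ∀ s, p s < H) (s : S) (w : ℕ) (hw : w < H)
    (hfree : ∀ s', s' ≠ s → ¬ (min w (p s) ≤ p s' ∧ p s' ≤ max w (p s))) (r : ℕ → ℕ)
    (r0 : r 0 = p s) (r1 : r (H + 1) = w) (rb : ∀ k, min w (p s) ≤ r k ∧ r k ≤ max w (p s))
    (hV : ∀ k < H + 1, ∀ y, Btw (r k) (r (k + 1)) y → V (x₀ + k) y) :
    Wv V H x₀ (x₀ + (H + 1)) p (Function.update p s w) := by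
  refine ⟨fun x => Function.update p s (r (x - x₀)), ?_, ?_, ?_⟩
  · show Function.update p s (r (x₀ - x₀)) = p
    rw [Nat.sub_self, r0, Function.update_eq_self]
  · show Function.update p s (r (x₀ + (H + 1) - x₀)) = _
    rw [Nat.add_sub_cancel_left, r1]
  · intro x h0 h1
    obtain ⟨k, rfl⟩ : ∃ k, x = x₀ + k := ⟨x - x₀, by omega⟩
    have e0 : x₀ + k - x₀ = k := by omega
    have e1 : x₀ + k + 1 - x₀ = k + 1 := by omega
    show Step (V (x₀ + k)) H (Function.update p s (r (x₀ + k - x₀)))
      (Function.update p s (r (x₀ + k + 1 - x₀)))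
    rw [e0, e1]
    have hb := rb (k + 1)
    have hself : ∀ a y : ℕ, ¬ Btw a a y := by
      intro a y h
      unfold Btw at h
      omega
    have hps := hr s
    refine ⟨?_, ?_, ?_, ?_⟩
    · intro s'
      by_cases hs : s' = s
      · subst hs
        rw [Function.update_self]
        omega
      · rw [Function.update_of_ne hs]
        exact hr s'
    · intro a b hab
      by_cases ha : a = s
      · by_cases hb' : b = s
        · rw [ha, hb']
        · rw [ha, Function.update_self, Function.update_of_ne hb'] at hab
          exact absurd (by rw [← hab]; exact hb) (hfree b hb')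
      · by_cases hb' : b = s
        · rw [hb', Function.update_self, Function.update_of_ne ha] at hab
          exact absurd (by rw [hab]; exact hb) (hfree a ha)
        · rw [Function.update_of_ne ha, Function.update_of_ne hb'] at hab
          exact hi hab
    · intro s' y hy
      by_cases hs : s' = s
      · subst hs
        rw [Function.update_self, Function.update_self] at hy
        exact hV k (by omega) y hy
      · rw [Function.update_of_ne hs, Function.update_of_ne hs] at hy
        exact absurd hy (hself _ _)
    · intro a b y hab h2 h3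
      by_cases ha : a = s
      · have hb' : b ≠ s := fun h => hab (by rw [ha, h])
        rw [Function.update_of_ne hb', Function.update_of_ne hb'] at h3
        exact hself _ _ h3
      · rw [Function.update_of_ne ha, Function.update_of_ne ha] at h2
        exact hself _ _ h2

theorem move_one {S : Type} [DecidableEq S] (V : ℕ → ℕ → Prop) (H x₀ : ℕ) (p : S → ℕ)
    (hi : Function.Injective p) (hr : ∀ s, p s < H) (s : S) (w : ℕ) (hw : w < H)
    (hfree : ∀ s', s' ≠ s → ¬ (min w (p s) ≤ p s' ∧ p s' ≤ max w (p s)))
    (hV : ∀ x, x₀ ≤ x → x < x₀ + (H + 1) → ∀ y, (x + y) % 2 = 0 → V x y) :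
    Wv V H x₀ (x₀ + (H + 1)) p (Function.update p s w) := by
  have hps := hr s
  rcases Nat.lt_or_ge (p s) w with hlt | hge
  · refine move_gen V H x₀ p hi hr s w hw hfree
      (fun k => min w (p s + (k - (x₀ + p s) % 2))) ?_ ?_ ?_ ?_
    · show min w (p s + (0 - (x₀ + p s) % 2)) = p s
      omega
    · show min w (p s + (H + 1 - (x₀ + p s) % 2)) = w
      omega
    · intro k
      show min w (p s) ≤ min w (p s + (k - (x₀ + p s) % 2)) ∧
        min w (p s + (k - (x₀ + p s) % 2)) ≤ max w (p s)
      omega
    · intro k hk y hy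
      refine hV (x₀ + k) (by omega) (by omega) y ?_
      have hy' : Btw (min w (p s + (k - (x₀ + p s) % 2)))
        (min w (p s + (k + 1 - (x₀ + p s) % 2))) y := hy
      unfold Btw at hy'
      omega
  · refine move_gen V H x₀ p hi hr s w hw hfree
      (fun k => max w (p s - (k - (x₀ + p s + 1) % 2))) ?_ ?_ ?_ ?_
    · show max w (p s - (0 - (x₀ + p s + 1) % 2)) = p s
      omega
    · show max w (p s - (H + 1 - (x₀ + p s + 1) % 2)) = w
      omega
    · intro k
      show min w (p s) ≤ max w (p s - (k - (x₀ + p s + 1) % 2)) ∧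
        max w (p s - (k - (x₀ + p s + 1) % 2)) ≤ max w (p s)
      omega
    · intro k hk y hy
      refine hV (x₀ + k) (by omega) (by omega) y ?_
      have hy' : Btw (max w (p s - (k - (x₀ + p s + 1) % 2)))
        (max w (p s - (k + 1 - (x₀ + p s + 1) % 2))) y := hy
      unfold Btw at hy'
      omega

end Pool.Agent.Work.MP_d41d5f_lc
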