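import Pool.Agent.Work.MP_d41d5f_lc.ED.Geo
import Pool.Agent.Work.MP_d41d5f_lc.ED.EndsI

/-!
The drawing of the array. (Definitions, FIXED.)
-/

set_option autoImplicit false

namespace Pool.Agent.Work.MP_d41d5f_lc

/-- First coordinate of the vertex `[i, j, x, y]`. -/
def pX (P : Prm) (i j x : ℕ) : ℤ := ((i + j) * P.W + x : ℕ)

/-- Second coordinate of the vertex `[i, j, x, y]`. -/
def pY (P : Prm) (i j y : ℕ) : ℤ := (i * (P.H - P.m) + (P.R - j) * (P.H - P.B) + y : ℕ)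

/-- Right side of the rectangle. -/
def xM (P : Prm) : ℤ := (2 * P.R * P.W : ℕ)

/-- Upper side of the rectangle. -/
def yM (P : Prm) : ℤ := (P.R * (P.H - P.m) + P.R * (P.H - P.B) + P.H : ℕ)

/-- The drawing: block vertices at lattice points, the four terminals in the corners of a rectangle,
the isolated terminals on its left side. -/
noncomputable def pos (P : Prm) (v : Vx) : ℝ × ℝ :=
  match v with
  | [i, j, x, y] => lat (pX P i j x) (pY P i j y)
  | [c] => if c = 0 then lat (-1) (-1) else if c = 1 then lat (xM P) (yM P)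
      else if c = 2 then lat (-1) (yM P) else if c = 3 then lat (xM P) (-1)
      else (-1, 1 / (c : ℝ))
  | _ => (0, 0)

/-- A block vertex. -/
def isBV (P : Prm) (v : Vx) : Prop :=
  ∃ i j x y, i < P.R ∧ j < P.R ∧ x < P.W ∧ y < P.H ∧ v = [i, j, x, y]

/-- A unit edge: both ends are block vertices, drawn as a unit segment (with data `X`, `Y`, `b`) . -/
def isUnit (P : Prm) (d : Ed) (X Y : ℤ) (b : Bool) : Prop :=
  isBV P (P.ends d).1 ∧ isBV P (P.ends d).2 ∧ pos P (P.ends d).1 = lat X Y ∧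
    pos P (P.ends d).2 = up X Y b

/-- A fan edge at the terminal `[c]`: the other end is the block vertex `v`. -/
def isFan (P : Prm) (c : ℕ) (v : Vx) (d : Ed) : Prop :=
  c < 4 ∧ isBV P v ∧ (P.ends d = ([c], v) ∨ P.ends d = (v, [c])) ∧
  ((c = 0 ∧ ∃ j α, j < P.R ∧ α < P.m ∧ d = .p 0 j α ∧ v = [0, j, 0, α]) ∨
   (c = 1 ∧ ∃ j α, j < P.R ∧ α < P.m ∧ d = .p P.R j α ∧ v = [P.R - 1, j, P.W - 1, P.H - P.m + α]) ∨
   (c = 2 ∧ ∃ i β, i < P.R ∧ β < P.B ∧ d = .q i 0 β ∧ v = [i, 0, 0, P.H - P.B + β]) ∨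
   (c = 3 ∧ ∃ i β, i < P.R ∧ β < P.B ∧ d = .q i P.R β ∧ v = [i, P.R - 1, P.W - 1, β]))

/-- Directions of the fans. -/
def sgx (c : ℕ) : ℝ := if c = 0 ∨ c = 2 then 1 else -1
def sgy (c : ℕ) : ℝ := if c = 0 ∨ c = 3 then 1 else -1

end Pool.Agent.Work.MP_d41d5f_lc
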