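import Pool.Agent.Work.MP_d41d5f_lc.ED.SDefs

/-!
SBas (M): basic facts on bins, tokens and digits.

Proof. `binL_nodup`, `tokL_nodup`: `List.nodup_append`, `List.nodup_flatMap` over ranges, different
constructors. `mem_binL`, `mem_tokL`: unfold and `simp`.
`dig_lt`: for `Y ⊆ tokens` the digit sum is at most the sum over all tokens of all digits, which is
`Z - 1`: `∑ t ∈ Y, dig t k ≤ ∑ t ∈ tokL.toFinset, ∑ k, dig t k = (tokL.map ..).sum` (nodup).
`need_lt`: every digit of `need b`, `b ∈ binL`, is at most a sum of digits of different tokens: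
for `V x o s`: `3 ≤ ` digit of `A x o true`; `2 (x K + o) + sn s`: digit of `Tp x o s true`;
`x K + o`: digit of `Wr x o true`; `x K + o'` with `o' < K` (`(o+1) % K < K` as `1 ≤ K`): digit of
`A x o' true`; `1`: digits. For `U o`: `1`: the flag of `Fl o true`; `2 (va o K + o) + sn (sg o)`:
digit of `Tp (va o) o (sg o) true` (`va o < n`); `n K`: digit of `Fl o true`; `n K + cl o`: digit of
`Cl o`; `1`: digits. For `G`: `0 < Z`. Each such digit is at most the sum of the digits of this
token, so at most `Z - 1`.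
-/

set_option autoImplicit false

namespace Pool.Agent.Work.MP_d41d5f_lc

namespace Sys

variable (S : Sys)

private theorem sb_flat {α : Type} (K : ℕ) (f : ℕ → List α) (g : α → ℕ)
    (h1 : ∀ o, (f o).Nodup) (h2 : ∀ o, ∀ a ∈ f o, g a = o) :
    ((List.range K).flatMap f).Nodup := by
  rw [List.nodup_flatMap]
  refine ⟨fun o _ => h1 o, ?_⟩
  refine List.Pairwise.imp ?_ (List.nodup_range (n := K))
  intro a b hab
  show List.Disjoint (f a) (f b)
  intro x hx hy
  exact hab ((h2 a x hx).symm.trans (h2 b x hy))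

theorem mem_binL (b : Bn) : b ∈ S.binL ↔ match b with
    | .V x o _ => x < S.n ∧ o < S.K
    | .U o => o < S.K
    | .G => True := by
  cases b with
  | V x o s => cases s <;> simp [binL]
  | U o => simp [binL]
  | G => simp [binL]

theorem mem_tokL (t : Tk) : t ∈ S.tokL ↔ match t with
    | .A x o _ => x < S.n ∧ o < S.K
    | .Wr x o _ => x < S.n ∧ o < S.K
    | .Tp x o _ _ => x < S.n ∧ o < S.K
    | .Cl o => o < S.K
    | .Fl o _ => o < S.K := by
  cases t with
  | A x o f => cases f <;> simp [tokL]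
  | Wr x o f => cases f <;> simp [tokL]
  | Tp x o s f => cases s <;> cases f <;> simp [tokL]
  | Cl o => simp [tokL]
  | Fl o f => cases f <;> simp [tokL]

theorem binL_nodup : S.binL.Nodup := by
  unfold binL
  rw [List.nodup_append]
  refine ⟨?_, ?_, ?_⟩
  · refine sb_flat _ _ (fun b => match b with | .V x _ _ => x | _ => 0) ?_ ?_
    · intro x
      refine sb_flat _ _ (fun b => match b with | .V _ o _ => o | _ => 0) ?_ ?_
      · intro o
        simp
      · intro o a ha
        simp only [List.mem_cons, List.not_mem_nil, or_false] at ha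
        rcases ha with rfl | rfl <;> rfl
    · intro x a ha
      simp only [List.mem_flatMap, List.mem_cons, List.not_mem_nil, or_false] at ha
      obtain ⟨o, _, rfl | rfl⟩ := ha <;> rfl
  · rw [List.nodup_append]
    refine ⟨?_, ?_, ?_⟩
    · refine (List.nodup_range (n := S.K)).map ?_
      intro a b hab
      exact Bn.U.inj hab
    · simp
    · intro a ha b hb
      simp only [List.mem_map] at ha
      obtain ⟨o, _, rfl⟩ := ha
      simp only [List.mem_cons, List.not_mem_nil, or_false] at hb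
      subst hb
      simp
  · intro a ha b hb
    simp only [List.mem_flatMap, List.mem_cons, List.not_mem_nil, or_false] at ha
    simp only [List.mem_append, List.mem_map, List.mem_cons, List.not_mem_nil, or_false] at hb
    obtain ⟨x, _, o, _, rfl | rfl⟩ := ha
    · rcases hb with ⟨o', _, rfl⟩ | rfl <;> simp
    · rcases hb with ⟨o', _, rfl⟩ | rfl <;> simp

private def sb_kx : Tk → ℕ
  | .A x _ _ => x
  | .Wr x _ _ => x
  | .Tp x _ _ _ => x
  | _ => 0

private def sb_ko : Tk → ℕ
  | .A _ o _ => o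
  | .Wr _ o _ => o
  | .Tp _ o _ _ => o
  | .Cl o => o
  | .Fl o _ => o

theorem tokL_nodup : S.tokL.Nodup := by
  unfold tokL
  rw [List.nodup_append]
  refine ⟨?_, ?_, ?_⟩
  · refine sb_flat _ _ sb_kx ?_ ?_
    · intro x
      refine sb_flat _ _ sb_ko ?_ ?_
      · intro o
        simp
      · intro o a ha
        simp only [List.mem_cons, List.not_mem_nil, or_false] at ha
        rcases ha with rfl | rfl | rfl | rfl | rfl | rfl | rfl | rfl <;> rfl
    · intro x a ha
      simp only [List.mem_flatMap, List.mem_cons, List.not_mem_nil, or_false] at ha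
      obtain ⟨o, _, rfl | rfl | rfl | rfl | rfl | rfl | rfl | rfl⟩ := ha <;> rfl
  · refine sb_flat _ _ sb_ko ?_ ?_
    · intro o
      simp
    · intro o a ha
      simp only [List.mem_cons, List.not_mem_nil, or_false] at ha
      rcases ha with rfl | rfl | rfl <;> rfl
  · intro a ha b hb
    simp only [List.mem_flatMap, List.mem_cons, List.not_mem_nil, or_false] at ha hb
    obtain ⟨x, _, o, _, ha⟩ := ha
    obtain ⟨o', _, hb⟩ := hb
    rcases ha with rfl | rfl | rfl | rfl | rfl | rfl | rfl | rfl <;>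
      rcases hb with rfl | rfl | rfl <;> simp

private theorem sb_Z : S.Z = 1 + ∑ t ∈ S.tokL.toFinset, ∑ k, S.dig t k := by
  unfold Z
  rw [List.sum_toFinset _ S.tokL_nodup]

theorem dig_lt (Y : Finset Tk) (hY : ∀ t ∈ Y, t ∈ S.tokL) (k : Fin 7) :
    ∑ t ∈ Y, S.dig t k < S.Z := by
  rw [sb_Z]
  have h1 : ∑ t ∈ Y, S.dig t k ≤ ∑ t ∈ Y, ∑ k, S.dig t k :=
    Finset.sum_le_sum fun t _ => Finset.single_le_sum (f := fun k => S.dig t k)
      (fun _ _ => Nat.zero_le _) (Finset.mem_univ k)
  have h2 : ∑ t ∈ Y, ∑ k, S.dig t k ≤ ∑ t ∈ S.tokL.toFinset, ∑ k, S.dig t k :=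
    Finset.sum_le_sum_of_subset (fun t ht => List.mem_toFinset.2 (hY t ht))
  omega

private theorem sb_one (t : Tk) (ht : t ∈ S.tokL) : ∑ k, S.dig t k < S.Z := by
  rw [sb_Z]
  have h2 : ∑ k, S.dig t k ≤ ∑ t ∈ S.tokL.toFinset, ∑ k, S.dig t k :=
    Finset.single_le_sum (f := fun t => ∑ k, S.dig t k)
      (fun _ _ => Nat.zero_le _) (List.mem_toFinset.2 ht)
  omega

private theorem sb_sum7 (f : Fin 7 → ℕ) : ∑ k, f k = f 0 + f 1 + f 2 + f 3 + f 4 + f 5 + f 6 := by
  simp [Fin.sum_univ_succ]
  ring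

theorem need_lt (hS : S.Good) (b : Bn) (hb : b ∈ S.binL) (k : Fin 7) : S.need b k < S.Z := by
  rw [mem_binL] at hb
  cases b with
  | V x o s =>
    obtain ⟨hx, ho⟩ := hb
    have ho' : (o + 1) % S.K < S.K := Nat.mod_lt _ hS.K1
    have a1 := S.sb_one (.A x o true) ((S.mem_tokL _).2 ⟨hx, ho⟩)
    have a2 := S.sb_one (.A x ((o + 1) % S.K) true) ((S.mem_tokL _).2 ⟨hx, ho'⟩)
    have a3 := S.sb_one (.Wr x o true) ((S.mem_tokL _).2 ⟨hx, ho⟩)
    have a4 := S.sb_one (.Tp x o s true) ((S.mem_tokL _).2 ⟨hx, ho⟩)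
    rw [sb_sum7] at a1 a2 a3 a4
    simp [dig] at a1 a2 a3 a4
    fin_cases k <;> simp [need] <;> (try split_ifs) <;> omega
  | U o =>
    have hv := hS.va o hb
    have a1 := S.sb_one (.Fl o true) ((S.mem_tokL _).2 hb)
    have a3 := S.sb_one (.Cl o) ((S.mem_tokL _).2 hb)
    have a4 := S.sb_one (.Tp (S.va o) o (S.sg o) true) ((S.mem_tokL _).2 ⟨hv, hb⟩)
    rw [sb_sum7] at a1 a3 a4
    simp [dig] at a1 a3 a4
    fin_cases k <;> simp [need] <;> omega
  | G =>
    have : 0 < S.Z := by unfold Z; omega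
    fin_cases k <;> simp [need] <;> omega

end Sys

end Pool.Agent.Work.MP_d41d5f_lc
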