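import Pool.Agent.Work.MP_d41d5f_lc.ED.PackTy
import Pool.Agent.Work.MP_d41d5f_lc.ED.SBas

/-!
PackTk (M): perfect packings of the list `a0` are the distributions of the tokens over the bins with
the required sums.

Proof. Items: `ι = Bn ⊕ Tk`, `il = binL.map inl ++ tokL.map inr` (nodup), `w = Sum.elim bsz tsz`,
`a0 = il.map w`; bins `binL` (it contains `G`); `pack_typed` with `B = cp`.
Put `t = tot`, `r = reqs`, `cp = 2 (t + r) + 1`. For every bin `b`: `req b ≤ r` (a member of the
list), so `cp < 2 * bsz b`: for `b ≠ G`: `bsz b = cp - req b`, `2 (cp - r) > cp` as `cp > 2 r`; for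
`G`: `bsz = cp + r - t ≥ cp - t`, `cp > 2 t`.
(→) Let `G₀ : Bn ⊕ Tk → Bn` be a packing. Two bin items cannot be in the same group (their sum is
larger than `cp`), so `b ↦ G₀ (inl b)` is injective from `binL` to `binL`, hence bijective; let `γ t` for
a token `t ∈ tokL` be the bin `b ∈ binL` with `G₀ (inl b) = G₀ (inr t)`. For `b ∈ binL` the items in
the group `G₀ (inl b)` are `inl b` and the tokens with `γ t = b`, so
`bsz b + ∑ tsz t = cp`; for `b ≠ G` this is `∑ tsz t = req b` (`req b ≤ cp`).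
(←) Given `γ` put `G₀ (inl b) = b`, `G₀ (inr t) = γ t`. For `b ≠ G` the sum of the group is
`cp - req b + req b = cp`. The sum of all items is `∑_{b ≠ G} (cp - req b) + (cp + r - t) + t`, and
`∑_{b ≠ G} req b = r` because `req G = 0`; so it is `cp * binL.length`; the sum of all groups is the
same number, so the group of `G` has the sum `cp` too.
`a0_sum` is this computation; `a0_pos`: `bsz b ≥ 1` as `2 * bsz b > cp`; a token has a digit `1` in
position 4, 5 or 6 and `Z ≥ 1`, so `tsz t ≥ 1`.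
-/

set_option autoImplicit false

namespace Pool.Agent.Work.MP_d41d5f_lc

namespace Sys

variable (S : Sys)

/-- the bins without the last one -/
private def ptFr : List Bn :=
  ((List.range S.n).flatMap fun x => (List.range S.K).flatMap fun o => [.V x o true, .V x o false])
  ++ (List.range S.K).map Bn.U

private theorem pt_binL : S.binL = S.ptFr ++ [Bn.G] := by
  unfold binL ptFr
  rw [List.append_assoc]

private theorem pt_front (b : Bn) (hb : b ∈ S.ptFr) : b ≠ .G := by
  rintro rfl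
  unfold ptFr at hb
  simp at hb

private theorem pt_reqG : S.req .G = 0 := by
  unfold req num need
  refine Finset.sum_eq_zero fun k _ => ?_
  fin_cases k <;> simp

private theorem pt_req_le (b : Bn) (hb : b ∈ S.binL) : S.req b ≤ S.reqs := by
  unfold reqs
  exact List.single_le_sum (fun _ _ => Nat.zero_le _) _ (List.mem_map_of_mem hb)

private theorem pt_cp : S.tot < S.cp ∧ S.reqs < S.cp ∧ S.cp = 2 * (S.tot + S.reqs) + 1 := by
  have h : S.cp = 2 * (S.tot + S.reqs) + 1 := rfl
  omega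

private theorem pt_bszG : S.bsz .G = S.cp + S.reqs - S.tot := by
  unfold bsz
  rw [if_pos rfl]

private theorem pt_bsz (b : Bn) (hb : b ≠ .G) : S.bsz b = S.cp - S.req b := by
  unfold bsz
  rw [if_neg hb]

private theorem pt_big (b : Bn) (hb : b ∈ S.binL) : S.cp < 2 * S.bsz b := by
  obtain ⟨h1, h2, h3⟩ := S.pt_cp
  by_cases hG : b = .G
  · rw [hG, pt_bszG]
    omega
  · have h4 := S.pt_req_le b hb
    rw [pt_bsz S b hG]
    omega

private theorem pt_listsum (l : List Bn) : (∀ b ∈ l, b ≠ .G ∧ S.req b ≤ S.cp) →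
    (l.map S.bsz).sum + (l.map S.req).sum = l.length * S.cp := by
  induction l with
  | nil =>
    intro _
    simp
  | cons b l ih =>
    intro h
    have h1 := ih fun c hc => h c (List.mem_cons_of_mem _ hc)
    have h2 := h b (List.mem_cons_self ..)
    have h3 := S.pt_bsz b h2.1
    rw [List.map_cons, List.map_cons, List.sum_cons, List.sum_cons, List.length_cons, add_mul,
      one_mul]
    omega

theorem a0_sum : S.a0.sum = S.m0 * S.cp := by
  obtain ⟨h1, h2, h3⟩ := S.pt_cp
  have h4 : ∀ b ∈ S.ptFr, b ≠ .G ∧ S.req b ≤ S.cp := by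
    intro b hb
    refine ⟨S.pt_front b hb, le_trans (S.pt_req_le b ?_) h2.le⟩
    rw [pt_binL]
    exact List.mem_append_left _ hb
  have h5 := S.pt_listsum S.ptFr h4
  have h6 : S.reqs = (S.ptFr.map S.req).sum := by
    unfold reqs
    rw [pt_binL, List.map_append, List.sum_append, List.map_singleton, List.sum_singleton,
      pt_reqG, add_zero]
  have h7 : S.m0 = S.ptFr.length + 1 := by
    unfold m0
    rw [pt_binL, List.length_append, List.length_singleton]
  have h8 : S.a0.sum = (S.ptFr.map S.bsz).sum + S.bsz .G + S.tot := by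
    unfold a0
    rw [pt_binL, List.sum_append, List.map_append, List.sum_append, List.map_singleton,
      List.sum_singleton]
    rfl
  rw [h8, h7, add_mul, one_mul, ← h5, pt_bszG]
  omega

theorem a0_pos : ∀ x ∈ S.a0, 1 ≤ x := by
  intro x hx
  obtain ⟨h1, h2, h3⟩ := S.pt_cp
  unfold a0 at hx
  rw [List.mem_append, List.mem_map, List.mem_map] at hx
  rcases hx with ⟨b, hb, rfl⟩ | ⟨t, _, rfl⟩
  · have := S.pt_big b hb
    omega
  · have hZ : 1 ≤ S.Z := by
      unfold Z
      omega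
    have key : ∀ k : Fin 7, 1 ≤ S.dig t k → 1 ≤ S.tsz t := by
      intro k hk
      have h4 : 1 ≤ S.dig t k * S.Z ^ (k : ℕ) :=
        Nat.mul_pos hk (pow_pos (by omega) _)
      refine h4.trans ?_
      unfold tsz num
      exact Finset.single_le_sum (f := fun k : Fin 7 => S.dig t k * S.Z ^ (k : ℕ))
        (fun _ _ => Nat.zero_le _) (Finset.mem_univ k)
    cases t with
    | A x o f => exact key 6 (le_of_eq rfl)
    | Wr x o f => exact key 5 (le_of_eq rfl)
    | Tp x o s f => exact key 4 (le_of_eq rfl)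
    | Cl o => exact key 6 (le_of_eq rfl)
    | Fl o f => exact key 5 (le_of_eq rfl)

theorem m0_pos : 1 ≤ S.m0 := by
  unfold m0
  rw [pt_binL, List.length_append, List.length_singleton]
  omega

/-- the list of the items -/
private def ptIl : List (Bn ⊕ Tk) := S.binL.map Sum.inl ++ S.tokL.map Sum.inr

private theorem ptIl_nodup : S.ptIl.Nodup := by
  unfold ptIl
  rw [List.nodup_append]
  refine ⟨S.binL_nodup.map Sum.inl_injective, S.tokL_nodup.map Sum.inr_injective, ?_⟩
  intro a ha b hb hab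
  rw [List.mem_map] at ha hb
  obtain ⟨x, _, rfl⟩ := ha
  obtain ⟨y, _, rfl⟩ := hb
  exact absurd hab (by simp)

private theorem ptIl_map : S.ptIl.map (Sum.elim S.bsz S.tsz) = S.a0 := by
  unfold ptIl a0
  rw [List.map_append, List.map_map, List.map_map]
  rfl

private theorem ptIl_fin : S.ptIl.toFinset = S.binL.toFinset.disjSum S.tokL.toFinset := by
  ext x
  unfold ptIl
  rw [List.mem_toFinset, List.mem_append, List.mem_map, List.mem_map, Finset.mem_disjSum]
  simp only [List.mem_toFinset]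

private theorem pt_split (G₀ : Bn ⊕ Tk → Bn) (b : Bn) :
    (∑ t ∈ S.ptIl.toFinset.filter (fun t => G₀ t = b), Sum.elim S.bsz S.tsz t) =
      (∑ c ∈ S.binL.toFinset.filter (fun c => G₀ (.inl c) = b), S.bsz c) +
      ∑ t ∈ S.tokL.toFinset.filter (fun t => G₀ (.inr t) = b), S.tsz t := by
  rw [Finset.sum_filter, ptIl_fin, Finset.sum_disjSum, Finset.sum_filter, Finset.sum_filter]
  rfl

private theorem pt_bne : S.binL ≠ [] := by
  rw [pt_binL]
  simp

private theorem pt_G_mem : Bn.G ∈ S.binL := by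
  rw [pt_binL]
  exact List.mem_append_right _ (by simp)

private theorem pt_to (G₀ : Bn ⊕ Tk → Bn) (h1 : ∀ t ∈ S.ptIl, G₀ t ∈ S.binL)
    (h2 : ∀ b ∈ S.binL,
      (∑ t ∈ S.ptIl.toFinset.filter (fun t => G₀ t = b), Sum.elim S.bsz S.tsz t) = S.cp) :
    ∃ γ : Tk → Bn, (∀ t ∈ S.tokL, γ t ∈ S.binL) ∧
      ∀ b ∈ S.binL, b ≠ .G → (∑ t ∈ S.grp γ b, S.tsz t) = S.req b := by
  obtain ⟨_, hc2, _⟩ := S.pt_cp
  have hbm : ∀ b ∈ S.binL, G₀ (.inl b) ∈ S.binL := by
    intro b hb
    apply h1
    unfold ptIl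
    exact List.mem_append_left _ (List.mem_map_of_mem hb)
  have htm : ∀ t ∈ S.tokL, G₀ (.inr t) ∈ S.binL := by
    intro t ht
    apply h1
    unfold ptIl
    exact List.mem_append_right _ (List.mem_map_of_mem ht)
  have hinj : ∀ b ∈ S.binL, ∀ c ∈ S.binL, G₀ (.inl b) = G₀ (.inl c) → b = c := by
    intro b hb c hc hbc
    by_contra hne
    have h3 := h2 _ (hbm c hc)
    rw [pt_split] at h3
    have h4 : S.bsz b + S.bsz c ≤
        ∑ d ∈ S.binL.toFinset.filter (fun d => G₀ (.inl d) = G₀ (.inl c)), S.bsz d := by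
      rw [← Finset.sum_pair hne]
      apply Finset.sum_le_sum_of_subset
      intro d hd
      rw [Finset.mem_insert, Finset.mem_singleton] at hd
      rw [Finset.mem_filter, List.mem_toFinset]
      rcases hd with rfl | rfl
      · exact ⟨hb, hbc⟩
      · exact ⟨hc, rfl⟩
    have h5 := S.pt_big b hb
    have h6 := S.pt_big c hc
    omega
  have himg : S.binL.toFinset.image (fun b => G₀ (.inl b)) = S.binL.toFinset := by
    apply Finset.eq_of_subset_of_card_le
    · intro c hc
      rw [Finset.mem_image] at hc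
      obtain ⟨b, hb, rfl⟩ := hc
      rw [List.mem_toFinset] at hb ⊢
      exact hbm b hb
    · rw [Finset.card_image_of_injOn]
      intro b hb c hc hbc
      have hb' : b ∈ S.binL := List.mem_toFinset.1 hb
      have hc' : c ∈ S.binL := List.mem_toFinset.1 hc
      exact hinj b hb' c hc' hbc
  have hex : ∀ c : Bn, ∃ b : Bn, c ∈ S.binL → b ∈ S.binL ∧ G₀ (.inl b) = c := by
    intro c
    by_cases hc : c ∈ S.binL
    · have h3 : c ∈ S.binL.toFinset.image (fun b => G₀ (.inl b)) := by
        rw [himg, List.mem_toFinset]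
        exact hc
      rw [Finset.mem_image] at h3
      obtain ⟨b, hb, hbc⟩ := h3
      exact ⟨b, fun _ => ⟨List.mem_toFinset.1 hb, hbc⟩⟩
    · exact ⟨c, fun h => absurd h hc⟩
  choose φ hφ using hex
  refine ⟨fun t => φ (G₀ (.inr t)), fun t ht => (hφ _ (htm t ht)).1, ?_⟩
  intro b hb hbG
  have h3 := h2 _ (hbm b hb)
  rw [pt_split] at h3
  have h4 : S.binL.toFinset.filter (fun d => G₀ (.inl d) = G₀ (.inl b)) = {b} := by
    ext d
    rw [Finset.mem_filter, List.mem_toFinset, Finset.mem_singleton]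
    constructor
    · rintro ⟨hd, hdb⟩
      exact hinj d hd b hb hdb
    · rintro rfl
      exact ⟨hb, rfl⟩
  have h5 : S.tokL.toFinset.filter (fun t => G₀ (.inr t) = G₀ (.inl b)) =
      S.grp (fun t => φ (G₀ (.inr t))) b := by
    unfold grp
    ext t
    rw [Finset.mem_filter, Finset.mem_filter, List.mem_toFinset]
    constructor
    · rintro ⟨ht, htb⟩
      refine ⟨ht, ?_⟩
      have h6 := hφ _ (htm t ht)
      exact hinj _ h6.1 b hb (h6.2.trans htb)
    · rintro ⟨ht, htb⟩
      refine ⟨ht, ?_⟩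
      have h6 := hφ _ (htm t ht)
      rw [← h6.2]
      exact congrArg (fun c => G₀ (.inl c)) htb
  rw [h4, Finset.sum_singleton, h5, pt_bsz S b hbG] at h3
  have h6 := S.pt_req_le b hb
  omega

private theorem pt_from (γ : Tk → Bn) (h1 : ∀ t ∈ S.tokL, γ t ∈ S.binL)
    (h2 : ∀ b ∈ S.binL, b ≠ .G → (∑ t ∈ S.grp γ b, S.tsz t) = S.req b) :
    (∀ t ∈ S.ptIl, (Sum.elim id γ : Bn ⊕ Tk → Bn) t ∈ S.binL) ∧ ∀ b ∈ S.binL,
      (∑ t ∈ S.ptIl.toFinset.filter (fun t => (Sum.elim id γ : Bn ⊕ Tk → Bn) t = b),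
        Sum.elim S.bsz S.tsz t) = S.cp := by
  obtain ⟨_, hc2, _⟩ := S.pt_cp
  have hm : ∀ t ∈ S.ptIl, (Sum.elim id γ : Bn ⊕ Tk → Bn) t ∈ S.binL := by
    intro t ht
    unfold ptIl at ht
    rw [List.mem_append, List.mem_map, List.mem_map] at ht
    rcases ht with ⟨b, hb, rfl⟩ | ⟨t, ht, rfl⟩
    · exact hb
    · exact h1 t ht
  have hne : ∀ b ∈ S.binL, b ≠ .G →
      (∑ t ∈ S.ptIl.toFinset.filter (fun t => (Sum.elim id γ : Bn ⊕ Tk → Bn) t = b),
        Sum.elim S.bsz S.tsz t) = S.cp := by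
    intro b hb hbG
    rw [pt_split]
    have h4 : S.binL.toFinset.filter
        (fun d => (Sum.elim id γ : Bn ⊕ Tk → Bn) (.inl d) = b) = {b} := by
      ext d
      rw [Finset.mem_filter, List.mem_toFinset, Finset.mem_singleton]
      constructor
      · rintro ⟨_, hd⟩
        exact hd
      · rintro rfl
        exact ⟨hb, rfl⟩
    have h5 : (∑ t ∈ S.tokL.toFinset.filter
        (fun t => (Sum.elim id γ : Bn ⊕ Tk → Bn) (.inr t) = b), S.tsz t) = S.req b :=
      h2 b hb hbG
    rw [h4, Finset.sum_singleton, h5, pt_bsz S b hbG]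
    have h6 := S.pt_req_le b hb
    omega
  refine ⟨hm, fun b hb => ?_⟩
  by_cases hbG : b = .G
  · subst hbG
    have h3 : (∑ b ∈ S.binL.toFinset,
        ∑ t ∈ S.ptIl.toFinset.filter (fun t => (Sum.elim id γ : Bn ⊕ Tk → Bn) t = b),
          Sum.elim S.bsz S.tsz t) = ∑ t ∈ S.ptIl.toFinset, Sum.elim S.bsz S.tsz t := by
      apply Finset.sum_fiberwise_of_maps_to
      intro t ht
      rw [List.mem_toFinset] at ht ⊢
      exact hm t ht
    rw [List.sum_toFinset _ S.ptIl_nodup, ptIl_map, a0_sum] at h3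
    have hGm : Bn.G ∈ S.binL.toFinset := List.mem_toFinset.2 hb
    have h10 : (∑ b ∈ S.binL.toFinset.erase Bn.G,
        ∑ t ∈ S.ptIl.toFinset.filter (fun t => (Sum.elim id γ : Bn ⊕ Tk → Bn) t = b),
          Sum.elim S.bsz S.tsz t) = (S.m0 - 1) * S.cp := by
      rw [Finset.sum_congr rfl fun c hc => hne c (by
        rw [Finset.mem_erase, List.mem_toFinset] at hc
        exact hc.2) (by
        rw [Finset.mem_erase] at hc
        exact hc.1), Finset.sum_const, Finset.card_erase_of_mem hGm,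
        List.toFinset_card_of_nodup S.binL_nodup, smul_eq_mul]
      rfl
    rw [← Finset.add_sum_erase _ _ hGm, h10] at h3
    have h8 : 1 ≤ S.m0 := S.m0_pos
    have h9 : S.m0 * S.cp = (S.m0 - 1) * S.cp + S.cp := by
      obtain ⟨k, hk⟩ : ∃ k, S.m0 = k + 1 := ⟨S.m0 - 1, by omega⟩
      rw [hk, Nat.add_sub_cancel]
      ring
    omega
  · exact hne b hb hbG

theorem pack_tk : Pack S.m0 S.cp S.a0 ↔ ∃ γ : Tk → Bn, (∀ t ∈ S.tokL, γ t ∈ S.binL) ∧
    ∀ b ∈ S.binL, b ≠ .G → (∑ t ∈ S.grp γ b, S.tsz t) = S.req b := by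
  have h := pack_typed S.ptIl S.binL S.ptIl_nodup S.binL_nodup S.pt_bne
    (Sum.elim S.bsz S.tsz) S.cp
  rw [ptIl_map] at h
  refine h.trans ⟨?_, ?_⟩
  · rintro ⟨G₀, h1, h2⟩
    exact S.pt_to G₀ h1 h2
  · rintro ⟨γ, h1, h2⟩
    exact ⟨_, S.pt_from γ h1 h2⟩

end Sys

end Pool.Agent.Work.MP_d41d5f_lc
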