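import Pool.Agent.Work.MP_d41d5f_lc.ED.Defs

/-!
PackTy (M): packings of a list of numbers given by typed items and typed bins.

Proof. Let `n = il.length`, `m = bl.length`. The entries of `il.map w` are `w (il[i])`.
(→) Given `g : ℕ → ℕ` put `G t = bl[g (idx t)]` where `idx t = il.idxOf t` (for `t ∈ il` this index is
`< n`, so `g (idx t) < m`); for `t ∉ il` any value of the type (the list `bl` is nonempty if `il` has
an element; if `bl` is empty then `il` is empty too, and a function `ι → β` may not exist: this case
is excluded by `hbl`). For `b = bl[j]`: `G t = b ↔ g (idx t) = j` because `bl` is nodup. The sum over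
`t ∈ il.toFinset` with `G t = b` is the sum over the indices `i < n` with `g i = j` (bijection
`i ↦ il[i]`, as `il` is nodup: `List.idxOf_getElem`), which is `B`.
(←) Given `G` put `g i = bl.idxOf (G (il[i]))` for `i < n` (`0` for other `i`); it is `< m`; and the
sum over `i < n` with `g i = j` is the sum over `t` with `G t = bl[j]`.
-/

set_option autoImplicit false

namespace Pool.Agent.Work.MP_d41d5f_lc

private theorem sum_key {ι : Type} [DecidableEq ι] (il : List ι) (hil : il.Nodup) (w : ι → ℕ)
    (P : ℕ → Prop) [DecidablePred P] (Q : ι → Prop) [DecidablePred Q]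
    (hPQ : ∀ i (h : i < il.length), P i ↔ Q il[i]) :
    ∑ i ∈ (Finset.range (il.map w).length).filter P, (il.map w).getD i 0 =
      ∑ t ∈ il.toFinset.filter Q, w t := by
  have hlt : ∀ i ∈ (Finset.range (il.map w).length).filter P, i < il.length := by
    intro i hi
    rw [Finset.mem_filter, Finset.mem_range, List.length_map] at hi
    exact hi.1
  refine Finset.sum_bij (fun i hi => il[i]'(hlt i hi)) ?_ ?_ ?_ ?_
  · intro i hi
    rw [Finset.mem_filter, List.mem_toFinset]
    exact ⟨List.getElem_mem _, (hPQ i (hlt i hi)).1 (Finset.mem_filter.1 hi).2⟩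
  · intro i hi i' hi' h
    exact (List.Nodup.getElem_inj_iff hil).1 h
  · intro t ht
    rw [Finset.mem_filter, List.mem_toFinset] at ht
    obtain ⟨i, hi, he⟩ := List.getElem_of_mem ht.1
    refine ⟨i, ?_, he⟩
    rw [Finset.mem_filter, Finset.mem_range, List.length_map]
    refine ⟨hi, (hPQ i hi).2 ?_⟩
    rw [he]
    exact ht.2
  · intro i hi
    have h1 : i < (il.map w).length := by
      rw [List.length_map]
      exact hlt i hi
    rw [List.getD_eq_getElem _ _ h1, List.getElem_map]

theorem pack_typed {ι β : Type} [DecidableEq ι] [DecidableEq β] (il : List ι) (bl : List β)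
    (hil : il.Nodup) (hbl : bl.Nodup) (hne : bl ≠ []) (w : ι → ℕ) (B : ℕ) :
    Pack bl.length B (il.map w) ↔ ∃ G : ι → β, (∀ t ∈ il, G t ∈ bl) ∧
      ∀ b ∈ bl, (∑ t ∈ il.toFinset.filter (fun t => G t = b), w t) = B := by
  obtain ⟨b₀, bl', rfl⟩ := List.exists_cons_of_ne_nil hne
  generalize hbb : b₀ :: bl' = bl at *
  constructor
  · rintro ⟨g, hg, hs⟩
    have hgi : ∀ i (h : i < il.length), g i < bl.length := fun i h =>
      hg i (by rw [List.length_map]; exact h)
    refine ⟨fun t => bl.getD (g (il.idxOf t)) b₀, ?_, ?_⟩
    · intro t ht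
      have h1 := hgi _ (List.idxOf_lt_length_iff.2 ht)
      show bl.getD (g (il.idxOf t)) b₀ ∈ bl
      rw [List.getD_eq_getElem _ _ h1]
      exact List.getElem_mem _
    · intro b hb
      obtain ⟨j, hj, rfl⟩ := List.getElem_of_mem hb
      rw [← hs j hj]
      symm
      refine sum_key il hil w (fun i => g i = j) _ ?_
      intro i hi
      show g i = j ↔ bl.getD (g (il.idxOf il[i])) b₀ = bl[j]
      rw [List.Nodup.idxOf_getElem hil, List.getD_eq_getElem _ _ (hgi i hi),
        List.Nodup.getElem_inj_iff hbl]
  · rintro ⟨G, hG, hs⟩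
    have hmem : ∀ i (h : i < il.length), G il[i] ∈ bl := fun i h => hG _ (List.getElem_mem _)
    refine ⟨fun i => if h : i < il.length then bl.idxOf (G il[i]) else 0, ?_, ?_⟩
    · intro i hi
      rw [List.length_map] at hi
      show (if h : i < il.length then bl.idxOf (G il[i]) else 0) < bl.length
      rw [dif_pos hi]
      exact List.idxOf_lt_length_iff.2 (hmem i hi)
    · intro j hj
      rw [← hs bl[j] (List.getElem_mem _)]
      refine sum_key il hil w _ _ ?_
      intro i hi
      show (if h : i < il.length then bl.idxOf (G il[i]) else 0) = j ↔ G il[i] = bl[j]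
      rw [dif_pos hi]
      constructor
      · intro h
        subst h
        rw [List.getElem_idxOf]
      · intro h
        rw [h, List.Nodup.idxOf_getElem hbl]

end Pool.Agent.Work.MP_d41d5f_lc
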