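import Pool.Agent.Work.MP_d41d5f_lc.ED.PadD

/-!
PadF (S-M): simple facts on padded lists.

Proof. Write `D = padD m B`, `K = padK m B`, `B₁ = B * (m+1)`.
`padL_sum`: the start pads have the sum `m K + D (0 + ... + (m-1))` (reflect the index), the end
pads `m K + D (1 + ... + m)`, together `2 m K + m² D`; the scaled numbers `(m+1) * a.sum =
m * B₁`; total `m * (2 K + m D + B₁)`.
`padL_big`: `K ≥ m * D + 1 ≥ m + 1` since `D ≥ 1`; scaled numbers are at least `m + 1`.
`padL_getD` gives the entries: first `m` entries, then `a.length` scaled ones, then `m` end pads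
(`List.getD_append`, `List.getD_append_right`, or `List.getElem?_append`).
-/

set_option autoImplicit false

namespace Pool.Agent.Work.MP_d41d5f_lc

private theorem pf_getD_range (f : ℕ → ℕ) (m t : ℕ) (ht : t < m) :
    ((List.range m).map f).getD t 0 = f t := by
  rw [List.getD_eq_getElem _ _ (by simpa using ht)]
  simp

private theorem padD_pos (m B : ℕ) : 1 ≤ padD m B := by
  unfold padD
  omega

private theorem padK_big (m B : ℕ) : m < padK m B := by
  have h := padD_pos m B
  have h1 : m * 1 ≤ m * padD m B := Nat.mul_le_mul_left m h
  unfold padK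
  omega

theorem padL_length (m B : ℕ) (a : List ℕ) : (padL m B a).length = m + (a.length + m) := by
  unfold padL
  simp

theorem padL_sum (m B : ℕ) (a : List ℕ) (hs : a.sum = m * B) :
    (padL m B a).sum = m * padB m B := by
  unfold padL
  rw [List.sum_append, List.sum_append, List.sum_map_mul_right, List.map_id', hs]
  have h1 : ((List.range m).map fun t => padK m B + (m - 1 - t) * padD m B).sum +
      ((List.range m).map fun t => padK m B + (t + 1) * padD m B).sum =
      m * (2 * padK m B + m * padD m B) := by
    rw [← List.sum_map_add]
    have h2 : (List.range m).map (fun t => (padK m B + (m - 1 - t) * padD m B) +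
        (padK m B + (t + 1) * padD m B)) =
        (List.range m).map (fun _ => 2 * padK m B + m * padD m B) := by
      refine List.map_congr_left fun t ht => ?_
      have h3 : t < m := List.mem_range.1 ht
      have h4 : (m - 1 - t) * padD m B + (t + 1) * padD m B = m * padD m B := by
        rw [← Nat.add_mul]
        congr 1
        omega
      omega
    rw [h2, List.map_const', List.sum_replicate, List.length_range, smul_eq_mul]
  have h5 : m * padB m B = m * (2 * padK m B + m * padD m B) + m * B * (m + 1) := by
    unfold padB
    ring
  omega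

theorem padL_big (m B : ℕ) (a : List ℕ) (ha : ∀ x ∈ a, 1 ≤ x) : ∀ x ∈ padL m B a, m < x := by
  intro x hx
  have hK := padK_big m B
  unfold padL at hx
  rw [List.mem_append, List.mem_append, List.mem_map, List.mem_map, List.mem_map] at hx
  rcases hx with ⟨t, _, rfl⟩ | ⟨y, hy, rfl⟩ | ⟨t, _, rfl⟩
  · exact lt_of_lt_of_le hK (Nat.le_add_right _ _)
  · have h1 : 1 * (m + 1) ≤ y * (m + 1) := Nat.mul_le_mul_right _ (ha y hy)
    omega
  · exact lt_of_lt_of_le hK (Nat.le_add_right _ _)

theorem padB_pos (m B : ℕ) : 1 ≤ padB m B := by
  have hK := padK_big m B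
  have h1 : padK m B ≤ padB m B := by
    unfold padB
    omega
  omega

theorem padL_start (m B : ℕ) (a : List ℕ) (t : ℕ) (ht : t < m) :
    (padL m B a).getD t 0 = padK m B + (m - 1 - t) * padD m B := by
  unfold padL
  rw [List.getD_append _ _ _ _ (by simpa using ht)]
  exact pf_getD_range (fun t => padK m B + (m - 1 - t) * padD m B) m t ht

theorem padL_mid (m B : ℕ) (a : List ℕ) (t : ℕ) (ht : t < a.length) :
    (padL m B a).getD (m + t) 0 = a.getD t 0 * (m + 1) := by
  unfold padL
  rw [List.getD_append_right _ _ _ _ (by simp)]
  have h1 : m + t - ((List.range m).map fun t => padK m B + (m - 1 - t) * padD m B).length = t := by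
    simp
  rw [h1, List.getD_append _ _ _ _ (by simpa using ht),
    List.getD_eq_getElem _ _ (by simpa using ht), List.getD_eq_getElem _ _ ht, List.getElem_map]

theorem padL_end (m B : ℕ) (a : List ℕ) (t : ℕ) (ht : t < m) :
    (padL m B a).getD (m + a.length + t) 0 = padK m B + (t + 1) * padD m B := by
  unfold padL
  rw [List.getD_append_right _ _ _ _ (by simp; omega)]
  have h1 : m + a.length + t -
      ((List.range m).map fun t => padK m B + (m - 1 - t) * padD m B).length = a.length + t := by
    rw [List.length_map, List.length_range]
    omega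
  rw [h1, List.getD_append_right _ _ _ _ (by simp)]
  have h2 : a.length + t - (a.map fun x => x * (m + 1)).length = t := by
    rw [List.length_map]
    omega
  rw [h2]
  exact pf_getD_range (fun t => padK m B + (t + 1) * padD m B) m t ht

end Pool.Agent.Work.MP_d41d5f_lc
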