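import Pool.Agent.Work.MP_d41d5f_lc.ED.BDefs

/-!
XCol (M): the crossing columns are `col i j`, `i < a.length`, `j < a i`; their number is the sum of
the list.

Proof. Let `T = P.T = 2 * (a.sum + (m+B) * (H+1))`; since `1 ≤ m` and `0 < H + 1` we have
`2 * a.sum < T`, and every entry of `a` is at most `a.sum`, so `2 * a i < T` for all `i`.
`isz 0 = 0`, `isz (i+1) = a.getD i 0` (`List.getD_cons_zero`, `List.getD_cons_succ`).
(1) For `i < a.length`, `j < a.getD i 0`: `col i j = (i+1) * T + 2 * j` with `2 * j < T`, so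
`col i j / T = i + 1`, `col i j % T = 2 * j < 2 * isz (i+1)`, even, and
`col i j < (i+2) * T ≤ (a.length+1) * T = W`.
(2) If `x < W` and `isX x`: let `k = x / T < a.length + 1`, `r = x % T < 2 * isz k`, `r` even.
`isz k > 0` so `k ≠ 0`, `k = i + 1`, `i < a.length`, `r = 2 * j` with `j < a.getD i 0`, and
`x = k * T + r = col i j`.
(3) Injectivity: `col i j = col i' j'` with `2 * j, 2 * j' < T` gives the quotients and remainders.
(4) Number: the set of crossing columns is the image of the sigma type (i, j) under the injective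
map `col`, so its cardinality is `∑ i < a.length, a.getD i 0 = a.sum`.
(5) For `j + 1 < a.getD i 0` the column `x = col i j + 1` has `x / T = i + 1`, `x % T = 2 * j + 1`,
which is `< 2 * isz (i+1)` and odd: `vert x ρ` asks `(ρ - ρ + (2j+1))` even: false; `vert x (ρ-1)`
(here `ρ ≥ 1` as `m ≥ 1`): `(ρ-1-(ρ-1) + (2j+1))` even: false.
-/

set_option autoImplicit false

namespace Pool.Agent.Work.MP_d41d5f_lc

private theorem getD_le_sum : ∀ (a : List ℕ) (i : ℕ), a.getD i 0 ≤ a.sum
  | [], i => by simp
  | b :: a, 0 => by simp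
  | b :: a, i + 1 => by
    rw [List.getD_cons_succ, List.sum_cons]
    have := getD_le_sum a i
    omega

private theorem sum_getD : ∀ a : List ℕ, ∑ i ∈ Finset.range a.length, a.getD i 0 = a.sum
  | [] => by simp
  | b :: a => by
    rw [List.length_cons, Finset.sum_range_succ', List.sum_cons, List.getD_cons_zero]
    simp only [List.getD_cons_succ]
    rw [sum_getD a, Nat.add_comm]

private theorem isz_zero (P : Prm) : P.isz 0 = 0 := rfl

private theorem isz_succ (P : Prm) (i : ℕ) : P.isz (i + 1) = P.a.getD i 0 := by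
  unfold Prm.isz
  rw [List.getD_cons_succ]

private theorem two_lt (P : Prm) (hg : P.Good) (i : ℕ) : 2 * P.a.getD i 0 < P.T := by
  have h1 := getD_le_sum P.a i
  have h2 : 1 ≤ (P.m + P.B) * (P.H + 1) := by
    have := hg.hm
    exact Nat.mul_pos (by omega) (by omega)
  unfold Prm.T
  omega

private theorem div_col (P : Prm) (i r : ℕ) (h : r < P.T) : ((i + 1) * P.T + r) / P.T = i + 1 := by
  have h0 : 0 < P.T := by omega
  rw [Nat.add_comm, Nat.add_mul_div_right _ _ h0, Nat.div_eq_of_lt h, Nat.zero_add]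

private theorem mod_col (P : Prm) (i r : ℕ) (h : r < P.T) : ((i + 1) * P.T + r) % P.T = r := by
  rw [Nat.add_comm, Nat.add_mul_mod_self_right, Nat.mod_eq_of_lt h]

theorem col_lt (P : Prm) (hg : P.Good) (i j : ℕ) (hi : i < P.a.length) (hj : j < P.a.getD i 0) :
    P.col i j < P.W ∧ P.isX (P.col i j) = true := by
  have h1 := two_lt P hg i
  have h2 : 2 * j < P.T := by omega
  constructor
  · unfold Prm.col Prm.W
    have h3 : (i + 1) * P.T + 2 * j < (i + 2) * P.T := by
      have : (i + 2) * P.T = (i + 1) * P.T + P.T := by ring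
      omega
    exact h3.trans_le (Nat.mul_le_mul_right _ (by omega))
  · unfold Prm.isX Prm.col
    rw [div_col P i _ h2, mod_col P i _ h2, isz_succ, Bool.and_eq_true, decide_eq_true_eq,
      decide_eq_true_eq]
    omega

theorem col_surj (P : Prm) (hg : P.Good) (x : ℕ) (hx : x < P.W) (h : P.isX x = true) :
    ∃ i j, i < P.a.length ∧ j < P.a.getD i 0 ∧ x = P.col i j := by
  unfold Prm.isX at h
  rw [Bool.and_eq_true, decide_eq_true_eq, decide_eq_true_eq] at h
  unfold Prm.W at hx
  have hk : x / P.T < P.a.length + 1 := by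
    apply Nat.div_lt_of_lt_mul
    rwa [Nat.mul_comm]
  have hdm := Nat.div_add_mod x P.T
  rcases Nat.eq_zero_or_pos (x / P.T) with h0 | h0
  · rw [h0, isz_zero] at h
    omega
  · obtain ⟨i, hi⟩ : ∃ i, x / P.T = i + 1 := ⟨x / P.T - 1, by omega⟩
    rw [hi, isz_succ] at h
    rw [hi] at hdm hk
    refine ⟨i, x % P.T / 2, by omega, by omega, ?_⟩
    unfold Prm.col
    rw [Nat.mul_comm (i + 1) P.T]
    omega

theorem col_inj (P : Prm) (hg : P.Good) (i j i' j' : ℕ) (hj : j < P.a.getD i 0)
    (hj' : j' < P.a.getD i' 0) (h : P.col i j = P.col i' j') : i = i' ∧ j = j' := by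
  have h1 := two_lt P hg i
  have h2 := two_lt P hg i'
  unfold Prm.col at h
  have e1 := congrArg (fun x => x / P.T) h
  have e2 := congrArg (fun x => x % P.T) h
  rw [div_col P i _ (by omega), div_col P i' _ (by omega)] at e1
  rw [mod_col P i _ (by omega), mod_col P i' _ (by omega)] at e2
  omega

theorem col_card (P : Prm) (hg : P.Good) :
    ((Finset.range P.W).filter fun x => P.isX x = true).card = P.a.sum := by
  rw [← sum_getD P.a]
  have h1 : ∑ i ∈ Finset.range P.a.length, P.a.getD i 0 =
      ((Finset.range P.a.length).sigma (fun i => Finset.range (P.a.getD i 0))).card := by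
    rw [Finset.card_sigma]
    refine Finset.sum_congr rfl (fun i _ => ?_)
    rw [Finset.card_range]
  rw [h1]
  symm
  refine Finset.card_bij (fun t _ => P.col t.1 t.2) ?_ ?_ ?_
  · rintro ⟨i, j⟩ ht
    rw [Finset.mem_sigma, Finset.mem_range, Finset.mem_range] at ht
    rw [Finset.mem_filter, Finset.mem_range]
    exact col_lt P hg i j ht.1 ht.2
  · rintro ⟨i, j⟩ ht ⟨i', j'⟩ ht' h
    rw [Finset.mem_sigma, Finset.mem_range, Finset.mem_range] at ht ht'
    obtain ⟨e1, e2⟩ := col_inj P hg i j i' j' ht.2 ht'.2 h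
    subst e1
    subst e2
    rfl
  · intro x hx
    rw [Finset.mem_filter, Finset.mem_range] at hx
    obtain ⟨i, j, hi, hj, he⟩ := col_surj P hg x hx.1 hx.2
    refine ⟨⟨i, j⟩, ?_, he.symm⟩
    rw [Finset.mem_sigma, Finset.mem_range, Finset.mem_range]
    exact ⟨hi, hj⟩

theorem col_next (P : Prm) (hg : P.Good) (i j : ℕ) (hi : i < P.a.length)
    (hj : j + 1 < P.a.getD i 0) :
    P.vert (P.col i j + 1) P.rho = false ∧ P.vert (P.col i j + 1) (P.rho - 1) = false := by
  have h1 := two_lt P hg i
  have h2 : 2 * j + 1 < P.T := by omega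
  have e1 : P.col i j + 1 = (i + 1) * P.T + (2 * j + 1) := by
    unfold Prm.col
    omega
  have hρ : 1 ≤ P.rho := by
    have := hg.hm
    unfold Prm.rho
    omega
  unfold Prm.vert
  rw [e1, div_col P i _ h2, mod_col P i _ h2, isz_succ]
  have h3 : 2 * j + 1 < 2 * P.a.getD i 0 := by omega
  have h4 : ¬ P.rho ≤ P.rho - 1 := by omega
  rw [if_pos h3, if_pos h3, if_pos le_rfl, if_neg h4, decide_eq_false_iff_not,
    decide_eq_false_iff_not]
  omega

end Pool.Agent.Work.MP_d41d5f_lc
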