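import Pool.Agent.Work.MP_d41d5f_lc.ED.CrossZ
import Pool.Agent.Work.MP_d41d5f_lc.ED.LocX
import Pool.Agent.Work.MP_d41d5f_lc.ED.XCol

/-!
PairX (M): in a full routing the crossing columns correspond bijectively to the pairs of strands.

Proof. Write `ρ = P.rho`; note `ρ < H`. Let `α`, `β` be given. By `cross_sum` (the left rows:
`yP < m ≤ H - B ≤ yQ`, because `H = 2ρ+1` and `ρ ≥ m + B`; the right rows: `zQ < B ≤ H - m ≤ zP`)
the sum of all `loc` of the pair `(inl α, inr β)` is `1`; by `loc_zero` all terms with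
`¬ (y = ρ ∧ isX x)` vanish (the disjointness hypotheses come from `dh`, `dv` with
`inl α ≠ inr β`); so some `x < W` with `isX x` has `loc x ρ ≠ 0`, and by `loc_str`
`Str (hz (inl α)) (vt (inl α)) (hz (inr β)) (vt (inr β)) x ρ`. Choose such an `x = χ (α, β)`.
`χ` is injective: if `Str` holds at `(x, ρ)` for `(α, β)` and for `(α', β')`: in the first form of
`Str` for `(α, β)`, `hz (inl α) x ρ` and `vt (inr β) x ρ` are true; for `(α', β')` either
`hz (inl α') x ρ` and `vt (inr β') x ρ` are true, and `dh`, `dv` give `α = α'`, `β = β'`, or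
`hz (inr β') x ρ` is true and `dh` gives `inl α = inr β'`, absurd. The second form is symmetric.
The number of crossing columns is `a.sum = m * B` (`col_card`), which is the number of pairs, so
the injective map `χ` from the pairs into the crossing columns is a bijection. Let `pr x` be the
inverse (any value outside). Then `Str` holds for `pr x` at every crossing column, `pr` is
injective and surjective on the crossing columns.
-/

set_option autoImplicit false

namespace Pool.Agent.Work.MP_d41d5f_lc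

private theorem str_uniq {P : Prm} {hz vt : (Fin P.m ⊕ Fin P.B) → ℕ → ℕ → Bool} (hb : IsBR P hz vt)
    {α α' : Fin P.m} {β β' : Fin P.B} {x y : ℕ}
    (h : Str (hz (.inl α)) (vt (.inl α)) (hz (.inr β)) (vt (.inr β)) x y)
    (h' : Str (hz (.inl α')) (vt (.inl α')) (hz (.inr β')) (vt (.inr β')) x y) :
    α = α' ∧ β = β' := by
  rcases h with ⟨a1, -, a3, -⟩ | ⟨a1, -, a3, -⟩ <;> rcases h' with ⟨b1, -, b3, -⟩ | ⟨b1, -, b3, -⟩
  · exact ⟨Sum.inl.inj (hb.dh _ _ _ _ a1 b1), Sum.inr.inj (hb.dv _ _ _ _ a3 b3)⟩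
  · exact absurd (hb.dh _ _ _ _ a1 b3) (by simp)
  · exact absurd (hb.dv _ _ _ _ a1 b3) (by simp)
  · exact ⟨Sum.inl.inj (hb.dv _ _ _ _ a1 b1), Sum.inr.inj (hb.dh _ _ _ _ a3 b3)⟩

private theorem ex_col (P : Prm) (hz vt : (Fin P.m ⊕ Fin P.B) → ℕ → ℕ → Bool) (hb : IsBR P hz vt)
    (ab : Fin P.m × Fin P.B) :
    ∃ x, x < P.W ∧ P.isX x = true ∧ Str (hz (.inl ab.1)) (vt (.inl ab.1)) (hz (.inr ab.2))
      (vt (.inr ab.2)) x P.rho := by
  obtain ⟨α, β⟩ := ab
  obtain ⟨yP, hyP, e1⟩ := hb.lP α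
  obtain ⟨zP, hzP, _, e3⟩ := hb.rP α
  obtain ⟨yQ, hyQ, hyQ', e2⟩ := hb.lQ β
  obtain ⟨zQ, hzQ, e4⟩ := hb.rQ β
  have hH : P.H = 2 * P.rho + 1 := rfl
  have hρ : P.rho = P.m + P.B + P.a.sum := rfl
  have dh : ∀ x y, ¬ (hz (.inl α) x y = true ∧ hz (.inr β) x y = true) := fun x y h =>
    absurd (hb.dh _ _ _ _ h.1 h.2) (by simp)
  have dv : ∀ x y, ¬ (vt (.inl α) x y = true ∧ vt (.inr β) x y = true) := fun x y h =>
    absurd (hb.dv _ _ _ _ h.1 h.2) (by simp)
  have hsum := cross_sum P _ _ _ _ (hb.tr (.inl α)) (hb.tr (.inr β)) yP yQ zP zQ (by omega) hyQ'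
    (by omega) e1 e2 e3 e4
  have hne : ∑ x ∈ Finset.range P.W, ∑ y ∈ Finset.range P.H,
      loc (hz (.inl α)) (vt (.inl α)) (hz (.inr β)) (vt (.inr β)) x y ≠ 0 := by
    rw [hsum]
    exact one_ne_zero
  obtain ⟨x, hx, hx2⟩ := Finset.exists_ne_zero_of_sum_ne_zero hne
  obtain ⟨y, hy, hy2⟩ := Finset.exists_ne_zero_of_sum_ne_zero hx2
  rw [Finset.mem_range] at hx hy
  have hyX : y = P.rho ∧ P.isX x = true := by
    by_contra hc
    exact hy2 (loc_zero P _ _ _ _ (hb.tr (.inl α)) (hb.tr (.inr β)) dh dv x y hx hy hc)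
  have hstr := (loc_str P _ _ _ _ (hb.tr (.inl α)) (hb.tr (.inr β)) dh dv x y hx hy hy2).2
  rw [hyX.1] at hstr
  exact ⟨x, hx, hyX.2, hstr⟩

theorem pair_cols (P : Prm) (hg : P.Good) (hs : P.a.sum = P.m * P.B)
    (hz vt : (Fin P.m ⊕ Fin P.B) → ℕ → ℕ → Bool) (hb : IsBR P hz vt) :
    ∃ pr : ℕ → Fin P.m × Fin P.B,
      (∀ x < P.W, P.isX x = true → Str (hz (.inl (pr x).1)) (vt (.inl (pr x).1))
        (hz (.inr (pr x).2)) (vt (.inr (pr x).2)) x P.rho) ∧
      (∀ x < P.W, ∀ x' < P.W, P.isX x = true → P.isX x' = true → pr x = pr x' → x = x') ∧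
      (∀ ab : Fin P.m × Fin P.B, ∃ x < P.W, P.isX x = true ∧ pr x = ab) := by
  classical
  choose χ hχ1 hχ2 hχ3 using ex_col P hz vt hb
  have hinj : Function.Injective χ := by
    intro ab ab' h
    have h1 := hχ3 ab
    have h2 := hχ3 ab'
    rw [← h] at h2
    obtain ⟨e1, e2⟩ := str_uniq hb h1 h2
    exact Prod.ext e1 e2
  have hne : Nonempty (Fin P.m × Fin P.B) := ⟨(⟨0, hg.hm⟩, ⟨0, hg.hB⟩)⟩
  have himg : Finset.univ.image χ = (Finset.range P.W).filter fun x => P.isX x = true := by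
    refine Finset.eq_of_subset_of_card_le ?_ ?_
    · intro x hx
      obtain ⟨ab, -, rfl⟩ := Finset.mem_image.1 hx
      rw [Finset.mem_filter, Finset.mem_range]
      exact ⟨hχ1 ab, hχ2 ab⟩
    · rw [col_card P hg, Finset.card_image_of_injective _ hinj, Finset.card_univ, Fintype.card_prod,
        Fintype.card_fin, Fintype.card_fin, hs]
  have hsurj : ∀ x < P.W, P.isX x = true → ∃ ab, χ ab = x := by
    intro x hx h
    have : x ∈ Finset.univ.image χ := by
      rw [himg, Finset.mem_filter, Finset.mem_range]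
      exact ⟨hx, h⟩
    obtain ⟨ab, -, he⟩ := Finset.mem_image.1 this
    exact ⟨ab, he⟩
  have hli : ∀ ab, Function.invFun χ (χ ab) = ab := Function.leftInverse_invFun hinj
  refine ⟨Function.invFun χ, ?_, ?_, ?_⟩
  · intro x hx h
    obtain ⟨ab, rfl⟩ := hsurj x hx h
    rw [hli]
    exact hχ3 ab
  · intro x hx x' hx' h h' he
    obtain ⟨ab, rfl⟩ := hsurj x hx h
    obtain ⟨ab', rfl⟩ := hsurj x' hx' h'
    rw [hli, hli] at he
    rw [he]
  · intro ab
    exact ⟨χ ab, hχ1 ab, hχ2 ab, hli ab⟩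

end Pool.Agent.Work.MP_d41d5f_lc
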