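import Pool.Agent.Work.MP_d41d5f_lc.ED.EndsI

/-!
ParA (M): parities at the terminals and at the cuts.

Proof. Always use `IsFam.par` for a suitable vertex set `A` and determine which valid edges cross
`A` (the ends are explicit lists).
`A = {[0]}`: crossed exactly by the valid `p 0 j α`, so `filter (crosses A) = filter (isP 0)` on
`F a` (all members are `ok`); `src (ty a) ∈ A ↔ ty a = true`, `tgt (ty a) ∉ A`.
`A = {[1]}`: the valid `p R j α`. `A = {[2]}`: `q i 0 β`; `A = {[3]}`: `q i R β`.
`par_cutP`: `A = {[0]} ∪ {[i', j, x, y] | i' < i}`. A valid edge `h`, `v` has both ends in one block: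
not crossing. `p i' j α`: the left end is `[0] ∈ A` if `i' = 0` and `[i'-1, ...] ∈ A ↔ i' - 1 < i`
otherwise; the right end is `[1] ∉ A` if `i' = R`, and `[i', ...] ∈ A ↔ i' < i` otherwise; so (for
`i ≤ R`) it crosses iff `i' = i`. `q i' j β`: the block ends have first coordinate `i'`; `[2], [3] ∉ A`;
so it can cross only if `j = 0` or `j = R`, and there are no such links in `F a` by hypothesis
(`nQ (F a) 0 = 0` says that the filter is empty). `src = [0] ∈ A`, `tgt = [1] ∉ A`.
`par_cutQ`: symmetric, `A = {[2]} ∪ {[i, j', x, y] | j' < j}`.
`tot`: the sets `(F a).filter (isP i)` are pairwise disjoint subsets of the finite set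
`{p i j α | j < R, α < m}`, which has `R * m` elements (the image of a product of ranges under
an injective map); so the sum of their cardinalities is at most `R * m`. Same for `q i j β`:
`R * B`.
-/

set_option autoImplicit false

namespace Pool.Agent.Work.MP_d41d5f_lc

variable {P : Prm} {N : ℕ} {ty : Fin N → Bool} {F : Fin N → Finset Ed}

private theorem par_gen (h : IsFam P N ty F) (a : Fin N) (A : Set Vx) (q : Ed → Bool)
    (hq : ∀ d ∈ F a, P.ok d → (crosses P A d ↔ q d = true)) (b : Prop) [Decidable b]
    (hb : (src (ty a) ∈ A ↔ tgt (ty a) ∈ A) ↔ b) :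
    ((F a).filter fun d => q d = true).card % 2 = if b then 0 else 1 := by
  classical
  have h1 := h.par a A
  have h2 : ((F a).filter fun d => crosses P A d) = ((F a).filter fun d => q d = true) :=
    Finset.filter_congr fun d hd => hq d hd (h.ok a d hd)
  rw [h2] at h1
  rw [h1]
  by_cases hbb : b
  · rw [if_pos (hb.2 hbb), if_pos hbb]
  · rw [if_neg (fun hc => hbb (hb.1 hc)), if_neg hbb]

private theorem cr0 (hg : P.Good) (d : Ed) (hd : P.ok d) :
    crosses P {[0]} d ↔ isP 0 d = true := by
  have hR := hg.hR
  cases d with
  | h i j x y => simp [crosses, Prm.ends, isP]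
  | v i j x y => simp [crosses, Prm.ends, isP]
  | p i j α =>
    simp only [crosses, Prm.ends, isP, Set.mem_singleton_iff, decide_eq_true_eq]
    by_cases h0 : i = 0
    · subst h0
      rw [if_pos rfl, if_neg (by omega)]
      simp
    · rw [if_neg h0]
      split_ifs <;> simp [h0]
  | q i j β =>
    simp only [crosses, Prm.ends, isP, Set.mem_singleton_iff]
    split_ifs <;> simp

private theorem cr1 (hg : P.Good) (d : Ed) (hd : P.ok d) :
    crosses P {[1]} d ↔ isP P.R d = true := by
  have hR := hg.hR
  cases d with
  | h i j x y => simp [crosses, Prm.ends, isP]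
  | v i j x y => simp [crosses, Prm.ends, isP]
  | p i j α =>
    simp only [crosses, Prm.ends, isP, Set.mem_singleton_iff, decide_eq_true_eq]
    by_cases h0 : i = P.R
    · subst h0
      rw [if_pos rfl, if_neg (by omega)]
      simp
    · rw [if_neg h0]
      split_ifs <;> simp [h0]
  | q i j β =>
    simp only [crosses, Prm.ends, isP, Set.mem_singleton_iff]
    split_ifs <;> simp

private theorem cr2 (hg : P.Good) (d : Ed) (hd : P.ok d) :
    crosses P {[2]} d ↔ isQ 0 d = true := by
  have hR := hg.hR
  cases d with
  | h i j x y => simp [crosses, Prm.ends, isQ]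
  | v i j x y => simp [crosses, Prm.ends, isQ]
  | q i j α =>
    simp only [crosses, Prm.ends, isQ, Set.mem_singleton_iff, decide_eq_true_eq]
    by_cases h0 : j = 0
    · subst h0
      rw [if_pos rfl, if_neg (by omega)]
      simp
    · rw [if_neg h0]
      split_ifs <;> simp [h0]
  | p i j β =>
    simp only [crosses, Prm.ends, isQ, Set.mem_singleton_iff]
    split_ifs <;> simp

private theorem cr3 (hg : P.Good) (d : Ed) (hd : P.ok d) :
    crosses P {[3]} d ↔ isQ P.R d = true := by
  have hR := hg.hR
  cases d with
  | h i j x y => simp [crosses, Prm.ends, isQ]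
  | v i j x y => simp [crosses, Prm.ends, isQ]
  | q i j α =>
    simp only [crosses, Prm.ends, isQ, Set.mem_singleton_iff, decide_eq_true_eq]
    by_cases h0 : j = P.R
    · subst h0
      rw [if_pos rfl, if_neg (by omega)]
      simp
    · rw [if_neg h0]
      split_ifs <;> simp [h0]
  | p i j β =>
    simp only [crosses, Prm.ends, isQ, Set.mem_singleton_iff]
    split_ifs <;> simp

theorem par_hub (hg : P.Good) (h : IsFam P N ty F) (a : Fin N) :
    nP (F a) 0 % 2 = (if ty a = true then 1 else 0) ∧
    nP (F a) P.R % 2 = (if ty a = true then 1 else 0) ∧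
    nQ (F a) 0 % 2 = (if ty a = true then 0 else 1) ∧
    nQ (F a) P.R % 2 = (if ty a = true then 0 else 1) := by
  have e0 := par_gen h a {[0]} (isP 0) (fun d _ hd => cr0 hg d hd) (ty a = false)
    (by cases ty a <;> simp [src, tgt])
  have e1 := par_gen h a {[1]} (isP P.R) (fun d _ hd => cr1 hg d hd) (ty a = false)
    (by cases ty a <;> simp [src, tgt])
  have e2 := par_gen h a {[2]} (isQ 0) (fun d _ hd => cr2 hg d hd) (ty a = true)
    (by cases ty a <;> simp [src, tgt])
  have e3 := par_gen h a {[3]} (isQ P.R) (fun d _ hd => cr3 hg d hd) (ty a = true)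
    (by cases ty a <;> simp [src, tgt])
  unfold nP nQ
  rw [e0, e1, e2, e3]
  cases ty a <;> simp

/-- The vertices on the left of the cut. -/
private def cutP (i : ℕ) : Set Vx := {v | v = [0] ∨ ∃ i' j x y, v = [i', j, x, y] ∧ i' < i}

private theorem cutP_b (i i' j x y : ℕ) : ([i', j, x, y] : Vx) ∈ cutP i ↔ i' < i := by
  constructor
  · rintro (h | ⟨a, b, c, d, h, hl⟩)
    · simp at h
    · simp only [List.cons.injEq] at h
      omega
  · intro h
    exact Or.inr ⟨i', j, x, y, rfl, h⟩

private theorem cutP_0 (i : ℕ) : ([0] : Vx) ∈ cutP i := Or.inl rfl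

private theorem cutP_1 (i k : ℕ) (hk : k ≠ 0) : ([k] : Vx) ∉ cutP i := by
  rintro (h | ⟨a, b, c, d, h, hl⟩)
  · simp only [List.cons.injEq] at h
    exact hk h.1
  · simp at h

/-- The vertices below the cut. -/
private def cutQ (j : ℕ) : Set Vx := {v | v = [2] ∨ ∃ i j' x y, v = [i, j', x, y] ∧ j' < j}

private theorem cutQ_b (j i j' x y : ℕ) : ([i, j', x, y] : Vx) ∈ cutQ j ↔ j' < j := by
  constructor
  · rintro (h | ⟨a, b, c, d, h, hl⟩)
    · simp at h
    · simp only [List.cons.injEq] at h
      omega
  · intro h
    exact Or.inr ⟨i, j', x, y, rfl, h⟩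

private theorem cutQ_2 (j : ℕ) : ([2] : Vx) ∈ cutQ j := Or.inl rfl

private theorem cutQ_1 (j k : ℕ) (hk : k ≠ 2) : ([k] : Vx) ∉ cutQ j := by
  rintro (h | ⟨a, b, c, d, h, hl⟩)
  · simp only [List.cons.injEq] at h
    exact hk h.1
  · simp at h

theorem par_cutP (hg : P.Good) (h : IsFam P N ty F) (a : Fin N) (hc : cleanP P (ty a) (F a))
    (i : ℕ) (hi : i ≤ P.R) : nP (F a) i % 2 = 1 := by
  obtain ⟨ht, h0, hR⟩ := hc
  have hRR := hg.hR
  have key := par_gen h a (cutP i) (isP i) ?_ False ?_
  · unfold nP
    rw [key]
    simp
  · intro d hdF hd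
    cases d with
    | h i' j x y =>
      simp only [crosses, Prm.ends, isP, cutP_b]
      simp
    | v i' j x y =>
      simp only [crosses, Prm.ends, isP, cutP_b]
      simp
    | p i' j α =>
      simp only [crosses, Prm.ends, isP, decide_eq_true_eq]
      have hi' : i' ≤ P.R := hd.1
      by_cases e0 : i' = 0
      · rw [if_pos e0, if_neg (by omega), cutP_b]
        have := cutP_0 i
        constructor
        · intro hcc
          by_contra hne
          exact hcc ⟨fun _ => by omega, fun _ => this⟩
        · intro he hcc
          have := hcc.1 this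
          omega
      · rw [if_neg e0, cutP_b]
        by_cases e1 : i' = P.R
        · rw [if_pos e1]
          have := cutP_1 i 1 (by omega)
          constructor
          · intro hcc
            by_contra hne
            exact hcc ⟨fun hh => by omega, fun hh => absurd hh this⟩
          · intro he hcc
            exact this (hcc.1 (by omega))
        · rw [if_neg e1, cutP_b]
          constructor
          · intro hcc
            by_contra hne
            exact hcc ⟨fun hh => by omega, fun hh => by omega⟩
          · intro he hcc
            have := hcc.1 (by omega)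
            omega
    | q i' j β =>
      simp only [crosses, Prm.ends, isP]
      have e0 : j ≠ 0 := by
        intro e0
        have : Ed.q i' j β ∈ (F a).filter (fun d => isQ 0 d = true) := by
          rw [Finset.mem_filter]
          exact ⟨hdF, by simp [isQ, e0]⟩
        rw [nQ, Finset.card_eq_zero] at h0
        rw [h0] at this
        simp at this
      have e1 : j ≠ P.R := by
        intro e1
        have : Ed.q i' j β ∈ (F a).filter (fun d => isQ P.R d = true) := by
          rw [Finset.mem_filter]
          exact ⟨hdF, by simp [isQ, e1]⟩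
        rw [nQ, Finset.card_eq_zero] at hR
        rw [hR] at this
        simp at this
      rw [if_neg e0, if_neg e1, cutP_b, cutP_b]
      simp
  · rw [ht]
    simp only [src, tgt, if_true]
    have h1 := cutP_0 i
    have h2 := cutP_1 i 1 (by omega)
    constructor
    · intro hh
      exact h2 (hh.1 h1)
    · intro hh
      exact hh.elim

theorem par_cutQ (hg : P.Good) (h : IsFam P N ty F) (a : Fin N) (hc : cleanQ P (ty a) (F a))
    (j : ℕ) (hj : j ≤ P.R) : nQ (F a) j % 2 = 1 := by
  obtain ⟨ht, h0, hR⟩ := hc
  have hRR := hg.hR
  have key := par_gen h a (cutQ j) (isQ j) ?_ False ?_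
  · unfold nQ
    rw [key]
    simp
  · intro d hdF hd
    cases d with
    | h i j' x y =>
      simp only [crosses, Prm.ends, isQ, cutQ_b]
      simp
    | v i j' x y =>
      simp only [crosses, Prm.ends, isQ, cutQ_b]
      simp
    | q i j' α =>
      simp only [crosses, Prm.ends, isQ, decide_eq_true_eq]
      have hi' : j' ≤ P.R := hd.2.1
      by_cases e0 : j' = 0
      · rw [if_pos e0, if_neg (by omega), cutQ_b]
        have := cutQ_2 j
        constructor
        · intro hcc
          by_contra hne
          exact hcc ⟨fun _ => by omega, fun _ => this⟩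
        · intro he hcc
          have := hcc.1 this
          omega
      · rw [if_neg e0, cutQ_b]
        by_cases e1 : j' = P.R
        · rw [if_pos e1]
          have := cutQ_1 j 3 (by omega)
          constructor
          · intro hcc
            by_contra hne
            exact hcc ⟨fun hh => by omega, fun hh => absurd hh this⟩
          · intro he hcc
            exact this (hcc.1 (by omega))
        · rw [if_neg e1, cutQ_b]
          constructor
          · intro hcc
            by_contra hne
            exact hcc ⟨fun hh => by omega, fun hh => by omega⟩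
          · intro he hcc
            have := hcc.1 (by omega)
            omega
    | p i j' β =>
      simp only [crosses, Prm.ends, isQ]
      have e0 : i ≠ 0 := by
        intro e0
        have : Ed.p i j' β ∈ (F a).filter (fun d => isP 0 d = true) := by
          rw [Finset.mem_filter]
          exact ⟨hdF, by simp [isP, e0]⟩
        rw [nP, Finset.card_eq_zero] at h0
        rw [h0] at this
        simp at this
      have e1 : i ≠ P.R := by
        intro e1
        have : Ed.p i j' β ∈ (F a).filter (fun d => isP P.R d = true) := by
          rw [Finset.mem_filter]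
          exact ⟨hdF, by simp [isP, e1]⟩
        rw [nP, Finset.card_eq_zero] at hR
        rw [hR] at this
        simp at this
      rw [if_neg e0, if_neg e1, cutQ_b, cutQ_b]
      simp
  · rw [ht]
    simp only [src, tgt]
    have h1 := cutQ_2 j
    have h2 := cutQ_1 j 3 (by omega)
    constructor
    · intro hh
      simp at hh
      exact h2 (hh.1 h1)
    · intro hh
      exact hh.elim

private theorem tot_gen (h : IsFam P N ty F) (q : Ed → Bool) (T : Finset Ed)
    (hT : ∀ d, P.ok d → q d = true → d ∈ T) :
    ∑ a, ((F a).filter fun d => q d = true).card ≤ T.card := by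
  classical
  rw [← Finset.card_biUnion]
  · refine Finset.card_le_card fun d hd => ?_
    rw [Finset.mem_biUnion] at hd
    obtain ⟨a, _, ha⟩ := hd
    rw [Finset.mem_filter] at ha
    exact hT d (h.ok a d ha.1) ha.2
  · intro a _ b _ hab
    rw [Function.onFun, Finset.disjoint_left]
    intro d h1 h2
    rw [Finset.mem_filter] at h1 h2
    exact hab (h.disj a b d h1.1 h2.1)

theorem tot_P (hg : P.Good) (h : IsFam P N ty F) (i : ℕ) : ∑ a, nP (F a) i ≤ P.R * P.m := by
  classical
  refine (tot_gen h (isP i) ((Finset.range P.R ×ˢ Finset.range P.m).image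
    fun z => Ed.p i z.1 z.2) ?_).trans ?_
  · intro d hd hq
    cases d with
    | h i' j x y => simp [isP] at hq
    | v i' j x y => simp [isP] at hq
    | q i' j x => simp [isP] at hq
    | p i' j α =>
      rw [isP, decide_eq_true_eq] at hq
      subst hq
      rw [Finset.mem_image]
      refine ⟨(j, α), ?_, rfl⟩
      rw [Finset.mem_product, Finset.mem_range, Finset.mem_range]
      exact ⟨hd.2.1, hd.2.2⟩
  · refine Finset.card_image_le.trans ?_
    rw [Finset.card_product, Finset.card_range, Finset.card_range]

theorem tot_Q (hg : P.Good) (h : IsFam P N ty F) (j : ℕ) : ∑ a, nQ (F a) j ≤ P.R * P.B := by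
  classical
  refine (tot_gen h (isQ j) ((Finset.range P.R ×ˢ Finset.range P.B).image
    fun z => Ed.q z.1 j z.2) ?_).trans ?_
  · intro d hd hq
    cases d with
    | h i' j x y => simp [isQ] at hq
    | v i' j x y => simp [isQ] at hq
    | p i' j x => simp [isQ] at hq
    | q i' j α =>
      rw [isQ, decide_eq_true_eq] at hq
      subst hq
      rw [Finset.mem_image]
      refine ⟨(i', α), ?_, rfl⟩
      rw [Finset.mem_product, Finset.mem_range, Finset.mem_range]
      exact ⟨hd.1, hd.2.2⟩
  · refine Finset.card_image_le.trans ?_
    rw [Finset.card_product, Finset.card_range, Finset.card_range]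

end Pool.Agent.Work.MP_d41d5f_lc
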