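import Pool.Agent.Work.MP_d41d5f_lc.ED.PDefs

/-!
PosA (M): the positions of the vertices.

Inequalities from `Good`: `H = 2 (m + B + a.sum) + 1`, so `H - m ≥ B + 1`, `H - B ≥ m + 1`,
`(H-m) + (H-B) ≥ H + 1`, `W ≥ 4`.
`bv_inj`: let `[i,j,x,y]`, `[i',j',x',y']` have equal positions: `(i+j) W + x = (i'+j') W + x'` with
`x, x' < W`, so `i + j = i' + j'`, `x = x'`. If `i < i'` then `j > j'` and
`i' - i = j - j' = d ≥ 1`, and the second coordinates differ by
`d (H-m) + d (H-B) + y' - y ≥ H + 1 + y' - y > 0` (`R - j' = R - j + d` as `j < R`); so `i = i'`,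
`j = j'`, `y = y'`.
`bv_box`: `0 ≤ pX ≤ (2R-2) W + W - 1 < 2 R W`; `0 ≤ pY ≤ (R-1)(H-m) + R (H-B) + H - 1 < yM`.
`cls`: a valid edge is a unit edge or a fan edge: `h`: `pX` grows by one. `v`: `pY` grows by one.
`p i j α` with `0 < i < R`: left end `[i-1,j,W-1,H-m+α]` at
`((i-1+j) W + W - 1, (i-1)(H-m) + (R-j)(H-B) + H-m+α) = ((i+j) W - 1, i (H-m) + (R-j)(H-B) + α)`,
right end `[i,j,0,α]` one unit to the right. `q i j β`, `0 < j < R`: left end `[i,j-1,W-1,β]` at
`((i+j) W - 1, i (H-m) + (R-j+1)(H-B) + β)`, right end `[i,j,0,H-B+β]` at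
`((i+j) W, i (H-m) + (R-j)(H-B) + H-B+β)`: one unit to the right. `i = 0`, `i = R`, `j = 0`,
`j = R`: the four fans (`R ≥ 1`, so not both ends are terminals).
-/

set_option autoImplicit false

namespace Pool.Agent.Work.MP_d41d5f_lc

private theorem H_big (P : Prm) : P.m + P.B + 1 ≤ P.H := by
  have h1 : P.H = 2 * P.rho + 1 := rfl
  have h2 : P.rho = P.m + P.B + P.a.sum := rfl
  omega

private theorem H_big2 (P : Prm) (hg : P.Good) : P.H + 1 ≤ (P.H - P.m) + (P.H - P.B) := by
  have h1 : P.H = 2 * P.rho + 1 := rfl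
  have h2 : P.rho = P.m + P.B + P.a.sum := rfl
  have := hg.hm
  have := hg.hB
  omega

private theorem W_pos (P : Prm) (hg : P.Good) : 1 ≤ P.W := by
  have h1 : P.W = (P.a.length + 1) * P.T := rfl
  have h2 : P.T = 2 * (P.a.sum + (P.m + P.B) * (P.H + 1)) := rfl
  have h3 : 1 ≤ (P.m + P.B) * (P.H + 1) := by
    have := hg.hm
    exact Nat.succ_le_of_lt (Nat.mul_pos (by omega) (by omega))
  have h4 : 1 ≤ P.T := by omega
  rw [h1]
  exact Nat.succ_le_of_lt (Nat.mul_pos (by omega) h4)

private theorem pos_bv (P : Prm) (i j x y : ℕ) :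
    pos P [i, j, x, y] = lat (pX P i j x) (pY P i j y) := rfl

private theorem uniqA {K x y o q : ℕ} (ho : o < K) (hq : q < K) (h : x * K + o = y * K + q) :
    x = y ∧ o = q := by
  have hK : 0 < K := lt_of_le_of_lt (Nat.zero_le _) ho
  have h1 : (x * K + o) / K = x := by
    rw [mul_comm, Nat.mul_add_div hK, Nat.div_eq_of_lt ho, add_zero]
  have h2 : (y * K + q) / K = y := by
    rw [mul_comm, Nat.mul_add_div hK, Nat.div_eq_of_lt hq, add_zero]
  have hxy : x = y := by rw [← h1, ← h2, h]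
  subst hxy
  exact ⟨rfl, by omega⟩

private theorem no_lt {a b H R i j y i' j' y' : ℕ} (hab : H + 1 ≤ a + b) (hj' : j' < R)
    (hj : j < R) (hy : y < H) (hs : i + j = i' + j')
    (h : i * a + (R - j) * b + y = i' * a + (R - j') * b + y') : ¬ i < i' := by
  intro hlt
  obtain ⟨d, hd⟩ := Nat.exists_eq_add_of_lt hlt
  have h1 : R - j' = (R - j) + (d + 1) := by omega
  rw [h1, hd] at h
  have h2 : (i + d + 1) * a = i * a + d * a + a := by ring
  have h3 : (R - j + (d + 1)) * b = (R - j) * b + d * b + b := by ring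
  rw [h2, h3] at h
  have h4 : 0 ≤ d * a := Nat.zero_le _
  have h5 : 0 ≤ d * b := Nat.zero_le _
  omega

theorem bv_inj (P : Prm) (hg : P.Good) (u v : Vx) (hu : isBV P u) (hv : isBV P v)
    (h : pos P u = pos P v) : u = v := by
  obtain ⟨i, j, x, y, hi, hj, hx, hy, rfl⟩ := hu
  obtain ⟨i', j', x', y', hi', hj', hx', hy', rfl⟩ := hv
  rw [pos_bv, pos_bv] at h
  obtain ⟨h1, h2⟩ := lat_inj _ _ _ _ h
  unfold pX at h1
  unfold pY at h2
  have h1' := Int.ofNat_inj.1 h1
  have h2' := Int.ofNat_inj.1 h2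
  obtain ⟨e1, e2⟩ := uniqA hx hx' h1'
  have n1 := no_lt (H_big2 P hg) hj' hj hy e1 h2'
  have n2 := no_lt (H_big2 P hg) hj hj' hy' e1.symm h2'.symm
  have e3 : i = i' := by omega
  subst e3
  have e4 : j = j' := by omega
  subst e4
  subst e2
  have e5 : y = y' := by omega
  rw [e5]

/-- Block vertices are at lattice points inside the rectangle. -/
theorem bv_box (P : Prm) (hg : P.Good) (v : Vx) (hv : isBV P v) :
    ∃ X Y : ℤ, pos P v = lat X Y ∧ 0 ≤ X ∧ X < xM P ∧ 0 ≤ Y ∧ Y < yM P := by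
  obtain ⟨i, j, x, y, hi, hj, hx, hy, rfl⟩ := hv
  refine ⟨pX P i j x, pY P i j y, pos_bv P i j x y, ?_, ?_, ?_, ?_⟩
  · unfold pX
    exact Int.natCast_nonneg _
  · unfold pX xM
    rw [Int.ofNat_lt]
    calc (i + j) * P.W + x < (i + j) * P.W + P.W := by omega
      _ = (i + j + 1) * P.W := by ring
      _ ≤ (2 * P.R) * P.W := Nat.mul_le_mul_right _ (by omega)
  · unfold pY
    exact Int.natCast_nonneg _
  · unfold pY yM
    rw [Int.ofNat_lt]
    have h1 : i * (P.H - P.m) ≤ P.R * (P.H - P.m) := Nat.mul_le_mul_right _ hi.le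
    have h2 : (P.R - j) * (P.H - P.B) ≤ P.R * (P.H - P.B) :=
      Nat.mul_le_mul_right _ (Nat.sub_le _ _)
    omega

theorem cls (P : Prm) (hg : P.Good) (d : Ed) (hd : P.ok d) :
    (∃ X Y b, isUnit P d X Y b) ∨ ∃ c v, isFan P c v d := by
  have hH := H_big P
  have hW := W_pos P hg
  have hR := hg.hR
  have hm := hg.hm
  have hB := hg.hB
  cases d with
  | h i j x y =>
    obtain ⟨h1, h2, h3, h4⟩ := hd
    refine Or.inl ⟨pX P i j x, pY P i j y, true, ?_⟩
    refine ⟨⟨i, j, x, y, h1, h2, by omega, h4, rfl⟩, ⟨i, j, x + 1, y, h1, h2, h3, h4, rfl⟩,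
      rfl, ?_⟩
    show lat (pX P i j (x + 1)) (pY P i j y) = lat (pX P i j x + 1) (pY P i j y)
    have : pX P i j (x + 1) = pX P i j x + 1 := by
      unfold pX
      push_cast
      ring
    rw [this]
  | v i j x y =>
    obtain ⟨h1, h2, h3, h4, h5⟩ := hd
    refine Or.inl ⟨pX P i j x, pY P i j y, false, ?_⟩
    refine ⟨⟨i, j, x, y, h1, h2, h3, by omega, rfl⟩, ⟨i, j, x, y + 1, h1, h2, h3, h4, rfl⟩,
      rfl, ?_⟩
    show lat (pX P i j x) (pY P i j (y + 1)) = lat (pX P i j x) (pY P i j y + 1)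
    have : pY P i j (y + 1) = pY P i j y + 1 := by
      unfold pY
      push_cast
      ring
    rw [this]
  | p i j α =>
    obtain ⟨h1, h2, h3⟩ := hd
    by_cases e0 : i = 0
    · subst e0
      refine Or.inr ⟨0, [0, j, 0, α], by omega, ⟨0, j, 0, α, by omega, h2, by omega, by omega,
        rfl⟩, Or.inl ?_, Or.inl ⟨rfl, j, α, h2, h3, rfl, rfl⟩⟩
      simp only [Prm.ends]
      rw [if_pos trivial, if_neg (by omega)]
    · by_cases e1 : i = P.R
      · subst e1
        refine Or.inr ⟨1, [P.R - 1, j, P.W - 1, P.H - P.m + α], by omega,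
          ⟨P.R - 1, j, P.W - 1, P.H - P.m + α, by omega, h2, by omega, by omega,
          rfl⟩, Or.inr ?_, Or.inr (Or.inl ⟨rfl, j, α, h2, h3, rfl, rfl⟩)⟩
        simp only [Prm.ends]
        rw [if_neg e0, if_pos trivial]
      · have he : P.ends (.p i j α) = ([i - 1, j, P.W - 1, P.H - P.m + α], [i, j, 0, α]) := by
          simp only [Prm.ends]
          rw [if_neg e0, if_neg e1]
        refine Or.inl ⟨pX P (i - 1) j (P.W - 1), pY P (i - 1) j (P.H - P.m + α), true, ?_⟩
        unfold isUnit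
        rw [he]
        refine ⟨⟨i - 1, j, P.W - 1, P.H - P.m + α, by omega, h2, by omega, by omega, rfl⟩,
          ⟨i, j, 0, α, by omega, h2, by omega, by omega, rfl⟩, rfl, ?_⟩
        show lat (pX P i j 0) (pY P i j α) =
          lat (pX P (i - 1) j (P.W - 1) + 1) (pY P (i - 1) j (P.H - P.m + α))
        obtain ⟨k, rfl⟩ : ∃ k, i = k + 1 := ⟨i - 1, by omega⟩
        have a1 : pX P (k + 1) j 0 = pX P (k + 1 - 1) j (P.W - 1) + 1 := by
          unfold pX
          rw [Nat.add_sub_cancel]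
          have : (k + 1 + j) * P.W + 0 = (k + j) * P.W + (P.W - 1) + 1 := by
            have e : (k + 1 + j) * P.W = (k + j) * P.W + P.W := by ring
            omega
          rw [this]
          push_cast
          ring
        have a2 : pY P (k + 1) j α = pY P (k + 1 - 1) j (P.H - P.m + α) := by
          unfold pY
          rw [Nat.add_sub_cancel]
          have : (k + 1) * (P.H - P.m) + (P.R - j) * (P.H - P.B) + α =
              k * (P.H - P.m) + (P.R - j) * (P.H - P.B) + (P.H - P.m + α) := by ring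
          rw [this]
        rw [a1, a2]
  | q i j β =>
    obtain ⟨h1, h2, h3⟩ := hd
    by_cases e0 : j = 0
    · subst e0
      refine Or.inr ⟨2, [i, 0, 0, P.H - P.B + β], by omega, ⟨i, 0, 0, P.H - P.B + β, h1, by omega,
        by omega, by omega, rfl⟩, Or.inl ?_,
        Or.inr (Or.inr (Or.inl ⟨rfl, i, β, h1, h3, rfl, rfl⟩))⟩
      simp only [Prm.ends]
      rw [if_pos trivial, if_neg (by omega)]
    · by_cases e1 : j = P.R
      · subst e1
        refine Or.inr ⟨3, [i, P.R - 1, P.W - 1, β], by omega,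
          ⟨i, P.R - 1, P.W - 1, β, h1, by omega, by omega, by omega,
          rfl⟩, Or.inr ?_, Or.inr (Or.inr (Or.inr ⟨rfl, i, β, h1, h3, rfl, rfl⟩))⟩
        simp only [Prm.ends]
        rw [if_neg e0, if_pos trivial]
      · have he : P.ends (.q i j β) = ([i, j - 1, P.W - 1, β], [i, j, 0, P.H - P.B + β]) := by
          simp only [Prm.ends]
          rw [if_neg e0, if_neg e1]
        refine Or.inl ⟨pX P i (j - 1) (P.W - 1), pY P i (j - 1) β, true, ?_⟩
        unfold isUnit
        rw [he]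
        refine ⟨⟨i, j - 1, P.W - 1, β, h1, by omega, by omega, by omega, rfl⟩,
          ⟨i, j, 0, P.H - P.B + β, h1, by omega, by omega, by omega, rfl⟩, rfl, ?_⟩
        show lat (pX P i j 0) (pY P i j (P.H - P.B + β)) =
          lat (pX P i (j - 1) (P.W - 1) + 1) (pY P i (j - 1) β)
        obtain ⟨k, rfl⟩ : ∃ k, j = k + 1 := ⟨j - 1, by omega⟩
        have a1 : pX P i (k + 1) 0 = pX P i (k + 1 - 1) (P.W - 1) + 1 := by
          unfold pX
          rw [Nat.add_sub_cancel]
          have : (i + (k + 1)) * P.W + 0 = (i + k) * P.W + (P.W - 1) + 1 := by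
            have e : (i + (k + 1)) * P.W = (i + k) * P.W + P.W := by ring
            omega
          rw [this]
          push_cast
          ring
        have a2 : pY P i (k + 1) (P.H - P.B + β) = pY P i (k + 1 - 1) β := by
          unfold pY
          rw [Nat.add_sub_cancel]
          have e2 : P.R - k = (P.R - (k + 1)) + 1 := by omega
          have : i * (P.H - P.m) + (P.R - (k + 1)) * (P.H - P.B) + (P.H - P.B + β) =
              i * (P.H - P.m) + (P.R - k) * (P.H - P.B) + β := by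
            rw [e2]
            ring
          rw [this]
        rw [a1, a2]

end Pool.Agent.Work.MP_d41d5f_lc
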