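import Pool.Agent.Work.MP_d41d5f_lc.ED.Defs
import Pool.Agent.Work.PolyTime.Pairs

/-!
PtA (M): polynomial-time arithmetic.

Proof. Numbers are in unary (`Code ℕ`), so lists of length `n x` may be used.
`pt_div`: for `0 < n`: `m / n` is the number of `k < m` with `(k+1) * n ≤ m`; for `n = 0` the value is
`0`: `m / n = ((List.range m).filter fun k => decide (0 < n) && decide ((k+1) * n ≤ m)).length`
(use `PTime.length`, `PTime.filter`, `PTime.range`, `PTime.natMul`, `PTime.natLe`, `PTime.natLt`).
`pt_mod`: `m % n = m - n * (m / n)` (`Nat.mod_eq_sub`). `pt_even`: `decide (n % 2 = 0)`: `pt_mod` and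
`PTime.eq`. `pt_pow`: induction on the constant exponent, `pow_succ`.
`pt_getD`: `l.getD n d = ((l.drop n).head?).getD d` (`PTime.drop`, `PTime.headOpt`, `PTime.getD`).
-/

set_option autoImplicit false

namespace Pool.Agent.Work.MP_d41d5f_lc

open Pool.Agent.Work.PolyTime

variable {α β : Type} [Code α] [Code β]

private theorem div_eq_count (m n : ℕ) : m / n =
    ((List.range m).filter fun k => decide (0 < n) && decide ((k + 1) * n ≤ m)).length := by
  rcases Nat.eq_zero_or_pos n with rfl | hn
  · simp
  · have h1 : ((List.range m).filter fun k => decide (0 < n) && decide ((k + 1) * n ≤ m)) =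
        (List.range m).filter fun k => decide (k < m / n) := by
      apply List.filter_congr
      intro k _
      simp only [hn, decide_true, Bool.true_and, decide_eq_decide]
      rw [← Nat.le_div_iff_mul_le hn]
      exact Nat.succ_le_iff
    rw [h1]
    have h2 : m / n ≤ m := Nat.div_le_self m n
    have h3 : ∀ a b : ℕ, a ≤ b → ((List.range b).filter fun k => decide (k < a)).length = a := by
      intro a b
      induction b with
      | zero => intro h; simp at h; simp [h]
      | succ b ih =>
        intro h
        rw [List.range_succ, List.filter_append, List.length_append]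
        rcases Nat.lt_or_ge b a with hba | hba
        · have hab : a = b + 1 := by omega
          subst hab
          have h4 : (List.range b).filter (fun k => decide (k < b + 1)) = List.range b := by
            rw [List.filter_eq_self]
            intro k hk
            have := List.mem_range.1 hk
            simp only [decide_eq_true_eq]
            omega
          rw [h4]
          simp
        · rw [ih hba]
          simp [Nat.not_lt.2 hba]
    exact (h3 _ _ h2).symm

theorem pt_div {m n : α → ℕ} (hm : PTime m) (hn : PTime n) : PTime (fun x => m x / n x) := by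
  have h : PTime (fun x => ((List.range (m x)).filter fun k => decide (0 < n x) &&
      decide ((k + 1) * n x ≤ m x)).length) := by
    refine PTime.length (PTime.filter (p := fun x k => decide (0 < n x) &&
      decide ((k + 1) * n x ≤ m x)) (PTime.range hm) ?_)
    refine PTime.and ?_ ?_
    · exact PTime.natLt (PTime.const 0) (hn.comp PTime.fst)
    · exact PTime.natLe (PTime.natMul (PTime.natAdd PTime.snd (PTime.const 1))
        (hn.comp PTime.fst)) (hm.comp PTime.fst)
  exact h.code_congr (fun x => (div_eq_count (m x) (n x)).symm)

theorem pt_mod {m n : α → ℕ} (hm : PTime m) (hn : PTime n) : PTime (fun x => m x % n x) := by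
  have h : PTime (fun x => m x - n x * (m x / n x)) :=
    PTime.natSub hm (PTime.natMul hn (pt_div hm hn))
  refine h.code_congr (fun x => ?_)
  have := Nat.div_add_mod (m x) (n x)
  omega

theorem pt_even {n : α → ℕ} (hn : PTime n) : PTime (fun x => decide (n x % 2 = 0)) :=
  PTime.eq (pt_mod hn (PTime.const 2)) (PTime.const 0)

theorem pt_pow {n : α → ℕ} (hn : PTime n) (c : ℕ) : PTime (fun x => n x ^ c) := by
  induction c with
  | zero => exact (PTime.const 1).code_congr (fun x => (pow_zero (n x)).symm)
  | succ c ih => exact (PTime.natMul ih hn).code_congr (fun x => (pow_succ (n x) c).symm)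

theorem pt_getD {l : α → List β} {n : α → ℕ} (hl : PTime l) (hn : PTime n) (d : β) :
    PTime (fun x => (l x).getD (n x) d) := by
  have h : PTime (fun x => (((l x).drop (n x)).head?).getD d) :=
    PTime.getD (PTime.headOpt (PTime.drop hl hn)) (PTime.const d)
  refine h.code_congr (fun x => ?_)
  rw [List.head?_drop, List.getD_eq_getElem?_getD]

end Pool.Agent.Work.MP_d41d5f_lc
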