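import Pool.Agent.Work.MP_d41d5f_lc.ED.Defs
import Pool.Agent.Work.PolyTime.IndSet

/-!
From satisfiability to perfect packings: definitions (FIXED).

Wheels: for every variable `x < n` and every occurrence `o < K` there are two bins `V x o true`,
`V x o false`. Wires: `A x o` (between `V x (o-1) false` and `V x o true`, cyclically), `Wr x o`
(between `V x o true` and `V x o false`), tips `Tp x o s` at `V x o s`. Every wire and every tip has
two tokens, with flag `true` and `false`. Occurrence bins `U o` take the remaining token of a tip, a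
clause token `Cl o'` of the same clause (only the one of the first occurrence has a flag) and a
filler `Fl o' f`. All other tokens go to the last bin `G`.
-/

set_option autoImplicit false

namespace Pool.Agent.Work.MP_d41d5f_lc

open Pool.Agent.Work.PolyTime

/-- A system of `K` occurrences of literals: occurrence `o` is in clause `cl o`, has the sign
`sg o` and the variable `va o < n`. -/
structure Sys where
  n : ℕ
  K : ℕ
  cl : ℕ → ℕ
  sg : ℕ → Bool
  va : ℕ → ℕ

/-- Tokens. -/
inductive Tk where
  | A (x o : ℕ) (f : Bool)
  | Wr (x o : ℕ) (f : Bool)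
  | Tp (x o : ℕ) (s f : Bool)
  | Cl (o : ℕ)
  | Fl (o : ℕ) (f : Bool)
deriving DecidableEq

/-- Bins. -/
inductive Bn where
  | V (x o : ℕ) (s : Bool)
  | U (o : ℕ)
  | G
deriving DecidableEq

namespace Sys

variable (S : Sys)

/-- Hypotheses on the system. -/
structure Good : Prop where
  K1 : 1 ≤ S.K
  va : ∀ o < S.K, S.va o < S.n

/-- Satisfiability: every clause has a true occurrence. -/
def Sat : Prop := ∃ β : ℕ → Bool, ∀ o < S.K, ∃ o' < S.K, S.cl o' = S.cl o ∧ β (S.va o') = S.sg o'

/-- Is `o` the first occurrence in its clause? -/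
def fst (o : ℕ) : Bool := decide (∀ o' < o, S.cl o' ≠ S.cl o)

/-- `0` for positive, `1` for negative. -/
def sn (s : Bool) : ℕ := if s then 0 else 1

/-- Digits of a token: flag, identity of the tip, of the wire of the second kind, of the wire of the
first kind, numbers of tokens of the three kinds. -/
def dig : Tk → Fin 7 → ℕ
  | .A x o f => ![3 * f.toNat, 0, 0, x * S.K + o, 0, 0, 1]
  | .Wr x o f => ![2 * f.toNat, 0, x * S.K + o, 0, 0, 1, 0]
  | .Tp x o s f => ![f.toNat, 2 * (x * S.K + o) + sn s, 0, 0, 1, 0, 0]
  | .Cl o => ![(S.fst o).toNat, 0, 0, S.n * S.K + S.cl o, 0, 0, 1]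
  | .Fl _ f => ![f.toNat, 0, S.n * S.K, 0, 0, 1, 0]

/-- The digits that the tokens in a bin must have together. -/
def need : Bn → Fin 7 → ℕ
  | .V x o s => ![3, 2 * (x * S.K + o) + sn s, x * S.K + o,
      x * S.K + (if s then o else (o + 1) % S.K), 1, 1, 1]
  | .U o => ![1, 2 * (S.va o * S.K + o) + sn (S.sg o), S.n * S.K, S.n * S.K + S.cl o, 1, 1, 1]
  | .G => ![0, 0, 0, 0, 0, 0, 0]

/-- The number with given digits. -/
def num (Z : ℕ) (d : Fin 7 → ℕ) : ℕ := ∑ k, d k * Z ^ (k : ℕ)

/-- List of the bins. -/
def binL : List Bn :=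
  ((List.range S.n).flatMap fun x => (List.range S.K).flatMap fun o => [.V x o true, .V x o false])
  ++ ((List.range S.K).map Bn.U ++ [Bn.G])

/-- List of the tokens. -/
def tokL : List Tk :=
  ((List.range S.n).flatMap fun x => (List.range S.K).flatMap fun o =>
    [.A x o true, .A x o false, .Wr x o true, .Wr x o false, .Tp x o true true, .Tp x o true false,
      .Tp x o false true, .Tp x o false false])
  ++ ((List.range S.K).flatMap fun o => [.Cl o, .Fl o true, .Fl o false])

/-- The base, larger than all sums of digits. -/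
def Z : ℕ := 1 + (S.tokL.map fun t => ∑ k, S.dig t k).sum

/-- Size of a token. -/
def tsz (t : Tk) : ℕ := num S.Z (S.dig t)

/-- Required sum of the tokens in a bin. -/
def req (b : Bn) : ℕ := num S.Z (S.need b)

def tot : ℕ := (S.tokL.map S.tsz).sum
def reqs : ℕ := (S.binL.map S.req).sum

/-- The capacity. -/
def cp : ℕ := 2 * (S.tot + S.reqs) + 1

/-- Sizes of the bin items. -/
def bsz (b : Bn) : ℕ := if b = .G then S.cp + S.reqs - S.tot else S.cp - S.req b

/-- Number of bins. -/
def m0 : ℕ := S.binL.length

/-- The numbers. -/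
def a0 : List ℕ := S.binL.map S.bsz ++ S.tokL.map S.tsz

/-- The tokens in a bin. -/
def grp (γ : Tk → Bn) (b : Bn) : Finset Tk := S.tokL.toFinset.filter fun t => γ t = b

end Sys

/-- A variable that does not occur. -/
def fresh (C : List NClause) : ℕ := (C.flatMap fun c => c.map Prod.snd).sum + 1

/-- An equivalent system without empty clauses. -/
def padC (C : List NClause) : List NClause :=
  [(false, fresh C)] :: C.map fun c => c ++ [(true, fresh C)]

/-- The system of occurrences of a clause system. -/
def sysOf (C : List NClause) : Sys where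
  n := fresh C + 1
  K := (isV (padC C)).length
  cl := fun o => ((isV (padC C)).getD o (0, true, 0)).1
  sg := fun o => ((isV (padC C)).getD o (0, true, 0)).2.1
  va := fun o => ((isV (padC C)).getD o (0, true, 0)).2.2

end Pool.Agent.Work.MP_d41d5f_lc
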