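import Pool.Agent.Work.MP_d41d5f_lc.ED.PtA
import Pool.Agent.Work.MP_d41d5f_lc.ED.SDefs

/-!
PtSys (M): the components of the system of occurrences in polynomial time.

Proof. `fresh`, `padC`: `PTime.flatMap`, `PTime.map`, `PTime.listSum`, `PTime.append`, `PTime.cons`.
`isV` is `isV_ptime` (library file IndSet). `n`, `K`: `PTime.length`. `cl`, `sg`, `va`: `pt_getD`
and projections. `fst`: `decide (∀ o' < o, cl o' ≠ cl o)` equals
`(List.range o).all fun o' => !(decide (cl o' = cl o))` (`PTime.all`, `PTime.eq`, `PTime.not`).
-/

set_option autoImplicit false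

namespace Pool.Agent.Work.MP_d41d5f_lc

open Pool.Agent.Work.PolyTime

variable {α : Type} [Code α]

private theorem pts_fresh {C : α → List NClause} (hC : PTime C) : PTime (fun x => fresh (C x)) := by
  unfold fresh
  refine PTime.natAdd (PTime.listSum (PTime.flatMap (f := fun _ c => c.map Prod.snd) hC ?_))
    (PTime.const 1)
  exact PTime.map (f := fun _ (l : Bool × ℕ) => l.2) PTime.snd (by fun_prop)

private theorem pts_padC {C : α → List NClause} (hC : PTime C) : PTime (fun x => padC (C x)) := by
  have h1 := pts_fresh hC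
  unfold padC
  refine PTime.cons ?_ (PTime.map (f := fun x (c : NClause) => c ++ [(true, fresh (C x))]) hC ?_)
  · exact PTime.cons (PTime.prodMk (PTime.const false) h1) (PTime.const [])
  · exact PTime.append PTime.snd (PTime.cons (PTime.prodMk (PTime.const true)
      (h1.comp PTime.fst)) (PTime.const []))

private theorem pts_occ {C : α → List NClause} (hC : PTime C) :
    PTime (fun x => isV (padC (C x))) :=
  isV_ptime.comp (pts_padC hC)

private theorem pts_get {C : α → List NClause} {o : α → ℕ} (hC : PTime C) (ho : PTime o) :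
    PTime (fun x => (isV (padC (C x))).getD (o x) (0, true, 0)) :=
  pt_getD (pts_occ hC) ho _

theorem pt_n {C : α → List NClause} (hC : PTime C) : PTime (fun x => (sysOf (C x)).n) := by
  exact PTime.natAdd (pts_fresh hC) (PTime.const 1)

theorem pt_K {C : α → List NClause} (hC : PTime C) : PTime (fun x => (sysOf (C x)).K) := by
  exact PTime.length (pts_occ hC)

theorem pt_cl {C : α → List NClause} {o : α → ℕ} (hC : PTime C) (ho : PTime o) :
    PTime (fun x => (sysOf (C x)).cl (o x)) := by
  exact PTime.fst.comp (pts_get hC ho)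

theorem pt_sg {C : α → List NClause} {o : α → ℕ} (hC : PTime C) (ho : PTime o) :
    PTime (fun x => (sysOf (C x)).sg (o x)) := by
  exact PTime.fst.comp (PTime.snd.comp (pts_get hC ho))

theorem pt_va {C : α → List NClause} {o : α → ℕ} (hC : PTime C) (ho : PTime o) :
    PTime (fun x => (sysOf (C x)).va (o x)) := by
  exact PTime.snd.comp (PTime.snd.comp (pts_get hC ho))

theorem pt_fst {C : α → List NClause} {o : α → ℕ} (hC : PTime C) (ho : PTime o) :
    PTime (fun x => (sysOf (C x)).fst (o x)) := by
  have h : PTime (fun x => (List.range (o x)).all fun u =>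
      !(decide ((sysOf (C x)).cl u = (sysOf (C x)).cl (o x)))) := by
    refine PTime.all (p := fun x u => !(decide ((sysOf (C x)).cl u = (sysOf (C x)).cl (o x))))
      (PTime.range ho) (PTime.not (PTime.eq ?_ ?_))
    · exact pt_cl (hC.comp PTime.fst) PTime.snd
    · exact (pt_cl hC ho).comp PTime.fst
  refine h.code_congr (fun x => ?_)
  rw [Bool.eq_iff_iff]
  simp [Sys.fst, List.all_eq_true]

end Pool.Agent.Work.MP_d41d5f_lc
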