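import Pool.Agent.Work.MP_d41d5f_lc.ED.PtSys

/-!
PtTok (M): lists indexed by the tokens or the bins in polynomial time.

Proof. `(tokL).map w` is, by `List.map_append`, `List.map_flatMap`, `List.map_cons`, a
concatenation of `flatMap`s over ranges of lists of explicit length whose entries are
`w x (Tk.A u o true)` etc.; use `PTime.append`, `PTime.flatMap` (twice, over `range n`, `range K`),
`PTime.cons`, `PTime.const`, and the hypotheses composed with the projections
`α × ℕ × ℕ`. Same for `binL`.
-/

set_option autoImplicit false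

namespace Pool.Agent.Work.MP_d41d5f_lc

open Pool.Agent.Work.PolyTime

variable {α β : Type} [Code α] [Code β]

theorem pt_tokmap {C : α → List NClause} (hC : PTime C) (w : α → Tk → β)
    (hA : ∀ f, PTime (fun y : α × ℕ × ℕ => w y.1 (.A y.2.1 y.2.2 f)))
    (hW : ∀ f, PTime (fun y : α × ℕ × ℕ => w y.1 (.Wr y.2.1 y.2.2 f)))
    (hT : ∀ s f, PTime (fun y : α × ℕ × ℕ => w y.1 (.Tp y.2.1 y.2.2 s f)))
    (hCl : PTime (fun y : α × ℕ => w y.1 (.Cl y.2)))
    (hF : ∀ f, PTime (fun y : α × ℕ => w y.1 (.Fl y.2 f))) :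
    PTime (fun x => (sysOf (C x)).tokL.map (w x)) := by
  have hn := pt_n hC
  have hK := pt_K hC
  have pA : ∀ f, PTime (fun y : (α × ℕ) × ℕ => w y.1.1 (.A y.1.2 y.2 f)) := fun f =>
    PTime.comp (g := fun y : α × ℕ × ℕ => w y.1 (.A y.2.1 y.2.2 f))
      (f := fun y : (α × ℕ) × ℕ => (y.1.1, y.1.2, y.2)) (hA f) (by fun_prop)
  have pW : ∀ f, PTime (fun y : (α × ℕ) × ℕ => w y.1.1 (.Wr y.1.2 y.2 f)) := fun f =>
    PTime.comp (g := fun y : α × ℕ × ℕ => w y.1 (.Wr y.2.1 y.2.2 f))
      (f := fun y : (α × ℕ) × ℕ => (y.1.1, y.1.2, y.2)) (hW f) (by fun_prop)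
  have pT : ∀ s f, PTime (fun y : (α × ℕ) × ℕ => w y.1.1 (.Tp y.1.2 y.2 s f)) := fun s f =>
    PTime.comp (g := fun y : α × ℕ × ℕ => w y.1 (.Tp y.2.1 y.2.2 s f))
      (f := fun y : (α × ℕ) × ℕ => (y.1.1, y.1.2, y.2)) (hT s f) (by fun_prop)
  have hK' : PTime (fun y : α × ℕ => (sysOf (C y.1)).K) :=
    PTime.comp (g := fun x : α => (sysOf (C x)).K) (f := fun y : α × ℕ => y.1) hK (by fun_prop)
  have e : (fun x => (sysOf (C x)).tokL.map (w x)) = fun x =>
      ((List.range (sysOf (C x)).n).flatMap fun u => (List.range (sysOf (C x)).K).flatMap fun o =>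
        [w x (.A u o true), w x (.A u o false), w x (.Wr u o true), w x (.Wr u o false),
          w x (.Tp u o true true), w x (.Tp u o true false), w x (.Tp u o false true),
          w x (.Tp u o false false)])
      ++ ((List.range (sysOf (C x)).K).flatMap fun o =>
        [w x (.Cl o), w x (.Fl o true), w x (.Fl o false)]) := by
    funext x
    simp only [Sys.tokL, List.map_append, List.map_flatMap, List.map_cons, List.map_nil]
  rw [e]
  refine PTime.append ?_ ?_
  · refine PTime.flatMap (f := fun x u => (List.range (sysOf (C x)).K).flatMap fun o =>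
        [w x (.A u o true), w x (.A u o false), w x (.Wr u o true), w x (.Wr u o false),
          w x (.Tp u o true true), w x (.Tp u o true false), w x (.Tp u o false true),
          w x (.Tp u o false false)]) (PTime.range hn) ?_
    refine PTime.flatMap (f := fun (y : α × ℕ) o =>
        [w y.1 (.A y.2 o true), w y.1 (.A y.2 o false), w y.1 (.Wr y.2 o true),
          w y.1 (.Wr y.2 o false), w y.1 (.Tp y.2 o true true), w y.1 (.Tp y.2 o true false),
          w y.1 (.Tp y.2 o false true), w y.1 (.Tp y.2 o false false)]) (PTime.range hK') ?_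
    exact PTime.cons (pA true) (PTime.cons (pA false) (PTime.cons (pW true) (PTime.cons (pW false)
      (PTime.cons (pT true true) (PTime.cons (pT true false) (PTime.cons (pT false true)
        (PTime.cons (pT false false) (PTime.const _))))))))
  · refine PTime.flatMap (f := fun x o => [w x (.Cl o), w x (.Fl o true), w x (.Fl o false)])
      (PTime.range hK) ?_
    exact PTime.cons hCl (PTime.cons (hF true) (PTime.cons (hF false) (PTime.const _)))

theorem pt_binmap {C : α → List NClause} (hC : PTime C) (w : α → Bn → β)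
    (hV : ∀ s, PTime (fun y : α × ℕ × ℕ => w y.1 (.V y.2.1 y.2.2 s)))
    (hU : PTime (fun y : α × ℕ => w y.1 (.U y.2))) (hG : PTime (fun x => w x .G)) :
    PTime (fun x => (sysOf (C x)).binL.map (w x)) := by
  have hn := pt_n hC
  have hK := pt_K hC
  have pV : ∀ s, PTime (fun y : (α × ℕ) × ℕ => w y.1.1 (.V y.1.2 y.2 s)) := fun s =>
    PTime.comp (g := fun y : α × ℕ × ℕ => w y.1 (.V y.2.1 y.2.2 s))
      (f := fun y : (α × ℕ) × ℕ => (y.1.1, y.1.2, y.2)) (hV s) (by fun_prop)
  have hK' : PTime (fun y : α × ℕ => (sysOf (C y.1)).K) :=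
    PTime.comp (g := fun x : α => (sysOf (C x)).K) (f := fun y : α × ℕ => y.1) hK (by fun_prop)
  have e : (fun x => (sysOf (C x)).binL.map (w x)) = fun x =>
      ((List.range (sysOf (C x)).n).flatMap fun u => (List.range (sysOf (C x)).K).flatMap fun o =>
        [w x (.V u o true), w x (.V u o false)])
      ++ (((List.range (sysOf (C x)).K).map fun o => w x (.U o)) ++ [w x .G]) := by
    funext x
    simp only [Sys.binL, List.map_append, List.map_flatMap, List.map_cons, List.map_nil,
      List.map_map, Function.comp_def]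
  rw [e]
  refine PTime.append ?_ (PTime.append ?_ ?_)
  · refine PTime.flatMap (f := fun x u => (List.range (sysOf (C x)).K).flatMap fun o =>
        [w x (.V u o true), w x (.V u o false)]) (PTime.range hn) ?_
    refine PTime.flatMap (f := fun (y : α × ℕ) o => [w y.1 (.V y.2 o true), w y.1 (.V y.2 o false)])
      (PTime.range hK') ?_
    exact PTime.cons (pV true) (PTime.cons (pV false) (PTime.const _))
  · exact PTime.map (f := fun x o => w x (.U o)) (PTime.range hK) hU
  · exact PTime.cons hG (PTime.const _)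

end Pool.Agent.Work.MP_d41d5f_lc
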