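import Pool.Agent.Work.MP_d41d5f_lc.ED.Defs

/-!
RSet (M): from disjoint edge sets that connect the terminals to edge-disjoint paths.

Proof. For `a : ι` let `G a = SimpleGraph.fromEdgeSet (D a)`. By hypothesis `s a`, `t a` are
connected in `G a`; take a walk and from it a path (`SimpleGraph.Walk.bypass`, or `toPath`) `w a` in
`G a`. Since `D a ⊆ (graphOf I.1).edgeSet`, `G a ≤ graphOf I.1`
(`SimpleGraph.fromEdgeSet_adj`, `SimpleGraph.mem_edgeSet`); map the path
(`SimpleGraph.Walk.mapLe`, `IsPath.mapLe`, `SimpleGraph.Walk.edges_mapLe_eq_edges`). Its edges are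
in `D a` (`edges_subset_edgeSet`, the edge set of `G a` is `D a \ {diagonal}`), so paths for
different `a` have no common edge. Transport along an equivalence `Fin N ≃ ι`
(`Fintype.equivFinOfCardEq`).
-/

set_option autoImplicit false

namespace Pool.Agent.Work.MP_d41d5f_lc

theorem routable_of_sets (I : Inst) (N : ℕ) (ι : Type) [Fintype ι] (hN : Fintype.card ι = N)
    (t : ι → Vx × Vx) (D : ι → Set (Sym2 Vx)) (ht : ∀ a, t a ∈ I.2)
    (hD : ∀ a, D a ⊆ (graphOf I.1).edgeSet) (hd : ∀ a b, a ≠ b → ∀ e, e ∈ D a → e ∉ D b)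
    (hr : ∀ a, (SimpleGraph.fromEdgeSet (D a)).Reachable (t a).1 (t a).2) :
    Routable I N := by
  classical
  have key : ∀ a, ∃ w : (graphOf I.1).Walk (t a).1 (t a).2, w.IsPath ∧ ∀ e ∈ w.edges, e ∈ D a := by
    intro a
    obtain ⟨w⟩ := hr a
    have hle : SimpleGraph.fromEdgeSet (D a) ≤ graphOf I.1 := by
      intro u v huv
      rw [SimpleGraph.fromEdgeSet_adj] at huv
      have := hD a huv.1
      rwa [SimpleGraph.mem_edgeSet] at this
    refine ⟨(w.bypass).mapLe hle, ?_, ?_⟩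
    · exact (SimpleGraph.Walk.isPath_mapLe hle).2 (w.bypass_isPath)
    · intro e he
      rw [SimpleGraph.Walk.edges_mapLe_eq_edges] at he
      have h1 := SimpleGraph.Walk.edges_subset_edgeSet _ he
      rw [SimpleGraph.edgeSet_fromEdgeSet] at h1
      exact h1.1
  choose w hw hwD using key
  obtain ⟨φ⟩ : Nonempty (Fin N ≃ ι) := ⟨(Fintype.equivFinOfCardEq hN).symm⟩
  refine ⟨fun a => t (φ a), fun a => w (φ a), fun a => ⟨ht _, hw _⟩, ?_⟩
  intro a b hab e hea heb
  exact hd (φ a) (φ b) (fun h => hab (φ.injective h)) e (hwD _ e hea) (hwD _ e heb)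

end Pool.Agent.Work.MP_d41d5f_lc
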