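import Pool.Agent.Work.MP_d41d5f_lc.ED.Move

/-!
Respace (M-L): in a brick wall the strands can be led from any rows to any rows with the same
order.

Proof. Induction on the number `d` of strands `s` with `p s ≠ q s`; claim: a weave exists from `x₀`
to `x₀ + d * (H+1)` (for every `p` with the same order as `q`); then idle (`wv_idle`) up to `x₁`,
since `d ≤ card S`.
If `d = 0` then `p = q`. Otherwise choose a strand `s` that moves:
(a) if some strand has `q s < p s`: the one with the smallest `p s` among those; then no other
strand `s'` has `q s ≤ p s' ≤ p s`: suppose `q s ≤ p s' ≤ p s`, `s' ≠ s`, so `p s' < p s` by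
injectivity and `q s' < q s` by the equality of orders. If `q s' < p s'` this contradicts the
minimality of `s`; if `p s' ≤ q s'` then `p s' ≤ q s' < q s ≤ p s'`, absurd.
(b) if no strand has `q s < p s`: the one with the largest `p s` among those with `p s < q s`; if
`p s ≤ p s' ≤ q s`, `s' ≠ s`, then `p s < p s'`, `q s < q s'`; so `p s' ≤ q s < q s'` and `s'`
moves up and is higher, against the maximality.
`move_one` leads `s` to the row `q s`; the new configuration `p' = update p s (q s)` is injective
(the row `q s` is free), below `H`, has the same order as `q` (for `s' ≠ s`: `p s'` is outside the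
interval between `p s` and `q s`, so `p s' < p s ↔ p s' < q s`), and has `d - 1` wrong strands.
-/

set_option autoImplicit false

namespace Pool.Agent.Work.MP_d41d5f_lc

private theorem free_row {S : Type} [Fintype S] [DecidableEq S] (p q : S → ℕ)
    (hp : Function.Injective p) (ho : ∀ s s', p s < p s' ↔ q s < q s') (hne : ∃ s, p s ≠ q s) :
    ∃ s, p s ≠ q s ∧
      ∀ s', s' ≠ s → ¬ (min (q s) (p s) ≤ p s' ∧ p s' ≤ max (q s) (p s)) := by
  classical
  by_cases ha : ∃ s, q s < p s
  · obtain ⟨s₀, hs₀⟩ := ha
    obtain ⟨s, hs, hmin⟩ := Finset.exists_min_image (Finset.univ.filter fun s => q s < p s) p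
      ⟨s₀, Finset.mem_filter.2 ⟨Finset.mem_univ _, hs₀⟩⟩
    have hlt : q s < p s := (Finset.mem_filter.1 hs).2
    refine ⟨s, hlt.ne', fun s' hne' => ?_⟩
    rw [min_eq_left hlt.le, max_eq_right hlt.le]
    rintro ⟨h1, h2⟩
    have h3 : p s' ≠ p s := fun h => hne' (hp h)
    have h4 : p s' < p s := lt_of_le_of_ne h2 h3
    have h5 : q s' < q s := (ho s' s).1 h4
    by_cases h6 : q s' < p s'
    · have h7 := hmin s' (Finset.mem_filter.2 ⟨Finset.mem_univ _, h6⟩)
      omega
    · omega
  · push Not at ha
    obtain ⟨s₀, hs₀⟩ := hne
    obtain ⟨s, hs, hmax⟩ := Finset.exists_max_image (Finset.univ.filter fun s => p s ≠ q s) p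
      ⟨s₀, Finset.mem_filter.2 ⟨Finset.mem_univ _, hs₀⟩⟩
    have hne' : p s ≠ q s := (Finset.mem_filter.1 hs).2
    have hlt : p s < q s := lt_of_le_of_ne (ha s) hne'
    refine ⟨s, hne', fun s' hne'' => ?_⟩
    rw [min_eq_right hlt.le, max_eq_left hlt.le]
    rintro ⟨h1, h2⟩
    have h3 : p s' ≠ p s := fun h => hne'' (hp h)
    have h4 : p s < p s' := lt_of_le_of_ne h1 (Ne.symm h3)
    have h5 : q s < q s' := (ho s s').1 h4
    have h7 := hmax s' (Finset.mem_filter.2 ⟨Finset.mem_univ _, by omega⟩)
    omega

private theorem respace_aux {S : Type} [Fintype S] [DecidableEq S] (V : ℕ → ℕ → Prop)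
    (H x₁ : ℕ) (q : S → ℕ) (hqr : ∀ s, q s < H) (d : ℕ) :
    ∀ (x₀ : ℕ) (p : S → ℕ), Function.Injective p → (∀ s, p s < H) →
      (∀ s s', p s < p s' ↔ q s < q s') → (Finset.univ.filter fun s => p s ≠ q s).card = d →
      x₀ + d * (H + 1) ≤ x₁ → (∀ x, x₀ ≤ x → x < x₁ → ∀ y, (x + y) % 2 = 0 → V x y) →
      Wv V H x₀ x₁ p q := by
  induction d with
  | zero =>
    intro x₀ p hp hpr _ hd _ _
    have h1 : p = q := by
      funext s
      by_contra hne
      have h2 := Finset.card_eq_zero.1 hd
      have h3 : s ∈ Finset.univ.filter fun s => p s ≠ q s :=
        Finset.mem_filter.2 ⟨Finset.mem_univ _, hne⟩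
      rw [h2] at h3
      simp at h3
    rw [← h1]
    exact wv_idle V H x₀ x₁ p hp hpr
  | succ d ih =>
    intro x₀ p hp hpr ho hd hx hV
    have hne : ∃ s, p s ≠ q s := by
      have h1 : (Finset.univ.filter fun s => p s ≠ q s).Nonempty := by
        rw [← Finset.card_pos, hd]
        exact Nat.succ_pos d
      obtain ⟨s, hs⟩ := h1
      exact ⟨s, (Finset.mem_filter.1 hs).2⟩
    obtain ⟨s, hs, hfree⟩ := free_row p q hp ho hne
    have hmul : (d + 1) * (H + 1) = d * (H + 1) + (H + 1) := by ring
    have hmove := move_one V H x₀ p hp hpr s (q s) (hqr s) hfree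
      (fun x h1 h2 y hy => hV x h1 (by omega) y hy)
    have hout : ∀ s', s' ≠ s → (p s' < min (q s) (p s) ∨ max (q s) (p s) < p s') := by
      intro s' hs'
      have h1 := hfree s' hs'
      by_contra hcon
      push Not at hcon
      exact h1 hcon
    have hself : Function.update p s (q s) s = q s := Function.update_self _ _ _
    have hoth : ∀ s', s' ≠ s → Function.update p s (q s) s' = p s' := fun s' h =>
      Function.update_of_ne h _ _
    refine wv_trans (x₁ := x₀ + (H + 1)) (by omega) (by omega) hmove
      (ih (x₀ + (H + 1)) (Function.update p s (q s)) ?_ ?_ ?_ ?_ (by omega)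
        (fun x h1 h2 y hy => hV x (by omega) h2 y hy))
    · intro a b hab
      by_cases ha : a = s
      · by_cases hb : b = s
        · rw [ha, hb]
        · exfalso
          rw [ha, hself, hoth b hb] at hab
          rcases hout b hb with h | h
          · have := min_le_left (q s) (p s)
            omega
          · have := le_max_left (q s) (p s)
            omega
      · by_cases hb : b = s
        · exfalso
          rw [hb, hself, hoth a ha] at hab
          rcases hout a ha with h | h
          · have := min_le_left (q s) (p s)
            omega
          · have := le_max_left (q s) (p s)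
            omega
        · rw [hoth a ha, hoth b hb] at hab
          exact hp hab
    · intro a
      by_cases ha : a = s
      · rw [ha, hself]
        exact hqr s
      · rw [hoth a ha]
        exact hpr a
    · intro a b
      by_cases ha : a = s
      · by_cases hb : b = s
        · rw [ha, hb]
          simp
        · rw [ha, hself, hoth b hb]
          have h1 := ho s b
          rcases hout b hb with h | h
          · have h2 := min_le_left (q s) (p s)
            have h3 := min_le_right (q s) (p s)
            have h4 : ¬ p s < p b := by omega
            constructor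
            · intro h5
              omega
            · intro h5
              exact absurd (h1.2 h5) h4
          · have h2 := le_max_left (q s) (p s)
            have h3 := le_max_right (q s) (p s)
            constructor
            · intro _
              exact h1.1 (by omega)
            · intro _
              omega
      · by_cases hb : b = s
        · rw [hb, hself, hoth a ha]
          have h1 := ho a s
          rcases hout a ha with h | h
          · have h2 := min_le_left (q s) (p s)
            have h3 := min_le_right (q s) (p s)
            constructor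
            · intro _
              exact h1.1 (by omega)
            · intro _
              omega
          · have h2 := le_max_left (q s) (p s)
            have h3 := le_max_right (q s) (p s)
            have h4 : ¬ p a < p s := by omega
            constructor
            · intro h5
              omega
            · intro h5
              exact absurd (h1.2 h5) h4
        · rw [hoth a ha, hoth b hb]
          exact ho a b
    · have h1 : (Finset.univ.filter fun s' => Function.update p s (q s) s' ≠ q s') =
          (Finset.univ.filter fun s' => p s' ≠ q s').erase s := by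
        ext a
        simp only [Finset.mem_filter, Finset.mem_univ, true_and, Finset.mem_erase]
        by_cases ha : a = s
        · rw [ha, hself]
          simp
        · rw [hoth a ha]
          simp [ha]
      have h2 : s ∈ Finset.univ.filter fun s' => p s' ≠ q s' :=
        Finset.mem_filter.2 ⟨Finset.mem_univ _, hs⟩
      rw [h1, Finset.card_erase_of_mem h2, hd]
      omega

theorem respace {S : Type} [Fintype S] [DecidableEq S] (V : ℕ → ℕ → Prop) (H x₀ x₁ : ℕ)
    (p q : S → ℕ) (hp : Function.Injective p) (hq : Function.Injective q) (hpr : ∀ s, p s < H)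
    (hqr : ∀ s, q s < H) (ho : ∀ s s', p s < p s' ↔ q s < q s')
    (hx : x₀ + Fintype.card S * (H + 1) ≤ x₁)
    (hV : ∀ x, x₀ ≤ x → x < x₁ → ∀ y, (x + y) % 2 = 0 → V x y) :
    Wv V H x₀ x₁ p q := by
  refine respace_aux V H x₁ q hqr _ x₀ p hp hpr ho rfl ?_ hV
  have h1 : (Finset.univ.filter fun s => p s ≠ q s).card ≤ Fintype.card S :=
    Finset.card_le_univ _
  have h2 := Nat.mul_le_mul_right (H + 1) h1
  omega

end Pool.Agent.Work.MP_d41d5f_lc
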