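import Pool.Agent.Work.MP_d41d5f_lc.ED.Main

/-!
Sep: every language that separates exactly solvable bounds from far ones is NP-hard.
-/

set_option autoImplicit false

namespace Pool.Agent.Work.MP_d41d5f_lc

open Pool.Agent.Work.PolyTime

/-- The decision problem of planar max-EDP separates. -/
theorem exact_separates (k : ℕ) (ε : ℝ) :
    Separates k ε (problem (fun x : Inst × ℕ => WF k x.1) (fun x => x.2 ≤ opt x.1)) := by
  intro I N hI _ _ hN
  refine ⟨fun h => ⟨(I, N), rfl, hI, h⟩, ?_⟩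
  rintro h ⟨⟨I', N'⟩, he, -, hy⟩
  have hcode := LawfulCode.inj (T.ser_inj he)
  rw [Prod.mk.injEq] at hcode
  obtain ⟨rfl, rfl⟩ := hcode
  have h1 : (N : ℝ) ≤ (opt I : ℝ) := by exact_mod_cast hy
  have h2 : (0 : ℝ) < (N : ℝ) ^ (1 - ε) := Real.rpow_pos_of_pos (by exact_mod_cast hN) _
  linarith

theorem edp_sep (k : ℕ) (hk : 2 ≤ k) (ε : ℝ) (hε : 0 < ε) (S : Set (List Bool))
    (hS : Separates k ε S) : NPHard S := by
  intro L hL
  obtain ⟨c, hc, hnum⟩ := num_exp ε hε
  obtain ⟨g, hg1, hg2⟩ := np_map (fun C => (instOf k c C,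
    (prmOf c C).R * ((prmOf c C).m + (prmOf c C).B)))
    (PTime.prodMk (instOf_ptime k c PTime.id) (capR_ptime c PTime.id)) L hL
  refine ⟨_, hg1, fun w => ?_⟩
  have hG := prmOf_good c (g w)
  have hcap := cap_instOf k c hk (g w)
  have hN1 : 1 ≤ (prmOf c (g w)).R * ((prmOf c (g w)).m + (prmOf c (g w)).B) := by
    have h1 := hG.hm
    have h2 := hG.hR
    exact Nat.mul_pos (by omega) (by omega)
  have hs := hS (instOf k c (g w)) _ (arr_wf k _ hG) (arr_outer k _ hG) (arr_lowDeg k hk _ hG) hN1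
  constructor
  · intro hw
    have h1 := instOf_yes k c hk (g w) ((hg2 w).1 hw)
    rw [hcap] at h1
    exact hs.1 ((routable_iff (instOf k c (g w)) (pairs_ne k) _).1 h1)
  · intro hmem
    by_contra hw
    have hns : ¬ CnfSat (g w) := fun h => hw ((hg2 w).2 h)
    have h1 : Routable (instOf k c (g w)) (opt (instOf k c (g w))) :=
      (routable_iff (instOf k c (g w)) (pairs_ne k) _).2 le_rfl
    have h2 := instOf_no k c hk hc (g w) hns _ h1
    have hq : 1 ≤ (prmOf c (g w)).m + (prmOf c (g w)).B := by have := hG.hm; omega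
    have h3 := hnum _ hq
    have hReq : (prmOf c (g w)).R = (7 * ((prmOf c (g w)).m + (prmOf c (g w)).B)) ^ c := rfl
    rw [← hReq] at h3
    rw [hcap] at h2
    have hdvd : 7 ∣ (prmOf c (g w)).R := by
      rw [hReq]; exact dvd_pow (Dvd.intro _ rfl) (by omega)
    have h4 : (((prmOf c (g w)).R / 7 : ℕ) : ℝ) = ((prmOf c (g w)).R : ℝ) / 7 := by
      rw [Nat.cast_div hdvd (by norm_num)]; norm_num
    have h5 : (opt (instOf k c (g w)) : ℝ) + (((prmOf c (g w)).R / 7 : ℕ) : ℝ) ≤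
        (((prmOf c (g w)).R * ((prmOf c (g w)).m + (prmOf c (g w)).B) : ℕ) : ℝ) := by
      exact_mod_cast h2.le
    rw [h4] at h5
    exact hs.2 (by linarith) hmem

end Pool.Agent.Work.MP_d41d5f_lc
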