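import Mathlib
import Pool.Agent.Work.PolyTime.NPDefs
import Pool.Agent.Work.PolyTime.Typed

/-!
Maximum edge-disjoint terminal paths in planar graphs: the definitions used in the statement.
-/

set_option autoImplicit false

namespace Pool.Agent.Work.MP_d41d5f_lc

open Pool.Agent.Work.PolyTime

/-- Vertices are named by finite sequences of natural numbers. -/
abbrev Vx : Type := List ℕ

/-- An instance: the list of the edges of a graph, and the list of the terminal pairs.
A vertex that is in no edge is isolated. -/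
abbrev Inst : Type := List (Vx × Vx) × List (Vx × Vx)

/-- The graph with the given edges. -/
def graphOf (E : List (Vx × Vx)) : SimpleGraph Vx :=
  SimpleGraph.fromEdgeSet {e | ∃ p ∈ E, e = s(p.1, p.2)}

/-- There are `N` pairwise edge-disjoint simple paths in the graph, each of which joins the two
vertices of one of the terminal pairs (several paths may join the same pair). -/
def Routable (I : Inst) (N : ℕ) : Prop :=
  ∃ (t : Fin N → Vx × Vx) (P : ∀ a, (graphOf I.1).Walk (t a).1 (t a).2),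
    (∀ a, t a ∈ I.2 ∧ (P a).IsPath) ∧
    ∀ a b, a ≠ b → ∀ e, e ∈ (P a).edges → e ∉ (P b).edges

/-- The maximum number of pairwise edge-disjoint terminal paths. -/
noncomputable def opt (I : Inst) : ℕ := sSup {N | Routable I N}

/-- Number of edges at a vertex. -/
def deg (E : List (Vx × Vx)) (v : Vx) : ℕ := (E.filter fun e => e.1 = v ∨ e.2 = v).length

/-- The vertices of an instance. -/
def IsVx (I : Inst) (v : Vx) : Prop :=
  (∃ e ∈ I.1, v = e.1 ∨ v = e.2) ∨ ∃ p ∈ I.2, v = p.1 ∨ v = p.2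

/-- `pos` draws the graph in the plane with straight edges and without crossings. -/
structure Draws (I : Inst) (pos : Vx → ℝ × ℝ) : Prop where
  /-- different vertices are different points -/
  inj : ∀ u v, IsVx I u → IsVx I v → pos u = pos v → u = v
  /-- a vertex lies on an edge only if it is an end of the edge -/
  vert : ∀ v, IsVx I v → ∀ e ∈ I.1, pos v ∈ segment ℝ (pos e.1) (pos e.2) → v = e.1 ∨ v = e.2
  /-- two different edges meet only in common ends -/
  edge : ∀ e ∈ I.1, ∀ f ∈ I.1, e ≠ f → ∀ z, z ∈ segment ℝ (pos e.1) (pos e.2) →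
    z ∈ segment ℝ (pos f.1) (pos f.2) → ∃ v, (v = e.1 ∨ v = e.2) ∧ (v = f.1 ∨ v = f.2) ∧ z = pos v

/-- Well-formed instances of planar max-EDP with `k` terminal pairs: the graph is simple and
planar, there are `k` pairs, and the two vertices of a pair are different. -/
structure WF (k : ℕ) (I : Inst) : Prop where
  pairs : I.2.length = k
  ne : ∀ p ∈ I.2, p.1 ≠ p.2
  nodup : I.1.Nodup
  loop : ∀ e ∈ I.1, e.1 ≠ e.2
  planar : ∃ pos : Vx → ℝ × ℝ, Draws I pos

/-- The point `z` is on the boundary of the rectangle. -/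
def OnBd (x₀ x₁ y₀ y₁ : ℝ) (z : ℝ × ℝ) : Prop :=
  (x₀ ≤ z.1 ∧ z.1 ≤ x₁ ∧ (z.2 = y₀ ∨ z.2 = y₁)) ∨ (y₀ ≤ z.2 ∧ z.2 ≤ y₁ ∧ (z.1 = x₀ ∨ z.1 = x₁))

/-- There is a drawing in a rectangle that has all terminals on its boundary; so all terminals are
on the outer face. -/
def Outer (I : Inst) : Prop :=
  ∃ (pos : Vx → ℝ × ℝ) (x₀ x₁ y₀ y₁ : ℝ), Draws I pos ∧
    (∀ v, IsVx I v → x₀ ≤ (pos v).1 ∧ (pos v).1 ≤ x₁ ∧ y₀ ≤ (pos v).2 ∧ (pos v).2 ≤ y₁) ∧
    ∀ p ∈ I.2, OnBd x₀ x₁ y₀ y₁ (pos p.1) ∧ OnBd x₀ x₁ y₀ y₁ (pos p.2)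

/-- All vertices that are not terminals have degree at most four. -/
def LowDeg (I : Inst) : Prop := ∀ v, (∀ p ∈ I.2, v ≠ p.1 ∧ v ≠ p.2) → deg I.1 v ≤ 4

/-- The language `S` separates, among the pairs `(I, N)` of an instance of planar max-EDP with `k`
terminal pairs (all terminals on the outer face, all other degrees at most four) and a number
`N ≥ 1`, those with `N ≤ opt I` from those with `opt I ≤ N - N ^ (1 - ε)`. -/
def Separates (k : ℕ) (ε : ℝ) (S : Set (List Bool)) : Prop :=
  ∀ (I : Inst) (N : ℕ), WF k I → Outer I → LowDeg I → 1 ≤ N →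
    (N ≤ opt I → (code (I, N)).ser ∈ S) ∧
    ((opt I : ℝ) ≤ (N : ℝ) - (N : ℝ) ^ (1 - ε) → (code (I, N)).ser ∉ S)

end Pool.Agent.Work.MP_d41d5f_lc
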