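import Pool.Agent.Work.MP_d41d5f_lc.ED.WPar
import Pool.Agent.Work.MP_d41d5f_lc.ED.EndsI

/-!
Trace (M): a family of edge-disjoint terminal paths gives a family of edge sets.

Proof. Let `t`, `w` (paths) be given by `Routable`. For every `a`, `t a = ([2l], [2l+1])` with
`l < k`. The path is not trivial (`[2l] ≠ [2l+1]`), so its first vertex `[2l]` is an end of an edge
of the graph (the first edge of the walk); by `mem_edges` it is an end of some `ends d` with
`ok d`, and the only singletons among the ends are `[0]`, `[1]`, `[2]`, `[3]`; so `l = 0` or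
`l = 1`. Put `ty a = true` if `l = 0`, `false` if `l = 1`; so `t a = (src (ty a), tgt (ty a))`.
`F a` = the set of all `d` with `ok d` and `s(ends d) ∈ (w a).edges`. It is finite because by
`ends_inj` the map `d ↦ s(ends d)` is injective on the valid `d` and the list of edges is finite
(`Set.Finite.of_injOn` / `Set.Finite.preimage`), take `.toFinset`.
`ok`: clear. `disj`: the paths are edge-disjoint. `par`: the map `d ↦ s(ends d)` is a bijection from
`{d ∈ F a | crosses A d}` onto `{e ∈ (w a).edges | SCross A e}` (every edge `e` of the path is an edge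
of the graph: `SimpleGraph.Walk.edges_subset_edgeSet`, so of the form `s(ends d)`, `ok d`, by
`mem_edges`; `SCross A s(x,y) ↔ ¬ (x ∈ A ↔ y ∈ A)`), and the edges of a path are without
repetition (`IsPath.isTrail`, `edges_nodup`), so the cardinality equals the `countP` in `walk_par`.
-/

set_option autoImplicit false

namespace Pool.Agent.Work.MP_d41d5f_lc

private theorem walk_adj {G : SimpleGraph Vx} {u v : Vx} (p : G.Walk u v) (h : u ≠ v) :
    ∃ x, G.Adj u x := by
  cases p with
  | nil => exact absurd rfl h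
  | cons h' q => exact ⟨_, h'⟩

private theorem edge_mem (P : Prm) (e : Sym2 Vx) (he : e ∈ (graphOf P.edges).edgeSet) :
    ∃ d, P.ok d ∧ e = s((P.ends d).1, (P.ends d).2) := by
  rw [graphOf, SimpleGraph.edgeSet_fromEdgeSet] at he
  obtain ⟨⟨p, hp, hpe⟩, _⟩ := he
  obtain ⟨d, hd, hde⟩ := (mem_edges P p).1 hp
  exact ⟨d, hd, by rw [hde]; exact hpe⟩

private theorem ends_fst (P : Prm) (d : Ed) (c : ℕ) (h : (P.ends d).1 = [c]) : c = 0 ∨ c = 2 := by
  cases d with
  | h i j x y => simp [Prm.ends] at h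
  | v i j x y => simp [Prm.ends] at h
  | p i j α =>
    simp only [Prm.ends] at h
    split_ifs at h
    · simp at h
      exact Or.inl h.symm
    · simp at h
  | q i j β =>
    simp only [Prm.ends] at h
    split_ifs at h
    · simp at h
      exact Or.inr h.symm
    · simp at h

private theorem ends_snd (P : Prm) (d : Ed) (c : ℕ) (h : (P.ends d).2 = [c]) : c = 1 ∨ c = 3 := by
  cases d with
  | h i j x y => simp [Prm.ends] at h
  | v i j x y => simp [Prm.ends] at h
  | p i j α =>
    simp only [Prm.ends] at h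
    split_ifs at h
    · simp at h
      exact Or.inl h.symm
    · simp at h
  | q i j β =>
    simp only [Prm.ends] at h
    split_ifs at h
    · simp at h
      exact Or.inr h.symm
    · simp at h

private theorem scross_iff (A : Set Vx) (x y : Vx) : SCross A s(x, y) ↔ ¬ (x ∈ A ↔ y ∈ A) := by
  constructor
  · rintro ⟨u, v, he, hu, hv⟩ hc
    rw [Sym2.eq_iff] at he
    rcases he with ⟨rfl, rfl⟩ | ⟨rfl, rfl⟩
    · exact hv (hc.1 hu)
    · exact hv (hc.2 hu)
  · intro h
    by_cases hx : x ∈ A
    · have hy : y ∉ A := fun hy => h ⟨fun _ => hy, fun _ => hx⟩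
      exact ⟨x, y, rfl, hx, hy⟩
    · have hy : y ∈ A := by
        by_contra hy
        exact h ⟨fun h' => absurd h' hx, fun h' => absurd h' hy⟩
      exact ⟨y, x, Sym2.eq_swap, hy, hx⟩

private theorem typ (k : ℕ) (P : Prm) (p : Vx × Vx) (hp : p ∈ pairs k)
    (w : (graphOf P.edges).Walk p.1 p.2) : ∃ b : Bool, p = (src b, tgt b) := by
  unfold pairs at hp
  rw [List.mem_map] at hp
  obtain ⟨l, _, rfl⟩ := hp
  have hne : ([2 * l] : Vx) ≠ [2 * l + 1] := by
    intro h
    simp at h
  obtain ⟨x, hx⟩ := walk_adj w hne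
  obtain ⟨d, hd, he⟩ := edge_mem P s([2 * l], x) ((SimpleGraph.mem_edgeSet _).2 hx)
  have hl : l = 0 ∨ l = 1 := by
    rw [Sym2.eq_iff] at he
    rcases he with ⟨h1, _⟩ | ⟨h1, _⟩
    · have := ends_fst P d _ h1.symm
      omega
    · have := ends_snd P d _ h1.symm
      omega
  rcases hl with rfl | rfl
  · exact ⟨true, rfl⟩
  · exact ⟨false, rfl⟩

private theorem par_one (P : Prm) (hg : P.Good) {u v : Vx} (w : (graphOf P.edges).Walk u v)
    (hw : w.IsPath) (F : Finset Ed)
    (hF : ∀ d, d ∈ F ↔ P.ok d ∧ s((P.ends d).1, (P.ends d).2) ∈ w.edges) (A : Set Vx)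
    (G : Finset Ed) (hG : ∀ d, d ∈ G ↔ d ∈ F ∧ crosses P A d) :
    (G.card % 2 = 0 ↔ (u ∈ A ↔ v ∈ A)) := by
  classical
  have h1 := walk_par (graphOf P.edges) A w
  rw [List.countP_eq_length_filter] at h1
  have hnd : (w.edges.filter fun e => decide (SCross A e)).Nodup :=
    hw.isTrail.edges_nodup.filter _
  rw [← List.toFinset_card_of_nodup hnd] at h1
  have h2 : G.card = (w.edges.filter fun e => decide (SCross A e)).toFinset.card := by
    refine Finset.card_bij (fun d _ => s((P.ends d).1, (P.ends d).2)) ?_ ?_ ?_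
    · intro d hd
      obtain ⟨hdF, hc⟩ := (hG d).1 hd
      rw [List.mem_toFinset, List.mem_filter, decide_eq_true_eq, scross_iff]
      exact ⟨((hF d).1 hdF).2, hc⟩
    · intro d hd d' hd' he
      exact ends_inj P hg d d' ((hF d).1 ((hG d).1 hd).1).1 ((hF d').1 ((hG d').1 hd').1).1 he
    · intro e he
      rw [List.mem_toFinset, List.mem_filter, decide_eq_true_eq] at he
      obtain ⟨d, hd, hde⟩ := edge_mem P e (w.edges_subset_edgeSet he.1)
      refine ⟨d, (hG d).2 ⟨(hF d).2 ⟨hd, hde ▸ he.1⟩, ?_⟩, hde.symm⟩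
      have := he.2
      rw [hde, scross_iff] at this
      exact this
  rw [h2, h1]
  by_cases hc : (u ∈ A ↔ v ∈ A)
  · rw [if_pos hc]
    exact ⟨fun _ => hc, fun _ => rfl⟩
  · rw [if_neg hc]
    exact ⟨fun h => absurd h (by omega), fun h => absurd h hc⟩

theorem fam_of_routable (k : ℕ) (P : Prm) (hg : P.Good) (N : ℕ) (h : Routable (arr k P) N) :
    ∃ (ty : Fin N → Bool) (F : Fin N → Finset Ed), IsFam P N ty F := by
  classical
  obtain ⟨t, w, hw, hd⟩ := h
  have hty : ∀ a, ∃ b : Bool, t a = (src b, tgt b) := fun a => typ k P (t a) (hw a).1 (w a)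
  choose ty hty using hty
  have hfin : ∀ a, {d : Ed | P.ok d ∧ s((P.ends d).1, (P.ends d).2) ∈ (w a).edges}.Finite := by
    intro a
    refine Set.Finite.of_injOn (f := fun d => s((P.ends d).1, (P.ends d).2))
      (t := {e | e ∈ (w a).edges}) (fun d hd => hd.2) ?_ (List.finite_toSet _)
    intro d hd d' hd' he
    exact ends_inj P hg d d' hd.1 hd'.1 he
  have hmem : ∀ a d, d ∈ (hfin a).toFinset ↔
      P.ok d ∧ s((P.ends d).1, (P.ends d).2) ∈ (w a).edges := by
    intro a d
    rw [Set.Finite.mem_toFinset]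
    rfl
  refine ⟨ty, fun a => (hfin a).toFinset, ?_, ?_, ?_⟩
  · intro a d hdd
    exact ((hmem a d).1 hdd).1
  · intro a b d h1 h2
    by_contra hab
    exact hd a b hab _ ((hmem a d).1 h1).2 ((hmem b d).1 h2).2
  · intro a A
    have h1 := par_one P hg (w a) (hw a).2 (hfin a).toFinset (hmem a) A
      ((hfin a).toFinset.filter fun d => crosses P A d)
      (fun d => Finset.mem_filter)
    have e1 : (t a).1 = src (ty a) := congrArg Prod.fst (hty a)
    have e2 : (t a).2 = tgt (ty a) := congrArg Prod.snd (hty a)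
    have h3 : ((t a).1 ∈ A ↔ (t a).2 ∈ A) ↔ (src (ty a) ∈ A ↔ tgt (ty a) ∈ A) := by
      rw [e1, e2]
    replace h1 := h1.trans h3
    by_cases hc : (src (ty a) ∈ A ↔ tgt (ty a) ∈ A)
    · rw [if_pos hc]
      exact h1.2 hc
    · rw [if_neg hc]
      rcases Nat.mod_two_eq_zero_or_one
        ((hfin a).toFinset.filter fun d => crosses P A d).card with h0 | h0
      · exact absurd (h1.1 h0) hc
      · exact h0

end Pool.Agent.Work.MP_d41d5f_lc
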