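import Pool.Agent.Work.MP_d41d5f_lc.ED.Defs

/-!
WPar (S): a walk crosses a vertex set an odd number of times iff its ends are separated.

Proof. Induction on the walk. `nil`: the list of edges is empty and the two ends are equal. For
`cons h p` from `u` over `w` to `v`: the first edge is `s(u, w)`, it is counted iff `u ∈ A` and
`w ∈ A` have different truth values; add the induction hypothesis for `p` and check the truth table.
The count is written with `List.countP` and a predicate on `Sym2` given by `Sym2.lift` or by
membership: an edge `e` crosses `A` iff `∃ x y, e = s(x, y) ∧ x ∈ A ∧ y ∉ A`.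
-/

set_option autoImplicit false

namespace Pool.Agent.Work.MP_d41d5f_lc

/-- The unordered pair has exactly one member in `A`. -/
def SCross (A : Set Vx) (e : Sym2 Vx) : Prop := ∃ x y, e = s(x, y) ∧ x ∈ A ∧ y ∉ A

private theorem scross_iff (A : Set Vx) (u w : Vx) :
    SCross A s(u, w) ↔ ¬ (u ∈ A ↔ w ∈ A) := by
  constructor
  · rintro ⟨x, y, he, hx, hy⟩
    rcases Sym2.eq_iff.1 he with ⟨h1, h2⟩ | ⟨h1, h2⟩
    · rw [h1, h2]
      tauto
    · rw [h1, h2]
      tauto
  · intro h
    by_cases hu : u ∈ A
    · exact ⟨u, w, rfl, hu, fun hw => h ⟨fun _ => hw, fun _ => hu⟩⟩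
    · refine ⟨w, u, Sym2.eq_swap, ?_, hu⟩
      by_contra hw
      exact h ⟨fun h' => absurd h' hu, fun h' => absurd h' hw⟩

open Classical in
theorem walk_par (G : SimpleGraph Vx) (A : Set Vx) {u v : Vx} (p : G.Walk u v) :
    (p.edges.countP fun e => decide (SCross A e)) % 2 = if (u ∈ A ↔ v ∈ A) then 0 else 1 := by
  induction p with
  | nil => simp
  | @cons u w v h p ih =>
    rw [SimpleGraph.Walk.edges_cons, List.countP_cons]
    have hiff := scross_iff A u w
    by_cases h1 : SCross A s(u, w)
    · have h2 := hiff.1 h1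
      rw [if_pos (by simpa using h1)]
      by_cases h3 : (w ∈ A ↔ v ∈ A)
      · rw [if_pos h3] at ih
        rw [if_neg (fun h4 => h2 (h4.trans h3.symm))]
        omega
      · rw [if_neg h3] at ih
        have h4 : (u ∈ A ↔ v ∈ A) := by tauto
        rw [if_pos h4]
        omega
    · have h2 : (u ∈ A ↔ w ∈ A) := by
        by_contra hc
        exact h1 (hiff.2 hc)
      rw [if_neg (by simpa using h1), Nat.add_zero]
      by_cases h3 : (w ∈ A ↔ v ∈ A)
      · rw [if_pos h3] at ih
        rw [if_pos (h2.trans h3)]
        exact ih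
      · rw [if_neg h3] at ih
        rw [if_neg (fun h4 => h3 (h2.symm.trans h4))]
        exact ih

end Pool.Agent.Work.MP_d41d5f_lc
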