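import Pool.Agent.Work.MP_d41d5f_lc.ED.BDefs

/-!
WvB (S): basic facts on weaves.

Proof. `wv_refl`: one configuration at `x₀ = x₁`: `h = fun _ => p`. `wv_idle`: `h = fun _ => p`,
`Btw (p s) (p s) y` is false. `wv_trans`: for `h₁` on `[x₀, x₁]` and `h₂` on `[x₁, x₂]` put
`h x = if x ≤ x₁ then h₁ x else h₂ x` (at `x₁` both are equal to the middle configuration).
`wv_one`: one step.
-/

set_option autoImplicit false

namespace Pool.Agent.Work.MP_d41d5f_lc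

variable {S : Type}

theorem wv_idle (V : ℕ → ℕ → Prop) (H x₀ x₁ : ℕ) (p : S → ℕ) (hi : Function.Injective p)
    (hr : ∀ s, p s < H) : Wv V H x₀ x₁ p p := by
  have hb : ∀ s y, ¬ Btw (p s) (p s) y := by
    rintro s y (h | h) <;> omega
  exact ⟨fun _ => p, rfl, rfl, fun x _ _ => ⟨hr, hi, fun s y h => absurd h (hb s y),
    fun s _ y _ h => absurd h (hb s y)⟩⟩

theorem wv_trans {V : ℕ → ℕ → Prop} {H x₀ x₁ x₂ : ℕ} {p q r : S → ℕ} (h01 : x₀ ≤ x₁)
    (h12 : x₁ ≤ x₂) (h1 : Wv V H x₀ x₁ p q) (h2 : Wv V H x₁ x₂ q r) : Wv V H x₀ x₂ p r := by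
  obtain ⟨f, f0, f1, f2⟩ := h1
  obtain ⟨g, g0, g1, g2⟩ := h2
  have hl : ∀ x, x ≤ x₁ → (if x ≤ x₁ then f x else g x) = f x := fun x hx => if_pos hx
  have hr : ∀ x, x₁ ≤ x → (if x ≤ x₁ then f x else g x) = g x := by
    intro x hx
    by_cases h : x ≤ x₁
    · have he : x = x₁ := le_antisymm h hx
      rw [if_pos h, he, f1, g0]
    · rw [if_neg h]
  refine ⟨fun x => if x ≤ x₁ then f x else g x, ?_, ?_, fun x hx0 hx2 => ?_⟩
  · show (if x₀ ≤ x₁ then f x₀ else g x₀) = p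
    rw [hl x₀ h01, f0]
  · show (if x₂ ≤ x₁ then f x₂ else g x₂) = r
    rw [hr x₂ h12, g1]
  · show Step (V x) H (if x ≤ x₁ then f x else g x) (if x + 1 ≤ x₁ then f (x + 1) else g (x + 1))
    by_cases h : x < x₁
    · rw [hl x h.le, hl (x + 1) h]
      exact f2 x hx0 h
    · rw [hr x (not_lt.1 h), hr (x + 1) (by omega)]
      exact g2 x (not_lt.1 h) hx2

/-- All configurations of a weave are injective and below `H` if the first one is. -/
theorem wv_all {V : ℕ → ℕ → Prop} {H x₀ x₁ : ℕ} (h : ℕ → S → ℕ) (hi : Function.Injective (h x₀))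
    (hr : ∀ s, h x₀ s < H) (hs : ∀ x, x₀ ≤ x → x < x₁ → Step (V x) H (h x) (h (x + 1)))
    (x : ℕ) (h0 : x₀ ≤ x) (h1 : x ≤ x₁) : Function.Injective (h x) ∧ ∀ s, h x s < H := by
  rcases Nat.eq_or_lt_of_le h0 with h2 | h2
  · rw [← h2]
    exact ⟨hi, hr⟩
  · obtain ⟨y, rfl⟩ : ∃ y, x = y + 1 := ⟨x - 1, by omega⟩
    have h3 := hs y (by omega) (by omega)
    exact ⟨h3.inj, h3.row⟩

end Pool.Agent.Work.MP_d41d5f_lc
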